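import Pool.Agent.Lib.MP_815ef6_nt.Defs

/-! Definitions for the statement about operators whose poles degenerate to a chain. -/

namespace Pool.Agent.Lib.MP_815ef6_nt.Ch
open Polynomial Finset

/-- The matrix `A` of the system `Y' = A Y` for `Y = (y, θ y, ..., θ ^ n y)`, `θ = z d/dz`, of the
equation `Δ θ ^ (n + 1) y + ∑ k ≤ n, P k θ ^ k y = 0`. -/
noncomputable def compM {n : ℕ} (Δ : ℂ[X]) (P : Fin (n + 1) → ℂ[X]) :
    Matrix (Fin (n + 1)) (Fin (n + 1)) (RatFunc ℂ) := fun i j =>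
  (if i = Fin.last n then -algebraMap ℂ[X] (RatFunc ℂ) (P j) / algebraMap ℂ[X] (RatFunc ℂ) Δ
    else if (j : ℕ) = i + 1 then 1 else 0) / RatFunc.X

/-- `x` is a root of a polynomial `∑ j ≤ d, f j (t) x ^ j` with `f j ∈ K[t]` that becomes
`c x ^ d`, `c ≠ 0`, at `t = 0`: an algebraic function of `t` all of whose branches vanish at `0`. -/
def Van (K : Subfield ℂ) (t x : ℂ) : Prop :=
  ∃ (d : ℕ) (f : ℕ → K[X]), (f d).coeff 0 ≠ 0 ∧ (∀ j < d, (f j).coeff 0 = 0) ∧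
    ∑ j ∈ range (d + 1), aeval t (f j) * x ^ j = 0

end Pool.Agent.Lib.MP_815ef6_nt.Ch
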