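import Mathlib

/-! Reduction of falling powers of a derivation modulo an operator: the general recursion. -/

namespace Pool.Agent.Lib.MP_815ef6_nt.Ch
open Finset

section
variable {Λ Λ' V : Type*} [CommRing Λ] [CommRing Λ'] [AddCommGroup V] [Module Λ V]

/-- The shift of the coefficients. -/
def sh (g : ℕ → Λ) : ℕ → Λ
  | 0 => 0
  | i + 1 => g i

/-- `L (n + 1) θ ∘ g` modulo the operator `L` of order `n + 1`. -/
def st (d : Λ → Λ) (n : ℕ) (L g : ℕ → Λ) (i : ℕ) : Λ :=
  L (n + 1) * (d (g i) + sh g i) - g n * L i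

/-- `L (n + 1) ^ m θ (θ - η) ... (θ - (m - 1) η) ∘ g` modulo `L`. -/
def rr (d : Λ → Λ) (η : Λ) (n : ℕ) (L g : ℕ → Λ) : ℕ → ℕ → Λ
  | 0 => g
  | m + 1 => fun i => st d n L (rr d η n L g m) i -
      m * (η * L (n + 1) + d (L (n + 1))) * rr d η n L g m i

/-- The basic operators `θ ^ j`. -/
def bs (Λ : Type*) [CommRing Λ] (j : ℕ) : ℕ → Λ := fun i => if i = j then 1 else 0

/-- The action of an operator of order less than `N`. -/
def op (D : V →+ V) (N : ℕ) (g : ℕ → Λ) (v : V) : V := ∑ i ∈ range N, g i • D^[i] v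

/-- Falling powers. -/
def fl (D : V →+ V) (η : Λ) (v : V) : ℕ → V
  | 0 => v
  | m + 1 => D (fl D η v m) - ((m : Λ) * η) • fl D η v m

/-- The error terms. -/
def er (D : V →+ V) (d : Λ → Λ) (η : Λ) (n : ℕ) (L g : ℕ → Λ) (ε : V) : ℕ → V
  | 0 => 0
  | m + 1 => L (n + 1) • D (er D d η n L g ε m) -
      ((m : Λ) * (η * L (n + 1) + d (L (n + 1)))) • er D d η n L g ε m + rr d η n L g m n • ε

/-- The Leibniz rule on a module. -/
def Lb (D : V →+ V) (d : Λ → Λ) : Prop := ∀ (f : Λ) (v : V), D (f • v) = d f • v + f • D v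

/-- Derivations. -/
structure Dv (d : Λ → Λ) : Prop where
  add : ∀ f g, d (f + g) = d f + d g
  mul : ∀ f g, d (f * g) = d f * g + f * d g

variable {D : V →+ V} {d : Λ → Λ} {d' : Λ' → Λ'} {η : Λ} {n N : ℕ} {L g g' : ℕ → Λ} {v : V}

theorem op_congr (h : ∀ i < N, g i = g' i) : op D N g v = op D N g' v :=
  sum_congr rfl fun i hi => by rw [h i (mem_range.1 hi)]

theorem op_add (g g' : ℕ → Λ) (v : V) : op D N (g + g') v = op D N g v + op D N g' v := by
  simp only [op, Pi.add_apply, add_smul, sum_add_distrib]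

theorem op_sub (g g' : ℕ → Λ) (v : V) : op D N (g - g') v = op D N g v - op D N g' v := by
  simp only [op, Pi.sub_apply, sub_smul, sum_sub_distrib]

theorem op_mul (c : Λ) (g : ℕ → Λ) (v : V) : op D N (fun i => c * g i) v = c • op D N g v := by
  simp only [op, mul_smul, smul_sum]

theorem op_zero (v : V) : op D N (0 : ℕ → Λ) v = 0 := by simp [op]

theorem op_add' (g : ℕ → Λ) (v w : V) : op D N g (v + w) = op D N g v + op D N g w := by
  simp only [op, iterate_map_add, smul_add, sum_add_distrib]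

theorem op_bs {j : ℕ} (h : j < N) : op D N (bs Λ j) v = D^[j] v := by
  simp [op, bs, h]

theorem op_succ (g : ℕ → Λ) (v : V) : op D (N + 1) g v = op D N g v + g N • D^[N] v :=
  sum_range_succ _ _

theorem Lb.op (h : Lb D d) (g : ℕ → Λ) (v : V) : D (op D (n + 1) g v) =
    op D (n + 1) (fun i => d (g i) + sh g i) v + g n • D^[n + 1] v := by
  have e : Ch.op D (n + 1) (sh g) v = ∑ i ∈ range n, g i • D^[i + 1] v := by
    rw [Ch.op, sum_range_succ']
    simp [sh]
  refine Eq.trans ?_ (congrArg (· + _) (op_add (fun i => d (g i)) (sh g) v).symm)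
  rw [e, add_assoc, ← sum_range_succ (fun i => g i • D^[i + 1] v), Ch.op, Ch.op, map_sum,
    ← sum_add_distrib]
  exact sum_congr rfl fun i _ => by rw [h, Function.iterate_succ_apply']

theorem Lb.st (h : Lb D d) (L g : ℕ → Λ) (v : V) : L (n + 1) • D (Ch.op D (n + 1) g v) =
    Ch.op D (n + 1) (st d n L g) v + g n • Ch.op D (n + 2) L v := by
  have e := op_sub (D := D) (N := n + 1) (fun i => L (n + 1) * (d (g i) + sh g i))
    (fun i => g n * L i) v
  rw [op_mul, op_mul] at e
  rw [h.op, op_succ (N := n + 1) L, show Ch.st d n L g = _ - _ from rfl, e]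
  module

theorem Lb.pow (h : Lb D d) (c : Λ) (m : ℕ) (v : V) :
    c • D (c ^ m • v) = c ^ (m + 1) • D v + (m * d c * c ^ m) • v := by
  induction m with
  | zero => simp
  | succ m ih =>
    rw [pow_succ' c m, mul_smul, h, smul_add, ih]
    push_cast
    module

/-- The main identity. -/
theorem Lb.gen (h : Lb D d) (η : Λ) (n : ℕ) (L g : ℕ → Λ) (v : V) (m : ℕ) :
    L (n + 1) ^ m • fl D η (Ch.op D (n + 1) g v) m =
      Ch.op D (n + 1) (rr d η n L g m) v + er D d η n L g (Ch.op D (n + 2) L v) m := by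
  induction m with
  | zero => simp [fl, rr, er]
  | succ m ih =>
    have e1 := h.pow (L (n + 1)) m (fl D η (Ch.op D (n + 1) g v) m)
    have e2 := op_sub (D := D) (N := n + 1) (Ch.st d n L (rr d η n L g m))
      (fun i => m * (η * L (n + 1) + d (L (n + 1))) * rr d η n L g m i) v
    rw [op_mul] at e2
    rw [ih, map_add, smul_add, h.st] at e1
    rw [fl, er, rr, show (fun i => Ch.st d n L (rr d η n L g m) i - _) = _ - _ from rfl, e2]
    linear_combination (norm := module) -e1 - (m * (η * L (n + 1) + d (L (n + 1)))) • ih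

theorem er_mem (W : Submodule Λ V) (hW : ∀ w ∈ W, D w ∈ W) {ε : V} (h : ε ∈ W) (m : ℕ) :
    er D d η n L g ε m ∈ W := by
  induction m with
  | zero => exact W.zero_mem
  | succ m ih =>
    exact W.add_mem (W.sub_mem (W.smul_mem _ (hW _ ih)) (W.smul_mem _ ih)) (W.smul_mem _ h)

theorem sh_map (f : Λ →+* Λ') (g : ℕ → Λ) (i : ℕ) : f (sh g i) = sh (fun i => f (g i)) i := by
  cases i <;> simp [sh]

theorem rr_map (f : Λ →+* Λ') (h : ∀ x, f (d x) = d' (f x)) (m i : ℕ) :
    f (rr d η n L g m i) = rr d' (f η) n (fun i => f (L i)) (fun i => f (g i)) m i := by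
  induction m generalizing i with
  | zero => rfl
  | succ m ih => simp only [rr, st, map_sub, map_mul, map_add, map_natCast, h, sh_map, ih]

theorem bs_map (f : Λ →+* Λ') (j : ℕ) : (fun i => f (bs Λ j i)) = bs Λ' j := by
  ext i
  simp only [bs, apply_ite f, map_one, map_zero]

theorem rr_congr {L' : ℕ → Λ} (h : ∀ i ≤ n + 1, L i = L' i) (m : ℕ) {i : ℕ} (hi : i ≤ n) :
    rr d η n L g m i = rr d η n L' g m i := by
  induction m generalizing i with
  | zero => rfl
  | succ m ih =>
    have e : sh (rr d η n L g m) i = sh (rr d η n L' g m) i := by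
      cases i with
      | zero => rfl
      | succ i => exact ih (by omega)
    simp only [rr, st, e, ih hi, ih le_rfl, h _ le_rfl, h i (by omega)]

theorem Dv.pow (h : Dv d) (u : Λ) (m : ℕ) : u * d (u ^ m) = m * d u * u ^ m := by
  induction m with
  | zero =>
    have := h.mul 1 1
    simp only [mul_one, one_mul, left_eq_add] at this
    simp [this]
  | succ m ih =>
    rw [pow_succ, h.mul]
    push_cast
    linear_combination u * ih

theorem rr_mul (h : Dv d) (u : Λ) (m i : ℕ) :
    rr d η n (fun i => u * L i) g m i = u ^ m * rr d η n L g m i := by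
  induction m generalizing i with
  | zero => simp [rr]
  | succ m ih =>
    have e : sh (rr d η n (fun i => u * L i) g m) i = u ^ m * sh (rr d η n L g m) i := by
      cases i with
      | zero => simp [sh]
      | succ i => exact ih i
    simp only [rr, st, e, ih, h.mul]
    linear_combination L (n + 1) * rr d η n L g m i * h.pow u m

theorem rr_scale {c : Λ} (hc : ∀ x, d (c * x) = c * d x) {L' : ℕ → Λ}
    (h : ∀ i ≤ n + 1, L' i = c ^ (n + 1 - i) * L i) (m : ℕ) {i : ℕ} (hi : i ≤ n) :
    c ^ i * rr (fun x => c * d x) (c * η) n L' (bs Λ 0) m i = c ^ m * rr d η n L (bs Λ 0) m i := by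
  have hd : ∀ (k : ℕ) x, d (c ^ k * x) = c ^ k * d x := fun k x => by
    induction k with
    | zero => simp
    | succ k ih => rw [pow_succ', mul_assoc, hc, ih, mul_assoc]
  induction m generalizing i with
  | zero => cases i <;> simp [rr, bs]
  | succ m ih =>
    have e : c ^ i * sh (rr (fun x => c * d x) (c * η) n L' (bs Λ 0) m) i =
        c ^ (m + 1) * sh (rr d η n L (bs Λ 0) m) i := by
      cases i with
      | zero => simp [sh]
      | succ i => rw [sh, sh, pow_succ', mul_assoc, ih (by omega), pow_succ', mul_assoc]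
    have e1 := congrArg d (ih hi)
    rw [hd, hd] at e1
    have e2 : c ^ i * c ^ (n + 1 - i) = c ^ n * c := by
      rw [← pow_add, ← pow_succ]
      congr 1
      omega
    simp only [rr, st, h _ le_rfl, h i (by omega), Nat.sub_self, pow_zero, one_mul]
    linear_combination L (n + 1) * e + L (n + 1) * c * e1 - c * L i * ih le_rfl -
      rr (fun x => c * d x) (c * η) n L' (bs Λ 0) m n * L i * e2 -
      m * c * (η * L (n + 1) + d (L (n + 1))) * ih hi

end

end Pool.Agent.Lib.MP_815ef6_nt.Ch
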