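import Pool.Agent.Lib.MP_815ef6_nt.Conv
import Pool.Agent.Lib.MP_815ef6_nt.CH.Defs
import Pool.Agent.Lib.MP_815ef6_nt.CH.Gen

/-! From the system to the recursion and back. -/

namespace Pool.Agent.Lib.MP_815ef6_nt.Ch
open Finset Polynomial

variable {n : ℕ}

/-- The coefficients of the operator. -/
def Lz (Δ : ℂ[X]) (P : Fin (n + 1) → ℂ[X]) (i : ℕ) : ℂ[X] := if h : i < n + 1 then P ⟨i, h⟩ else Δ

/-- The derivation `z d/dz`. -/
noncomputable def dz (f : ℂ[X]) : ℂ[X] := X * derivative f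

theorem ana_comp {Δ : ℂ[X]} (hΔ : Δ ≠ 0) (P : Fin (n + 1) → ℂ[X]) (k j : Fin (n + 1)) :
    compM Δ P k j * am (X * Δ) =
      am (if k = Fin.last n then -P j else if (j : ℕ) = k + 1 then Δ else 0) := by
  have h1 := am_ne hΔ
  have h2 : (RatFunc.X : RatFunc ℂ) ≠ 0 := RatFunc.X_ne_zero
  rw [compM, map_mul, am_X]
  split_ifs
  · rw [map_neg]
    field_simp
  · field_simp
  · simp

theorem ana_sum (Δ : ℂ[X]) (P : Fin (n + 1) → ℂ[X]) (r : ℕ → ℂ[X]) (j : Fin (n + 1)) :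
    ∑ k : Fin (n + 1), r k * (if k = Fin.last n then -P j else if (j : ℕ) = k + 1 then Δ else 0) =
      Δ * sh r j - r n * P j := by
  rw [Fin.sum_univ_castSucc]
  simp only [Fin.castSucc_ne_last, if_false, if_true, Fin.val_last, Fin.val_castSucc]
  refine Fin.cases ?_ (fun j => ?_) j
  · simp [sh]
  · rw [sum_eq_single j (fun k _ hk => ?_) (by simp)]
    · simp only [Fin.val_succ, if_true, sh]
      ring
    · rw [if_neg, mul_zero]
      intro h
      exact hk (Fin.ext (by simpa using h.symm))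

theorem aseq_eq {Δ : ℂ[X]} (hΔ : Δ ≠ 0) (P : Fin (n + 1) → ℂ[X]) (m : ℕ) (i j : Fin (n + 1)) :
    am (X * Δ) ^ m * Aseq (compM Δ P) m i j = am (rr dz 1 n (Lz Δ P) (bs _ i) m j) := by
  induction m generalizing j with
  | zero =>
    simp only [pow_zero, one_mul, Aseq, rr, bs, Matrix.one_apply, apply_ite am, map_one, map_zero,
      Fin.ext_iff, eq_comm]
  | succ m ih =>
    have e1 := congrArg rder (ih j)
    rw [rder_mul, ← map_pow, rder_am, rder_am, map_pow] at e1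
    have e2 : am (X * Δ) * am (derivative ((X * Δ) ^ m)) =
        (m : RatFunc ℂ) * (am Δ + am (dz Δ)) * am (X * Δ) ^ m := by
      rw [← map_natCast am, ← map_pow, ← map_add, ← map_mul, ← map_mul, ← map_mul]
      congr 1
      cases m with
      | zero => simp
      | succ m =>
        rw [derivative_pow, derivative_mul, derivative_X, dz, Nat.add_sub_cancel, map_natCast]
        ring
    have e3 : am (X * Δ) ^ (m + 1) * ∑ k, Aseq (compM Δ P) m i k * compM Δ P k j =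
        am (Δ * sh (rr dz 1 n (Lz Δ P) (bs _ i) m) j - rr dz 1 n (Lz Δ P) (bs _ i) m n * P j) := by
      rw [← ana_sum, map_sum, mul_sum]
      refine sum_congr rfl fun k _ => ?_
      rw [map_mul _ (rr dz 1 n (Lz Δ P) (bs _ i) m k), ← ih k, ← ana_comp hΔ]
      ring
    have e4 : Lz Δ P (n + 1) = Δ := dif_neg (lt_irrefl _)
    have e5 : Lz Δ P j = P j := dif_pos j.2
    have e6 := ih j
    simp only [Aseq, Matrix.add_apply, Matrix.map_apply, Matrix.mul_apply, rr, st, e4, e5]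
    generalize rr dz 1 n (Lz Δ P) (bs _ i) m = r at e1 e3 e6 ⊢
    have e7 : am (dz (r j)) = am X * am (derivative (r j)) := map_mul _ _ _
    have e8 : am (X * Δ) = am X * am Δ := map_mul _ _ _
    rw [mul_add, e3]
    simp only [map_sub, map_add, map_natCast, one_mul, map_mul am Δ, map_mul am (r n),
      map_mul am _ (r j), map_mul am (m : ℂ[X]), e7]
    linear_combination am (X * Δ) * e1 - Aseq (compM Δ P) m i j * e2 -
      (m : RatFunc ℂ) * (am Δ + am (dz Δ)) * e6 + am (derivative (r j)) * e8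

theorem ana_lifts {R : Subring ℂ} {Q : ℂ[X]} : Q ∈ lifts R.subtype ↔ ∀ a, Q.coeff a ∈ R := by
  simp [lifts_iff_coeff_lifts]

theorem ana_div {R : Subring ℂ} {M r : ℂ[X]} (hM : M.Monic) (h1 : M ∈ lifts R.subtype)
    (h2 : M * r ∈ lifts R.subtype) : r ∈ lifts R.subtype := by
  obtain ⟨M', rfl, -, h3⟩ := lifts_and_natDegree_eq_and_monic h1 hM
  obtain ⟨Q, hQ⟩ := (mem_lifts _).mp h2
  exact (mem_lifts _).mpr ⟨Q /ₘ M', by
    rw [map_divByMonic _ h3, hQ, mul_divByMonic_cancel_left _ hM]⟩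

theorem dorm_rr {Δ : ℂ[X]} (hΔ : Δ ≠ 0) {P : Fin (n + 1) → ℂ[X]} (h : Dormant (compM Δ P)) :
    ∃ (T : Finset ℂ) (p₀ : ℕ), ∀ p : ℕ, p.Prime → p₀ ≤ p → ∀ i ≤ n, ∀ a,
      ∃ y ∈ cl T, (rr dz 1 n (Lz Δ P) (bs _ 0) p i).coeff a = p * y := by
  obtain ⟨T₀, D, hD, hc, -, p₀, h⟩ := h
  obtain ⟨T, h1, h2, h3⟩ := ((ev_le T₀).and ((ev_mem D.leadingCoeff⁻¹).and (ev_poly Δ))).exists
  refine ⟨T, p₀, fun p hp hp0 i hi a => ?_⟩
  obtain ⟨g, ⟨Q, s, hQ, hg⟩, hij⟩ := h p hp hp0 0 ⟨i, by omega⟩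
  have e := aseq_eq hΔ P p 0 ⟨i, by omega⟩
  have hp' : (p : ℂ) ≠ 0 := by exact_mod_cast hp.ne_zero
  rw [hij, Fin.val_zero] at e
  generalize rr dz 1 n (Lz Δ P) (bs _ 0) p i = r at e ⊢
  have l1 : C D.leadingCoeff⁻¹ ∈ lifts (cl T).subtype := C_mem_lifts _ (⟨_, h2⟩ : cl T)
  have l2 : D ∈ lifts (cl T).subtype := ana_lifts.mpr fun a => h1 (hc a)
  have l3 : (D * C D.leadingCoeff⁻¹) ^ s * (C (p : ℂ)⁻¹ * r) =
      C D.leadingCoeff⁻¹ ^ s * ((X * Δ) ^ p * Q) := by
    have e1 : am (C (p : ℂ)⁻¹) * (p : RatFunc ℂ) = 1 := by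
      rw [← map_natCast am, ← map_mul, ← map_natCast (C : ℂ →+* ℂ[X]), ← map_mul,
        inv_mul_cancel₀ hp', map_one, map_one]
    apply am_inj
    rw [mul_pow, map_mul, map_mul, map_mul, map_mul, map_mul, map_pow am D, map_pow am (X * Δ),
      ← e, ← hg]
    linear_combination am D ^ s * am (C D.leadingCoeff⁻¹ ^ s) * am (X * Δ) ^ p * g * e1
  have l4 := ana_lifts.mp (ana_div ((monic_mul_leadingCoeff_inv hD).pow s)
    (pow_mem (mul_mem l2 l1) s) (l3 ▸ mul_mem (pow_mem l1 s) (mul_mem (pow_mem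
      (mul_mem (X_mem_lifts _) (ana_lifts.mpr h3)) p) (ana_lifts.mpr fun a => h1 (hQ a))))) a
  exact ⟨_, l4, by rw [coeff_C_mul, mul_inv_cancel_left₀ hp']⟩

theorem integral_of_rr {ι : Type} [Fintype ι] (a : ι → ℂ) (P : Fin (n + 1) → ℂ[X]) (T : Finset ℂ)
    (h : ∀ i₀ ≤ n, ∀ m : ℕ, ∀ i ≤ n, ∀ e, ∃ y ∈ cl T,
      (rr dz 1 n (Lz (∏ x, (X - C (a x))) P) (bs _ i₀) m i).coeff e = m.factorial * y)
    {U : Set ℂ} (hU : IsOpen U) (h0 : 0 ∉ U) (ha : ∀ x, a x ∉ U) (y : ℂ → Fin (n + 1) → ℂ)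
    (hy : ∀ z ∈ U, ∀ i, HasDerivAt (fun w => y w i)
      (∑ j, (compM (∏ x, (X - C (a x))) P i j).eval (RingHom.id ℂ) z * y z j) z)
    (i : Fin (n + 1)) : IsIntegralFn U fun z => y z i := by
  classical
  let pt : Option ι → ℂ := fun x => x.elim 0 a
  have hpt : ∀ x, pt x ∉ U := fun x => by
    cases x with
    | none => exact h0
    | some x => exact ha x
  have hne : ∀ z ∈ U, ∀ x, pt x ≠ z := fun z hz x h => hpt x (h ▸ hz)
  have hΩ : Om univ pt = X * ∏ x, (X - C (a x)) := by simp [Om, pt, Fintype.prod_option]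
  have hΔ : (∏ x, (X - C (a x)) : ℂ[X]) ≠ 0 := prod_ne_zero_iff.mpr fun x _ => X_sub_C_ne_zero _
  have hA := ana_comp hΔ P
  have hS := aseq_eq hΔ P
  rw [← hΩ] at hA hS
  generalize compM (∏ x, (X - C (a x))) P = A at hA hS hy
  generalize rr dz 1 n (Lz (∏ x, (X - C (a x))) P) = r at hS h
  have hA' : ∀ i j, A i j ∈ OS (Om univ pt) := fun i j => ⟨1, _, by rw [pow_one, hA]⟩
  have hS' : ∀ m i j, Aseq A m i j ∈ OS (Om univ pt) := fun m i j =>
    ⟨m, _, by rw [mul_comm, hS]⟩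
  let G : Finset (U → ℂ) := (T.image fun a _ => a) ∪ (univ.image fun x z => ((z : ℂ) - pt x)⁻¹) ∪
    {fun z : U => (z : ℂ)} ∪ univ.image fun j z => y z j
  let B := Subring.closure (G : Set (U → ℂ))
  have m1 : ∀ a ∈ cl T, (fun _ : U => a) ∈ B := fun a ha =>
    (Subring.closure_le (t := B.comap (Pi.constRingHom U ℂ))).mpr (fun a ha =>
      Subring.subset_closure
        (mem_union_left _ (mem_union_left _ (mem_union_left _ (mem_image_of_mem _ ha))))) ha
  have m2 : ∀ x, (fun z : U => ((z : ℂ) - pt x)⁻¹) ∈ B := fun x => Subring.subset_closure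
    (mem_union_left _ (mem_union_left _ (mem_union_right _ (mem_image_of_mem _ (mem_univ x)))))
  have m3 : (fun z : U => (z : ℂ)) ∈ B :=
    Subring.subset_closure (mem_union_left _ (mem_union_right _ (mem_singleton_self _)))
  have m4 : ∀ j, (fun z : U => y z j) ∈ B := fun j =>
    Subring.subset_closure (mem_union_right _ (mem_image_of_mem _ (mem_univ j)))
  have m5 : ∀ (k : ℕ) i j,
      (fun z : U => (k.factorial : ℂ)⁻¹ * evv (some (z : ℂ)) (Aseq A k i j)) ∈ B := by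
    intro k i j
    have hk : (k.factorial : ℂ) ≠ 0 := by exact_mod_cast k.factorial_ne_zero
    have := evv_mem hpt m3 m2 (f := am (C (k.factorial : ℂ)⁻¹) * Aseq A k i j) (s := k)
      (P := C (k.factorial : ℂ)⁻¹ * r (bs _ i) k j)
      (by rw [map_mul, ← hS, mul_assoc, mul_comm (Aseq A k i j)]) fun c hc => by
        obtain ⟨e, -, rfl⟩ := mem_coeffs_iff.mp hc
        obtain ⟨w, hw, h1⟩ := h i (by omega) k j (by omega) e
        rw [coeff_C_mul, h1, inv_mul_cancel_left₀ hk]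
        exact m1 w hw
    refine (congrArg (· ∈ B) (funext fun z => ?_)).mp this
    exact ((Val.const _ _).mul (val_OS (hS' k i j) (hne z z.2))).evv_eq
  refine ⟨B, ⟨⟨G, rfl⟩, fun g hg => (good_closure (fun g hg => ?_) hg).spec hU⟩, m4 i⟩
  simp only [G, coe_union, coe_image, coe_singleton, Set.mem_union, Set.mem_image,
    Set.mem_singleton_iff, mem_coe] at hg
  rcases hg with ((⟨a, ha, rfl⟩ | ⟨x, -, rfl⟩) | rfl) | ⟨i, -, rfl⟩
  · exact good_const (m1 a (Subring.subset_closure ha))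
  · refine good_radical one_ne_zero (by rw [Nat.cast_one, inv_one]; exact B.one_mem) {x} hpt m2
      (ν := fun _ => -1) (fun _ => ⟨-1, by simp⟩) (f := fun z => (z - pt x)⁻¹) (m2 x) fun z hz => ?_
    refine (((hasDerivAt_id z).sub_const (pt x)).fun_inv
      (sub_ne_zero.mpr (hne z hz x).symm)).congr_deriv ?_
    simp [div_eq_mul_inv, pow_two]
  · exact good_id m3
  · refine ⟨fun k z => ∑ j, (k.factorial : ℂ)⁻¹ * evv (some z) (Aseq A k i j) * y z j,
      ⟨fun k => ?_, fun k z hz => ?_⟩, funext fun z => ?_⟩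
    · have := B.sum_mem (t := univ) fun j _ => B.mul_mem (m5 k i j) (m4 j)
      rwa [Finset.sum_fn] at this
    · have hk : (k.factorial : ℂ) ≠ 0 := by exact_mod_cast k.factorial_ne_zero
      have hk' : (k : ℂ) + 1 ≠ 0 := by exact_mod_cast k.succ_ne_zero
      have e1 : ∀ j l, (A j l).eval (RingHom.id ℂ) z = evv (some z) (A j l) := fun j l =>
        (evv_eq_eval fun h1 => Om_eval_ne (hne z hz)
          (eval_eq_zero_of_dvd_of_eval_eq_zero (denom_dvd_of (hA j l)) h1)).symm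
      have e2 : ∀ l, evv (some z) (Aseq A (k + 1) i l) = evv (some z) (rder (Aseq A k i l)) +
          ∑ j, evv (some z) (Aseq A k i j) * evv (some z) (A j l) := fun l =>
        ((val_OS (der_mem_OS (hS' k i l)) (hne z hz)).add (Val.sum univ fun j _ =>
          (val_OS (hS' k i j) (hne z hz)).mul (val_OS (hA' j l) (hne z hz)))).evv_eq
      refine (HasDerivAt.fun_sum fun j _ =>
        ((hasDerivAt_evv (hS' k i j) (hne z hz)).const_mul _).mul (hy z hz j)).congr_deriv ?_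
      have e3 : ((k : ℂ) + 1) * ((k + 1).factorial : ℂ)⁻¹ = (k.factorial : ℂ)⁻¹ := by
        rw [Nat.factorial_succ]
        push_cast
        field_simp
      rw [zero_mul, sub_zero]
      simp only [e1, e2, mul_sum, ← mul_assoc, e3, mul_add, add_mul, sum_mul, sum_add_distrib]
      rw [sum_comm]
    · have e : ∀ j, evv (some (z : ℂ)) (Aseq A 0 i j) = if i = j then 1 else 0 := fun j => by
        rw [Aseq, Matrix.one_apply]
        split_ifs
        · simpa using (Val.const (some (z : ℂ)) 1).evv_eq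
        · simpa using (Val.const (some (z : ℂ)) 0).evv_eq
      simp [e]

end Pool.Agent.Lib.MP_815ef6_nt.Ch
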