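import Mathlib

/-! Hypergeometric coefficients. -/

namespace Pool.Agent.Lib.MP_815ef6_nt.Ch
open Finset

/-- the hypothesis passes from large primes to every large modulus prime to `N` -/
theorem ar43_transfer {n N : ℕ} (hN : 0 < N) {c d : Fin n → ℤ} (p₀ : ℕ)
    (h : ∀ p : ℕ, p.Prime → p₀ ≤ p → ∀ (i j : Fin n) (l : ℕ), 0 < l →
      (p : ℤ) ∣ c i + N * l - c j → ∃ l' < l, ∃ j', (p : ℤ) ∣ c i + N * l' - d j')
    {q : ℕ} (hq : q.Coprime N) (hb : ∀ i j j', |c i - c j| + |c i - d j'| < q)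
    (i j : Fin n) (l : ℕ) (hl : 0 < l) (hd : (q : ℤ) ∣ c i + N * l - c j) :
    ∃ l' < l, ∃ j', (q : ℤ) ∣ c i + N * l' - d j' := by
  obtain ⟨p, hp, hpp, hpq⟩ := Nat.forall_exists_prime_gt_and_modEq (p₀ + q) hN.ne' hq
  obtain ⟨t, ht⟩ : ∃ t : ℕ, p = q + N * t := by
    have h1 : q ≤ p := by omega
    obtain ⟨t, ht⟩ := (Nat.modEq_iff_dvd' h1).1 hpq.symm
    exact ⟨t, by omega⟩
  obtain ⟨m, hm⟩ := hd
  have hN' : (0 : ℤ) < N := by exact_mod_cast hN
  have hl' : (0 : ℤ) < l := by exact_mod_cast hl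
  have hNl : (0 : ℤ) < N * l := mul_pos hN' hl'
  have hq0 : (0 : ℤ) < q := lt_of_le_of_lt (by positivity) (hb i j j)
  have hm0 : 0 ≤ m := by
    by_contra hneg
    have h1 : m ≤ -1 := by omega
    have h2 : (q : ℤ) * m ≤ q * (-1) := mul_le_mul_of_nonneg_left h1 hq0.le
    have h3 := hb i j j
    have h4 := neg_abs_le (c i - c j)
    have h5 := abs_nonneg (c i - d j)
    linarith
  obtain ⟨m, rfl⟩ := Int.eq_ofNat_of_zero_le hm0
  obtain ⟨l1, hl1, j', m', hm'⟩ := h p hpp (by omega) i j (l + m * t) (by omega)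
    ⟨m, by rw [ht]; push_cast; linear_combination hm⟩
  have hb' := hb i j j'
  have e1 := neg_abs_le (c i - c j)
  have e2 := le_abs_self (c i - c j)
  have e3 := neg_abs_le (c i - d j')
  have e4 := le_abs_self (c i - d j')
  have e5 := abs_nonneg (c i - c j)
  have e6 := abs_nonneg (c i - d j')
  have hp' : (p : ℤ) = q + N * t := by rw [ht]; push_cast; ring
  have ht0 : (0 : ℤ) ≤ t := by positivity
  have hNt : (0 : ℤ) ≤ N * t := by positivity
  have hm'0 : 0 ≤ m' := by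
    by_contra hneg
    have h1 : m' ≤ -1 := by omega
    have h2 : (p : ℤ) * m' ≤ p * (-1) := mul_le_mul_of_nonneg_left h1 (by positivity)
    have h3 : (0 : ℤ) ≤ N * l1 := by positivity
    linarith
  have key : c i + N * ((l1 : ℤ) - m' * t) - d j' = q * m' := by
    rw [hp'] at hm'; linear_combination hm'
  have hx0 : 0 ≤ (l1 : ℤ) - m' * t := by
    rcases hm'0.eq_or_lt with h0 | h0
    · rw [← h0]; simp
    · have h1 : (q : ℤ) * 1 ≤ q * m' := mul_le_mul_of_nonneg_left (by omega) hq0.le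
      have h2 : (0 : ℤ) < N * ((l1 : ℤ) - m' * t) := by linarith
      exact ((mul_pos_iff_of_pos_left hN').1 h2).le
  have hx1 : (l1 : ℤ) - m' * t < l := by
    have hl1' : (l1 : ℤ) < l + m * t := by exact_mod_cast hl1
    rcases le_or_gt (m : ℤ) m' with h0 | h0
    · have : (m : ℤ) * t ≤ m' * t := mul_le_mul_of_nonneg_right h0 ht0
      linarith
    · have h1 : (q : ℤ) * 1 ≤ q * (m - m') := mul_le_mul_of_nonneg_left (by omega) hq0.le
      have h2 : (N : ℤ) * ((l1 : ℤ) - m' * t) < N * l := by linarith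
      exact lt_of_mul_lt_mul_left h2 hN'.le
  obtain ⟨x, hx⟩ := Int.eq_ofNat_of_zero_le hx0
  refine ⟨x, by omega, j', m', ?_⟩
  rw [← hx]; exact key

/-- counting -/
theorem ar43_count {n N : ℕ} {c d : Fin n → ℤ} (hc : Function.Injective c) {q : ℕ}
    (hb : ∀ i j, |c i - c j| < q)
    (h : ∀ (i j : Fin n) (l : ℕ), 0 < l →
      (q : ℤ) ∣ c i + N * l - c j → ∃ l' < l, ∃ j', (q : ℤ) ∣ c i + N * l' - d j')
    (i : Fin n) (k : ℕ) :
    ∃ l0 ≤ k, ∃ j0, (q : ℤ) ∣ c i + N * l0 - c j0 ∧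
      (∑ l ∈ range k, ∑ j, if (q : ℤ) ∣ c i + N * ((l + 1 : ℕ) : ℤ) - c j then 1 else 0) ≤
        ∑ l ∈ range l0, ∑ j, if (q : ℤ) ∣ c i + N * (l : ℤ) - d j then 1 else 0 := by
  induction k with
  | zero => exact ⟨0, le_rfl, i, by simp, by simp⟩
  | succ k ih =>
    obtain ⟨l0, hl0, j0, hj0, hs⟩ := ih
    by_cases hev : ∃ j1, (q : ℤ) ∣ c i + N * ((k + 1 : ℕ) : ℤ) - c j1
    · obtain ⟨j1, hj1⟩ := hev
      refine ⟨k + 1, le_rfl, j1, hj1, ?_⟩
      have h1 : (∑ j, if (q : ℤ) ∣ c i + N * ((k + 1 : ℕ) : ℤ) - c j then 1 else 0) = 1 := by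
        rw [Finset.sum_eq_single j1, if_pos hj1]
        · intro j _ hne
          rw [if_neg]
          intro hj
          apply hne
          apply hc
          have h2 : (q : ℤ) ∣ c j - c j1 := by
            have := dvd_sub hj1 hj
            rwa [show c i + N * ((k + 1 : ℕ) : ℤ) - c j1 - (c i + N * ((k + 1 : ℕ) : ℤ) - c j) =
              c j - c j1 by ring] at this
          have := Int.eq_zero_of_abs_lt_dvd h2 (hb j j1)
          linarith
        · simp
      obtain ⟨r, hr⟩ : ∃ r, k + 1 = l0 + r := ⟨k + 1 - l0, by omega⟩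
      obtain ⟨l', hl', j', hj'⟩ := h j0 j1 r (by omega) (by
        have := dvd_sub hj1 hj0
        rwa [show c i + N * ((k + 1 : ℕ) : ℤ) - c j1 - (c i + N * (l0 : ℤ) - c j0) =
          c j0 + N * (r : ℤ) - c j1 by rw [hr]; push_cast; ring] at this)
      have h3 : (q : ℤ) ∣ c i + N * ((l0 + l' : ℕ) : ℤ) - d j' := by
        have := dvd_add hj0 hj'
        rwa [show c i + N * (l0 : ℤ) - c j0 + (c j0 + N * (l' : ℤ) - d j') =
          c i + N * ((l0 + l' : ℕ) : ℤ) - d j' by push_cast; ring] at this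
      have h4 : 1 ≤ ∑ j, if (q : ℤ) ∣ c i + N * ((l0 + l' : ℕ) : ℤ) - d j then 1 else 0 := by
        refine le_trans ?_ (Finset.single_le_sum (f := fun j =>
          if (q : ℤ) ∣ c i + N * ((l0 + l' : ℕ) : ℤ) - d j then 1 else 0)
          (fun _ _ => Nat.zero_le _) (mem_univ j'))
        simp only [if_pos h3, le_refl]
      rw [sum_range_succ, h1]
      have h5 : insert (l0 + l') (range l0) ⊆ range (k + 1) := by
        intro x hx
        simp only [mem_insert, mem_range] at hx ⊢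
        omega
      refine le_trans ?_ (Finset.sum_le_sum_of_subset h5)
      rw [sum_insert (by simp)]
      omega
    · refine ⟨l0, by omega, j0, hj0, ?_⟩
      rw [sum_range_succ, Finset.sum_eq_zero (s := univ), add_zero]
      · exact hs
      · intro j _
        rw [if_neg]
        intro hj
        exact hev ⟨j, hj⟩

theorem ar43_fac {n : ℕ} {p : ℕ} (hp : p.Prime) (k E : ℕ) (x : ℕ → Fin n → ℤ)
    (h0 : ∀ l < k, ∀ j, x l j ≠ 0) (hE : ∀ l < k, ∀ j, (x l j).natAbs ≤ E) :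
    (∏ l ∈ range k, ∏ j, x l j).natAbs.factorization p =
      ∑ e ∈ Ico 1 E, ∑ l ∈ range k, ∑ j, if ((p ^ e : ℕ) : ℤ) ∣ x l j then 1 else 0 := by
  have h1 : (∏ l ∈ range k, ∏ j, x l j).natAbs = ∏ l ∈ range k, ∏ j, (x l j).natAbs := by
    rw [← Int.natAbsHom_apply, map_prod]
    refine prod_congr rfl fun l _ => ?_
    rw [map_prod]; rfl
  rw [h1, Nat.factorization_prod_apply, Finset.sum_comm]
  · refine sum_congr rfl fun l hl => ?_
    have hl' := mem_range.1 hl
    rw [Nat.factorization_prod_apply, Finset.sum_comm]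
    · refine sum_congr rfl fun j _ => ?_
      rw [Nat.factorization_eq_card_pow_dvd_of_lt hp (Int.natAbs_pos.2 (h0 l hl' j))
        (lt_of_le_of_lt (hE l hl' j) (Nat.lt_pow_self hp.one_lt)), card_filter]
      refine sum_congr rfl fun e _ => ?_
      simp only [Int.natCast_dvd]
    · intro j _
      exact Int.natAbs_ne_zero.2 (h0 l hl' j)
  · intro l hl
    exact prod_ne_zero_iff.2 fun j _ => Int.natAbs_ne_zero.2 (h0 l (mem_range.1 hl) j)

theorem ar43_bound {n : ℕ} (k : ℕ) (x : ℕ → Fin n → ℤ) :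
    ∃ E : ℕ, ∀ l < k, ∀ j, (x l j).natAbs ≤ E := by
  refine ⟨∑ l ∈ range k, ∑ j, (x l j).natAbs, fun l hl j => ?_⟩
  refine le_trans ?_ (Finset.single_le_sum (f := fun l => ∑ j, (x l j).natAbs)
    (fun _ _ => Nat.zero_le _) (mem_range.2 hl))
  exact Finset.single_le_sum (f := fun j => (x l j).natAbs) (fun _ _ => Nat.zero_le _) (mem_univ j)

theorem hyp_int {n N : ℕ} (hN : 0 < N) {c d : Fin n → ℤ} (hc : Function.Injective c) (p₀ : ℕ)
    (h : ∀ p : ℕ, p.Prime → p₀ ≤ p → ∀ (i j : Fin n) (l : ℕ), 0 < l →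
      (p : ℤ) ∣ c i + N * l - c j → ∃ l' < l, ∃ j', (p : ℤ) ∣ c i + N * l' - d j') :
    ∃ M : ℕ, 0 < M ∧ ∀ i, ∃ u : ℕ → ℚ, u 0 = 1 ∧
      (∀ k : ℕ, (∏ j, (c i + N * (k + 1) - c j : ℚ)) * u (k + 1) =
        (∏ j, (c i + N * k - d j : ℚ)) * u k) ∧
      ∀ k, ∃ (e : ℕ) (z : ℤ), (M : ℚ) ^ e * u k = z := by
  obtain ⟨b, hbN, hb⟩ : ∃ b : ℕ, N ≤ b ∧ ∀ i j j', |c i - c j| + |c i - d j'| ≤ b := by
    obtain ⟨b1, hb1⟩ := (Set.finite_range
      (fun s : Fin n × Fin n × Fin n => |c s.1 - c s.2.1| + |c s.1 - d s.2.2|)).bddAbove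
    refine ⟨b1.toNat + N, by omega, fun i j j' => ?_⟩
    have h1 := hb1 (Set.mem_range_self (i, j, j'))
    have h2 := Int.self_le_toNat b1
    push_cast
    simp only at h1
    have : (0 : ℤ) ≤ N := by positivity
    linarith
  refine ⟨b.factorial, Nat.factorial_pos b, fun i => ?_⟩
  set A : ℕ → Fin n → ℤ := fun l j => c i + N * (l : ℤ) - d j with hA
  set B : ℕ → Fin n → ℤ := fun l j => c i + N * ((l + 1 : ℕ) : ℤ) - c j with hB
  have hz : ∀ k, (∏ l ∈ range k, ∏ j, B l j) = 0 → (∏ l ∈ range k, ∏ j, A l j) = 0 := by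
    intro k hk
    obtain ⟨l, hl, hl0⟩ := prod_eq_zero_iff.1 hk
    obtain ⟨j, -, hj⟩ := prod_eq_zero_iff.1 hl0
    obtain ⟨E, hE⟩ := ar43_bound k A
    obtain ⟨p, hp, hpp⟩ := Nat.exists_infinite_primes (p₀ + E + 1)
    obtain ⟨l', hl', j', hj'⟩ := h p hpp (by omega) i j (l + 1) (by omega)
      (by have : c i + N * ((l + 1 : ℕ) : ℤ) - c j = 0 := hj
          rw [this]; exact dvd_zero _)
    have hl'' : l' < k := by have := mem_range.1 hl; omega
    refine prod_eq_zero (mem_range.2 hl'') (prod_eq_zero (mem_univ j') ?_)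
    refine Int.eq_zero_of_dvd_of_natAbs_lt_natAbs hj' ?_
    have := hE l' hl'' j'
    simp only [Int.natAbs_natCast]
    exact lt_of_le_of_lt this (by omega)
  refine ⟨fun k => ((∏ l ∈ range k, ∏ j, A l j : ℤ) : ℚ) / ((∏ l ∈ range k, ∏ j, B l j : ℤ) : ℚ),
    by simp, fun k => ?_, fun k => ?_⟩
  · have e1 : (∏ j, (c i + N * (k + 1) - c j : ℚ)) = ((∏ j, B k j : ℤ) : ℚ) := by
      simp only [hB]; push_cast; rfl
    have e2 : (∏ j, (c i + N * k - d j : ℚ)) = ((∏ j, A k j : ℤ) : ℚ) := by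
      simp only [hA]; push_cast; rfl
    rw [e1, e2]
    by_cases h0 : (∏ l ∈ range (k + 1), ∏ j, B l j) = 0
    · have h1 := hz _ h0
      simp only [h0, Int.cast_zero, div_zero, mul_zero]
      rw [prod_range_succ] at h1
      rw [← mul_div_assoc, ← Int.cast_mul, mul_comm, h1]
      simp
    · rw [prod_range_succ] at h0
      have h1 : ((∏ l ∈ range k, ∏ j, B l j : ℤ) : ℚ) ≠ 0 := Int.cast_ne_zero.2 (left_ne_zero_of_mul h0)
      have h2 : ((∏ j, B k j : ℤ) : ℚ) ≠ 0 := Int.cast_ne_zero.2 (right_ne_zero_of_mul h0)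
      simp only [prod_range_succ, Int.cast_mul]
      field_simp
  · by_cases h0 : (∏ l ∈ range k, ∏ j, A l j) = 0
    · exact ⟨0, 0, by simp only [h0]; simp⟩
    have h1 : (∏ l ∈ range k, ∏ j, B l j) ≠ 0 := fun h1 => h0 (hz k h1)
    have hA0 : ∀ l < k, ∀ j, A l j ≠ 0 := fun l hl j hj =>
      h0 (prod_eq_zero (mem_range.2 hl) (prod_eq_zero (mem_univ j) hj))
    have hB0 : ∀ l < k, ∀ j, B l j ≠ 0 := fun l hl j hj =>
      h1 (prod_eq_zero (mem_range.2 hl) (prod_eq_zero (mem_univ j) hj))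
    obtain ⟨EA, hEA⟩ := ar43_bound k A
    obtain ⟨EB, hEB⟩ := ar43_bound k B
    set a := ∏ l ∈ range k, ∏ j, A l j with ha
    set g := ∏ l ∈ range k, ∏ j, B l j with hg
    have ha0 : a.natAbs ≠ 0 := Int.natAbs_ne_zero.2 h0
    have hg0 : g.natAbs ≠ 0 := Int.natAbs_ne_zero.2 h1
    have hf0 : b.factorial ^ g.natAbs ≠ 0 := pow_ne_zero _ (Nat.factorial_ne_zero b)
    have hdv : g.natAbs ∣ b.factorial ^ g.natAbs * a.natAbs := by
      rw [← Nat.factorization_prime_le_iff_dvd hg0 (mul_ne_zero hf0 ha0)]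
      intro p hp
      rw [Nat.factorization_mul hf0 ha0, Nat.factorization_pow]
      simp only [Finsupp.add_apply, Finsupp.smul_apply, smul_eq_mul]
      rcases le_or_gt p b with hpb | hpb
      · have h2 : 0 < b.factorial.factorization p :=
          hp.factorization_pos_of_dvd (Nat.factorial_ne_zero b) (hp.dvd_factorial.2 hpb)
        have h3 := Nat.factorization_lt p hg0
        have h4 : g.natAbs * 1 ≤ g.natAbs * b.factorial.factorization p := Nat.mul_le_mul_left _ h2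
        omega
      · refine le_trans ?_ (Nat.le_add_left _ _)
        rw [ha, hg, ar43_fac hp k (EA + EB) A hA0 (fun l hl j => (hEA l hl j).trans (by omega)),
          ar43_fac hp k (EA + EB) B hB0 (fun l hl j => (hEB l hl j).trans (by omega))]
        refine sum_le_sum fun e he => ?_
        have he1 : e ≠ 0 := by have := (mem_Ico.1 he).1; omega
        have hq : b < p ^ e := lt_of_lt_of_le hpb (Nat.le_self_pow he1 p)
        have hq' : (b : ℤ) < ((p ^ e : ℕ) : ℤ) := by exact_mod_cast hq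
        have hco : (p ^ e).Coprime N := by
          apply Nat.Coprime.pow_left
          exact (Nat.Prime.coprime_iff_not_dvd hp).2 (Nat.not_dvd_of_pos_of_lt hN (by omega))
        obtain ⟨l0, hl0, -, -, hs⟩ := ar43_count (N := N) (d := d) hc (q := p ^ e)
          (fun i j => by have := hb i j j; have := abs_nonneg (c i - d j); linarith)
          (ar43_transfer hN p₀ h hco (fun i j j' => lt_of_le_of_lt (hb i j j') hq')) i k
        exact hs.trans (sum_le_sum_of_subset (range_subset_range.2 hl0))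
    have hdv' : g ∣ (b.factorial : ℤ) ^ g.natAbs * a := by
      rw [← Int.natAbs_dvd_natAbs, Int.natAbs_mul, Int.natAbs_pow, Int.natAbs_natCast]
      exact hdv
    obtain ⟨z, hz'⟩ := hdv'
    refine ⟨g.natAbs, z, ?_⟩
    have h2 : (g : ℚ) ≠ 0 := Int.cast_ne_zero.2 h1
    have h3 : ((b.factorial : ℚ)) ^ g.natAbs * (a : ℚ) = g * z := by exact_mod_cast hz'
    simp only
    rw [← mul_div_assoc, h3, ← hg]
    field_simp

end Pool.Agent.Lib.MP_815ef6_nt.Ch
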