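import Mathlib

/-! The local ring of the line at the origin inside the complex numbers and its normalisations. -/

namespace Pool.Agent.Lib.MP_815ef6_nt.Ch
open Finset Polynomial

theorem fr_closure {A : Subring ℂ} [IsDiscreteValuationRing A] (F : Finset ℂ)
    (hF : ∀ x ∈ F, IsAlgebraic A x) :
    ∃ (O : Subring ℂ) (n : ℕ) (b : Fin n → ℂ), IsPrincipalIdealRing O ∧ A ≤ O ∧ (∀ l, b l ∈ O) ∧
      (∀ x ∈ O, ∃ a : Fin n → ℂ, (∀ l, a l ∈ A) ∧ x = ∑ l, a l * b l) ∧
      (∀ a : Fin n → ℂ, (∀ l, a l ∈ A) → ∑ l, a l * b l = 0 → ∀ l, a l = 0) ∧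
      ∀ x ∈ F, ∀ a ∈ A, IsIntegral A (a * x) → a * x ∈ O := by
  let _ := FractionRing.liftAlgebra A ℂ
  let L := IntermediateField.adjoin (FractionRing A) (F : Set ℂ)
  have : FiniteDimensional (FractionRing A) L := IntermediateField.finiteDimensional_adjoin
    fun x hx => ((IsFractionRing.isAlgebraic_iff A (FractionRing A) ℂ).1 (hF x hx)).isIntegral
  have : Module.IsTorsionFree A L := Function.Injective.moduleIsTorsionFree (Subtype.val : L → ℂ)
    Subtype.val_injective fun _ _ => rfl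
  let C := integralClosure A L
  have : IsDedekindDomain C := integralClosure.isDedekindDomain A (FractionRing A) L
  have : Module.Finite A C := IsIntegralClosure.finite A (FractionRing A) L C
  have : Module.Free A C := IsIntegralClosure.module_free A (FractionRing A) L C
  have : IsPrincipalIdealRing C := IsPrincipalIdealRing.of_finite_maximals
    ((Algebra.QuasiFinite.finite_primesOver (S := C) (IsLocalRing.maximalIdeal A)).subset
      fun I (hI : I.IsMaximal) => ⟨hI.isPrime, ⟨(IsLocalRing.eq_maximalIdeal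
        (Ideal.isMaximal_comap_of_isIntegral_of_isMaximal I)).symm⟩⟩)
  let φ : C →ₐ[A] ℂ := (L.val.restrictScalars A).comp C.val
  have hφ : Function.Injective φ := Subtype.val_injective.comp Subtype.val_injective
  let β := Module.finBasis A C
  have hs : ∀ a : Fin _ → A, φ (∑ l, a l • β l) = ∑ l, a l * φ (β l) := fun a => by
    simp only [map_sum, map_smul]
    rfl
  refine ⟨φ.toRingHom.range, _, fun l => φ (β l), IsPrincipalIdealRing.of_surjective _
    φ.toRingHom.rangeRestrict_surjective, fun a ha => ⟨algebraMap A C ⟨a, ha⟩, φ.commutes _⟩,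
    fun l => ⟨_, rfl⟩, ?_, fun a ha h l => ?_, fun x hx a ha h => ?_⟩
  · rintro _ ⟨c, rfl⟩
    exact ⟨fun l => β.repr c l, fun l => (β.repr c l).2, by rw [← hs, β.sum_repr]; rfl⟩
  · exact congrArg Subtype.val (Fintype.linearIndependent_iff.1 β.linearIndependent
      (fun l => ⟨a l, ha l⟩) (hφ (((hs _).trans h).trans (map_zero φ).symm)) l)
  · have hL : a * x ∈ L := L.mul_mem (algebraMap A L ⟨a, ha⟩).2
      (IntermediateField.subset_adjoin _ _ hx)
    exact ⟨⟨⟨_, hL⟩, (isIntegral_algHom_iff (L.val.restrictScalars A) Subtype.val_injective).1 h⟩,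
      rfl⟩

/-- The values at `t` of the rational functions over `k` that are regular at zero. -/
def frA (k : Subfield ℂ) (t : ℂ) : Subring ℂ where
  carrier := {y | ∃ g u : k[X], u.coeff 0 ≠ 0 ∧ y * aeval t u = aeval t g}
  zero_mem' := ⟨0, 1, by simp, by simp⟩
  one_mem' := ⟨1, 1, by simp, by simp⟩
  add_mem' := by
    rintro a b ⟨g, u, h, e⟩ ⟨g', u', h', e'⟩
    refine ⟨g * u' + g' * u, u * u', by simp [h, h'], ?_⟩
    simp only [map_add, map_mul, ← e, ← e']
    ring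
  mul_mem' := by
    rintro a b ⟨g, u, h, e⟩ ⟨g', u', h', e'⟩
    refine ⟨g * g', u * u', by simp [h, h'], ?_⟩
    simp only [map_mul, ← e, ← e']
    ring
  neg_mem' := by
    rintro a ⟨g, u, h, e⟩
    exact ⟨-g, u, h, by rw [map_neg, ← e, neg_mul]⟩

variable {k : Subfield ℂ} {t : ℂ}

theorem fr_poly (f : k[X]) : aeval t f ∈ frA k t := ⟨f, 1, by simp, by simp⟩

theorem fr_t : t ∈ frA k t := by simpa using fr_poly (t := t) (X : k[X])

theorem fr_k {c : ℂ} (h : c ∈ k) : c ∈ frA k t :=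
  ⟨C ⟨c, h⟩, 1, by simp, by rw [map_one, mul_one, aeval_C]; rfl⟩

theorem fr_ne (ht : Transcendental k t) {u : k[X]} (h : u.coeff 0 ≠ 0) : aeval t u ≠ 0 :=
  fun e => h (by rw [transcendental_iff.1 ht u e, coeff_zero])

theorem fr_inv (ht : Transcendental k t) {u : k[X]} (h : u.coeff 0 ≠ 0) :
    (aeval t u)⁻¹ ∈ frA k t := ⟨1, u, h, by rw [inv_mul_cancel₀ (fr_ne ht h), map_one]⟩

theorem fr_dvr (ht : Transcendental k t) : IsDiscreteValuationRing (frA k t) := by
  let _ : Algebra k[X] (frA k t) :=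
    ((aeval t : k[X] →ₐ[k] ℂ).toRingHom.codRestrict (frA k t) fr_poly).toAlgebra
  have : (Ideal.span {(X : k[X])}).IsPrime := (Ideal.span_singleton_prime X_ne_zero).2 prime_X
  have m : ∀ u : k[X], u ∈ (Ideal.span {(X : k[X])}).primeCompl ↔ u.coeff 0 ≠ 0 := fun u =>
    not_congr (Ideal.mem_span_singleton.trans X_dvd_iff)
  have : IsLocalization.AtPrime (frA k t) (Ideal.span {(X : k[X])}) := by
    refine (isLocalization_iff _ _).2 ⟨fun u => ?_, fun y => ?_, fun {f g} e => ⟨1, ?_⟩⟩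
    · exact .of_mul_eq_one ⟨_, fr_inv ht ((m _).1 u.2)⟩
        (Subtype.ext (mul_inv_cancel₀ (fr_ne ht ((m _).1 u.2))))
    · obtain ⟨g, u, h, e⟩ := y.2
      exact ⟨(g, ⟨u, (m _).2 h⟩), Subtype.ext e⟩
    · rw [transcendental_iff_injective.1 ht (congrArg Subtype.val e)]
  exact IsLocalization.AtPrime.isDiscreteValuationRing_of_dedekind_domain k[X]
    (P := Ideal.span {(X : k[X])}) (by simp) _

theorem fr_mod (ht : Transcendental k t) {y : ℂ} (h : y ∈ frA k t) :
    ∃ c : k, ∃ z ∈ frA k t, y = c + t * z := by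
  obtain ⟨g, u, h, e⟩ := h
  obtain ⟨w, hw⟩ : X ∣ g - C (g.coeff 0 / u.coeff 0) * u :=
    X_dvd_iff.2 (by simp [div_mul_cancel₀ _ h])
  refine ⟨g.coeff 0 / u.coeff 0, aeval t w * (aeval t u)⁻¹,
    (frA k t).mul_mem (fr_poly w) (fr_inv ht h), mul_right_cancel₀ (fr_ne ht h) ?_⟩
  have e' := congrArg (aeval t) hw
  rw [map_sub, map_mul, map_mul, aeval_C, aeval_X, sub_eq_iff_eq_add'] at e'
  rw [e, e', add_mul, mul_assoc, mul_assoc, inv_mul_cancel₀ (fr_ne ht h), mul_one]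
  rfl

theorem fr_pow (ht : Transcendental k t) {y : ℂ} (h : y ∈ frA k t) (h0 : y ≠ 0) :
    ∃ e : ℕ, ∃ z ∈ frA k t, t ^ e = z * y := by
  obtain ⟨g, u, h, e⟩ := h
  obtain ⟨n, w, hw, rfl⟩ := WfDvdMonoid.max_power_factor (a₀ := g)
    (fun g0 => mul_ne_zero h0 (fr_ne ht h) (by rw [e, g0, map_zero])) irreducible_X
  rw [X_dvd_iff] at hw
  refine ⟨n, aeval t u * (aeval t w)⁻¹, (frA k t).mul_mem (fr_poly u) (fr_inv ht hw), ?_⟩
  rw [mul_right_comm, mul_comm _ y, e, map_mul, map_pow, aeval_X, mul_assoc,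
    mul_inv_cancel₀ (fr_ne ht hw), mul_one]

theorem fr_res (ht : Transcendental k t) {O : Subring ℂ} [IsPrincipalIdealRing O] {n : ℕ}
    {b : Fin n → ℂ} (hA : frA k t ≤ O) (hb : ∀ l, b l ∈ O)
    (hs : ∀ x ∈ O, ∃ a : Fin n → ℂ, (∀ l, a l ∈ frA k t) ∧ x = ∑ l, a l * b l) {s : O}
    (hp : Prime s) (hd : s ∣ ⟨t, hA fr_t⟩) : ∃ ρ : O →+* ℂ, ∀ x, ρ x = 0 ↔ s ∣ x := by
  let _ : Algebra k O := (k.subtype.codRestrict O fun c => hA (fr_k c.2)).toAlgebra
  have := PrincipalIdealRing.isMaximal_of_irreducible hp.irreducible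
  let _ := Ideal.Quotient.field (Ideal.span {s})
  have : Module.Finite k (O ⧸ Ideal.span {s}) := by
    refine Module.Finite.of_surjective (Fintype.linearCombination k
      fun l => Ideal.Quotient.mk (Ideal.span {s}) ⟨b l, hb l⟩) fun y => ?_
    obtain ⟨x, rfl⟩ := Ideal.Quotient.mk_surjective y
    obtain ⟨a, ha, e⟩ := hs x x.2
    choose c z hz e' using fun l => fr_mod ht (ha l)
    have e2 : x = ∑ l, (c l • ⟨b l, hb l⟩ + ⟨t, hA fr_t⟩ * (⟨z l, hA (hz l)⟩ * ⟨b l, hb l⟩) : O) := by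
      refine Subtype.ext (e.trans ?_)
      rw [AddSubmonoidClass.coe_finsetSum]
      refine sum_congr rfl fun l _ => ?_
      rw [e' l, add_mul, mul_assoc]
      rfl
    have e3 : Ideal.Quotient.mk (Ideal.span {s}) ⟨t, hA fr_t⟩ = 0 :=
      Ideal.Quotient.eq_zero_iff_mem.2 (Ideal.mem_span_singleton.2 hd)
    refine ⟨c, ?_⟩
    rw [e2, Fintype.linearCombination_apply, map_sum]
    refine sum_congr rfl fun l _ => ?_
    rw [map_add, map_mul, e3, zero_mul, add_zero]
    rfl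
  have : Module.IsTorsionFree k (O ⧸ Ideal.span {s}) := DivisionSemiring.to_moduleIsTorsionFree
  let ρ : (O ⧸ Ideal.span {s}) →ₐ[k] ℂ := IsAlgClosed.lift
  refine ⟨ρ.toRingHom.comp (Ideal.Quotient.mk _), fun x => ?_⟩
  rw [RingHom.comp_apply, map_eq_zero, Ideal.Quotient.eq_zero_iff_mem, Ideal.mem_span_singleton]

/-- The ring generated by `S`, `t` and the inverse of `h (t)`. -/
def frP (S : Subring k) (h : S[X]) (t : ℂ) : Subring ℂ where
  carrier := {y | ∃ (f : S[X]) (c : ℕ), y * aeval t h ^ c = aeval t f}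
  zero_mem' := ⟨0, 0, by simp⟩
  one_mem' := ⟨1, 0, by simp⟩
  add_mem' := by
    rintro a b ⟨f, c, e⟩ ⟨f', c', e'⟩
    refine ⟨f * h ^ c' + f' * h ^ c, c + c', ?_⟩
    simp only [map_add, map_mul, map_pow, ← e, ← e']
    ring
  mul_mem' := by
    rintro a b ⟨f, c, e⟩ ⟨f', c', e'⟩
    refine ⟨f * f', c + c', ?_⟩
    simp only [map_mul, ← e, ← e']
    ring
  neg_mem' := by
    rintro a ⟨f, c, e⟩
    exact ⟨-f, c, by rw [map_neg, ← e, neg_mul]⟩

variable {S : Subring k} {h : S[X]}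

theorem fr_aeval (f : S[X]) : aeval t (f.map S.subtype) = aeval t f := aeval_map_algebraMap k t f

theorem fr_h (h1 : h.coeff 0 = 1) (c : ℕ) : ((h ^ c).map S.subtype).coeff 0 ≠ 0 := by
  rw [coeff_map, coeff_zero_eq_eval_zero, eval_pow, ← coeff_zero_eq_eval_zero, h1, one_pow, map_one]
  exact one_ne_zero

theorem fr_hne (ht : Transcendental k t) (h1 : h.coeff 0 = 1) : aeval t h ≠ 0 := by
  simpa only [pow_one, fr_aeval] using fr_ne ht (fr_h h1 1)

theorem frP_le (h1 : h.coeff 0 = 1) : frP S h t ≤ frA k t := by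
  rintro y ⟨f, c, e⟩
  exact ⟨f.map S.subtype, _, fr_h h1 c, by rw [fr_aeval, fr_aeval, map_pow, e]⟩

theorem frP_div (ht : Transcendental k t) {y : ℂ} (hy : y ∈ frA k t) (h2 : t * y ∈ frP S h t) :
    y ∈ frP S h t := by
  obtain ⟨g, u, hu, e⟩ := hy
  obtain ⟨f, c, e'⟩ := h2
  have e1 : X * g * (h ^ c).map S.subtype = f.map S.subtype * u :=
    transcendental_iff_injective.1 ht (by
      simp only [map_mul, fr_aeval, aeval_X, map_pow, ← e, ← e']
      ring)
  have e2 := congrArg (coeff · 0) e1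
  simp only [mul_coeff_zero, coeff_X_zero, zero_mul, coeff_map] at e2
  obtain ⟨w, rfl⟩ : X ∣ f := X_dvd_iff.2 (Subtype.ext ((mul_eq_zero.1 e2.symm).resolve_right hu))
  refine ⟨w, c, mul_left_cancel₀ (fun t0 => ht (t0 ▸ isAlgebraic_zero) : t ≠ 0) ?_⟩
  rw [← mul_assoc, e', map_mul, aeval_X]

theorem frP_krull (ht : Transcendental k t) (h1 : h.coeff 0 = 1) (m : ℕ) {x : ℂ}
    (hx : x ∈ frP S h t) (H : ∀ N : ℕ, ∃ y ∈ frP S h t, ∃ z ∈ frP S h t, x = m * y + t ^ N * z) :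
    ∃ y ∈ frP S h t, x = m * y := by
  obtain ⟨f, c, e⟩ := hx
  let π := Ideal.Quotient.mk (Ideal.span {(m : S)})
  have π0 : π m = 0 := Ideal.Quotient.eq_zero_iff_mem.2 (Ideal.mem_span_singleton_self _)
  have cop : IsCoprime X (h.map π) := by
    refine ⟨-(h.map π).divX, 1, ?_⟩
    have k := X_mul_divX_add (h.map π)
    rw [coeff_map, h1, map_one, map_one] at k
    linear_combination -k
  have dv : X ^ ((f.map π).natDegree + 1) ∣ f.map π := by
    obtain ⟨y, ⟨f1, c1, e1⟩, z, ⟨f2, c2, e2⟩, e3⟩ := H ((f.map π).natDegree + 1)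
    generalize (f.map π).natDegree + 1 = N at e3 ⊢
    have e4 : f * h ^ (c1 + c2) = C (m : S) * (f1 * h ^ (c + c2)) + X ^ N * (f2 * h ^ (c + c1)) :=
      map_injective S.subtype Subtype.val_injective (transcendental_iff_injective.1 ht (by
        simp only [fr_aeval, map_mul, map_add, map_pow, aeval_X, map_natCast, ← e, ← e1, ← e2, e3]
        ring))
    have e5 := congrArg (map π) e4
    simp only [Polynomial.map_mul, Polynomial.map_add, map_C, π0, C_0, zero_mul, zero_add,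
      Polynomial.map_pow, map_X] at e5
    exact (cop.pow (m := N) (n := c1 + c2)).dvd_of_dvd_mul_right ⟨_, e5⟩
  obtain ⟨w, rfl⟩ : C (m : S) ∣ f := (C_dvd_iff_dvd_coeff _ _).2 fun i => by
    rw [← Ideal.mem_span_singleton, ← Ideal.Quotient.eq_zero_iff_mem, ← coeff_map]
    rcases le_or_gt i (f.map π).natDegree with hi | hi
    · exact X_pow_dvd_iff.1 dv i (Nat.lt_succ_of_le hi)
    · exact coeff_eq_zero_of_natDegree_lt hi
  have h0 := pow_ne_zero c (fr_hne ht h1)
  refine ⟨aeval t w / aeval t h ^ c, ⟨w, c, div_mul_cancel₀ _ h0⟩, ?_⟩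
  rw [← mul_div_assoc, eq_div_iff h0, e, map_mul, map_natCast, map_natCast]

theorem fr_den (G : Finset ℂ) (hG : ∀ y ∈ G, y ∈ frA k t) :
    ∃ (S : Finset k) (h : (Subring.closure (S : Set k))[X]), h.coeff 0 = 1 ∧
      ∀ y ∈ G, y ∈ frP _ h t := by
  classical
  obtain ⟨h, h1, h2⟩ : ∃ h : k[X], h.coeff 0 = 1 ∧
      ∀ y ∈ G, ∃ g : k[X], y * aeval t h = aeval t g := by
    induction G using Finset.induction_on with
    | empty => exact ⟨1, by simp, by simp⟩
    | insert y G _ ih =>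
      obtain ⟨h, h1, h2⟩ := ih fun z hz => hG z (mem_insert_of_mem hz)
      obtain ⟨g, u, hu, e⟩ := hG y (mem_insert_self _ _)
      refine ⟨h * (C (u.coeff 0)⁻¹ * u), by simp [h1, hu], forall_mem_insert _ _ _ |>.2
        ⟨⟨h * (C (u.coeff 0)⁻¹ * g), ?_⟩, fun z hz => ?_⟩⟩
      · simp only [map_mul, ← e]
        ring
      · obtain ⟨g', e'⟩ := h2 z hz
        exact ⟨g' * (C (u.coeff 0)⁻¹ * u), by rw [map_mul _ h, ← mul_assoc, e', ← map_mul]⟩
  choose! g hg using h2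
  let S : Finset k := h.coeffs ∪ G.biUnion fun y => (g y).coeffs
  have k1 : ∀ f : k[X], f.coeffs ⊆ S →
      ∃ f' : (Subring.closure (S : Set k))[X], f'.map (Subring.subtype _) = f := fun f hf =>
    ⟨f.toSubring _ fun c hc => Subring.subset_closure (hf hc), map_toSubring _ _ _⟩
  obtain ⟨h', e⟩ := k1 h subset_union_left
  refine ⟨S, h', Subtype.ext ?_, fun y hy => ?_⟩
  · rw [← e, coeff_map] at h1
    exact h1
  · obtain ⟨g', e'⟩ := k1 (g y) ((subset_biUnion_of_mem (fun y => (g y).coeffs) hy).trans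
      subset_union_right)
    exact ⟨g', 1, by rw [pow_one, ← fr_aeval, ← fr_aeval, e, e', hg y hy]⟩

theorem frP_cl (ht : Transcendental k t) (h1 : h.coeff 0 = 1) {B : Subring ℂ}
    (hS : ∀ c : S, ((c : k) : ℂ) ∈ B) (h2 : t ∈ B) (h3 : (aeval t h)⁻¹ ∈ B) : frP S h t ≤ B := by
  rintro y ⟨f, c, e⟩
  rw [(eq_mul_inv_iff_mul_eq₀ (pow_ne_zero c (fr_hne ht h1))).2 e, ← inv_pow, aeval_eq_sum_range]
  exact B.mul_mem (B.sum_mem fun i _ => B.mul_mem (hS _) (B.pow_mem h2 i)) (B.pow_mem h3 c)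

end Pool.Agent.Lib.MP_815ef6_nt.Ch
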