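import Pool.Agent.Lib.MP_815ef6_nt.Sol
import Pool.Agent.Lib.MP_815ef6_nt.CH.Defs
import Pool.Agent.Lib.MP_815ef6_nt.CH.FrA

/-! The semilocal ring of the degeneration and its finitely generated subrings. -/

namespace Pool.Agent.Lib.MP_815ef6_nt.Ch
open Finset

/-- Good finitely generated subrings. -/
structure Gd (O : Subring ℂ) (t : ℂ) (T : Finset ℂ) : Prop where
  le : cl T ≤ O
  div : ∀ y ∈ O, t * y ∈ cl T → y ∈ cl T
  krull : ∀ (m : ℕ), ∀ x ∈ cl T, (∀ N : ℕ, ∃ y ∈ cl T, ∃ z ∈ cl T, x = m * y + t ^ N * z) →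
    ∃ y ∈ cl T, x = m * y

/-- The properties of the semilocal ring. -/
structure Frame (O : Subring ℂ) (t : ℂ) : Prop where
  pid : IsPrincipalIdealRing O
  rat : ∀ q : ℚ, (q : ℂ) ∈ O
  mem : t ∈ O
  ne : t ≠ 0
  res : ∀ s : O, Prime s → s ∣ ⟨t, mem⟩ → ∃ ρ : O →+* ℂ, ∀ x, ρ x = 0 ↔ s ∣ x
  sub : ∀ F : Finset ℂ, (∀ x ∈ F, x ∈ O) → ∃ T, F ⊆ T ∧ Gd O t T

theorem exists_base (K : Subfield ℂ) {t : ℂ} (ht : Transcendental K t) :
    ∃ k : Subfield ℂ, K ≤ k ∧ Transcendental k t ∧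
      ∀ x : ℂ, IsAlgebraic (Algebra.adjoin k {t}) x := by
  obtain ⟨B, h1, h2⟩ := exists_isTranscendenceBasis_superset (R := K) (s := {t})
    ((algebraicIndependent_singleton_iff (⟨t, rfl⟩ : ({t} : Set ℂ))).2 ht)
  let E := IntermediateField.adjoin K (Subtype.val '' ({⟨t, h1 rfl⟩}ᶜ : Set B))
  have h3 : Transcendental E t := IntermediateField.transcendental_adjoin_iff.2
    (h2.1.transcendental_adjoin (i := ⟨t, h1 rfl⟩) fun h => h rfl)
  have h4 : ∀ y ∈ E, y ∈ Algebra.adjoin E.toSubfield {t} := fun y hy =>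
    (Algebra.adjoin E.toSubfield {t}).algebraMap_mem ⟨y, hy⟩
  have h5 : (Algebra.adjoin K (Set.range (Subtype.val : B → ℂ))).toSubring ≤
      (Algebra.adjoin E.toSubfield {t}).toSubring := by
    rw [Algebra.adjoin_eq_ring_closure, Subring.closure_le]
    rintro y (⟨c, rfl⟩ | ⟨c, rfl⟩)
    · exact h4 _ (E.algebraMap_mem c)
    · by_cases h : c = ⟨t, h1 rfl⟩
      · exact h ▸ Algebra.self_mem_adjoin_singleton _ t
      · exact h4 _ (IntermediateField.subset_adjoin _ _ ⟨c, h, rfl⟩)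
  exact ⟨E.toSubfield, fun c hc => E.algebraMap_mem ⟨c, hc⟩, h3, fun x =>
    (h2.isAlgebraic.isAlgebraic x).ringHom_of_comp_eq (Subring.inclusion h5) (RingHom.id ℂ)
      (Subring.inclusion_injective h5) rfl⟩

theorem fr_sub {k : Subfield ℂ} {t : ℂ} (ht : Transcendental k t) {O : Subring ℂ} {n : ℕ}
    {b : Fin n → ℂ} (hA : frA k t ≤ O) (hb : ∀ l, b l ∈ O)
    (hs : ∀ x ∈ O, ∃ a : Fin n → ℂ, (∀ l, a l ∈ frA k t) ∧ x = ∑ l, a l * b l)
    (hi : ∀ a : Fin n → ℂ, (∀ l, a l ∈ frA k t) → ∑ l, a l * b l = 0 → ∀ l, a l = 0)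
    (F : Finset ℂ) (hF : ∀ x ∈ F, x ∈ O) : ∃ T, F ⊆ T ∧ Gd O t T := by
  classical
  choose! a ha ea using hs
  let G : Finset ℂ := insert 1 (F ∪ univ.image fun p : Fin n × Fin n => b p.1 * b p.2)
  have hG : ∀ x ∈ G, x ∈ O := fun x hx => by
    simp only [G, mem_insert, mem_union, mem_image] at hx
    rcases hx with rfl | hx | ⟨p, -, rfl⟩
    exacts [O.one_mem, hF x hx, O.mul_mem (hb _) (hb _)]
  obtain ⟨S, h, h1, h2⟩ := fr_den (k := k) (t := t) ((G ×ˢ univ).image fun p => a p.1 p.2)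
    (forall_mem_image.2 fun p hp => ha _ (hG _ (mem_product.1 hp).1) _)
  obtain ⟨P, hP⟩ : ∃ P, P = frP _ h t := ⟨_, rfl⟩
  have PA : P ≤ frA k t := hP ▸ frP_le h1
  let N := Submodule.span P (Set.range b)
  have mN : ∀ x, x ∈ N ↔ ∃ p : Fin n → ℂ, (∀ l, p l ∈ P) ∧ x = ∑ l, p l * b l := fun x =>
    (Submodule.mem_span_range_iff_exists_fun P).trans
      ⟨fun ⟨c, e⟩ => ⟨fun l => c l, fun l => (c l).2, e.symm⟩,
        fun ⟨p, hp, e⟩ => ⟨fun l => ⟨p l, hp l⟩, e.symm⟩⟩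
  have GN : ∀ x ∈ G, x ∈ N := fun x hx => (mN x).2 ⟨a x, fun l =>
    hP ▸ h2 _ (mem_image_of_mem _ (mk_mem_product hx (mem_univ l))), ea x (hG x hx)⟩
  have mul : N * N ≤ N := by
    rw [Submodule.span_mul_span, Submodule.span_le]
    rintro _ ⟨_, ⟨l, rfl⟩, _, ⟨m, rfl⟩, rfl⟩
    exact GN _ (mem_insert_of_mem (mem_union_right _ (mem_image_of_mem _ (mem_univ (l, m)))))
  let M := N.toSubalgebra (GN 1 (mem_insert_self _ _)) fun x y hx hy =>
    mul (Submodule.mul_mem_mul hx hy)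
  have PM : ∀ y ∈ P, y ∈ M := fun y hy => M.algebraMap_mem ⟨y, hy⟩
  let T : Finset ℂ := F ∪ (univ.image b ∪
    insert t (insert (Polynomial.aeval t h)⁻¹ (S.image Subtype.val)))
  have TM : cl T ≤ M.toSubring := Subring.closure_le.2 fun x hx => by
    simp only [T, coe_union, coe_insert, coe_image, Set.mem_union, Set.mem_insert_iff] at hx
    rcases hx with hx | ⟨l, -, rfl⟩ | rfl | rfl | ⟨c, hc, rfl⟩
    · exact GN x (mem_insert_of_mem (mem_union_left _ hx))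
    · exact Submodule.subset_span ⟨l, rfl⟩
    · exact PM _ (hP ▸ ⟨Polynomial.X, 0, by simp⟩)
    · exact PM _ (hP ▸ ⟨1, 1, by rw [pow_one, inv_mul_cancel₀ (fr_hne ht h1), map_one]⟩)
    · exact PM _ (hP ▸ ⟨Polynomial.C ⟨c, Subring.subset_closure hc⟩, 0, by
        rw [pow_zero, mul_one, Polynomial.aeval_C]; rfl⟩)
  have PT : P ≤ cl T := by
    have k1 : Subring.closure (S : Set k) ≤ (cl T).comap k.subtype :=
      Subring.closure_le.2 fun c hc => Subring.subset_closure (by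
        simp only [T, coe_union, coe_insert, coe_image, Set.mem_union, Set.mem_insert_iff]
        exact .inr (.inr (.inr (.inr ⟨c, hc, rfl⟩))))
    exact hP ▸ frP_cl ht h1 (fun c => k1 c.2) (Subring.subset_closure (by simp [T]))
      (Subring.subset_closure (by simp [T]))
  have mT : ∀ x, x ∈ cl T ↔ ∃ p : Fin n → ℂ, (∀ l, p l ∈ P) ∧ x = ∑ l, p l * b l := fun x =>
    ⟨fun hx => (mN x).1 (TM hx), fun ⟨p, hp, e⟩ => e ▸ Subring.sum_mem _ fun l _ =>
      Subring.mul_mem _ (PT (hp l)) (Subring.subset_closure (by simp [T]))⟩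
  refine ⟨T, subset_union_left, fun x hx => ?_, fun y hy hx => ?_, fun m x hx H => ?_⟩
  · obtain ⟨p, hp, rfl⟩ := (mT x).1 hx
    exact O.sum_mem fun l _ => O.mul_mem (hA (PA (hp l))) (hb l)
  · obtain ⟨p, hp, e⟩ := (mT _).1 hx
    refine (mT y).2 ⟨a y, fun l => hP ▸ frP_div ht (ha y hy l) ?_, ea y hy⟩
    have k := hi (fun l => t * a y l - p l) (fun l => Subring.sub_mem _
      (Subring.mul_mem _ fr_t (ha y hy l)) (PA (hp l))) (by
        simp only [sub_mul, sum_sub_distrib, mul_assoc, ← mul_sum, ← ea y hy, e, sub_self]) l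
    exact sub_eq_zero.1 k ▸ hP ▸ hp l
  · obtain ⟨p, hp, rfl⟩ := (mT x).1 hx
    have k : ∀ l, ∃ y ∈ P, p l = m * y := fun l => hP ▸ frP_krull ht h1 m (hP ▸ hp l) fun N => by
      obtain ⟨y, hy, z, hz, e⟩ := H N
      obtain ⟨q, hq, rfl⟩ := (mT y).1 hy
      obtain ⟨r, hr, rfl⟩ := (mT z).1 hz
      refine ⟨q l, hP ▸ hq l, r l, hP ▸ hr l, sub_eq_zero.1 (hi
        (fun l => p l - (m * q l + t ^ N * r l)) (fun l => Subring.sub_mem _ (PA (hp l))
          (Subring.add_mem _ (Subring.mul_mem _ (natCast_mem _ m) (PA (hq l)))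
            (Subring.mul_mem _ (Subring.pow_mem _ fr_t N) (PA (hr l))))) ?_ l)⟩
      simp only [sub_mul, add_mul, sum_sub_distrib, sum_add_distrib, mul_assoc, ← mul_sum, e,
        sub_self]
    choose q hq e using k
    exact ⟨_, (mT _).2 ⟨q, hq, rfl⟩, by simp only [e, mul_sum, mul_assoc]⟩

open Polynomial in
theorem fr_van {K k : Subfield ℂ} {t x : ℂ} (hK : K ≤ k) (ht : Transcendental k t)
    (h : Van K t x) : ∃ (d : ℕ) (a : ℕ → ℂ), (∀ j, a j ∈ frA k t) ∧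
      x ^ d = ∑ j ∈ range d, t * a j * x ^ j := by
  obtain ⟨d, f, h1, h2, h3⟩ := h
  have e : ∀ g : K[X], aeval t (g.map (Subfield.inclusion hK)) = aeval t g := fun g => by
    rw [aeval_def, eval₂_map]
    rfl
  have h4 : ((f d).map (Subfield.inclusion hK)).coeff 0 ≠ 0 := by
    rwa [coeff_map, _root_.map_ne_zero]
  have h5 := fr_ne ht h4
  have h6 := fr_inv ht h4
  rw [e] at h5 h6
  refine ⟨d, fun j => -(aeval t (f j).divX * (aeval t (f d))⁻¹), fun j => Subring.neg_mem _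
    (Subring.mul_mem _ (e _ ▸ fr_poly _) h6), mul_left_cancel₀ h5 ?_⟩
  rw [sum_range_succ, add_eq_zero_iff_neg_eq] at h3
  rw [← h3, mul_sum, ← sum_neg_distrib]
  refine sum_congr rfl fun j hj => ?_
  have k := congrArg (aeval t) (X_mul_divX_add (f j))
  rw [h2 j (mem_range.1 hj), map_zero, add_zero, map_mul, aeval_X] at k
  rw [← k]
  field_simp

open Polynomial in
theorem fr_int {A : Subring ℂ} {x : ℂ} {d : ℕ} {a : ℕ → ℂ} (ha : ∀ j, a j ∈ A)
    (h : x ^ d = ∑ j ∈ range d, a j * x ^ j) : IsIntegral A x := by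
  refine ⟨X ^ d - ∑ j ∈ range d, monomial j ⟨a j, ha j⟩, monic_X_pow_sub ?_, ?_⟩
  · exact (degree_sum_le _ _).trans_lt ((Finset.sup_lt_iff (WithBot.bot_lt_coe d)).2 fun j hj =>
      (degree_monomial_le _ _).trans_lt (WithBot.coe_lt_coe.2 (mem_range.1 hj)))
  · simp only [eval₂_sub, eval₂_pow, eval₂_X, eval₂_finsetSum, eval₂_monomial, h]
    exact sub_self _

theorem exists_frame (K : Subfield ℂ) {t : ℂ} (ht : Transcendental K t) (F : Finset ℂ) :
    ∃ O, Frame O t ∧ (∀ x ∈ F, ∃ e : ℕ, t ^ e * x ∈ O) ∧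
      ∀ x ∈ F, Van K t x → x ∈ O ∧ ∃ d : ℕ, ∃ y ∈ O, x ^ d = t * y := by
  obtain ⟨k, hK, hk, alg⟩ := exists_base K ht
  have := fr_dvr hk
  have le : (Algebra.adjoin k {t}).toSubring ≤ frA k t := by
    rw [Algebra.adjoin_eq_ring_closure, Subring.closure_le]
    rintro y (⟨c, rfl⟩ | rfl)
    exacts [fr_k c.2, fr_t]
  have alg' : ∀ x : ℂ, IsAlgebraic (frA k t) x := fun x =>
    (alg x).ringHom_of_comp_eq (Subring.inclusion le) (RingHom.id ℂ)
      (Subring.inclusion_injective le) rfl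
  obtain ⟨O, n, b, pid, hA, hb, hs, hi, hx⟩ := fr_closure F fun x _ => alg' x
  refine ⟨O, ⟨pid, fun q => hA (fr_k (SubfieldClass.ratCast_mem k q)), hA fr_t,
    fun t0 => ht (t0 ▸ isAlgebraic_zero), fun s hp hd => fr_res hk hA hb hs hp hd,
    fr_sub hk hA hb hs hi⟩, fun x h => ?_, fun x h hv => ?_⟩
  · obtain ⟨y, y0, hy⟩ := (alg' x).exists_integral_multiple
    obtain ⟨e, z, hz, e'⟩ := fr_pow hk y.2 fun h => y0 (Subtype.ext h)
    refine ⟨e, ?_⟩
    rw [e', mul_assoc]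
    exact O.mul_mem (hA hz) (hx x h y y.2 hy)
  · obtain ⟨d, a, ha, e⟩ := fr_van hK hk hv
    have k1 : x ∈ O := one_mul x ▸ hx x h 1 (Subring.one_mem _) (by
      rw [one_mul]
      exact fr_int (fun j => Subring.mul_mem _ fr_t (ha j)) e)
    exact ⟨k1, d, ∑ j ∈ range d, a j * x ^ j, O.sum_mem fun j _ =>
      O.mul_mem (hA (ha j)) (O.pow_mem k1 j), by simp only [e, mul_sum, mul_assoc]⟩

end Pool.Agent.Lib.MP_815ef6_nt.Ch
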