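import Pool.Agent.Lib.MP_815ef6_nt.CH.Cx
import Pool.Agent.Lib.MP_815ef6_nt.CH.Frame

/-! The assembly. -/

namespace Pool.Agent.Lib.MP_815ef6_nt.Ch
open Finset LaurentPolynomial Filter

variable {n r : ℕ} {O : Subring ℂ} {t : ℂ}

/-- The filter of large good rings. -/
def fG (O : Subring ℂ) (t : ℂ) : Filter (Finset ℂ) where
  sets := {s | ∃ F : Finset ℂ, (∀ x ∈ F, x ∈ O) ∧ ∀ T, F ⊆ T → Gd O t T → T ∈ s}
  univ_sets := ⟨∅, by simp, fun _ _ _ => trivial⟩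
  sets_of_superset := fun ⟨F, h, k⟩ l => ⟨F, h, fun T a b => l (k T a b)⟩
  inter_sets := fun ⟨F, h, k⟩ ⟨F', h', k'⟩ => by
    classical
    exact ⟨F ∪ F', fun x hx => (mem_union.1 hx).elim (h x) (h' x), fun T a b =>
      ⟨k T (subset_union_left.trans a) b, k' T (subset_union_right.trans a) b⟩⟩

theorem Frame.neBot (H : Frame O t) : (fG O t).NeBot :=
  ⟨fun e => by
    obtain ⟨F, h, k⟩ : ∅ ∈ fG O t := e ▸ mem_bot
    obtain ⟨T, a, b⟩ := H.sub F h
    exact k T a b⟩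

theorem ev_gd : ∀ᶠ T in fG O t, Gd O t T := ⟨∅, by simp, fun _ _ h => h⟩

theorem ev_in {x : ℂ} (h : x ∈ O) : ∀ᶠ T in fG O t, x ∈ cl T :=
  ⟨{x}, by simpa, fun _ a _ => Subring.subset_closure (a (mem_singleton_self x))⟩

theorem ev_LS {f : ℂ[T;T⁻¹]} (h : f ∈ LS O) : ∀ᶠ T in fG O t, f ∈ LS (cl T) := by
  filter_upwards [(eventually_all_finset f.coeff.support).2 fun e _ => ev_in (mem_LS.1 h e)]
    with T hT
  refine mem_LS.2 fun e => by_contra fun k => k (hT e (Finsupp.mem_support_iff.2 fun l => k ?_))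
  rw [l]
  exact zero_mem _

theorem lo_cl {S : Subring ℂ} (ht : t ∈ S) {F : Finset ℂ} (h : ∀ x ∈ F, ∃ e : ℕ, t ^ e * x ∈ S)
    {x : ℂ} (hx : x ∈ cl F) : ∃ e : ℕ, t ^ e * x ∈ S := by
  induction hx using Subring.closure_induction with
  | mem x hx => exact h x hx
  | zero => exact ⟨0, by simp⟩
  | one => exact ⟨0, by simp⟩
  | add x y _ _ hx hy =>
    obtain ⟨e, he⟩ := hx
    obtain ⟨f, hf⟩ := hy
    refine ⟨e + f, ?_⟩
    rw [show t ^ (e + f) * (x + y) = t ^ f * (t ^ e * x) + t ^ e * (t ^ f * y) by ring]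
    exact add_mem (mul_mem (pow_mem ht f) he) (mul_mem (pow_mem ht e) hf)
  | neg x _ hx => exact hx.imp fun e he => by rw [mul_neg]; exact neg_mem he
  | mul x y _ _ hx hy =>
    obtain ⟨e, he⟩ := hx
    obtain ⟨f, hf⟩ := hy
    refine ⟨e + f, ?_⟩
    rw [pow_add, mul_mul_mul_comm]
    exact mul_mem he hf

theorem Frame.ev_desc (H : Frame O t) {F : Finset ℂ} (h : ∀ x ∈ F, ∃ e : ℕ, t ^ e * x ∈ O) :
    ∀ᶠ T in fG O t, ∀ p : ℕ, p ≠ 0 → ∀ g ∈ LS (cl F), ∀ c ∈ cl T, ∀ f : LaurentPolynomial (cl T),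
      mp (cl T).subtype f = (p : LaurentPolynomial ℂ) * (C c * g) →
        (p : LaurentPolynomial (cl T)) ∣ f := by
  choose! e he using h
  filter_upwards [ev_gd, ev_in H.mem, (eventually_all_finset F).2 fun x hx => ev_in (he x hx)]
    with T G ht hT p hp g hg c hc f hf
  have : C c * g ∈ LS (cl T) := mem_LS.2 fun k => by
    obtain ⟨m, hm⟩ := lo_cl ht (fun x hx => ⟨_, hT x hx⟩) (mem_LS.1 hg k)
    have h1 : (C c * g).coeff k ∈ O := by
      have h2 := congrArg (fun x : ℂ[T;T⁻¹] => x.coeff k) hf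
      simp only [coeff_mp, ← map_natCast (C : ℂ →+* _), coeff_C_mul (p : ℂ)] at h2
      rw [← inv_mul_cancel_left₀ (Nat.cast_ne_zero.2 hp : (p : ℂ) ≠ 0) ((C c * g).coeff k), ← h2]
      exact mul_mem (by simpa using H.rat (p : ℚ)⁻¹) (G.le (f.coeff k).2)
    have h2 : t ^ m * (C c * g).coeff k ∈ cl T := by
      rw [coeff_C_mul, mul_left_comm]
      exact mul_mem hc hm
    clear hm
    induction m with
    | zero => simpa using h2
    | succ m ih =>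
      exact ih (G.div _ (mul_mem (pow_mem H.mem m) h1) (by rwa [← mul_assoc, ← pow_succ']))
  obtain ⟨g', hg'⟩ := this
  exact ⟨g', mp_inj _ (by rw [hf, map_mul, map_natCast, hg'])⟩

theorem Frame.ev_loc (H : Frame O t) {s : O} (hs : s ∣ ⟨t, H.mem⟩) {ρ : O →+* ℂ}
    (hρ : ∀ x, ρ x = 0 ↔ s ∣ x) : ∀ᶠ T in fG O t, ∃ (hle : cl T ≤ O) (h : s.1 ∈ cl T),
      Loc (⟨s, h⟩ : cl T) (ρ.comp (Subring.inclusion hle)) := by
  classical
  obtain ⟨s', e⟩ := hs
  have e' : t = s * s' := congrArg Subtype.val e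
  filter_upwards [ev_gd, ev_in s.2, ev_in s'.2] with T G h h'
  refine ⟨G.le, h, fun x => (hρ _).trans ⟨fun ⟨y, k⟩ => ?_, fun ⟨y, k⟩ =>
    ⟨Subring.inclusion G.le y, by rw [k, map_mul]; rfl⟩⟩, fun x k => ?_,
    ⟨T.attach.image fun x : {x // x ∈ T} => ρ ⟨x.1, G.le (Subring.subset_closure x.2)⟩,
      fun ⟨x, hx⟩ => ?_⟩⟩
  · have k' : (x : ℂ) = s * y := congrArg Subtype.val k
    exact ⟨⟨y, G.div _ y.2 (by
      rw [e', mul_right_comm, ← k']
      exact mul_mem x.2 h')⟩, Subtype.ext k'⟩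
  · exact (mul_eq_zero.1 k).resolve_left fun l => H.ne (by
      rw [e', show (s : ℂ) = 0 from congrArg Subtype.val l, zero_mul])
  · set σ := ρ.comp (Subring.inclusion G.le)
    induction hx using Subring.closure_induction with
    | mem x hx => exact Subring.subset_closure (mem_coe.2 (mem_image_of_mem _ (mem_attach _ ⟨x, hx⟩)))
    | zero => exact σ.map_zero.symm ▸ zero_mem _
    | one => exact σ.map_one.symm ▸ one_mem _
    | add x y hx hy k l => exact (σ.map_add ⟨x, hx⟩ ⟨y, hy⟩).symm ▸ add_mem k l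
    | neg x hx k => exact (map_neg σ ⟨x, hx⟩).symm ▸ neg_mem k
    | mul x y hx hy k l => exact (σ.map_mul ⟨x, hx⟩ ⟨y, hy⟩).symm ▸ mul_mem k l

theorem Frame.resc (H : Frame O t) {ι : Type*} (X : Finset ι) (ξ : ι → ℂ)
    (h : ∀ i ∈ X, ∃ e : ℕ, t ^ e * ξ i ∈ O) : (∀ i ∈ X, ξ i ∈ O) ∨ ∃ s η : O, Prime s ∧
      s ∣ ⟨t, H.mem⟩ ∧ s ∣ η ∧ η ≠ 0 ∧ (∀ i ∈ X, η * ξ i ∈ O) ∧
        ¬ ∀ i ∈ X, ∀ y : O, y = η * ξ i → s ∣ y := by
  have := H.pid
  let I : Ideal O :=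
    { carrier := {η | ∀ i ∈ X, η * ξ i ∈ O}
      zero_mem' := by simp
      add_mem' := fun {a b} ha hb i hi => by
        rw [Subring.coe_add, add_mul]
        exact add_mem (ha i hi) (hb i hi)
      smul_mem' := fun c a ha i hi => by
        rw [smul_eq_mul, Subring.coe_mul, mul_assoc]
        exact mul_mem c.2 (ha i hi) }
  obtain ⟨η, hη⟩ := (IsPrincipalIdealRing.principal I).principal
  have m : ∀ x : O, (∀ i ∈ X, x * ξ i ∈ O) ↔ η ∣ x := fun x => by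
    rw [← Ideal.mem_span_singleton, ← Ideal.submodule_span_eq, ← hη]
    rfl
  choose! e he using h
  have h1 : η ∣ ⟨t, H.mem⟩ ^ X.sup e := (m _).1 fun i hi => by
    obtain ⟨k, hk⟩ := Nat.exists_eq_add_of_le' (le_sup (f := e) hi)
    rw [hk, SubmonoidClass.coe_pow, pow_add, mul_assoc]
    exact mul_mem (pow_mem H.mem k) (he i hi)
  have h0 : η ≠ 0 := ne_zero_of_dvd_ne_zero (pow_ne_zero _ fun k => H.ne (congrArg Subtype.val k)) h1
  by_cases u : IsUnit η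
  · exact .inl fun i hi => by simpa using (m 1).2 u.dvd i hi
  obtain ⟨s, hs, η', rfl⟩ := WfDvdMonoid.exists_irreducible_factor u h0
  have s0 : (s : ℂ) ≠ 0 := fun k => hs.ne_zero (Subtype.ext k)
  refine .inr ⟨s, _, hs.prime, hs.prime.dvd_of_dvd_pow ((dvd_mul_right _ _).trans h1),
    dvd_mul_right _ _, h0, (m _).2 dvd_rfl, fun k => hs.not_isUnit ?_⟩
  have : s * η' ∣ 1 * η' := (m _).1 fun i hi => by
    obtain ⟨y, hy⟩ := k i hi ⟨_, (m _).2 dvd_rfl i hi⟩ rfl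
    have hy' : (s : ℂ) * η' * ξ i = s * y := congrArg Subtype.val hy
    rw [one_mul, mul_left_cancel₀ s0 ((mul_assoc _ _ _).symm.trans hy')]
    exact y.2
  exact isUnit_of_dvd_one ((mul_dvd_mul_iff_right (right_ne_zero_of_mul h0)).1 this)

/-- The data lie in the frame. -/
structure Sit (O : Subring ℂ) (t : ℂ) (a : Fin (r + 1) → ℂ) (Z : ℕ → Polynomial ℂ) (n : ℕ) :
    Prop where
  fr : Frame O t
  dat : Dat a Z n
  rat : ∀ j : Fin r, a j.castSucc / a j.succ ∈ O ∧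
    ∃ d : ℕ, ∃ y ∈ O, (a j.castSucc / a j.succ) ^ d = t * y
  dm : ∃ (F : Finset ℂ) (p₀ : ℕ), (∀ x ∈ F, ∃ e : ℕ, t ^ e * x ∈ O) ∧ ∀ p : ℕ, p.Prime → p₀ ≤ p →
    ∀ j, ∀ i ≤ n, ∃ g ∈ LS (cl F), rr th 1 n (Lc a Z j) (bs _ 0) p i = p * g
  root : ∀ j, ∀ i ≤ n, ∀ k ∈ (Lc a Z j i).coeff.support, ∃ ξ : ℂ,
    ξ ^ (n + 1 - i) = (Lc a Z j i).coeff k ∧ ∃ e : ℕ, t ^ e * ξ ∈ O

namespace Sit

variable {a : Fin (r + 1) → ℂ} {Z : ℕ → Polynomial ℂ} (S : Sit O t a Z n)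
include S

theorem step (i : Fin (r + 1)) (j : Fin r) :
    a i / a j.succ = a i / a j.castSucc * (a j.castSucc / a j.succ) :=
  (div_mul_div_cancel₀ (S.dat.ne _)).symm

theorem mem (i j : Fin (r + 1)) (h : i ≤ j) : a i / a j ∈ O := by
  induction j using Fin.induction with
  | zero => rw [Fin.le_zero_iff.1 h, div_self (S.dat.ne _)]; exact one_mem _
  | succ j ih =>
    rcases h.lt_or_eq with h | rfl
    · exact S.step i j ▸ mul_mem (ih (Fin.le_castSucc_iff.2 h)) (S.rat j).1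
    · rw [div_self (S.dat.ne _)]
      exact one_mem _

variable {s : O} (hp : Prime s) (hs : s ∣ ⟨t, S.fr.mem⟩) {ρ : O →+* ℂ} (hρ : ∀ x, ρ x = 0 ↔ s ∣ x)
include hp hs hρ

theorem van (i j : Fin (r + 1)) (h : i < j) : ρ ⟨_, S.mem i j h.le⟩ = 0 := by
  obtain ⟨j, rfl⟩ := Fin.exists_succ_eq.2 (Fin.ne_zero_of_lt h)
  obtain ⟨h1, d, y, hy, e⟩ := S.rat j
  have : s ∣ ⟨_, h1⟩ := hp.dvd_of_dvd_pow (n := d) (hs.trans ⟨⟨y, hy⟩, Subtype.ext e⟩)
  exact (hρ _).2 (this.trans ⟨⟨_, S.mem i _ (Fin.le_castSucc_iff.2 h)⟩,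
    Subtype.ext ((S.step i j).trans (mul_comm _ _))⟩)

theorem ev_lead : ∀ᶠ T in fG O t, ∀ (hle : cl T ≤ O) (j) (F : (cl T)[T;T⁻¹]),
    mp (cl T).subtype F = Lc a Z j (n + 1) →
      1 - LaurentPolynomial.T 1 ∣ F ∧
        mp (ρ.comp (Subring.inclusion hle)) F = 1 - LaurentPolynomial.T 1 := by
  filter_upwards [eventually_all.2 fun i => eventually_all.2 fun j => eventually_all.2 fun h =>
    ev_in (S.mem i j h)] with T hT hle j F hF
  obtain ⟨F', h1, h2, h3⟩ := S.dat.lead' hT j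
  rw [mp_inj _ (hF.trans h1.symm)]
  exact ⟨h2, h3 _ fun i j h => S.van hp hs hρ i j h⟩

omit hp hs hρ in
theorem int (j : Fin (r + 1)) {i : ℕ} (hi : i ≤ n + 1) : Lc a Z j i ∈ LS O := by
  have top : Lc a Z j (n + 1) ∈ LS O := (S.dat.lead' S.mem j).imp fun _ h => h.1
  choose! ξ h1 h2 using S.root j
  let X : Finset ((_ : ℕ) × ℤ) := (range (n + 1)).sigma fun i => (Lc a Z j i).coeff.support
  have mX : ∀ {i k}, i ≤ n → (Lc a Z j i).coeff k ≠ 0 → ⟨i, k⟩ ∈ X := fun h l =>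
    mem_sigma.2 ⟨mem_range.2 (Nat.lt_succ_of_le h), Finsupp.mem_support_iff.2 l⟩
  have key : ∀ η : ℂ, (∀ x ∈ X, η * ξ x.1 x.2 ∈ O) → ∀ i ≤ n + 1,
      C η ^ (n + 1 - i) * Lc a Z j i ∈ LS O := fun η h i hi => by
    rcases hi.lt_or_eq with hi | rfl
    · refine mem_LS.2 fun k => ?_
      rw [← map_pow, coeff_C_mul]
      by_cases l : (Lc a Z j i).coeff k = 0
      · rw [l, mul_zero]
        exact zero_mem _
      · rw [← h1 i (by omega) k (Finsupp.mem_support_iff.2 l), ← mul_pow]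
        exact pow_mem (h _ (mX (by omega) l)) _
    · simpa using top
  rcases S.fr.resc X (fun x => ξ x.1 x.2) fun x hx => h2 _ (by
    have := mem_range.1 (mem_sigma.1 hx).1; omega) _ (mem_sigma.1 hx).2 with h | h
  · simpa using key 1 (by simpa using h) i hi
  obtain ⟨s, η, hp, hs, hη, h0, h3, h4⟩ := h
  obtain ⟨ρ, hρ⟩ := S.fr.res s hp hs
  obtain ⟨F, p₀, f1, f2⟩ := S.dm
  have := S.fr.neBot
  obtain ⟨T, ⟨hle, hsT, H⟩, hT, hη', h5, h6⟩ := ((S.fr.ev_loc hs hρ).and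
    (((eventually_all_finset (range (n + 2))).2 fun i hi => ev_LS (key η h3 i (by
      have := mem_range.1 hi; omega))).and ((ev_in η.2).and ((S.fr.ev_desc f1).and
        (S.ev_lead hp hs hρ))))).exists
  choose! L hL using hT
  have hL' : ∀ i ≤ n + 1, mp (cl T).subtype (L i) = C (η : ℂ) ^ (n + 1 - i) * Lc a Z j i :=
    fun i hi => hL i (mem_range.2 (by omega))
  have nil := H.nil (η := ⟨η, hη'⟩) (L := L) (n := n) ((H.ker _).1 ((hρ _).2 hη))
    ⟨p₀ + n + 1, fun p hp' hp0 i hi => ?_⟩ (by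
      rw [(h6 hle j _ (by simpa using hL' _ le_rfl)).2]
      intro e
      simpa [AddMonoidAlgebra.coeff_sub, ← T_zero] using
        congrArg (fun x : ℂ[T;T⁻¹] => x.coeff 0) e)
  · refine absurd (fun x hx y hy => ?_) h4
    obtain ⟨k1, k2⟩ := mem_sigma.1 hx
    have k3 : x.1 ≤ n := by have := mem_range.1 k1; omega
    refine hp.dvd_of_dvd_pow (n := n + 1 - x.1) ((hρ _).1 ?_)
    have e1 := congrArg (fun f : ℂ[T;T⁻¹] => f.coeff x.2) (nil x.1 k3)
    have e2 := congrArg (fun f : ℂ[T;T⁻¹] => f.coeff x.2) (hL' x.1 (by omega))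
    simp only [coeff_mp, ← map_pow, coeff_C_mul, ← h1 _ k3 _ k2, ← mul_pow, ← hy] at e1 e2
    exact (congrArg ρ (Subtype.ext e2.symm)).trans e1
  · obtain ⟨g, hg, e⟩ := f2 p hp' (by omega) j i hi
    refine h5 p hp'.ne_zero g hg ((η : ℂ) ^ (p - i)) (pow_mem hη' _) _ ?_
    have e1 := rr_scale (η := 1) (c := C (η : ℂ)) (d := th) (th_C_mul _) hL' p hi
    have c0 : (C (η : ℂ) : ℂ[T;T⁻¹]) ^ i ≠ 0 := pow_ne_zero _ fun k => h0 (Subtype.ext (by
      simpa using congrArg (fun x : ℂ[T;T⁻¹] => x.coeff 0) k))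
    rw [rr_map (d' := fun f => C (η : ℂ) * th f) _ fun x => by rw [map_mul, mp_C, mp_th]; rfl,
      bs_map, mp_C]
    refine mul_left_cancel₀ c0 ((mul_one (C (η : ℂ)) ▸ e1 :).trans ?_)
    rw [e, map_pow, show p = i + (p - i) by omega, pow_add, Nat.add_sub_cancel_left]
    ring

theorem ev_chn : ∀ᶠ T in fG O t, ∃ (hle : cl T ≤ O) (h : s.1 ∈ cl T),
    Loc (⟨s, h⟩ : cl T) (ρ.comp (Subring.inclusion hle)) ∧ ∃ L τ,
      Chn (⟨s, h⟩ : cl T) (ρ.comp (Subring.inclusion hle)) n r L τ ∧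
        ∀ j, ∀ i ≤ n + 1, mp (cl T).subtype (L j i) = Lc a Z j i := by
  obtain ⟨F, p₀, f1, f2⟩ := S.dm
  filter_upwards [S.fr.ev_loc hs hρ, S.fr.ev_desc f1, S.ev_lead hp hs hρ,
    eventually_all.2 fun j => (eventually_all_finset (range (n + 2))).2 fun i hi =>
      ev_LS (S.int j (i := i) (by have := mem_range.1 hi; omega)),
    eventually_all.2 fun j => ev_in (S.rat j).1] with T ⟨hle, h, H⟩ h5 h6 hT hτ
  choose! L hL using hT
  have hL' : ∀ j, ∀ i ≤ n + 1, mp (cl T).subtype (L j i) = Lc a Z j i :=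
    fun j i hi => hL j i (mem_range.2 (by omega))
  have c1 : ∀ j, ∀ i ≤ n + 1, ∀ k, ((L j i).coeff k : ℂ) = (Lc a Z j i).coeff k :=
    fun j i hi k => by rw [← hL' j i hi, coeff_mp]; rfl
  have c2 : ∀ j, ∀ i ≤ n + 1, ∀ k, ((nz false (L j) i).coeff k : ℂ) =
      (nz false (Lc a Z j) i).coeff k := fun j i hi k => by
    rw [coeff_nz, coeff_nz, ← c1 j i hi]; rfl
  refine ⟨hle, h, H, L, Fin.lastCases 0 fun j => ⟨_, hτ j⟩, ⟨fun j => ?_,
    fun j => (h6 hle j _ (hL' j _ le_rfl)).1, fun j => (h6 hle j _ (hL' j _ le_rfl)).2,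
    fun j => ⟨p₀, fun p hp' hp0 i hi => ?_⟩, fun j hj i hi k => ?_, Fin.lastCases_last,
    fun i hi k hk => ⟨Subtype.ext ?_, Subtype.ext ?_⟩⟩, hL'⟩
  · induction j using Fin.lastCases with
    | last => simp
    | cast j => exact (H.ker _).1 (by
        rw [Fin.lastCases_castSucc]
        exact S.van hp hs hρ _ _ Fin.castSucc_lt_succ)
  · obtain ⟨g, hg, e⟩ := f2 p hp' hp0 j i hi
    refine h5 p hp'.ne_zero g hg 1 (one_mem _) _ ?_
    rw [rr_map _ (mp_th _), bs_map, map_one, rr_congr (hL' j) p hi, e, map_one, one_mul]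
  · obtain ⟨j, rfl⟩ := Fin.exists_castSucc_eq.2 hj
    have := S.dat.mid j i k
    simp only [cf, Ideal.mem_bot, ← c1 _ i hi, ← c2 _ i hi] at this
    rw [Fin.lastCases_castSucc, nx_cast]
    exact ⟨Subtype.ext this.1, Subtype.ext this.2⟩
  · exact (c2 _ i hi k).trans (S.dat.fin i k hk).1
  · exact (c1 _ i hi _).trans (S.dat.fin i k hk).2

theorem ev_fin : ∀ᶠ T in fG O t, ∀ (E m : ℕ), ∀ i₀ ≤ n, ∀ i ≤ n, ∀ k, ∃ x ∈ cl T, ∃ y ∈ cl T,
    (rr th 1 n (Lc a Z 0) (bs _ i₀) m i).coeff k = m.factorial * x + s ^ E * y := by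
  have := S.fr.neBot
  have tr : ∀ {T T' : Finset ℂ} {hle : cl T ≤ O} {hle' : cl T' ≤ O}
      {L : Fin (r + 1) → ℕ → LaurentPolynomial (cl T)}
      {L' : Fin (r + 1) → ℕ → LaurentPolynomial (cl T')},
      (∀ j, ∀ i ≤ n + 1, mp (cl T).subtype (L j i) = Lc a Z j i) →
      (∀ j, ∀ i ≤ n + 1, mp (cl T').subtype (L' j i) = Lc a Z j i) → ∀ b j, ∀ i ≤ n + 1,
      ρ.comp (Subring.inclusion hle') ((nz b (L' j) i).coeff 0) =
        ρ.comp (Subring.inclusion hle) ((nz b (L j) i).coeff 0) := fun h h' b j i hi => by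
    have e := fun k => congrArg (fun f : ℂ[T;T⁻¹] => f.coeff k) ((h' j i hi).trans (h j i hi).symm)
    simp only [coeff_mp] at e
    refine congrArg ρ (Subtype.ext ?_)
    cases b
    · rw [coeff_nz, coeff_nz]
      exact congrArg Neg.neg (e _)
    · exact e 0
  have un : ∀ x : ℤ, x ≠ 0 → ∀ᶠ T in fG O t, IsUnit (x : cl T) := fun x hx => by
    filter_upwards [ev_in (S.fr.rat (x : ℚ)⁻¹)] with T h
    exact IsUnit.of_mul_eq_one ⟨_, h⟩ (Subtype.ext (by simp [hx]))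
  obtain ⟨T₁, hle₁, h₁, H₁, L₁, τ₁, C₁, e₁⟩ := (S.ev_chn hp hs hρ).exists
  obtain ⟨N, z, hN, inj, mid, hz⟩ := C₁.exps H₁
  obtain ⟨T₂, ⟨hle₂, h₂, H₂, L₂, τ₂, C₂, e₂⟩, u₂⟩ :=
    ((S.ev_chn hp hs hρ).and (un N (by omega))).exists
  obtain ⟨ν₂, hν₂⟩ := u₂.exists_right_inv
  choose M hM hy using C₂.hyp H₂ hN (by simpa using hν₂) inj fun b j i hi =>
    (tr e₁ e₂ b j i hi).trans (hz b j i hi)
  filter_upwards [S.ev_chn hp hs hρ, un N (by omega),
    eventually_all.2 fun b => eventually_all.2 fun j => un (M b j) (by have := hM b j; omega),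
    eventually_all.2 fun b => eventually_all.2 fun j => eventually_all.2 fun l =>
      eventually_all.2 fun l' => eventually_all.2 fun h : l ≠ l' =>
        un (z b j l - z b j l') (sub_ne_zero.2 ((inj b j).ne h))]
    with T ⟨hle, h, H, L, τ, C, e⟩ u1 u2 u3 E m i₀ h₀ i hi k
  obtain ⟨ν, hν⟩ := u1.exists_right_inv
  obtain ⟨x, y, e'⟩ := C.main H hN (by simpa using hν) u3 mid (fun b j i hi =>
    (tr e₁ e b j i hi).trans (hz b j i hi)) (fun b j => ⟨M b j, by simpa using u2 b j, hy b j⟩)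
    E m h₀ hi k
  refine ⟨x, x.2, y, y.2, ?_⟩
  rw [← rr_congr (e 0) m hi, ← bs_map (mp (cl T).subtype), ← map_one (mp (cl T).subtype),
    ← rr_map _ (mp_th _), coeff_mp, e']
  simp

omit hp hs hρ in
theorem final : ∃ T : Finset ℂ, ∀ i₀ ≤ n, ∀ m : ℕ, ∀ i ≤ n, ∀ e, ∃ y ∈ cl T,
    (rr th 1 n (Lc a Z 0) (bs _ i₀) m i).coeff e = m.factorial * y := by
  classical
  have := S.fr.neBot
  have := S.fr.pid
  obtain ⟨f, f1, u, f2⟩ := UniqueFactorizationMonoid.exists_prime_factors (⟨t, S.fr.mem⟩ : O)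
    fun k => S.fr.ne (congrArg Subtype.val k)
  let A : Finset (Associates O) := (f.map Associates.mk).toFinset
  have a1 : ∀ x ∈ A, ∃ s ∈ f, Associated s (Quotient.out x) := fun x hx => by
    obtain ⟨s, hs, rfl⟩ := Multiset.mem_map.1 (Multiset.mem_toFinset.1 hx)
    exact ⟨s, hs, Associates.mk_eq_mk_iff_associated.1 (Quotient.out_eq _).symm⟩
  have a2 : ∀ x ∈ A, Prime (Quotient.out x : O) := fun x hx => by
    obtain ⟨s, hs, e⟩ := a1 x hx
    exact e.prime (f1 s hs)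
  have a3 : ∀ x ∈ A, (Quotient.out x : O) ∣ ⟨t, S.fr.mem⟩ := fun x hx => by
    obtain ⟨s, hs, e⟩ := a1 x hx
    exact e.symm.dvd.trans ((Multiset.dvd_prod hs).trans ⟨u, f2.symm⟩)
  obtain ⟨w, hw⟩ : (⟨t, S.fr.mem⟩ : O) ∣ (∏ x ∈ A, Quotient.out x) ^ f.card := by
    rw [← f2, Units.mul_right_dvd, ← Multiset.prod_replicate, ← Multiset.map_const',
      ← Multiset.map_id' f, Multiset.map_map]
    refine Multiset.prod_dvd_prod_of_dvd _ _ fun s hs => Dvd.dvd.trans ?_ (dvd_prod_of_mem _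
      (Multiset.mem_toFinset.2 (Multiset.mem_map_of_mem Associates.mk hs)))
    exact (Associates.mk_eq_mk_iff_associated.1 (Quotient.out_eq _).symm).dvd
  have a4 : ∀ x ∈ A, ∀ y ∈ A, x ≠ y → ∃ c d : O, c * Quotient.out x + d * Quotient.out y = 1 :=
    fun x hx y hy e => (a2 x hx).irreducible.coprime_iff_not_dvd.2 fun k => e (by
      rw [← Quotient.out_eq x, ← Quotient.out_eq y]
      exact Quotient.sound (((a2 x hx).dvd_prime_iff_associated (a2 y hy)).1 k))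
  choose! c d hcd using a4
  obtain ⟨T, G, h1, h2, h3, h4, h5⟩ := (ev_gd.and ((ev_in w.2).and
    (((eventually_all_finset A).2 fun x hx => (ev_in (Quotient.out x : O).2).and
      ((S.fr.res _ (a2 x hx) (a3 x hx)).elim fun ρ hρ => S.ev_fin (a2 x hx) (a3 x hx) hρ)).and
    (((eventually_all_finset A).2 fun x _ => (eventually_all_finset A).2 fun y _ =>
      (ev_in (c x y).2).and (ev_in (d x y).2)).and ((ev_in S.fr.mem).and
    ((eventually_all_finset (range (n + 2))).2 fun i hi =>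
      ev_LS (S.int 0 (i := i) (by have := mem_range.1 hi; omega)))))))).exists
  choose! L hL using h5
  refine ⟨T, fun i₀ h₀ m i hi e => ?_⟩
  have hx : (rr th 1 n (Lc a Z 0) (bs _ i₀) m i).coeff e ∈ cl T := by
    rw [← rr_congr (fun i hi => hL i (mem_range.2 (by omega))) m hi,
      ← bs_map (mp (cl T).subtype), ← map_one (mp (cl T).subtype), ← rr_map _ (mp_th _), coeff_mp]
    exact Subtype.property _
  refine G.krull _ _ hx fun N => ?_
  let π := Ideal.Quotient.mk (Ideal.span {(m.factorial : cl T)})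
  let σ : A → cl T := fun x => ⟨_, (h2 x x.2).1⟩
  have k : ∏ x : A, π (σ x) ^ (f.card * N) ∣ π ⟨_, hx⟩ := by
    refine prod_dvd_of_coprime (fun x _ y _ e => IsCoprime.pow (IsCoprime.map ?_ π)) fun x _ => ?_
    · exact ⟨⟨_, (h3 x x.2 y y.2).1⟩, ⟨_, (h3 x x.2 y y.2).2⟩, Subtype.ext
        (congrArg (Subtype.val : O → ℂ) (hcd x x.2 y y.2 fun k => e (Subtype.ext k)) :)⟩
    · obtain ⟨x', k1, y', k2, k3⟩ := (h2 x x.2).2 (f.card * N) m i₀ h₀ i hi e
      refine ⟨π ⟨y', k2⟩, ?_⟩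
      rw [← map_pow, ← map_mul, Ideal.Quotient.eq, Ideal.mem_span_singleton]
      exact ⟨⟨x', k1⟩, Subtype.ext (sub_eq_of_eq_add k3)⟩
  obtain ⟨y, hy⟩ := k
  obtain ⟨y, rfl⟩ := Ideal.Quotient.mk_surjective y
  rw [prod_pow, ← map_prod, ← map_pow, ← map_mul, Ideal.Quotient.eq,
    Ideal.mem_span_singleton] at hy
  obtain ⟨x, hx'⟩ := hy
  refine ⟨x, x.2, w ^ N * y, mul_mem (pow_mem h1 N) y.2, ?_⟩
  have e1 := congrArg Subtype.val hx'
  have e2 := congrArg Subtype.val hw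
  rw [← prod_coe_sort] at e2
  push_cast [σ] at e1 e2
  rw [pow_mul, e2] at e1
  linear_combination e1

end Sit

end Pool.Agent.Lib.MP_815ef6_nt.Ch
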