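import Pool.Agent.Lib.MP_815ef6_nt.Conv

/-! Systems with integral divided derivatives. -/

namespace Pool.Agent.Lib.MP_815ef6_nt.Ch
open Polynomial

/-- The matrices `A_m / m!` have entries in `R[z, 1/D]` for one finitely generated ring `R`. -/
def Bd {n : ℕ} (A : Matrix (Fin n) (Fin n) (RatFunc ℂ)) : Prop :=
  ∃ (T : Finset ℂ) (D : ℂ[X]), D ≠ 0 ∧ (∀ i, D.coeff i ∈ cl T) ∧ ∀ (m : ℕ) i j,
    ∃ g, InLoc (cl T) D g ∧ Aseq A m i j = (m.factorial : RatFunc ℂ) * g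

end Pool.Agent.Lib.MP_815ef6_nt.Ch
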