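import Pool.Agent.Lib.MP_815ef6_nt.CH.BdD
import Pool.Agent.Lib.MP_815ef6_nt.CH.Ana

/-! Integral divided derivatives give integral solutions. -/

namespace Pool.Agent.Lib.MP_815ef6_nt.Ch
open Polynomial Finset

theorem bd_poly {n : ℕ} {A : Matrix (Fin n) (Fin n) (RatFunc ℂ)} (h : Bd A) {Ω : ℂ[X]}
    (hS : ∀ m i j, Aseq A m i j ∈ OS Ω) : ∃ T : Finset ℂ, ∀ (m : ℕ) i j, ∃ (s : ℕ) (P : ℂ[X]),
      (∀ e, P.coeff e ∈ cl T) ∧ am (C (m.factorial : ℂ)⁻¹) * Aseq A m i j * am Ω ^ s = am P := by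
  obtain ⟨T₀, D, hD, hc, h⟩ := h
  obtain ⟨T, h1, h2, h3⟩ := ((ev_le T₀).and ((ev_mem D.leadingCoeff⁻¹).and (ev_poly Ω))).exists
  refine ⟨T, fun m i j => ?_⟩
  obtain ⟨g, ⟨Q, s, hQ, hg⟩, hij⟩ := h m i j
  obtain ⟨t, r, e⟩ := hS m i j
  have hp : (m.factorial : ℂ) ≠ 0 := by exact_mod_cast m.factorial_ne_zero
  refine ⟨t, C (m.factorial : ℂ)⁻¹ * r, ?_, by rw [map_mul, ← e, mul_assoc]⟩
  have l1 : C D.leadingCoeff⁻¹ ∈ lifts (cl T).subtype := C_mem_lifts _ (⟨_, h2⟩ : cl T)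
  have l2 : D ∈ lifts (cl T).subtype := ana_lifts.mpr fun a => h1 (hc a)
  have l3 : (D * C D.leadingCoeff⁻¹) ^ s * (C (m.factorial : ℂ)⁻¹ * r) =
      C D.leadingCoeff⁻¹ ^ s * (Ω ^ t * Q) := by
    have e1 : am (C (m.factorial : ℂ)⁻¹) * (m.factorial : RatFunc ℂ) = 1 := by
      rw [← map_natCast am, ← map_mul, ← map_natCast (C : ℂ →+* ℂ[X]), ← map_mul,
        inv_mul_cancel₀ hp, map_one, map_one]
    apply am_inj
    rw [mul_pow, map_mul, map_mul, map_mul, map_mul, map_mul, map_pow am D, map_pow am Ω,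
      ← e, ← hg, hij]
    linear_combination am D ^ s * am (C D.leadingCoeff⁻¹ ^ s) * am Ω ^ t * g * e1
  exact ana_lifts.mp (ana_div ((monic_mul_leadingCoeff_inv hD).pow s)
    (pow_mem (mul_mem l2 l1) s) (l3 ▸ mul_mem (pow_mem l1 s) (mul_mem (pow_mem
      (ana_lifts.mpr h3) t) (ana_lifts.mpr fun a => h1 (hQ a)))))

theorem bd_integral {n : ℕ} {A : Matrix (Fin n) (Fin n) (RatFunc ℂ)} (h : Bd A) {U : Set ℂ}
    (hU : IsOpen U) (hUA : ∀ z ∈ U, ∀ i j, (A i j).denom.eval z ≠ 0) (y : ℂ → Fin n → ℂ)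
    (hy : ∀ z ∈ U, ∀ i, HasDerivAt (fun w => y w i)
      (∑ j, (A i j).eval (RingHom.id ℂ) z * y z j) z) (i : Fin n) :
    IsIntegralFn U fun z => y z i := by
  classical
  let S : Finset ℂ := univ.biUnion fun p : Fin n × Fin n => (A p.1 p.2).denom.roots.toFinset
  let pt : S → ℂ := Subtype.val
  have hpt : ∀ x, pt x ∉ U := fun x hx => by
    obtain ⟨p, -, hp⟩ := mem_biUnion.1 x.2
    exact hUA _ hx _ _ (isRoot_of_mem_roots (Multiset.mem_toFinset.1 hp))
  have hne : ∀ z ∈ U, ∀ x, pt x ≠ z := fun z hz x h => hpt x (h ▸ hz)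
  have hA' : ∀ i j, A i j ∈ OS (Om univ pt) := fun i j => mem_OS_of_poles fun z hz =>
    mem_biUnion.2 ⟨(i, j), mem_univ _,
      Multiset.mem_toFinset.2 ((mem_roots (A i j).denom_ne_zero).2 hz)⟩
  have hS' : ∀ m i j, Aseq A m i j ∈ OS (Om univ pt) := fun m => by
    induction m with
    | zero =>
      intro i j
      rw [Aseq, Matrix.one_apply]
      split_ifs
      exacts [one_mem _, zero_mem _]
    | succ m ih =>
      exact fun i j => add_mem (der_mem_OS (ih i j))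
        (sum_mem (t := univ) fun l _ => mul_mem (ih i l) (hA' l j))
  obtain ⟨T, hT⟩ := bd_poly h hS'
  let G : Finset (U → ℂ) := (T.image fun a _ => a) ∪ (univ.image fun x z => ((z : ℂ) - pt x)⁻¹) ∪
    {fun z : U => (z : ℂ)} ∪ univ.image fun j z => y z j
  let B := Subring.closure (G : Set (U → ℂ))
  have m1 : ∀ a ∈ cl T, (fun _ : U => a) ∈ B := fun a ha =>
    (Subring.closure_le (t := B.comap (Pi.constRingHom U ℂ))).mpr (fun a ha =>
      Subring.subset_closure
        (mem_union_left _ (mem_union_left _ (mem_union_left _ (mem_image_of_mem _ ha))))) ha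
  have m2 : ∀ x, (fun z : U => ((z : ℂ) - pt x)⁻¹) ∈ B := fun x => Subring.subset_closure
    (mem_union_left _ (mem_union_left _ (mem_union_right _ (mem_image_of_mem _ (mem_univ x)))))
  have m3 : (fun z : U => (z : ℂ)) ∈ B :=
    Subring.subset_closure (mem_union_left _ (mem_union_right _ (mem_singleton_self _)))
  have m4 : ∀ j, (fun z : U => y z j) ∈ B := fun j =>
    Subring.subset_closure (mem_union_right _ (mem_image_of_mem _ (mem_univ j)))
  have m5 : ∀ (k : ℕ) i j,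
      (fun z : U => (k.factorial : ℂ)⁻¹ * evv (some (z : ℂ)) (Aseq A k i j)) ∈ B := by
    intro k i j
    obtain ⟨s, P, h1, h2⟩ := hT k i j
    have := evv_mem hpt m3 m2 h2 fun c hc => by
      obtain ⟨e, -, rfl⟩ := mem_coeffs_iff.mp hc
      exact m1 _ (h1 e)
    refine (congrArg (· ∈ B) (funext fun z => ?_)).mp this
    exact ((Val.const _ _).mul (val_OS (hS' k i j) (hne z z.2))).evv_eq
  refine ⟨B, ⟨⟨G, rfl⟩, fun g hg => (good_closure (fun g hg => ?_) hg).spec hU⟩, m4 i⟩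
  simp only [G, coe_union, coe_image, coe_singleton, Set.mem_union, Set.mem_image,
    Set.mem_singleton_iff, mem_coe] at hg
  rcases hg with ((⟨a, ha, rfl⟩ | ⟨x, -, rfl⟩) | rfl) | ⟨i, -, rfl⟩
  · exact good_const (m1 a (Subring.subset_closure ha))
  · refine good_radical one_ne_zero (by rw [Nat.cast_one, inv_one]; exact B.one_mem) {x} hpt m2
      (ν := fun _ => -1) (fun _ => ⟨-1, by simp⟩) (f := fun z => (z - pt x)⁻¹) (m2 x) fun z hz => ?_
    refine (((hasDerivAt_id z).sub_const (pt x)).fun_inv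
      (sub_ne_zero.mpr (hne z hz x).symm)).congr_deriv ?_
    simp [div_eq_mul_inv, pow_two]
  · exact good_id m3
  · refine ⟨fun k z => ∑ j, (k.factorial : ℂ)⁻¹ * evv (some z) (Aseq A k i j) * y z j,
      ⟨fun k => ?_, fun k z hz => ?_⟩, funext fun z => ?_⟩
    · have := B.sum_mem (t := univ) fun j _ => B.mul_mem (m5 k i j) (m4 j)
      rwa [Finset.sum_fn] at this
    · have hk : (k.factorial : ℂ) ≠ 0 := by exact_mod_cast k.factorial_ne_zero
      have hk' : (k : ℂ) + 1 ≠ 0 := by exact_mod_cast k.succ_ne_zero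
      have e1 : ∀ j l, (A j l).eval (RingHom.id ℂ) z = evv (some z) (A j l) := fun j l =>
        (evv_eq_eval (hUA z hz j l)).symm
      have e2 : ∀ l, evv (some z) (Aseq A (k + 1) i l) = evv (some z) (rder (Aseq A k i l)) +
          ∑ j, evv (some z) (Aseq A k i j) * evv (some z) (A j l) := fun l =>
        ((val_OS (der_mem_OS (hS' k i l)) (hne z hz)).add (Val.sum univ fun j _ =>
          (val_OS (hS' k i j) (hne z hz)).mul (val_OS (hA' j l) (hne z hz)))).evv_eq
      refine (HasDerivAt.fun_sum fun j _ =>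
        ((hasDerivAt_evv (hS' k i j) (hne z hz)).const_mul _).mul (hy z hz j)).congr_deriv ?_
      have e3 : ((k : ℂ) + 1) * ((k + 1).factorial : ℂ)⁻¹ = (k.factorial : ℂ)⁻¹ := by
        rw [Nat.factorial_succ]
        push_cast
        field_simp
      rw [zero_mul, sub_zero]
      simp only [e1, e2, mul_sum, ← mul_assoc, e3, mul_add, add_mul, sum_mul, sum_add_distrib]
      rw [sum_comm]
    · have e : ∀ j, evv (some (z : ℂ)) (Aseq A 0 i j) = if i = j then 1 else 0 := fun j => by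
        rw [Aseq, Matrix.one_apply]
        split_ifs
        · simpa using (Val.const (some (z : ℂ)) 1).evv_eq
        · simpa using (Val.const (some (z : ℂ)) 0).evv_eq
      simp [e]

end Pool.Agent.Lib.MP_815ef6_nt.Ch
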