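import Pool.Agent.Lib.MP_815ef6_nt.CH.Sup

/-! The gluing of the components, order by order. -/

namespace Pool.Agent.Lib.MP_815ef6_nt.Ch
open Finset LaurentPolynomial

variable {B : Type*} [CommRing B] {ι : Type*} {n : ℕ}

/-- The data of the gluing. The node after the component `j` joins `w = ∞` (side `false`) of `j`
with `w = 0` (side `true`) of `nx j`. -/
structure Glue (s : B) (nx : ι ≃ ι) (n : ℕ) (L L₀ : ι → ℕ → B[T;T⁻¹]) (τ : ι → B)
    (κ : Bool → ι → Fin (n + 1) → B) (φ : Bool → ι → Fin (n + 1) → Sq B) : Prop where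
  tau : ∀ j, s ∣ τ j
  top : ∀ j, L₀ j (n + 1) = 1 - T 1
  dvd : ∀ j, 1 - T 1 ∣ L j (n + 1)
  red : ∀ j, ∀ i ≤ n + 1, ∀ a, s ∣ (L j i - L₀ j i).coeff a
  sep : ∀ b j, Sep (κ b j)
  sol : ∀ b j i, op (Dk (κ b j i)) (n + 2) (L₀ j) (φ b j i) = 0
  one : ∀ b j i, φ b j i 0 = 1
  sup : ∀ b j i k, sg b * k < 0 → φ b j i k = 0
  node : ∀ j, (κ false j = κ true (nx j) ∧
      ∀ i ≤ n + 1, Nd ⊥ (τ j) (cf (nz false (L j) i)) (cf (L (nx j) i))) ∨
    τ j = 0 ∧ ∀ i ≤ n + 1, ∀ a : ℤ, 0 < a →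
      (nz false (L j) i).coeff a = 0 ∧ (L (nx j) i).coeff (-a) = 0
  eps : ∀ b j i (m : ℕ) (h : Sq B),
    (∀ k, s ^ (m + 1) ∣ op (Dk (κ b j i)) (n + 2) (nz b (L j)) h k) →
    (∀ k, sg b * k < 0 → s ^ (m + 2) ∣ op (Dk (κ b j i)) (n + 2) (nz b (L j)) h k) →
      s ^ (m + 2) ∣ op (Dk (κ b j i)) (n + 2) (nz b (L j)) h 0

/-- The state of the induction. -/
structure Stt (s : B) (nx : ι ≃ ι) (n : ℕ) (L L₀ : ι → ℕ → B[T;T⁻¹]) (τ : ι → B)
    (κ : Bool → ι → Fin (n + 1) → B) (φ : Bool → ι → Fin (n + 1) → Sq B) (m : ℕ)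
    (g : ι → ℕ → B[T;T⁻¹]) : Prop where
  reg : ∀ j, Reg n (L₀ j) (g j)
  one : ∀ j, ∀ i ≤ n, ∀ a, s ∣ (g j i - bs _ 0 i).coeff a
  sol : ∀ b j i k, s ^ m ∣ op (Dk (κ b j i)) (n + 2) (L j)
    (op (Dk (κ b j i)) (n + 1) (g j) (φ b j i)) k
  nd : ∀ j i, Nd (Ideal.span {s ^ m}) (τ j)
    (op (Dk (κ true (nx j) i)) (n + 1) (g (nx j)) (φ true (nx j) i) 0 •
      op (Dk (κ false j i)) (n + 1) (g j) (φ false j i))
    (op (Dk (κ false j i)) (n + 1) (g j) (φ false j i) 0 •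
      op (Dk (κ true (nx j) i)) (n + 1) (g (nx j)) (φ true (nx j) i))

variable {s : B} {nx : ι ≃ ι} {L L₀ : ι → ℕ → B[T;T⁻¹]} {τ : ι → B}
  {κ : Bool → ι → Fin (n + 1) → B} {φ : Bool → ι → Fin (n + 1) → Sq B}

theorem core_inv {u : B} (h : s ∣ u - 1) (N : ℕ) : ∃ x, s ^ N ∣ x * u - 1 := by
  refine ⟨∑ i ∈ range N, (1 - u) ^ i, ?_⟩
  have e := geom_sum_mul_neg (1 - u) N
  rw [sub_sub_cancel] at e
  rw [e, sub_sub_cancel_left, dvd_neg]
  exact pow_dvd_pow_of_dvd (dvd_sub_comm.1 h) N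

theorem core_unit {u y : B} (h : s ∣ u - 1) {N : ℕ} (hy : s ^ N ∣ u * y) : s ^ N ∣ y := by
  obtain ⟨x, hx⟩ := core_inv h N
  have := (hy.mul_left x).sub (hx.mul_right y)
  rwa [show x * (u * y) - (x * u - 1) * y = y by ring] at this

theorem core_cong {g : ℕ → B[T;T⁻¹]} (hg : ∀ i ≤ n, ∀ a, s ∣ (g i - bs _ 0 i).coeff a) (κ : B)
    (φ : Sq B) (k : ℤ) : s ∣ op (Dk κ) (n + 1) g φ k - φ k := by
  have := op_mem' (Ideal.span {s}) κ (N := n + 1) (g := g - bs _ 0) φ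
    (fun j hj a => Ideal.mem_span_singleton.2 (hg j (by omega) a)) k
  rw [op_sub, op_bs (by omega)] at this
  exact Ideal.mem_span_singleton.1 this

theorem core_up (κ c : B) (g u : ℕ → B[T;T⁻¹]) (φ : Sq B) :
    op (Dk κ) (n + 1) (g + fun i => C c * u i) φ =
      op (Dk κ) (n + 1) g φ + c • op (Dk κ) (n + 1) u φ := by
  rw [op_add, op_mul]
  exact Sq.ext fun k => by rw [Sq.add_apply, C_smul, Sq.add_apply, Sq.csmul_apply]

theorem core_rel {t α₀ α β₀ β u₀ u v₀ v : B} {m k : ℕ} (hk : k ≠ 0) (ht : s ∣ t)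
    (h1 : s ∣ β₀ - 1) (h2 : s ∣ α) (H : s ^ (m + 2) ∣ β₀ * α - t ^ k * (α₀ * β) + s ^ (m + 1) * u) :
    s ^ (m + 2) ∣ (β₀ + s ^ (m + 1) * v₀) * (α + s ^ (m + 1) * u) -
      t ^ k * ((α₀ + s ^ (m + 1) * u₀) * (β + s ^ (m + 1) * v)) := by
  obtain ⟨t', et⟩ := ht.trans (dvd_pow_self t hk)
  obtain ⟨b, eb⟩ := h1
  obtain ⟨a, ea⟩ := h2
  obtain ⟨y, ey⟩ := H
  refine ⟨y + (b * u + v₀ * a + s ^ m * v₀ * u - t' * (α₀ * v + u₀ * β + s ^ (m + 1) * u₀ * v)), ?_⟩
  linear_combination ey + s ^ (m + 1) * u * eb + s ^ (m + 1) * v₀ * ea -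
    s ^ (m + 1) * (α₀ * v + u₀ * β + s ^ (m + 1) * u₀ * v) * et

/-- The polar part of the correction on one side. -/
theorem core_pol (b : Bool) {κ : Fin (n + 1) → B} (hκ : Sep κ) {φ : Fin (n + 1) → Sq B}
    (h0 : ∀ i, φ i 0 = 1) (h1 : ∀ i k, sg b * k < 0 → φ i k = 0) (g : ℕ → B[T;T⁻¹]) {t : B}
    (ht : s ∣ t) {m : ℕ} (e : ℕ → ℤ) (he : ∀ k, sg b * e k = -k) (p : Fin (n + 1) → B)
    (c : Fin (n + 1) → ℕ → B)
    (H : ∀ i k, s ^ (m + 1) ∣ p i * op (Dk (κ i)) (n + 1) g (φ i) (e k) - t ^ k * c i k) :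
    ∃ d : ℕ → B[T;T⁻¹], (∀ j a, 0 ≤ sg b * a → (d j).coeff a = 0) ∧ ∀ i k, k ≠ 0 →
      s ^ (m + 2) ∣ p i * op (Dk (κ i)) (n + 1) g (φ i) (e k) - t ^ k * c i k +
        s ^ (m + 1) * op (Dk (κ i)) (n + 1) d (φ i) (e k) := by
  choose M hM using fun i => op_fin b (κ i) (n + 1) g
  choose y hy using H
  have ha : ∀ k : ℤ, ((k.natAbs : ℕ) : ℤ) = (sg b * k).natAbs := fun k => by
    cases b <;> simp [sg]
  obtain ⟨d, hd, hd'⟩ := exists_polar b hκ h0 h1
    (fun i k => if univ.sup M + (m + 2) < k.natAbs then 0 else -y i k.natAbs) (univ.sup M + (m + 2))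
    fun i k hk => if_pos (by have := ha k; omega)
  refine ⟨d, hd, fun i k hk => ?_⟩
  have e1 := he k
  have e2 : (e k).natAbs = k := by have := ha (e k); omega
  rw [hd' i _ (by omega), e2]
  split_ifs with h
  · have := le_sup (f := M) (mem_univ i)
    rw [hM i _ (h1 i) _ (by omega), mul_zero, mul_zero, add_zero, zero_sub, dvd_neg]
    exact ((pow_dvd_pow s (by omega)).trans (pow_dvd_pow_of_dvd ht k)).mul_right _
  · rw [hy, mul_neg, add_neg_cancel]
    exact dvd_zero _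

/-- The other parts of the correction do not change the polar part. -/
theorem core_oth (b : Bool) (κ : B) {φ : Sq B} (h1 : ∀ k, sg b * k < 0 → φ k = 0)
    {d : ℕ → B[T;T⁻¹]} (hd : ∀ j a, 0 ≤ sg (!b) * a → (d j).coeff a = 0) (c : ℕ → B) {k : ℤ}
    (hk : sg b * k < 0) : op (Dk κ) (n + 1) (d + fun i => C (c i)) φ k = 0 := by
  refine op_mem ⊥ b κ (-1) (fun j _ a ha => ?_) h1 k (by omega)
  have e1 : 0 ≤ sg (!b) * a := by cases b <;> simp [sg] at ha ⊢ <;> omega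
  have e2 : a ≠ 0 := by rintro rfl; simp at ha
  have e3 := coeff_CT (c j) 0 a
  rw [T_zero, mul_one, if_neg e2.symm] at e3
  change (d j).coeff a + (C (c j) : B[T;T⁻¹]).coeff a = 0
  rw [hd j a e1, e3, add_zero]

/-- The relation at the nodes kills the error terms. -/
theorem Glue.core_sol (G : Glue s nx n L L₀ τ κ φ) {m : ℕ} {g : ι → ℕ → B[T;T⁻¹]}
    (h : Bool → ι → Fin (n + 1) → Sq B)
    (hh : ∀ b j i, op (Dk (κ b j i)) (n + 1) (g j) (φ b j i) = h b j i)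
    (hr : ∀ j, Reg n (L₀ j) (g j)) (h0 : ∀ b j i, s ∣ h b j i 0 - 1)
    (hs : ∀ b j i k, s ^ (m + 1) ∣ op (Dk (κ b j i)) (n + 2) (L j) (h b j i) k)
    (hn : ∀ j i, Nd (Ideal.span {s ^ (m + 2)}) (τ j) (h true (nx j) i 0 • h false j i)
      (h false j i 0 • h true (nx j) i)) (b j i k) :
    s ^ (m + 2) ∣ op (Dk (κ b j i)) (n + 2) (L j) (h b j i) k := by
  have A : ∀ b j i k, s ^ (m + 1) ∣ op (Dk (κ b j i)) (n + 2) (nz b (L j)) (h b j i) k := by
    rintro (_ | _) j i k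
    · rw [op_nz, dvd_neg]
      exact hs ..
    · exact hs ..
  have A' : ∀ b j j' i k (l : ℕ) c, l ≠ 0 → s ^ (m + 2) ∣
      τ j' ^ l * (c * op (Dk (κ b j i)) (n + 2) (nz b (L j)) (h b j i) k) := fun b j j' i k l c hl =>
    pow_succ' s (m + 1) ▸ mul_dvd_mul ((G.tau j').trans (dvd_pow_self _ hl)) ((A ..).mul_left c)
  have P : ∀ j i (l : ℕ), l ≠ 0 →
      s ^ (m + 2) ∣ op (Dk (κ false j i)) (n + 2) (nz false (L j)) (h false j i) l ∧
      s ^ (m + 2) ∣ op (Dk (κ true (nx j) i)) (n + 2) (nz true (L (nx j))) (h true (nx j) i) (-l) := by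
    intro j i l hl
    rcases G.node j with ⟨e, H⟩ | ⟨e, H⟩
    · have N := (hn j i).act (κ false j i) (N := n + 2) (fun l hl => H l (by omega)) l
      rw [op_csmul, op_csmul, Ideal.mem_span_singleton, Ideal.mem_span_singleton] at N
      have a1 := A' true (nx j) j i l l (h false j i 0) hl
      have a2 := A' false j j i (-l) l (h true (nx j) i 0) hl
      rw [← e] at a1 ⊢
      exact ⟨core_unit (h0 ..) ((dvd_sub_left a1).1 N.1), core_unit (h0 ..) ((dvd_sub_left a2).1 N.2)⟩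
    · have N : ∀ l : ℕ, l ≠ 0 → s ^ (m + 2) ∣ h false j i l ∧ s ^ (m + 2) ∣ h true (nx j) i (-l) := by
        intro l hl
        have N := hn j i l
        rw [e, zero_pow hl, zero_mul, zero_mul, sub_zero, sub_zero, Ideal.mem_span_singleton,
          Ideal.mem_span_singleton] at N
        exact ⟨core_unit (h0 ..) N.1, core_unit (h0 ..) N.2⟩
      constructor
      · refine Ideal.mem_span_singleton.1 (op_mem _ false _ (-1) (fun l hl a ha => ?_)
          (fun k hk => ?_) _ (by simp [sg]; omega))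
        · rw [(H l (by omega) a (by simp [sg] at ha; omega)).1]
          exact zero_mem _
        · obtain ⟨l, rfl⟩ : ∃ l : ℕ, k = l := ⟨k.toNat, by simp [sg] at hk; omega⟩
          exact Ideal.mem_span_singleton.2 (N l (by simp [sg] at hk; omega)).1
      · refine Ideal.mem_span_singleton.1 (op_mem _ true _ (-1) (fun l hl a ha => ?_)
          (fun k hk => ?_) _ (by simp [sg]; omega))
        · have := (H l (by omega) (-a) (by simp [sg] at ha; omega)).2
          rw [neg_neg] at this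
          exact this ▸ zero_mem _
        · obtain ⟨l, rfl⟩ : ∃ l : ℕ, k = -l := ⟨k.natAbs, by simp [sg] at hk; omega⟩
          exact Ideal.mem_span_singleton.2 (N l (by simp [sg] at hk; omega)).2
  have Q : ∀ b j i k, sg b * k < 0 →
      s ^ (m + 2) ∣ op (Dk (κ b j i)) (n + 2) (nz b (L j)) (h b j i) k := by
    rintro (_ | _) j i k hk
    · obtain ⟨l, rfl⟩ : ∃ l : ℕ, k = l := ⟨k.toNat, by simp [sg] at hk; omega⟩
      exact (P j i l (by simp [sg] at hk; omega)).1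
    · obtain ⟨l, rfl⟩ : ∃ l : ℕ, k = -l := ⟨k.natAbs, by simp [sg] at hk; omega⟩
      obtain ⟨j, rfl⟩ := nx.surjective j
      exact (P j i l (by simp [sg] at hk; omega)).2
  have R : ∀ b i k, sg b * k ≤ 0 →
      s ^ (m + 2) ∣ op (Dk (κ b j i)) (n + 2) (nz b (L j)) (h b j i) k := fun b i k hk => by
    rcases hk.eq_or_lt with hk | hk
    · obtain rfl : k = 0 := by cases b <;> simpa [sg] using hk
      exact G.eps b j i m _ (A b j i) (Q b j i)
    · exact Q b j i k hk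
  obtain ⟨E, hE⟩ := (hr j).comp (L' := L j) (G.top j ▸ G.dvd j)
  have hE' : ∀ b i, op (Dk (κ b j i)) (n + 2) (L j) (h b j i) =
      op (Dk (κ b j i)) (n + 1) E (φ b j i) := fun b i => hh b j i ▸ hE _ _ (G.sol b j i)
  have U : ∀ b k₀, (∀ i k, sg b * k ≤ k₀ → s ^ (m + 2) ∣ op (Dk (κ b j i)) (n + 2) (L j) (h b j i) k) →
      ∀ l ≤ n, ∀ a, sg b * a ≤ k₀ → (E l).coeff a ∈ Ideal.span {s ^ (m + 2)} := fun b k₀ H =>
    sup_mem _ b (G.sep b j) (fun i => ⟨1, by rw [G.one, one_mul, sub_self]; exact zero_mem _⟩)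
      (fun i k hk => G.sup b j i k hk ▸ zero_mem _) k₀
      fun i k hk => hE' b i ▸ Ideal.mem_span_singleton.2 (H i k hk)
  rw [hE']
  refine Ideal.mem_span_singleton.1 (op_mem' _ _ _ (fun l hl a => ?_) k)
  rcases le_or_gt a 0 with ha | ha
  · exact U true 0 (R true) l (by omega) a (by simpa [sg] using ha)
  · refine U false (-1) (fun i k hk => ?_) l (by omega) a (by simp [sg]; omega)
    have := R false i (k - 1) (by simp [sg] at hk ⊢; omega)
    rwa [op_nz, dvd_neg, sub_add_cancel] at this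

theorem Glue.base (G : Glue s nx n L L₀ τ κ φ) : Stt s nx n L L₀ τ κ φ 1 fun _ => bs _ 0 := by
  have e : ∀ (κ : B) (φ : Sq B), op (Dk κ) (n + 1) (bs B[T;T⁻¹] 0) φ = φ := fun _ _ =>
    op_bs (by omega)
  refine ⟨fun j => reg_one _, fun j i _ a => by simp, fun b j i k => ?_, fun j i k => ?_⟩
  · have := op_mem' (Ideal.span {s}) (κ b j i) (N := n + 2) (g := L j - L₀ j) (φ b j i)
      (fun l hl a => Ideal.mem_span_singleton.2 (G.red j l (by omega) a)) k
    rw [op_sub, G.sol, sub_zero] at this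
    rw [e, pow_one]
    exact Ideal.mem_span_singleton.1 this
  · simp only [e, G.one, one_smul, pow_one, Ideal.mem_span_singleton]
    rcases eq_or_ne k 0 with rfl | hk
    · simp [G.one]
    · have := (G.tau j).trans (dvd_pow_self _ hk)
      rw [G.sup false j i k (by simp [sg]; omega), G.sup true (nx j) i (-k) (by simp [sg]; omega),
        zero_sub, zero_sub, dvd_neg, dvd_neg]
      exact ⟨this.mul_right _, this.mul_right _⟩

theorem Glue.step (G : Glue s nx n L L₀ τ κ φ) {m : ℕ} {g : ι → ℕ → B[T;T⁻¹]}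
    (S : Stt s nx n L L₀ τ κ φ (m + 1) g) : ∃ g', Stt s nx n L L₀ τ κ φ (m + 2) g' := by
  choose dI hI hI' using fun j => core_pol false (G.sep false j) (G.one false j) (G.sup false j)
    (g j) (G.tau j) (fun k => k) (by simp [sg]) _ _
    fun i k => Ideal.mem_span_singleton.1 (S.nd j i k).1
  choose d0 h0 h0' using fun j => core_pol true (G.sep true (nx j)) (G.one true (nx j))
    (G.sup true (nx j)) (g (nx j)) (G.tau j) (fun k => -k) (by simp [sg]) _ _
    fun i k => Ideal.mem_span_singleton.1 (S.nd j i k).2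
  choose c hc using fun j => exists_reg (G.top j) (d0 (nx.symm j) + dI j)
  set u : ι → ℕ → B[T;T⁻¹] := fun j => d0 (nx.symm j) + dI j + fun i => C (c j i) with hu
  have one : ∀ j, ∀ i ≤ n, ∀ a,
      s ∣ ((g j + fun i => C (s ^ (m + 1)) * u j i) i - bs _ 0 i).coeff a := fun j i hi a => by
    have := (S.one j i hi a).add ((dvd_pow_self s m.succ_ne_zero).mul_right ((u j i).coeff a))
    rw [← coeff_C_mul] at this
    rw [Pi.add_apply, add_sub_right_comm]
    exact this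
  have c0 : ∀ b j i, s ∣ op (Dk (κ b j i)) (n + 1) (g j) (φ b j i) 0 - 1 := fun b j i =>
    G.one b j i ▸ core_cong (S.one j) _ _ 0
  have c1 : ∀ b j i k, sg b * k < 0 → s ∣ op (Dk (κ b j i)) (n + 1) (g j) (φ b j i) k :=
    fun b j i k hk => by simpa only [G.sup b j i k hk, sub_zero] using core_cong (S.one j) _ (φ b j i) k
  have reg : ∀ j, Reg n (L₀ j) (g j + fun i => C (s ^ (m + 1)) * u j i) := fun j =>
    (S.reg j).add ((hc j).mul _)
  have nd : ∀ j i, Nd (Ideal.span {s ^ (m + 2)}) (τ j)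
      (op (Dk (κ true (nx j) i)) (n + 1) (g (nx j) + fun i => C (s ^ (m + 1)) * u (nx j) i)
        (φ true (nx j) i) 0 •
        op (Dk (κ false j i)) (n + 1) (g j + fun i => C (s ^ (m + 1)) * u j i) (φ false j i))
      (op (Dk (κ false j i)) (n + 1) (g j + fun i => C (s ^ (m + 1)) * u j i) (φ false j i) 0 •
        op (Dk (κ true (nx j) i)) (n + 1) (g (nx j) + fun i => C (s ^ (m + 1)) * u (nx j) i)
          (φ true (nx j) i)) := fun j i k => by
    rw [Ideal.mem_span_singleton, Ideal.mem_span_singleton]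
    rcases eq_or_ne k 0 with rfl | hk
    · simp [mul_comm]
    have k1 : sg false * (k : ℤ) < 0 := by simp [sg]; omega
    have k2 : sg true * (-k : ℤ) < 0 := by simp [sg]; omega
    have e1 : op (Dk (κ false j i)) (n + 1) (u j) (φ false j i) k =
        op (Dk (κ false j i)) (n + 1) (dI j) (φ false j i) k := by
      rw [hu]
      dsimp only
      rw [add_right_comm, op_add, Sq.add_apply,
        core_oth false _ (G.sup false j i) (h0 _) _ k1, zero_add]
    have e2 : op (Dk (κ true (nx j) i)) (n + 1) (u (nx j)) (φ true (nx j) i) (-k) =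
        op (Dk (κ true (nx j) i)) (n + 1) (d0 j) (φ true (nx j) i) (-k) := by
      rw [hu]
      dsimp only
      rw [add_assoc, op_add, Sq.add_apply, core_oth true _ (G.sup true _ i) (hI _) _ k2, add_zero,
        nx.symm_apply_apply]
    rw [core_up, core_up]
    exact ⟨core_rel hk (G.tau j) (c0 ..) (c1 _ _ _ _ k1) (e1 ▸ hI' j i k hk),
      core_rel hk (G.tau j) (c0 ..) (c1 _ _ _ _ k2) (e2 ▸ h0' j i k hk)⟩
  refine ⟨fun j => g j + fun i => C (s ^ (m + 1)) * u j i, reg, one,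
    G.core_sol _ (fun _ _ _ => rfl) reg (fun b j i => G.one b j i ▸ core_cong (one j) _ _ 0)
      (fun b j i k => ?_) nd, nd⟩
  rw [core_up, op_add', op_csmul]
  exact (S.sol b j i k).add (dvd_mul_right _ _)

theorem Glue.exists_sol (G : Glue s nx n L L₀ τ κ φ) {j : ι} (hj : τ j = 0) (m : ℕ) :
    ∃ h : Fin (n + 1) → Sq B, ∀ i, s ∣ h i 0 - 1 ∧ (∀ k < 0, s ^ m ∣ h i k) ∧
      ∀ k, s ^ m ∣ op (Dk (κ true (nx j) i)) (n + 2) (L (nx j)) (h i) k := by
  obtain ⟨g, S⟩ : ∃ g, Stt s nx n L L₀ τ κ φ (m + 1) g := by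
    induction m with
    | zero => exact ⟨_, G.base⟩
    | succ m ih => exact ih.elim fun _ S => G.step S
  have c0 : ∀ b j i, s ∣ op (Dk (κ b j i)) (n + 1) (g j) (φ b j i) 0 - 1 := fun b j i =>
    G.one b j i ▸ core_cong (S.one j) _ _ 0
  refine ⟨fun i => op (Dk (κ true (nx j) i)) (n + 1) (g (nx j)) (φ true (nx j) i), fun i =>
    ⟨c0 .., fun k hk => (pow_dvd_pow s m.le_succ).trans ?_,
      fun k => (pow_dvd_pow s m.le_succ).trans (S.sol ..)⟩⟩
  obtain ⟨l, rfl⟩ : ∃ l : ℕ, k = -l := ⟨k.natAbs, by omega⟩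
  have N := (S.nd j i l).2
  rw [hj, zero_pow (by omega), zero_mul, sub_zero, Ideal.mem_span_singleton] at N
  exact core_unit (c0 ..) N

/-- Approximate solutions give the divisibility of the numerators. -/
theorem fin_dvd {L : ℕ → B[T;T⁻¹]} {κ : Fin (n + 1) → B} (hκ : Sep κ) {N : ℕ}
    {h : Fin (n + 1) → Sq B} (H : ∀ i, s ∣ h i 0 - 1 ∧ (∀ k < 0, s ^ N ∣ h i k) ∧
      ∀ k, s ^ N ∣ op (Dk (κ i)) (n + 2) L (h i) k) {m : ℕ}
    (hm : ∀ (i) (k : ℤ), (m.factorial : B) ∣ ∏ j ∈ range m, (κ i + k - j)) {i₀ i : ℕ}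
    (h₀ : i₀ ≤ n) (hi : i ≤ n) (a : ℤ) :
    ∃ y z, (rr th 1 n L (bs _ i₀) m i).coeff a = m.factorial * y + s ^ N * z := by
  set I : Ideal B := Ideal.span {(m.factorial : B), s ^ N} with hI
  have i1 : ∀ x, (m.factorial : B) ∣ x → x ∈ I := fun x ⟨y, e⟩ =>
    e ▸ I.mul_mem_right y (Ideal.subset_span (by simp))
  have i2 : ∀ x, s ^ N ∣ x → x ∈ I := fun x ⟨y, e⟩ =>
    e ▸ I.mul_mem_right y (Ideal.subset_span (by simp))
  let W : Submodule B[T;T⁻¹] (Sq B) :=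
    { carrier := {u | ∀ k, u k ∈ I}
      add_mem' := fun hu hv k => I.add_mem (hu k) (hv k)
      zero_mem' := fun _ => I.zero_mem
      smul_mem' := fun f u hu k => by
        rw [smul_apply]
        exact sum_mem fun a _ => I.mul_mem_left _ (hu _) }
  have := sup_mem I true hκ (h := h) (fun l => (core_inv (H l).1 N).imp fun x => i2 _)
    (fun l k hk => i2 _ ((H l).2.1 k (by simpa [sg] using hk))) (g := rr th 1 n L (bs _ i₀) m) a
    (fun l k _ => ?_) i hi a (by simp [sg])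
  · obtain ⟨y, z, e⟩ := Ideal.mem_span_pair.1 this
    exact ⟨y, z, by rw [← e, mul_comm y, mul_comm z]⟩
  rw [← sub_eq_iff_eq_add.2 ((lb_Dk (κ l)).gen 1 n L (bs _ i₀) (h l) m)]
  refine (W.sub_mem (W.smul_mem _ fun k => ?_) (er_mem W (fun w hw k => ?_) (fun k => ?_) m)) k
  · rw [fl_apply]
    exact i1 _ ((hm l k).mul_right _)
  · exact I.mul_mem_left _ (hw k)
  · exact i2 _ ((H l).2.2 k)

end Pool.Agent.Lib.MP_815ef6_nt.Ch
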