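import Pool.Agent.Lib.MP_815ef6_nt.Sol
import Pool.Agent.Lib.MP_aed2da_nt.QCheb

/-! Finitely generated rings of complex numbers and a theorem of Kronecker. -/

namespace Pool.Agent.Lib.MP_815ef6_nt.Ch
open Finset

theorem kr_mono {T T' : Finset ℂ} (h : T ⊆ T') : cl T ≤ cl T' :=
  Subring.closure_mono (coe_subset.2 h)

theorem kr_mem {T : Finset ℂ} {x : ℂ} (h : x ∈ T) : x ∈ cl T := Subring.subset_closure h

theorem fg_zero (T : Finset ℂ) {x : ℂ} (p₀ : ℕ)
    (h : ∀ p : ℕ, p.Prime → p₀ ≤ p → ∃ k : ℕ, ∃ y ∈ cl T, x ^ k = p * y) : x = 0 := by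
  classical
  by_contra hx
  obtain ⟨p₁, h1⟩ := exists_char (insert x (insert x⁻¹ T))
  obtain ⟨p, hle, hp⟩ := Nat.exists_infinite_primes (max p₀ p₁)
  obtain ⟨k, _, _, ⟨φ⟩⟩ := h1 p hp (le_of_max_le_right hle)
  obtain ⟨m, y, hy, e⟩ := h p hp (le_of_max_le_left hle)
  have a1 : x ∈ cl (insert x (insert x⁻¹ T)) := kr_mem (mem_insert_self _ _)
  have a2 : x⁻¹ ∈ cl (insert x (insert x⁻¹ T)) :=
    kr_mem (mem_insert_of_mem (mem_insert_self _ _))
  have a3 : y ∈ cl (insert x (insert x⁻¹ T)) :=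
    kr_mono ((subset_insert _ _).trans (subset_insert _ _)) hy
  have e1 : (⟨x, a1⟩ : cl (insert x (insert x⁻¹ T))) ^ m = p * ⟨y, a3⟩ := Subtype.ext e
  have e2 : (⟨x, a1⟩ : cl (insert x (insert x⁻¹ T))) * ⟨x⁻¹, a2⟩ = 1 :=
    Subtype.ext (mul_inv_cancel₀ hx)
  have e3 := congrArg φ e1
  have e4 := congrArg φ e2
  rw [map_pow, map_mul, map_natCast, CharP.cast_eq_zero, zero_mul] at e3
  rw [map_mul, map_one] at e4
  exact pow_ne_zero m (left_ne_zero_of_mul_eq_one e4) e3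

section NF
open NumberField Filter Topology Asymptotics
open Pool.Agent.Lib.MP_aed2da_nt.QC (w pw w_nonneg pw_nonneg summable_pw P_bigO w_le_half PO mem_T
  fiber_sum fiber_zero two_le)

theorem kr_log : ¬ (fun s : ℝ => Real.log (s - 1)) =O[𝓝[>] 1] fun _ => (1 : ℝ) := by
  intro h3
  have h4 : Tendsto (fun s : ℝ => Real.log (s - 1)) (𝓝[>] 1) atBot := by
    refine Real.tendsto_log_nhdsGT_zero.comp ?_
    refine tendsto_nhdsWithin_iff.2 ⟨?_, ?_⟩
    · have : Tendsto (fun s : ℝ => s - 1) (𝓝 1) (𝓝 (1 - 1)) := tendsto_id.sub_const 1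
      rw [sub_self] at this
      exact this.mono_left nhdsWithin_le_nhds
    · filter_upwards [self_mem_nhdsWithin] with s hs
      exact sub_pos.2 (show 1 < s from hs)
  obtain ⟨c, hc⟩ := h3.bound
  obtain ⟨s, h5, h6⟩ := (hc.and (h4.eventually_lt_atBot (-c))).exists
  rw [norm_one, mul_one, Real.norm_eq_abs, abs_le] at h5
  linarith [h5.1]

theorem kr_span {p : ℕ} (hp : p.Prime) :
    (Ideal.span {(p : 𝓞 ℚ)}).IsMaximal ∧ Ideal.absNorm (Ideal.span {(p : 𝓞 ℚ)}) = p := by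
  have e : Ideal.absNorm (Ideal.span {(p : 𝓞 ℚ)}) = p := by
    rw [Ideal.absNorm_span_natCast, RingOfIntegers.rank, Module.finrank_self, pow_one]
  refine ⟨(Ideal.isPrime_of_irreducible_absNorm (by rw [e]; exact hp)).isMaximal fun h => ?_, e⟩
  rw [h, Ideal.absNorm_bot] at e
  exact hp.ne_zero e.symm

variable {K : Type} [Field K] [NumberField K]

theorem kr_norm_le {p : ℕ} (hp : p.Prime) (h : ∀ x : 𝓞 K, (p : 𝓞 K) ∣ x ^ p - x)
    {P : Ideal (𝓞 K)} (hP : P.IsMaximal) (hm : (p : 𝓞 K) ∈ P) : Ideal.absNorm P ≤ p := by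
  classical
  have : Finite (𝓞 K ⧸ P) := Ideal.finiteQuotientOfFreeOfNeBot P
    (Ring.ne_bot_of_isMaximal_of_not_isField hP (RingOfIntegers.not_isField K))
  let _ := Fintype.ofFinite (𝓞 K ⧸ P)
  let _ := Ideal.Quotient.field P
  rw [Ideal.absNorm_apply, Submodule.cardQuot_apply, Nat.card_eq_fintype_card,
    ← FiniteField.X_pow_card_sub_X_natDegree_eq (𝓞 K ⧸ P) hp.one_lt]
  refine Polynomial.card_le_degree_of_subset_roots (Z := univ) fun z _ => ?_
  obtain ⟨z, rfl⟩ := Ideal.Quotient.mk_surjective z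
  rw [Polynomial.mem_roots (FiniteField.X_pow_card_sub_X_ne_zero _ hp.one_lt), Polynomial.IsRoot,
    Polynomial.eval_sub, Polynomial.eval_pow, Polynomial.eval_X, ← map_pow, ← map_sub,
    Ideal.Quotient.eq_zero_iff_mem]
  exact P.mem_of_dvd (h z) hm

theorem kr_two {p : ℕ} (hp : p.Prime) (h : ∀ x : 𝓞 K, (p : 𝓞 K) ∣ x ^ p - x)
    (hd : Module.finrank ℚ K ≠ 1) : 2 ≤ (PO K (Ideal.span {(p : 𝓞 ℚ)})).card := by
  have hpos : 0 < Module.finrank ℚ K := Module.finrank_pos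
  have hn : Ideal.absNorm (Ideal.span {(p : 𝓞 K)}) = p ^ Module.finrank ℚ K := by
    rw [Ideal.absNorm_span_natCast, RingOfIntegers.rank]
  have hp0 : (p : 𝓞 K) ≠ 0 := Nat.cast_ne_zero.2 hp.ne_zero
  have hrad : (Ideal.span {(p : 𝓞 K)}).IsRadical := by
    rintro x ⟨k, hk⟩
    have h1 : ∀ j : ℕ, (p : 𝓞 K) ∣ x ^ p ^ j - x := fun j => by
      induction j with
      | zero => simp
      | succ j ih =>
        have := (h (x ^ p ^ j)).add ih
        rwa [← pow_mul, ← pow_succ, sub_add_sub_cancel] at this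
    have h2 := (Ideal.span {(p : 𝓞 K)}).pow_mem_of_pow_mem hk (Nat.lt_pow_self hp.one_lt).le
    have h3 := (Ideal.span {(p : 𝓞 K)}).sub_mem h2 (Ideal.mem_span_singleton.2 (h1 k))
    rwa [sub_sub_cancel] at h3
  have hmem : ∀ P : Ideal (𝓞 K), Ideal.span {(p : 𝓞 K)} ≤ P ∧ P.IsPrime →
      P.IsMaximal ∧ P ∈ PO K (Ideal.span {(p : 𝓞 ℚ)}) := by
    rintro P ⟨h1, h2⟩
    rw [Ideal.span_singleton_le_iff_mem] at h1
    have h3 : P.IsMaximal := h2.isMaximal fun e => hp0 (by rwa [e, Ideal.mem_bot] at h1)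
    refine ⟨h3, (mem_T (kr_span hp).1).2 ⟨h3, ((kr_span hp).1.eq_of_le
      (Ideal.IsMaximal.under (𝓞 ℚ) P).ne_top ?_).symm⟩⟩
    rw [Ideal.span_singleton_le_iff_mem, Ideal.under_def, Ideal.mem_comap, map_natCast]
    exact h1
  have htop : Ideal.span {(p : 𝓞 K)} ≠ ⊤ := fun e => by
    rw [e, Ideal.absNorm_top] at hn
    exact (Nat.one_lt_pow hpos.ne' hp.one_lt).ne hn
  obtain ⟨P, hP, hle⟩ := Ideal.exists_le_maximal _ htop
  by_contra hc
  have hone := card_le_one.1 (show (PO K (Ideal.span {(p : 𝓞 ℚ)})).card ≤ 1 by omega)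
  have e : P ≤ Ideal.span {(p : 𝓞 K)} := by
    rw [← hrad.radical, Ideal.radical_eq_sInf]
    exact le_sInf fun Q hQ => (hone _ (hmem P ⟨hle, hP.isPrime⟩).2 _ (hmem Q hQ).2).le
  have h4 := kr_norm_le hp h hP ((Ideal.span_singleton_le_iff_mem _).1 hle)
  rw [le_antisymm e hle, hn] at h4
  have h5 : p ^ Module.finrank ℚ K ≤ p ^ 1 := by rwa [pow_one]
  have := (Nat.pow_le_pow_iff_right hp.one_lt).1 h5
  omega

theorem kr_fiber {p₀ : ℕ} (h : ∀ p : ℕ, p.Prime → p₀ ≤ p → ∀ x : 𝓞 K, (p : 𝓞 K) ∣ x ^ p - x)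
    (hd : Module.finrank ℚ K ≠ 1) {s : ℝ} (hs : 1 < s) (q : Ideal (𝓞 ℚ)) :
    2 * pw s q ≤ ∑' P : (fun P : Ideal (𝓞 K) => P.under (𝓞 ℚ)) ⁻¹' {q}, pw s P.1 +
      if Ideal.absNorm q < p₀ then 1 else 0 := by
  have h0 : 0 ≤ ∑' P : (fun P : Ideal (𝓞 K) => P.under (𝓞 ℚ)) ⁻¹' {q}, pw s P.1 :=
    tsum_nonneg fun P => pw_nonneg _ _
  by_cases hq : q.IsMaximal
  · rw [pw, if_pos hq]
    split_ifs with hlt
    · linarith [w_le_half hs.le hq]
    · obtain ⟨p, n, -, h1, hp, -⟩ := Ideal.exists_prime_and_absNorm_eq_pow q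
      obtain rfl : Ideal.span {(p : 𝓞 ℚ)} = q :=
        (kr_span hp).1.eq_of_le hq.ne_top ((Ideal.span_singleton_le_iff_mem _).2 h1)
      rw [(kr_span hp).2, not_lt] at hlt
      rw [fiber_sum s hq, add_zero]
      refine le_trans ?_ (card_nsmul_le_sum _ _ (w s (Ideal.span {(p : 𝓞 ℚ)})) fun P hP => ?_)
      · rw [nsmul_eq_mul]
        exact mul_le_mul_of_nonneg_right (by exact_mod_cast kr_two hp (h p hp hlt) hd)
          (w_nonneg _ _)
      · obtain ⟨h2, h3⟩ := (mem_T hq).1 hP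
        have h4 : (p : 𝓞 K) ∈ P := by
          rwa [← h3, Ideal.under_def, Ideal.mem_comap, map_natCast] at h1
        have h5 := kr_norm_le hp (h p hp hlt) h2 h4
        have h6 := two_le h2
        rw [w, w, (kr_span hp).2]
        exact Real.rpow_le_rpow_of_nonpos (by exact_mod_cast (by omega)) (by exact_mod_cast h5)
          (by linarith)
  · rw [pw, if_neg hq]
    split_ifs <;> linarith

end NF

open Filter Topology Asymptotics Pool.Agent.Lib.MP_aed2da_nt.QC in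
theorem kron_nf (K : Type) [Field K] [NumberField K] (p₀ : ℕ)
    (h : ∀ p : ℕ, p.Prime → p₀ ≤ p → ∀ x : NumberField.RingOfIntegers K,
      (p : NumberField.RingOfIntegers K) ∣ x ^ p - x) : Module.finrank ℚ K = 1 := by
  classical
  by_contra hd
  have hfin : {q : Ideal (NumberField.RingOfIntegers ℚ) | Ideal.absNorm q < p₀}.Finite :=
    (Ideal.finite_setOfPred_absNorm_le (S := NumberField.RingOfIntegers ℚ) p₀).subset
      fun q hq => Nat.le_of_lt (show Ideal.absNorm q < p₀ from hq)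
  have hg : HasSum (fun q : Ideal (NumberField.RingOfIntegers ℚ) =>
      if Ideal.absNorm q < p₀ then (1 : ℝ) else 0) _ :=
    hasSum_sum_of_ne_finset_zero (s := hfin.toFinset) fun q hq =>
      if_neg fun e => hq (hfin.mem_toFinset.2 e)
  generalize (∑ q ∈ hfin.toFinset, if Ideal.absNorm q < p₀ then (1 : ℝ) else 0) = C at hg
  obtain ⟨c, hc⟩ := ((P_bigO K).sub (P_bigO ℚ)).bound
  have h1 : (fun s : ℝ => ∑' q, pw (F := ℚ) s q) =O[𝓝[>] 1] fun _ => (1 : ℝ) := by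
    refine IsBigO.of_bound (c + C) ?_
    filter_upwards [self_mem_nhdsWithin, hc] with s hs h2
    have hs : 1 < s := hs
    have h3 := hasSum_le (kr_fiber h hd hs) ((summable_pw (F := ℚ) hs).hasSum.mul_left 2)
      (((summable_pw (F := K) hs).hasSum.tsum_fiberwise
        fun P => P.under (NumberField.RingOfIntegers ℚ)).add hg)
    rw [norm_one, mul_one, Real.norm_eq_abs, abs_le] at h2
    rw [norm_one, mul_one, Real.norm_of_nonneg (tsum_nonneg fun q => pw_nonneg _ _)]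
    linarith [h2.2]
  exact kr_log (((P_bigO ℚ).sub h1).congr_left fun s => by ring)

/-- The elements of `cl T` with `x ^ p = x` modulo `p` for `p ≥ p₀`. -/
def krS (T : Finset ℂ) (p₀ : ℕ) : Subring ℂ where
  carrier := {x | x ∈ cl T ∧ ∀ p : ℕ, p.Prime → p₀ ≤ p → ∃ y ∈ cl T, x ^ p - x = p * y}
  mul_mem' := by
    rintro a b ⟨ha, h1⟩ ⟨hb, h2⟩
    refine ⟨mul_mem ha hb, fun p hp hle => ?_⟩
    obtain ⟨y, hy, e1⟩ := h1 p hp hle
    obtain ⟨z, hz, e2⟩ := h2 p hp hle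
    exact ⟨a ^ p * z + b * y, add_mem (mul_mem (pow_mem ha _) hz) (mul_mem hb hy), by
      rw [mul_pow]; linear_combination a ^ p * e2 + b * e1⟩
  one_mem' := ⟨one_mem _, fun p _ _ => ⟨0, zero_mem _, by simp⟩⟩
  add_mem' := by
    rintro a b ⟨ha, h1⟩ ⟨hb, h2⟩
    refine ⟨add_mem ha hb, fun p hp hle => ?_⟩
    obtain ⟨y, hy, e1⟩ := h1 p hp hle
    obtain ⟨z, hz, e2⟩ := h2 p hp hle
    obtain ⟨r, e⟩ := exists_add_pow_prime_eq hp (⟨a, ha⟩ : cl T) ⟨b, hb⟩
    have e3 : (a + b) ^ p = a ^ p + b ^ p + p * a * b * r := congrArg Subtype.val e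
    exact ⟨y + z + a * b * r, add_mem (add_mem hy hz) (mul_mem (mul_mem ha hb) r.2), by
      linear_combination e3 + e1 + e2⟩
  zero_mem' := ⟨zero_mem _, fun p hp _ => ⟨0, zero_mem _, by simp [hp.ne_zero]⟩⟩
  neg_mem' := by
    rintro a ⟨ha, h1⟩
    refine ⟨neg_mem ha, fun p hp hle => ?_⟩
    obtain ⟨y, hy, e1⟩ := h1 p hp hle
    rcases hp.eq_two_or_odd' with rfl | ho
    · exact ⟨y + a, add_mem hy ha, by push_cast at e1 ⊢; linear_combination e1⟩
    · exact ⟨-y, neg_mem hy, by rw [ho.neg_pow]; linear_combination -e1⟩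

theorem krS_mono {T T' : Finset ℂ} {p₀ p₁ : ℕ} (h : T ⊆ T') (h' : p₀ ≤ p₁) :
    krS T p₀ ≤ krS T' p₁ := by
  rintro x ⟨hx, h1⟩
  refine ⟨kr_mono h hx, fun p hp hle => ?_⟩
  obtain ⟨y, hy, e⟩ := h1 p hp (h'.trans hle)
  exact ⟨y, kr_mono h hy, e⟩

theorem krS_two {a b : ℂ} (ha : ∃ T p₀, a ∈ krS T p₀) (hb : ∃ T p₀, b ∈ krS T p₀) :
    ∃ T p₀, a ∈ krS T p₀ ∧ b ∈ krS T p₀ := by
  classical
  obtain ⟨T, p, h⟩ := ha
  obtain ⟨T', p', h'⟩ := hb
  exact ⟨T ∪ T', max p p', krS_mono subset_union_left (le_max_left _ _) h,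
    krS_mono subset_union_right (le_max_right _ _) h'⟩

/-- The complex numbers with `x ^ p = x` modulo `p` in a finitely generated ring, `p` large. -/
def krF : Subfield ℂ where
  carrier := {x | ∃ T p₀, x ∈ krS T p₀}
  mul_mem' := fun ha hb => by
    obtain ⟨T, p, h1, h2⟩ := krS_two ha hb
    exact ⟨T, p, mul_mem h1 h2⟩
  one_mem' := ⟨∅, 0, one_mem _⟩
  add_mem' := fun ha hb => by
    obtain ⟨T, p, h1, h2⟩ := krS_two ha hb
    exact ⟨T, p, add_mem h1 h2⟩
  zero_mem' := ⟨∅, 0, zero_mem _⟩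
  neg_mem' := fun ⟨T, p, h⟩ => ⟨T, p, neg_mem h⟩
  inv_mem' := by
    classical
    rintro x ⟨T, p₀, hx, h⟩
    have a1 : x⁻¹ ∈ cl (insert x⁻¹ T) := kr_mem (mem_insert_self _ _)
    refine ⟨insert x⁻¹ T, p₀, a1, fun p hp hle => ?_⟩
    obtain ⟨y, hy, e⟩ := h p hp hle
    refine ⟨-(x⁻¹ ^ p * x⁻¹ * y), neg_mem (mul_mem (mul_mem (pow_mem a1 _) a1)
      (kr_mono (subset_insert _ _) hy)), ?_⟩
    rcases eq_or_ne x 0 with rfl | h0
    · simp [hp.ne_zero]
    · have e1 : x⁻¹ * x = 1 := inv_mul_cancel₀ h0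
      have e2 : x⁻¹ ^ p * x ^ p = 1 := by rw [← mul_pow, e1, one_pow]
      linear_combination -(x⁻¹ ^ p * x⁻¹) * e + x⁻¹ * e2 - x⁻¹ ^ p * e1

theorem krF_map (σ : ℂ →+* ℂ) {x : ℂ} (hx : x ∈ krF) : σ x ∈ krF := by
  classical
  obtain ⟨T, p₀, hx, h⟩ := hx
  have h1 : ∀ y ∈ cl T, σ y ∈ cl (T.image σ) := fun y hy => by
    rw [cl, coe_image, ← RingHom.map_closure]
    exact ⟨y, hy, rfl⟩
  refine ⟨T.image σ, p₀, h1 x hx, fun p hp hle => ?_⟩
  obtain ⟨y, hy, e⟩ := h p hp hle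
  exact ⟨σ y, h1 y hy, by rw [← map_pow, ← map_sub, e, map_mul, map_natCast]⟩

theorem kr_den (T : Finset ℂ) {L : Type*} [Field L] [Algebra ℚ L] [Module.Finite ℚ L]
    (ψ : cl T →+* L) : ∃ D : ℤ, D ≠ 0 ∧ ∀ x : cl T, ∃ j : ℕ, IsIntegral ℤ ((D : L) ^ j * ψ x) := by
  classical
  have h1 : ∀ y : L, ∃ N : ℤ, N ≠ 0 ∧ IsIntegral ℤ (N • y) := fun y =>
    ((IsFractionRing.isAlgebraic_iff ℤ ℚ _).mpr
      (Algebra.IsAlgebraic.isAlgebraic y)).exists_integral_multiple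
  choose N hN0 hN using h1
  let D : ℤ := ∏ t : T, N (ψ ⟨t.1, Subring.subset_closure t.2⟩)
  refine ⟨D, prod_ne_zero_iff.mpr fun t _ => hN0 _, fun ⟨x, hx⟩ => ?_⟩
  have hI : ∀ j : ℕ, IsIntegral ℤ ((D : L) ^ j) := fun j =>
    (isIntegral_algebraMap (x := D)).pow j
  induction hx using Subring.closure_induction with
  | mem x hx =>
    obtain ⟨c, hc⟩ : N (ψ ⟨x, Subring.subset_closure hx⟩) ∣ D :=
      dvd_prod_of_mem (fun t : T => N (ψ ⟨t.1, Subring.subset_closure t.2⟩)) (mem_univ ⟨x, hx⟩)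
    refine ⟨1, ?_⟩
    have := (hN (ψ ⟨x, Subring.subset_closure hx⟩)).zsmul c
    rwa [smul_smul, mul_comm, ← hc, zsmul_eq_mul, ← pow_one (D : L)] at this
  | zero => exact ⟨0, by rw [show (⟨0, _⟩ : cl T) = 0 from rfl]; simpa using isIntegral_zero⟩
  | one => exact ⟨0, by rw [show (⟨1, _⟩ : cl T) = 1 from rfl]; simpa using isIntegral_one⟩
  | add x y hx hy ihx ihy =>
    obtain ⟨i, hi⟩ := ihx
    obtain ⟨j, hj⟩ := ihy
    refine ⟨i + j, ?_⟩
    have := ((hI j).mul hi).add ((hI i).mul hj)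
    rw [show (⟨x + y, _⟩ : cl T) = ⟨x, hx⟩ + ⟨y, hy⟩ from rfl, map_add,
      show (D : L) ^ (i + j) * (ψ ⟨x, hx⟩ + ψ ⟨y, hy⟩) = (D : L) ^ j * ((D : L) ^ i * ψ ⟨x, hx⟩) +
        (D : L) ^ i * ((D : L) ^ j * ψ ⟨y, hy⟩) by ring]
    exact this
  | neg x hx ihx =>
    obtain ⟨i, hi⟩ := ihx
    refine ⟨i, ?_⟩
    rw [show (⟨-x, _⟩ : cl T) = -⟨x, hx⟩ from rfl, map_neg, mul_neg]
    exact hi.neg
  | mul x y hx hy ihx ihy =>
    obtain ⟨i, hi⟩ := ihx
    obtain ⟨j, hj⟩ := ihy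
    refine ⟨i + j, ?_⟩
    rw [show (⟨x * y, _⟩ : cl T) = ⟨x, hx⟩ * ⟨y, hy⟩ from rfl, map_mul, pow_add,
      mul_mul_mul_comm]
    exact hi.mul hj

theorem kr_int {R S : Type*} [CommRing R] [CommRing S] (f : R →+* S) (hf : Function.Injective f)
    (x : R) : IsIntegral ℤ (f x) ↔ IsIntegral ℤ x := isIntegral_algHom_iff f.toIntAlgHom hf

/-- Algebraic numbers in a finitely generated ring have bounded denominators. -/
theorem kr_den' (T : Finset ℂ) : ∃ D : ℤ, D ≠ 0 ∧ ∀ y ∈ cl T, IsIntegral ℚ y →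
    ∃ j : ℕ, IsIntegral ℤ ((D : ℂ) ^ j * y) := by
  let A : Subalgebra ℚ ℂ := Algebra.adjoin ℚ (T : Set ℂ)
  have : Algebra.FiniteType ℚ A := Algebra.FiniteType.adjoin_of_finite T.finite_toSet
  obtain ⟨M, hM⟩ := Ideal.exists_maximal A
  let _ : Field (A ⧸ M) := Ideal.Quotient.field M
  have : Module.Finite ℚ (A ⧸ M) := finite_of_finite_type_of_isJacobsonRing ℚ (A ⧸ M)
  have hle : cl T ≤ A.toSubring := Subring.closure_le.mpr Algebra.subset_adjoin
  obtain ⟨D, hD, h⟩ := kr_den T ((Ideal.Quotient.mk M).comp (Subring.inclusion hle))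
  refine ⟨D, hD, fun y hy hi => ?_⟩
  obtain ⟨j, hj⟩ := h ⟨y, hy⟩
  refine ⟨j, ?_⟩
  have h1 : (IntermediateField.adjoin ℚ {y}).toSubalgebra ≤ A := by
    rw [IntermediateField.adjoin_simple_toSubalgebra_of_isAlgebraic hi.isAlgebraic]
    exact Algebra.adjoin_le (Set.singleton_subset_iff.2 (hle hy))
  let ι : IntermediateField.adjoin ℚ {y} →+* A ⧸ M :=
    (Ideal.Quotient.mk M).comp (Subalgebra.inclusion h1).toRingHom
  let y' : IntermediateField.adjoin ℚ {y} := IntermediateField.AdjoinSimple.gen ℚ y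
  have h2 := (kr_int ι ι.injective ((D : IntermediateField.adjoin ℚ {y}) ^ j * y')).1 (by
    rw [map_mul, map_pow, map_intCast]
    exact hj)
  have h3 := (kr_int (algebraMap _ ℂ) Subtype.val_injective _).2 h2
  rw [map_mul, map_pow, map_intCast] at h3
  exact h3

theorem kr_alg {x : ℂ} (hx : x ∈ krF) (hi : IsIntegral ℚ x) : ∃ q : ℚ, x = q := by
  classical
  let K := IntermediateField.adjoin ℚ {x}
  have : FiniteDimensional ℚ K := IntermediateField.adjoin.finiteDimensional hi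
  have : NumberField K := NumberField.of_module_finite ℚ K
  have hK : ∀ z : K, (z : ℂ) ∈ krF := fun z =>
    (IntermediateField.adjoin_le_iff (T := krF.toIntermediateField fun q => by
      rw [eq_ratCast]; exact SubfieldClass.ratCast_mem _ q)).2 (Set.singleton_subset_iff.2 hx) z.2
  let f : NumberField.RingOfIntegers K →+* ℂ :=
    (algebraMap K ℂ).comp (algebraMap (NumberField.RingOfIntegers K) K)
  obtain ⟨T, p₀, hT⟩ : ∃ T p₀, ∀ a, f a ∈ krS T p₀ := by
    obtain ⟨s, hs⟩ := Module.Finite.fg_top (R := ℤ) (M := NumberField.RingOfIntegers K)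
    choose T p hT using fun a : NumberField.RingOfIntegers K =>
      hK (algebraMap (NumberField.RingOfIntegers K) K a)
    refine ⟨s.biUnion T, s.sup p, fun a => ?_⟩
    have ha : a ∈ Submodule.span ℤ (s : Set (NumberField.RingOfIntegers K)) := by
      rw [hs]; trivial
    induction ha using Submodule.span_induction with
    | mem a ha => exact krS_mono (subset_biUnion_of_mem T ha) (le_sup ha) (hT a)
    | zero => rw [map_zero]; exact zero_mem _
    | add a b _ _ h1 h2 => rw [map_add]; exact add_mem h1 h2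
    | smul n a _ h1 => rw [map_zsmul]; exact zsmul_mem h1 n
  obtain ⟨D, hD, h⟩ := kr_den' T
  have h1 := kron_nf K (max p₀ (D.natAbs + 1)) fun p hp hle a => by
    obtain ⟨y, hy, e⟩ := (hT a).2 p hp (le_of_max_le_left hle)
    have hp0 : (p : ℂ) ≠ 0 := Nat.cast_ne_zero.2 hp.ne_zero
    let z : K := algebraMap (NumberField.RingOfIntegers K) K (a ^ p - a) / p
    have e1 : algebraMap K ℂ z = y := by
      rw [map_div₀, map_natCast, div_eq_iff hp0, mul_comm, ← e, ← map_pow, ← map_sub]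
      rfl
    obtain ⟨j, hj⟩ := h y hy (e1 ▸ (Algebra.IsIntegral.isIntegral (R := ℚ) z).algebraMap)
    have hc : IsCoprime (D ^ j) (p : ℤ) := by
      refine ((Nat.prime_iff_prime_int.1 hp).irreducible.coprime_iff_not_dvd.2
        fun hd => ?_).symm.pow_left
      have := Nat.le_of_dvd (Int.natAbs_pos.2 hD) (Int.natCast_dvd.1 hd)
      have := le_of_max_le_right hle
      omega
    obtain ⟨u, v, huv⟩ := hc
    have h2 : IsIntegral ℤ ((p : ℂ) * y) := by
      rw [← e, ← map_pow, ← map_sub]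
      exact (Algebra.IsIntegral.isIntegral (R := ℤ) (a ^ p - a)).map f.toIntAlgHom
    have h3 : IsIntegral ℤ y := by
      have h4 := (hj.zsmul u).add (h2.zsmul v)
      have h5 : ((u * D ^ j + v * p : ℤ) : ℂ) = 1 := by rw [huv, Int.cast_one]
      push_cast at h5
      rwa [zsmul_eq_mul, zsmul_eq_mul, ← mul_assoc, ← mul_assoc, ← add_mul, h5, one_mul] at h4
    rw [← e1] at h3
    obtain ⟨z', hz⟩ : ∃ z', algebraMap (NumberField.RingOfIntegers K) K z' = z :=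
      ⟨⟨z, (kr_int _ (algebraMap K ℂ).injective z).1 h3⟩, rfl⟩
    refine ⟨z', NumberField.RingOfIntegers.coe_injective ?_⟩
    have hp1 : (p : K) ≠ 0 := Nat.cast_ne_zero.2 hp.ne_zero
    rw [map_mul, map_natCast, hz]
    exact (mul_div_cancel₀ _ hp1).symm
  rw [IntermediateField.finrank_adjoin_simple_eq_one_iff, IntermediateField.mem_bot] at h1
  obtain ⟨q, hq⟩ := h1
  exact ⟨q, hq.symm⟩

theorem kr_ext {A L M : Type*} [CommRing A] [IsDomain A] [Field L] [Field M] [IsAlgClosed M]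
    [Algebra A L] [Algebra.IsAlgebraic A L] (hf : Function.Injective (algebraMap A L))
    (g : A →+* M) (hg : Function.Injective g) : ∃ σ : L →+* M, ∀ a, σ (algebraMap A L a) = g a := by
  let _ := g.toAlgebra
  have : FaithfulSMul A L := (faithfulSMul_iff_algebraMap_injective A L).2 hf
  have : FaithfulSMul A M := (faithfulSMul_iff_algebraMap_injective A M).2 hg
  exact ⟨(IsAlgClosed.lift : L →ₐ[A] M).toRingHom, fun a => AlgHom.commutes _ a⟩

theorem kr_shift {k : Type} [Field k] [Algebra k ℂ] {x : ℂ} (hx : Transcendental k x) (c : k) :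
    ∃ σ : ℂ →+* ℂ, σ x = x + algebraMap k ℂ c := by
  obtain ⟨t, ht, hb⟩ := exists_isTranscendenceBasis_superset (R := k) (s := {x})
    (algebraicIndependent_singleton_iff (⟨x, rfl⟩ : ({x} : Set ℂ)) |>.2 hx)
  have := hb.isAlgebraic
  let e : k → MvPolynomial t k →ₐ[k] MvPolynomial t k := fun c =>
    MvPolynomial.aeval fun i => MvPolynomial.X i + MvPolynomial.C c
  have he : (e (-c)).comp (e c) = AlgHom.id k _ := MvPolynomial.algHom_ext fun i => by
    simp [e]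
  have hinj : Function.Injective (e c) :=
    Function.LeftInverse.injective (g := e (-c)) fun P => DFunLike.congr_fun he P
  obtain ⟨σ, hσ⟩ := kr_ext (L := ℂ) Subtype.val_injective
    (((MvPolynomial.aeval ((↑) : t → ℂ)).comp (e c)).comp hb.1.aevalEquiv.symm.toAlgHom).toRingHom
    (((algebraicIndependent_iff_injective_aeval.1 hb.1).comp hinj).comp
      hb.1.aevalEquiv.symm.injective)
  refine ⟨σ, ?_⟩
  have h1 := hσ (hb.1.aevalEquiv (MvPolynomial.X ⟨x, ht rfl⟩))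
  rw [hb.1.algebraMap_aevalEquiv] at h1
  simpa [e] using h1

theorem kron (T : Finset ℂ) {x : ℂ} (p₀ : ℕ)
    (h : ∀ p : ℕ, p.Prime → p₀ ≤ p → ∃ y ∈ cl T, x ^ p - x = p * y) : ∃ q : ℚ, x = q := by
  classical
  have hx : x ∈ krF := ⟨insert x T, p₀, kr_mem (mem_insert_self _ _), fun p hp hle => by
    obtain ⟨y, hy, e⟩ := h p hp hle
    exact ⟨y, kr_mono (subset_insert _ _) hy, e⟩⟩
  by_cases ha : IsAlgebraic ℚ x
  · exact kr_alg hx ha.isIntegral
  have hI : IsIntegral ℚ Complex.I :=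
    IsIntegral.of_pow two_pos (by rw [Complex.I_sq]; exact isIntegral_one.neg)
  have : FiniteDimensional ℚ (IntermediateField.adjoin ℚ {Complex.I}) :=
    IntermediateField.adjoin.finiteDimensional hI
  obtain ⟨σ, hσ⟩ := kr_shift (Transcendental.extendScalars (IntermediateField.adjoin ℚ {Complex.I})
    ha) (IntermediateField.AdjoinSimple.gen ℚ Complex.I)
  have h1 := sub_mem (krF_map σ hx) hx
  rw [hσ, add_sub_cancel_left] at h1
  obtain ⟨q, hq⟩ := kr_alg h1 hI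
  have := congrArg Complex.im hq
  simp at this

end Pool.Agent.Lib.MP_815ef6_nt.Ch
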