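import Pool.Agent.Lib.MP_815ef6_nt.CH.Eps
import Pool.Agent.Lib.MP_815ef6_nt.CH.Kron

/-! Consequences of the vanishing of the `p`-curvature at almost all primes. -/

namespace Pool.Agent.Lib.MP_815ef6_nt.Ch
open Finset LaurentPolynomial

variable {B : Type*} [CommRing B] {n : ℕ}

/-- The ring modulo `s` is a finitely generated ring of complex numbers. -/
structure Loc (s : B) (ρ : B →+* ℂ) : Prop where
  ker : ∀ x, ρ x = 0 ↔ s ∣ x
  reg : ∀ x, s * x = 0 → x = 0
  fg : ∃ T : Finset ℂ, ∀ x, ρ x ∈ cl T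

variable {s : B} {ρ : B →+* ℂ} {L : ℕ → B[T;T⁻¹]} {b : Bool}

theorem loc_coeff (N : ℕ) (c : ℕ → B) (i : ℕ) : (pl N c).coeff i = if i < N then c i else 0 := by
  simp [pl, Polynomial.coeff_X_pow]

theorem loc_split {c : ℕ → ℂ} (h : c (n + 1) ≠ 0) : ∃ x : Fin (n + 1) → ℂ,
    pl (n + 2) c = Polynomial.C (c (n + 1)) * ∏ j, (Polynomial.X - Polynomial.C (x j)) := by
  have d : (pl (n + 2) c).natDegree = n + 1 := Polynomial.natDegree_eq_of_le_of_coeff_ne_zero
    (Polynomial.natDegree_le_iff_coeff_eq_zero.2 fun i hi => by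
      rw [loc_coeff, if_neg (by omega)]) (by rwa [loc_coeff, if_pos (by omega)])
  have e := (IsAlgClosed.splits (pl (n + 2) c)).eq_prod_roots
  have r := IsAlgClosed.card_roots_eq_natDegree.trans d
  rw [Polynomial.leadingCoeff, d, loc_coeff, if_pos (by omega)] at e
  generalize (pl (n + 2) c).roots = t at e r
  induction t using Quotient.ind with | _ l => ?_
  generalize n + 1 = m at e r ⊢
  subst r
  refine ⟨l.get, e.trans (congrArg _ (Eq.symm ?_))⟩
  exact Fin.prod_univ_fun_getElem l (Polynomial.X - Polynomial.C ·)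

theorem loc_ev {f : ℂ[T;T⁻¹]} (h : ∀ w : ℂˣ, eval₂ (RingHom.id ℂ) w f = 0) : f = 0 := by
  obtain ⟨m, g, e⟩ := f.exists_T_pow
  rw [g.eq_zero_of_infinite_isRoot ((Set.finite_singleton 0).infinite_compl.mono fun w hw => by
    simpa [h] using! congrArg (eval₂ (RingHom.id ℂ) (Units.mk0 w hw)) e), map_zero] at e
  exact (isUnit_T _).mul_left_eq_zero.1 e.symm

theorem loc_hr {R : Type*} [CommRing R] (f : B →+* R) {p i : ℕ} (h0 : (p : R) = 0)
    (h : (p : B[T;T⁻¹]) ∣ rr th 1 n L (bs _ 0) p i) :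
    rr th 1 n (fun i => mp f (L i)) (bs _ 0) p i = 0 := by
  obtain ⟨y, e⟩ := h
  have := rr_map (mp f) (mp_th f) (η := 1) (n := n) (L := L) (g := bs _ 0) p i
  rw [map_one, bs_map] at this
  rw [← this, e, map_mul, map_natCast, ← map_natCast C, h0, map_zero, zero_mul]

theorem loc_div {p : ℕ} (hp : p.Prime) {c : ℕ → B} (h1 : c (n + 1) = 1)
    (h : ∀ i ≤ n, (p : B) ∣ rr (fun _ => 0) 1 n c (bs B 0) p i) : ∃ G U : Polynomial B,
    Polynomial.X ^ p - Polynomial.X = (p : Polynomial B) * G + U * pl (n + 2) c := by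
  obtain ⟨F, hF⟩ := prod_char (R := B) hp
  obtain ⟨G, hG⟩ : (p : Polynomial B) ∣ pl (n + 1) (rr (fun _ => 0) 1 n c (bs B 0) p) :=
    dvd_sum fun i hi => Dvd.dvd.mul_right (map_natCast (Polynomial.C (R := B)) p ▸
      map_dvd _ (h i (Nat.lt_succ_iff.1 (mem_range.1 hi)))) _
  have e := poly_div 1 n c p
  simp only [h1, one_pow, map_one, one_mul, mul_one, hF, hG] at e
  exact ⟨G - F, qt 1 n c p, by linear_combination e⟩

theorem Loc.cancel (H : Loc s ρ) {x : B} {m p₀ : ℕ}
    (h : ∀ p : ℕ, p.Prime → p₀ ≤ p → ∃ y z, s ^ m * x = p * y + s ^ (m + 1) * z) : s ∣ x := by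
  obtain ⟨T, hT⟩ := H.fg
  have s0 := (H.ker s).2 dvd_rfl
  refine (H.ker x).1 (fg_zero T p₀ fun p hp k => ?_)
  obtain ⟨y, z, e⟩ := h p hp k
  clear h
  induction m generalizing y with
  | zero => exact ⟨1, ρ y, hT y, by simpa [s0] using congrArg ρ e⟩
  | succ m ih =>
    obtain ⟨y, rfl⟩ := (H.ker y).1 (by simpa [s0, hp.ne_zero] using congrArg ρ e)
    exact ih y (sub_eq_zero.1 (H.reg _ (by linear_combination e)))

/-- The coefficients are integral. -/
theorem Loc.nil (H : Loc s ρ) {η : B} (hη : s ∣ η) (h : De η n L) (h0 : mp ρ (L (n + 1)) ≠ 0) :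
    ∀ i ≤ n, mp ρ (L i) = 0 := by
  classical
  obtain ⟨T, hT⟩ := H.fg
  obtain ⟨p₀, h⟩ := h
  refine fun i hi => (mul_eq_zero.1 (loc_ev fun w => ?_)).resolve_left h0
  rw [map_mul, mul_eq_zero, or_iff_not_imp_left]
  intro c0
  let φ := (eval₂ (RingHom.id ℂ) w).comp (mp ρ)
  have φ0 : φ (C η) = 0 := by simp [φ, (H.ker η).2 hη]
  obtain ⟨x, hx⟩ := loc_split (n := n) (c := fun i => φ (L i)) c0
  have x0 : ∀ j, x j = 0 := fun j => (mul_eq_zero.1 (fg_zero (T ∪ {w.1, w⁻¹.1, x j}) p₀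
    (x := φ (L (n + 1)) * x j) fun p hp k => by
      have m : ∀ y, φ y ∈ cl (T ∪ {w.1, w⁻¹.1, x j}) := fun y => by
        induction y using LaurentPolynomial.induction_on' with
        | add f g hf hg => exact map_add φ f g ▸ add_mem hf hg
        | C_mul_T a c =>
          simp only [φ, RingHom.comp_apply, map_mul, mp_C, mp_T, eval₂_C, eval₂_T]
          refine mul_mem (Subring.closure_mono (coe_subset.2 subset_union_left) (hT c)) ?_
          obtain ⟨a, rfl | rfl⟩ := a.eq_nat_or_neg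
          · exact Units.val_pow_eq_pow_val w a ▸ pow_mem (Subring.subset_closure (by simp)) a
          · rw [zpow_neg, zpow_natCast, ← inv_pow, Units.val_pow_eq_pow_val]
            exact pow_mem (Subring.subset_closure (by simp)) a
      choose! y hy using h p hp k
      have e := congrArg (Polynomial.eval (x j)) (poly_div 0 n (fun i => φ (L i)) p)
      rw [hx] at e
      refine ⟨p, ∑ i ∈ range (n + 1), φ (y i) * x j ^ i, sum_mem fun i _ => mul_mem (m _)
        (pow_mem (Subring.subset_closure (by simp)) _), ?_⟩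
      simp only [Polynomial.eval_add, Polynomial.eval_mul, Polynomial.eval_prod, Polynomial.eval_C,
        Polynomial.eval_sub, Polynomial.eval_X, mul_zero, sub_zero, prod_const, card_range, pl,
        Polynomial.eval_finsetSum, Polynomial.eval_pow,
        prod_eq_zero (f := fun l => x j - x l) (mem_univ j) (sub_self _), add_zero] at e
      rw [mul_pow, e, mul_sum]
      refine sum_congr rfl fun i hi => ?_
      have := rr_map φ (d' := fun _ => 0) (d := fun f => C η * th f) (η := C η) (n := n) (L := L)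
        (g := bs _ 0) (fun f => by rw [map_mul, φ0, zero_mul]) p i
      rw [φ0, bs_map, hy i (Nat.lt_succ_iff.1 (mem_range.1 hi)), map_mul, map_natCast] at this
      rw [← this, mul_assoc])).resolve_left c0
  have := congrArg (·.coeff i) hx
  simpa [loc_coeff, x0, Polynomial.coeff_X_pow, show i < n + 2 by omega,
    show i ≠ n + 1 by omega] using! this

/-- The exponents are distinct rational numbers. -/
theorem Loc.exps (H : Loc s ρ) (hL : Rg (Ideal.span {s}) b n L) (h : Dm n L) :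
    ∃ κ : Fin (n + 1) → ℚ, Function.Injective κ ∧
      ∀ i ≤ n + 1, ρ ((L i).coeff 0) = es (fun j => (κ j : ℂ)) i := by
  classical
  obtain ⟨T, hT⟩ := H.fg
  obtain ⟨p₀, h⟩ := h
  have J0 : ∀ x ∈ Ideal.span {s}, ρ x = 0 := fun x k => (H.ker x).2 (Ideal.mem_span_singleton.1 k)
  have c1 : ρ ((L (n + 1)).coeff 0) = 1 := by simpa [sub_eq_zero] using J0 _ hL.one
  obtain ⟨x, hx⟩ := loc_split (n := n) (c := fun i => ρ ((L i).coeff 0)) (c1.trans_ne one_ne_zero)
  simp only [c1, map_one, one_mul] at hx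
  let S := cl (T ∪ univ.image x)
  let f := ρ.codRestrict S fun y => Subring.closure_mono (by simp) (hT y)
  have key : ∀ p : ℕ, p.Prime → p₀ ≤ p → ∃ (G : Polynomial S) (U : Polynomial ℂ),
      Polynomial.X ^ p - Polynomial.X = (p : Polynomial ℂ) * G.map S.subtype +
        U * ∏ j, (Polynomial.X - Polynomial.C (x j)) := fun p hp k => by
    obtain ⟨G, U, e⟩ := loc_div (n := n) hp (c := fun i => f ((L i).coeff 0)) (Subtype.ext c1)
      fun i hi => by
        obtain ⟨y, e⟩ := h p hp k i hi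
        rw [← (rr_const f (fun x k => Subtype.ext (J0 x k)) hL.pol p hi).2, e, ← map_natCast C,
          coeff_C_mul, map_mul, map_natCast]
        exact dvd_mul_right _ _
    exact ⟨G, U.map S.subtype, by
      simpa [← hx, pl, Polynomial.map_sum, f] using congrArg (Polynomial.map S.subtype) e⟩
  have m : ∀ j (G : Polynomial S), (G.map S.subtype).eval (x j) ∈ S := fun j G =>
    (Polynomial.eval_map_apply S.subtype ⟨x j, Subring.subset_closure (by simp)⟩).symm ▸
      Subtype.prop _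
  choose κ hκ using fun j => kron (T ∪ univ.image x) (x := x j) p₀ fun p hp k => by
    obtain ⟨G, U, e⟩ := key p hp k
    have z := prod_eq_zero (f := fun l => x j - x l) (mem_univ j) (sub_self _)
    exact ⟨_, m j G, by simpa [Polynomial.eval_prod, z] using congrArg (Polynomial.eval (x j)) e⟩
  refine ⟨κ, fun i j e => by_contra fun ij => one_ne_zero (fg_zero (T ∪ univ.image x) p₀
    fun p hp k => ?_), fun i hi => ?_⟩
  · obtain ⟨G, U, e'⟩ := key p hp k
    obtain ⟨V, hV⟩ := prod_dvd_prod_of_subset {i, j} univ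
      (fun j => Polynomial.X - Polynomial.C (x j)) (subset_univ _)
    rw [hV, prod_pair ij, hκ j, ← e, ← hκ i] at e'
    have := congrArg (fun P => P.derivative.eval (x i)) e'
    simp [Polynomial.derivative_map, Polynomial.derivative_X_pow] at this
    exact ⟨1, x i ^ (p - 1) - _, sub_mem (pow_mem (Subring.subset_closure (by simp)) _)
      (m i G.derivative), by linear_combination -this⟩
  · rw [← funext hκ, es, ← hx, loc_coeff, if_pos (by omega)]

theorem Loc.eps (H : Loc s ρ) (hL : Rg (Ideal.span {s}) b n L) (h : Dm n L) {κ : B} {p₁ : ℕ}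
    (hκ : ∀ p : ℕ, p.Prime → p₁ ≤ p → (p : B) ∣ κ ^ p - κ)
    (hQ : s ∣ ∑ i ∈ range (n + 2), (L i).coeff 0 * κ ^ i) (m : ℕ) (u : Sq B)
    (h1 : ∀ k, s ^ (m + 1) ∣ op (Dk κ) (n + 2) L u k)
    (h2 : ∀ k, sg b * k < 0 → s ^ (m + 2) ∣ op (Dk κ) (n + 2) L u k) :
    s ^ (m + 2) ∣ op (Dk κ) (n + 2) L u 0 := by
  obtain ⟨p₀, h⟩ := h
  obtain ⟨x, e⟩ := h1 0
  rw [e, pow_succ s (m + 1)]
  refine mul_dvd_mul_left _ (H.cancel (m := m + 1) (p₀ := p₀ + p₁) fun p hp k => ?_)
  let π := Ideal.Quotient.mk (Ideal.span {(p : B), s ^ (m + 2)})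
  have p0 : π p = 0 := Ideal.Quotient.eq_zero_iff_mem.2 (Ideal.subset_span (by simp))
  have s0 : π (s ^ (m + 2)) = 0 := Ideal.Quotient.eq_zero_iff_mem.2 (Ideal.subset_span (by simp))
  have J : ∀ x ∈ Ideal.span {s}, π x ∈ Ideal.span {π s} := fun x k =>
    Ideal.mem_span_singleton.2 (map_dvd π (Ideal.mem_span_singleton.1 k))
  have := eps_zero hp p0 (J := Ideal.span {π s}) (b := b) (L := fun i => mp π (L i))
    ⟨fun i hi a ha => coeff_mp π _ a ▸ J _ (hL.pol i hi a ha), by simpa using J _ hL.one⟩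
    (fun i hi => loc_hr π p0 (h p hp (by omega) i hi)) (κ := π κ) (by
      simpa [p0, sub_eq_zero] using map_dvd π (hκ p hp (by omega))) (k₀ := 0)
    (by simpa using J _ (Ideal.mem_span_singleton.2 hQ)) (mq π u) (fun x hx k => by
      rw [← mq_op, ← zero_dvd_iff, s0.symm.trans ((congrArg π (pow_succ' _ _)).trans
        (map_mul π _ _))]
      exact mul_dvd_mul (Ideal.mem_span_singleton.1 hx) (map_dvd π (h1 k))) fun k hk => by
      rw [← mq_op, ← zero_dvd_iff, ← s0]
      exact map_dvd π (h2 k (by simpa using hk))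
  rw [← mq_op, mq_apply, e, Ideal.Quotient.eq_zero_iff_mem, Ideal.mem_span_pair] at this
  obtain ⟨y, z, e⟩ := this
  exact ⟨y, z, by linear_combination -e⟩

theorem Loc.gap (H : Loc s ρ) (h : Dm n L) {N : ℕ} (hN : 0 < N) {ν : B} (hν : N * ν = 1)
    {c d : Fin (n + 1) → ℤ} (hL : ∀ i ≤ n + 1, ∀ a, s ∣ (L i - two (sg b)
      (es fun j => (sg b * c j : ℤ) * ν) (es fun j => (sg b * d j : ℤ) * ν) i).coeff a) :
    ∃ p₀ : ℕ, ∀ p : ℕ, p.Prime → p₀ ≤ p → ∀ (i j : Fin (n + 1)) (l : ℕ), 0 < l →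
      (p : ℤ) ∣ c i + N * l - c j → ∃ l' < l, ∃ j', (p : ℤ) ∣ c i + N * l' - d j' := by
  obtain ⟨T, hT⟩ := H.fg
  obtain ⟨p₀, h⟩ := h
  obtain ⟨p₁, h1⟩ := exists_char T
  refine ⟨p₀ + p₁, fun p hp hk i j l hl e => ?_⟩
  obtain ⟨k, _, _, ⟨ψ⟩⟩ := h1 p hp (by omega)
  have := Fact.mk hp
  obtain ⟨f, f0⟩ : ∃ f : B →+* k, f s = 0 := ⟨ψ.comp (ρ.codRestrict _ hT),
    (congrArg ψ (Subtype.ext ((H.ker s).2 dvd_rfl))).trans (map_zero ψ)⟩
  have n1 : (N : k) * f ν = 1 := by simpa using congrArg f hν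
  have s1 : ((sg b : ℤ) : k) * sg b = 1 := by cases b <;> simp [sg]
  have := Ch.gap hp (CharP.cast_eq_zero k p) b (x := fun j => (sg b * c j : ℤ) * f ν)
    (y := fun j => (sg b * d j : ℤ) * f ν) (fun i hi => by
      rw [← loc_hr f (CharP.cast_eq_zero k p) (h p hp (by omega) i hi)]
      refine rr_congr (fun i hi => ?_) p hi
      have : mp f (L i - _) = 0 := LaurentPolynomial.ext fun a => by
        simpa [f0] using map_dvd f (hL i hi a)
      rw [map_sub, sub_eq_zero] at this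
      simp [this, two, es_map]) (i := i) (j := j) (by
      have a := congrArg (frobenius k p) n1
      rw [map_mul, map_natCast, map_one, ← n1] at a
      rw [← frobenius_def, map_mul, map_intCast,
        mul_left_cancel₀ (left_ne_zero_of_mul_eq_one n1) a]) hl (by
      have a := (CharP.intCast_eq_zero_iff k p _).2 e
      push_cast at a ⊢
      linear_combination f ν * sg b * a - sg b * l * n1)
  obtain ⟨l', hl', a⟩ := prod_eq_zero_iff.1 this
  obtain ⟨j', -, a⟩ := prod_eq_zero_iff.1 a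
  refine ⟨l', mem_range.1 hl', j', (CharP.intCast_eq_zero_iff k p _).1 ?_⟩
  push_cast at a ⊢
  linear_combination N * sg b * a - (c i - d j') * sg b * sg b * n1 - (c i + N * l' - d j') * s1

theorem Dm.nz (h : Dm n L) (b : Bool) : Dm n (nz b L) := by
  cases b
  · exact h.imp fun _ h p hp k i hi =>
      ((h p hp k i hi).mul_left _).trans (rr_mul dv_th (-T (-1)) p i).symm.dvd
  · exact h

end Pool.Agent.Lib.MP_815ef6_nt.Ch
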