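import Pool.Agent.Lib.MP_815ef6_nt.Conv
import Pool.Agent.Lib.MP_815ef6_nt.CH.Loc
import Pool.Agent.Lib.MP_815ef6_nt.CH.Core
import Pool.Agent.Lib.MP_815ef6_nt.CH.Arith

/-! Chains of operators over one ring. -/

namespace Pool.Agent.Lib.MP_815ef6_nt.Ch
open Finset LaurentPolynomial

variable {B : Type*} [CommRing B] {n r : ℕ}

/-- The next component. -/
def nx (r : ℕ) : Fin (r + 1) ≃ Fin (r + 1) := Equiv.addRight 1

theorem nx_last : nx r (Fin.last r) = 0 := Fin.last_add_one r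

theorem nx_cast (j : Fin r) : nx r j.castSucc = j.succ := Fin.coeSucc_eq_succ

/-- A chain of operators. -/
structure Chn (s : B) (ρ : B →+* ℂ) (n r : ℕ) (L : Fin (r + 1) → ℕ → B[T;T⁻¹])
    (τ : Fin (r + 1) → B) : Prop where
  tau : ∀ j, s ∣ τ j
  dvd : ∀ j, 1 - T 1 ∣ L j (n + 1)
  top : ∀ j, mp ρ (L j (n + 1)) = 1 - T 1
  dm : ∀ j, Dm n (L j)
  mid : ∀ j ≠ Fin.last r, ∀ i ≤ n + 1,
    Nd ⊥ (τ j) (cf (nz false (L j) i)) (cf (L (nx r j) i))
  lst : τ (Fin.last r) = 0
  fin : ∀ i ≤ n + 1, ∀ a : ℤ, 0 < a →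
    (nz false (L (Fin.last r)) i).coeff a = 0 ∧ (L 0 i).coeff (-a) = 0

/-- The solutions of the hypergeometric recursion have denominators in `M`. -/
def Hyp (N M : ℕ) (c d : Fin (n + 1) → ℤ) : Prop :=
  ∀ i, ∃ u : ℕ → ℚ, u 0 = 1 ∧
    (∀ k : ℕ, (∏ j, (c i + N * (k + 1) - c j : ℚ)) * u (k + 1) =
      (∏ j, (c i + N * k - d j : ℚ)) * u k) ∧
    ∀ k, ∃ (e : ℕ) (z : ℤ), (M : ℚ) ^ e * u k = z

theorem sg_sq (b : Bool) : sg b * sg b = 1 := by cases b <;> rfl

theorem coeff_nz (L : ℕ → B[T;T⁻¹]) (i : ℕ) (a : ℤ) :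
    (nz false L i).coeff a = -(L i).coeff (a + 1) := by
  rw [nz, neg_mul, AddMonoidAlgebra.coeff_neg, Finsupp.neg_apply, coeff_T_mul, sub_neg_eq_add]

theorem coeff_two (a e : ℤ) (q q' : ℕ → B) (i : ℕ) : (two a q q' i).coeff e =
    (if e = 0 then q i else 0) - if a = e then q' i else 0 := by
  rw [two, AddMonoidAlgebra.coeff_sub, Finsupp.sub_apply, C_apply, coeff_CT]

variable {s : B} {ρ : B →+* ℂ} {L : Fin (r + 1) → ℕ → B[T;T⁻¹]} {τ : Fin (r + 1) → B}

theorem Chn.pol (C : Chn s ρ n r L τ) (b : Bool) (j : Fin (r + 1)) {i : ℕ} (hi : i ≤ n + 1) {a : ℤ}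
    (ha : sg b * a < 0) : s ∣ (nz b (L j) i).coeff a := by
  have hp : ∀ (j) {k : ℕ}, 0 < k → ∀ x, s ∣ τ j ^ k * x := fun j k hk x =>
    ((C.tau j).trans (dvd_pow_self _ hk.ne')).mul_right x
  cases b
  · obtain ⟨k, rfl⟩ := Int.eq_ofNat_of_zero_le (a := a) (by simp [sg] at ha; omega)
    have hk : 0 < k := by simpa [sg] using ha
    by_cases h : j = Fin.last r
    · rw [h, (C.fin i hi k (by omega)).1]
      exact dvd_zero s
    · exact (hp j hk _).trans (sub_eq_zero.1 (C.mid j h i hi k).1).symm.dvd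
  · obtain ⟨k, rfl⟩ := Int.exists_eq_neg_ofNat (a := a) (by simp [sg] at ha; omega)
    have hk : 0 < k := by simpa [sg] using ha
    obtain ⟨j, rfl⟩ := (nx r).surjective j
    by_cases h : j = Fin.last r
    · rw [h, nx_last, nz, (C.fin i hi k (by omega)).2]
      exact dvd_zero s
    · exact (hp j hk _).trans (sub_eq_zero.1 (C.mid j h i hi k).2).symm.dvd

theorem Chn.rg (H : Loc s ρ) (C : Chn s ρ n r L τ) (b : Bool) (j : Fin (r + 1)) :
    Rg (Ideal.span {s}) b n (nz b (L j)) := by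
  refine ⟨fun i hi a ha => Ideal.mem_span_singleton.2 (C.pol b j hi ha),
    Ideal.mem_span_singleton.2 ((H.ker _).1 ?_)⟩
  cases b
  · rw [map_sub, coeff_nz, map_neg, ← coeff_mp, C.top]
    simp [AddMonoidAlgebra.coeff_sub, ← T_zero]
  · rw [map_sub, nz, ← coeff_mp, C.top]
    simp [AddMonoidAlgebra.coeff_sub, ← T_zero]

theorem Chn.exps (H : Loc s ρ) (C : Chn s ρ n r L τ) :
    ∃ (N : ℕ) (z : Bool → Fin (r + 1) → Fin (n + 1) → ℤ), 0 < N ∧
      (∀ b j, Function.Injective (z b j)) ∧ (∀ j ≠ Fin.last r, z false j = z true (nx r j)) ∧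
      ∀ b j, ∀ i ≤ n + 1, ρ ((nz b (L j) i).coeff 0) = es (fun l => (z b j l : ℂ) / N) i := by
  choose κ h1 h2 using fun b j => H.exps (C.rg H b j) ((C.dm j).nz b)
  let κ' : Bool → Fin (r + 1) → Fin (n + 1) → ℚ := fun b j =>
    if b = false ∧ j ≠ Fin.last r then κ true (nx r j) else κ b j
  let N : ℕ := ∏ x : Bool × Fin (r + 1) × Fin (n + 1), (κ' x.1 x.2.1 x.2.2).den
  have hN : 0 < N := prod_pos fun x _ => Rat.den_pos _
  have hN' : (N : ℚ) ≠ 0 := Nat.cast_ne_zero.2 hN.ne'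
  have : ∀ b j l, ∃ z : ℤ, (z : ℚ) / N = κ' b j l := fun b j l => by
    obtain ⟨c, hc⟩ : (κ' b j l).den ∣ N :=
      dvd_prod_of_mem (fun x : Bool × Fin (r + 1) × Fin (n + 1) => (κ' x.1 x.2.1 x.2.2).den)
        (mem_univ (b, j, l))
    refine ⟨(κ' b j l).num * c, ?_⟩
    rw [div_eq_iff hN', hc]
    push_cast
    rw [← mul_assoc, Rat.mul_den_eq_num]
  choose z hz using this
  refine ⟨N, z, hN, fun b j l l' e => ?_, fun j hj => funext fun l => ?_, fun b j i hi => ?_⟩
  · have e1 : κ' b j l = κ' b j l' := by rw [← hz, ← hz, e]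
    by_cases h : b = false ∧ j ≠ Fin.last r
    · exact h1 _ _ (by simpa only [κ', if_pos h] using e1)
    · exact h1 _ _ (by simpa only [κ', if_neg h] using e1)
  · have e1 : (z false j l : ℚ) / N = z true (nx r j) l / N := by
      rw [hz, hz]
      simp [κ', hj]
    exact_mod_cast (div_left_inj' hN').1 e1
  · have e1 : (fun l => (z b j l : ℂ) / N) = fun l => (κ' b j l : ℂ) := funext fun l => by
      rw [← hz]
      push_cast
      rfl
    rw [e1]
    by_cases h : b = false ∧ j ≠ Fin.last r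
    · have e2 := sub_eq_zero.1 (C.mid j h.2 i hi 0).1
      rw [pow_zero, one_mul] at e2
      simp only [κ', if_pos h]
      rw [← h2 true _ i hi, h.1]
      exact congrArg ρ e2
    · simp only [κ', if_neg h]
      exact h2 b j i hi

section
variable {N : ℕ} {ν : B} {z : Bool → Fin (r + 1) → Fin (n + 1) → ℤ}

theorem Chn.red (H : Loc s ρ) (C : Chn s ρ n r L τ) (hν : N * ν = 1)
    (hz : ∀ b j, ∀ i ≤ n + 1, ρ ((nz b (L j) i).coeff 0) = es (fun l => (z b j l : ℂ) / N) i)
    (b : Bool) (j : Fin (r + 1)) {i : ℕ} (hi : i ≤ n + 1) (a : ℤ) :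
    s ∣ (nz b (L j) i - two (sg b) (es fun l => z b j l * ν) (es fun l => z (!b) j l * ν) i).coeff
      a := by
  have e : ρ ν = (N : ℂ)⁻¹ := eq_inv_of_mul_eq_one_right (by
    rw [← map_natCast ρ, ← map_mul, hν, map_one])
  have k : ∀ b, s ∣ (nz b (L j) i).coeff 0 - es (fun l => z b j l * ν) i := fun b =>
    (H.ker _).1 (by
      rw [map_sub, hz b j i hi, es_map]
      simp only [map_mul, map_intCast, e, div_eq_mul_inv, sub_self])
  have key : ∀ a, s ∣ (L j i).coeff a - ((if a = 0 then es (fun l => z true j l * ν) i else 0) -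
      if 1 = a then es (fun l => z false j l * ν) i else 0) := fun a => by
    rcases lt_trichotomy a 0 with h | rfl | h
    · rw [if_neg h.ne, if_neg (by omega), sub_zero, sub_zero]
      exact C.pol true j hi (by simpa [sg] using h)
    · simpa [nz] using k true
    · rw [if_neg h.ne', zero_sub, sub_neg_eq_add, ← dvd_neg, neg_add, ← sub_add_cancel a 1,
        ← coeff_nz, ← sub_eq_add_neg]
      split_ifs with l
      · rw [show a - 1 = 0 by omega]
        exact k false
      · rw [sub_zero]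
        exact C.pol false j hi (by simp [sg]; omega)
  cases b
  · rw [sg, Bool.not_false, ← nz_two, nz, nz, ← mul_sub]
    change s ∣ (nz false (fun i => L j i - two 1 _ _ i) i).coeff a
    rw [coeff_nz, dvd_neg, AddMonoidAlgebra.coeff_sub, Finsupp.sub_apply, coeff_two]
    exact key _
  · rw [AddMonoidAlgebra.coeff_sub, Finsupp.sub_apply, coeff_two]
    exact key _

theorem Chn.hyp (H : Loc s ρ) (C : Chn s ρ n r L τ) (hN : 0 < N) (hν : N * ν = 1)
    (inj : ∀ b j, Function.Injective (z b j))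
    (hz : ∀ b j, ∀ i ≤ n + 1, ρ ((nz b (L j) i).coeff 0) = es (fun l => (z b j l : ℂ) / N) i)
    (b : Bool) (j : Fin (r + 1)) :
    ∃ M, 0 < M ∧ Hyp N M (fun l => sg b * z b j l) fun l => sg b * z (!b) j l := by
  obtain ⟨p₀, h⟩ := H.gap (b := b) ((C.dm j).nz b) hN hν (c := fun l => sg b * z b j l)
    (d := fun l => sg b * z (!b) j l) fun i hi a => by
      simpa only [← mul_assoc, sg_sq, one_mul] using C.red H hν hz b j hi a
  exact hyp_int hN (fun l l' e => inj b j (mul_left_cancel₀ (by cases b <;> decide) e)) p₀ h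

theorem hyp_sol (hν : N * ν = 1) {M : ℕ} (hM : IsUnit (M : B)) (b : Bool) {x y : Fin (n + 1) → ℤ}
    (h : Hyp N M (fun l => sg b * x l) fun l => sg b * y l) (i : Fin (n + 1)) :
    ∃ φ : Sq B, φ 0 = 1 ∧ (∀ k, sg b * k < 0 → φ k = 0) ∧ op (Dk (x i * ν)) (n + 2)
      (two (sg b) (es fun l => x l * ν) (es fun l => y l * ν)) φ = 0 := by
  obtain ⟨u, u0, u1, u2⟩ := h i
  obtain ⟨μ, hμ⟩ := hM.exists_right_inv
  choose e w hw using u2
  have f : ∀ (c : ℤ) (k : ℤ), (x i * ν + k - c * ν : B) =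
      sg b * ν * (sg b * x i + N * (sg b * k) - sg b * c : ℤ) := fun c k => by
    have := congrArg (Int.cast : ℤ → B) (sg_sq b)
    push_cast at this ⊢
    linear_combination (-(x i * ν) + c * ν - k * (N * ν)) * this - k * hν
  refine ⟨fun k => if 0 ≤ sg b * k then w (sg b * k).toNat * μ ^ e (sg b * k).toNat else 0, ?_,
    fun k hk => if_neg hk.not_ge, Sq.ext fun k => ?_⟩
  · have := hw 0
    rw [u0, mul_one] at this
    have e1 : (M : ℤ) ^ e 0 = w 0 := by exact_mod_cast this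
    simp only [mul_zero, le_refl, if_true, Int.toNat_zero, ← e1]
    push_cast
    rw [← mul_pow, hμ, one_pow]
  · rw [op_two, Sq.zero_apply]
    simp only [f, mul_sub (sg b) k, sg_sq]
    rcases lt_trichotomy (sg b * k) 0 with l | l | l
    · rw [if_neg l.not_ge, if_neg (by omega), mul_zero, mul_zero, sub_zero]
    · rw [if_neg (c := 0 ≤ sg b * k - 1) (by omega), mul_zero, sub_zero,
        prod_eq_zero (mem_univ i) (by simp [l]), zero_mul]
    · obtain ⟨m, hm⟩ : ∃ m : ℕ, sg b * k = m + 1 := ⟨(sg b * k - 1).toNat, by omega⟩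
      have e1 : (∏ j, (sg b * x i + N * (m + 1) - sg b * x j)) * w (m + 1) * M ^ e m =
          (∏ j, (sg b * x i + N * m - sg b * y j)) * w m * M ^ e (m + 1) := by
        have := u1 m
        qify at this ⊢
        rw [← hw, ← hw]
        linear_combination (M : ℚ) ^ e (m + 1) * M ^ e m * this
      have e2 := congrArg (Int.cast : ℤ → B) e1
      rw [hm, if_pos (by omega), if_pos (by omega), add_sub_cancel_right, Int.toNat_natCast,
        Int.toNat_natCast_add_one, prod_mul_distrib (f := fun _ => (sg b * ν : B)),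
        prod_mul_distrib (f := fun _ => (sg b * ν : B)), ← Int.cast_prod, ← Int.cast_prod]
      rw [Int.cast_mul, Int.cast_mul, Int.cast_mul, Int.cast_mul, Int.cast_pow, Int.cast_pow,
        Int.cast_natCast] at e2
      have m1 : ∀ k : ℕ, (M : B) ^ k * μ ^ k = 1 := fun k => by rw [← mul_pow, hμ, one_pow]
      generalize ((∏ j, (sg b * x i + N * (m + 1) - sg b * x j) : ℤ) : B) = A at e2 ⊢
      generalize ((∏ j, (sg b * x i + N * m - sg b * y j) : ℤ) : B) = A' at e2 ⊢
      linear_combination (∏ _j : Fin (n + 1), sg b * ν) * (μ ^ e m * μ ^ e (m + 1) * e2 -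
        A * w (m + 1) * μ ^ e (m + 1) * m1 (e m) + A' * w m * μ ^ e m * m1 (e (m + 1)))

theorem frob_dvd (hν : N * ν = 1) (c : ℤ) {p : ℕ} (hp : p.Prime) :
    (p : B) ∣ (c * ν) ^ p - c * ν := by
  have k : ∀ c : ℤ, (p : B) ∣ (c : B) ^ p - c := fun c => by
    have : Fact p.Prime := ⟨hp⟩
    have := Int.cast_dvd_cast (α := B) _ _
      ((ZMod.intCast_zmod_eq_zero_iff_dvd (c ^ p - c) p).1 (by simp))
    exact_mod_cast this
  obtain ⟨x, hx⟩ := k c
  obtain ⟨y, hy⟩ := k N
  have e : (N : B) ^ p * ν ^ p = 1 := by rw [← mul_pow, hν, one_pow]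
  rw [Int.cast_natCast] at hy
  exact ⟨x * ν ^ p - c * y * ν ^ p * ν, by
    rw [mul_pow]
    linear_combination ν ^ p * hx - c * ν ^ p * ν * hy + c * ν * e - c * ν ^ p * hν⟩

theorem fact_dvd (hN : 0 < N) (hν : N * ν = 1) (c k : ℤ) (m : ℕ) :
    (m.factorial : B) ∣ ∏ j ∈ range m, (c * ν + k - j) := by
  obtain ⟨e, he⟩ := binom_int hN.ne' (c + k * N) m
  have := (Int.cast_dvd_cast (α := B) _ _ he).mul_left (ν ^ e * ∏ _j ∈ range m, ν)
  push_cast at this
  rw [mul_mul_mul_comm, ← mul_pow, mul_comm ν, hν, one_pow, one_mul, ← prod_mul_distrib] at this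
  convert this using 2 with j
  linear_combination (j - k) * hν

theorem Chn.main (H : Loc s ρ) (C : Chn s ρ n r L τ) (hN : 0 < N) (hν : N * ν = 1)
    (sep : ∀ b j l l', l ≠ l' → IsUnit ((z b j l - z b j l' : ℤ) : B))
    (mid : ∀ j ≠ Fin.last r, z false j = z true (nx r j))
    (hz : ∀ b j, ∀ i ≤ n + 1, ρ ((nz b (L j) i).coeff 0) = es (fun l => (z b j l : ℂ) / N) i)
    (hy : ∀ b j, ∃ M : ℕ, IsUnit (M : B) ∧
      Hyp N M (fun l => sg b * z b j l) fun l => sg b * z (!b) j l)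
    (E m : ℕ) {i₀ i : ℕ} (h₀ : i₀ ≤ n) (hi : i ≤ n) (a : ℤ) :
    ∃ x y, (rr th 1 n (L 0) (bs _ i₀) m i).coeff a = m.factorial * x + s ^ E * y := by
  choose M hM hy using hy
  choose φ φ0 φ1 φ2 using fun b j => hyp_sol hν (hM b j) b (hy b j)
  have hs : ∀ b j, Sep fun l => (z b j l * ν : B) := fun b j l l' e => by
    rw [← sub_mul, ← Int.cast_sub]
    exact (sep b j l l' e).mul (IsUnit.of_mul_eq_one_right _ hν)
  have G : Glue s (nx r) n L
      (fun j => two 1 (es fun l => z true j l * ν) (es fun l => z false j l * ν)) τ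
      (fun b j l => z b j l * ν) φ := by
    refine ⟨C.tau, fun j => by simp [two, es_top], C.dvd, fun j i hi => C.red H hν hz true j hi, hs,
      fun b j l => ?_, φ0, φ1, fun j => ?_, fun b j l m h => H.eps (C.rg H b j) ((C.dm j).nz b)
        (p₁ := 0) (fun p hp _ => frob_dvd hν _ hp) ?_ m h⟩
    · cases b
      · refine Sq.ext fun k => ?_
        have := congrFun (φ2 false j l) (k - 1)
        rw [sg, Bool.not_false, ← nz_two, op_nz, sub_add_cancel] at this
        exact neg_eq_zero.1 this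
      · exact φ2 true j l
    · by_cases h : j = Fin.last r
      · exact .inr ⟨h ▸ C.lst, by rw [h, nx_last]; exact C.fin⟩
      · exact .inl ⟨by rw [mid j h], C.mid j h⟩
    · have e := op_two (z b j l * ν) (sg b) (fun l => (z b j l * ν : B))
        (fun l => (z (!b) j l * ν : B)) (Pi.single (0 : ℤ) 1) 0
      have e1 : ∀ g : B[T;T⁻¹], ∀ i : ℕ, (g.coeff.sum fun a c => c * (((z b j l * ν : B) +
          (0 - a : ℤ)) ^ i * Pi.single (M := fun _ => B) (0 : ℤ) 1 (0 - a))) =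
            g.coeff 0 * (z b j l * ν) ^ i := fun g i => by
        rw [Finsupp.sum_eq_single 0 (fun a _ ha => by simp [ha]) (by simp)]
        simp
      rw [prod_eq_zero (mem_univ l) (by simp), zero_mul, op_apply,
        Pi.single_eq_of_ne (by cases b <;> decide), mul_zero, sub_zero] at e
      simp only [e1] at e
      rw [← sub_zero (∑ _ ∈ _, _), ← e, ← sum_sub_distrib]
      refine dvd_sum fun i hi => ?_
      rw [← sub_mul]
      exact (C.red H hν hz b j (by have := mem_range.1 hi; omega) 0).mul_right _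
  obtain ⟨h, hh⟩ := G.exists_sol C.lst E
  rw [nx_last] at hh
  exact fin_dvd (hs true 0) hh (fun l k => fact_dvd hN hν _ k m) h₀ hi a

end

end Pool.Agent.Lib.MP_815ef6_nt.Ch
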