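import Pool.Agent.Lib.MP_815ef6_nt.CH.Chn
import Pool.Agent.Lib.MP_815ef6_nt.CH.Ana

/-! The components of the degeneration, over the complex numbers. -/

namespace Pool.Agent.Lib.MP_815ef6_nt.Ch
open Finset LaurentPolynomial

variable {n r : ℕ}

/-- The substitution `z = x w`. -/
noncomputable def sc (x : ℂ) : Polynomial ℂ →+* ℂ[T;T⁻¹] :=
  Polynomial.eval₂RingHom C (C x * T 1)

theorem sc_C (x c : ℂ) : sc x (Polynomial.C c) = C c := Polynomial.eval₂_C _ _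

theorem sc_X (x : ℂ) : sc x Polynomial.X = C x * T 1 := Polynomial.eval₂_X _ _

theorem sc_mono (x c : ℂ) (k : ℕ) : sc x (Polynomial.monomial k c) = C (x ^ k * c) * T k := by
  rw [← Polynomial.C_mul_X_pow_eq_monomial, map_mul, map_pow, sc_C, sc_X, mul_pow, T_pow, mul_one,
    map_mul, map_pow]
  ring

theorem coeff_sc (x : ℂ) (f : Polynomial ℂ) (k : ℤ) :
    (sc x f).coeff k = x ^ k * (Polynomial.toLaurent f).coeff k := by
  induction f using Polynomial.induction_on' with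
  | add f g h h' => simp only [map_add, AddMonoidAlgebra.coeff_add, Finsupp.add_apply, h, h', mul_add]
  | monomial m c =>
    rw [sc_mono, Polynomial.toLaurent_C_mul_T, coeff_CT, coeff_CT]
    split_ifs with h
    · rw [← h, zpow_natCast]
    · rw [mul_zero]

theorem coeff_tl (f : Polynomial ℂ) (k : ℕ) : (Polynomial.toLaurent f).coeff k = f.coeff k := by
  induction f using Polynomial.induction_on' with
  | add f g h h' => simp only [map_add, AddMonoidAlgebra.coeff_add, Finsupp.add_apply, h, h',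
      Polynomial.coeff_add]
  | monomial m c => simp [coeff_CT, Polynomial.coeff_monomial]

theorem coeff_tl_neg (f : Polynomial ℂ) {k : ℤ} (h : k < 0) :
    (Polynomial.toLaurent f).coeff k = 0 := by
  induction f using Polynomial.induction_on' with
  | add f g h h' => simp only [map_add, AddMonoidAlgebra.coeff_add, Finsupp.add_apply, h, h',
      add_zero]
  | monomial m c => rw [Polynomial.toLaurent_C_mul_T, coeff_CT, if_neg (by omega)]

theorem sc_dz (x : ℂ) (f : Polynomial ℂ) : sc x (dz f) = th (sc x f) := by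
  induction f using Polynomial.induction_on' with
  | add f g h h' => rw [map_add, th_add, ← h, ← h', dz, dz, dz, map_add, mul_add, map_add]
  | monomial m c =>
    rw [sc_mono, th_CT, dz, Polynomial.derivative_monomial]
    cases m with
    | zero => simp
    | succ m =>
      rw [Polynomial.X_mul_monomial, sc_mono, Nat.add_sub_cancel]
      congr 2
      push_cast
      ring

/-- Laurent polynomials with coefficients in a subring. -/
noncomputable def LS (S : Subring ℂ) : Subring ℂ[T;T⁻¹] := (mp S.subtype).range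

theorem mem_LS {S : Subring ℂ} {f : ℂ[T;T⁻¹]} : f ∈ LS S ↔ ∀ e, f.coeff e ∈ S :=
  ⟨fun ⟨g, h⟩ e => by rw [← h, coeff_mp]; exact (g.coeff e).2,
    fun h => exists_mp fun e => ⟨⟨_, h e⟩, rfl⟩⟩

theorem mp_inj (S : Subring ℂ) : Function.Injective (mp S.subtype) := fun f g h =>
  LaurentPolynomial.ext fun e => Subtype.ext (by
    have := congrArg (fun x : ℂ[T;T⁻¹] => x.coeff e) h
    simpa using this)

theorem C_mem {S : Subring ℂ} {x : ℂ} (h : x ∈ S) : (C x : ℂ[T;T⁻¹]) ∈ LS S :=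
  ⟨C ⟨x, h⟩, mp_C _ _⟩

theorem T_mem (S : Subring ℂ) (k : ℤ) : (T k : ℂ[T;T⁻¹]) ∈ LS S := ⟨T k, mp_T _ _⟩

theorem LS_mono {S S' : Subring ℂ} (h : S ≤ S') : LS S ≤ LS S' := fun _ hf =>
  mem_LS.2 fun e => h (mem_LS.1 hf e)

theorem sc_mem {S : Subring ℂ} {x : ℂ} (hx : x ∈ S) {f : Polynomial ℂ} (h : ∀ e, f.coeff e ∈ S) :
    sc x f ∈ LS S := by
  rw [f.as_sum_support, map_sum]
  refine sum_mem fun k _ => ?_
  rw [sc_mono]
  exact mul_mem (C_mem (mul_mem (pow_mem hx k) (h k))) (T_mem _ _)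

section
variable (a : Fin (r + 1) → ℂ) (Z : ℕ → Polynomial ℂ)

/-- The normalizing constants. -/
noncomputable def cc (v : ℕ) : ℂ := ∏ i : Fin (r + 1) with v ≤ i.val, (-a i)⁻¹

/-- The normalizing factors. -/
noncomputable def uu (j : Fin (r + 1)) : ℂ[T;T⁻¹] := C (cc a j * (a j)⁻¹ ^ (j : ℕ)) * T (-j)

/-- The components. -/
noncomputable def Lc (j : Fin (r + 1)) (i : ℕ) : ℂ[T;T⁻¹] := uu a j * sc (a j) (Z i)

/-- The data. -/
structure Dat (n : ℕ) : Prop where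
  ne : ∀ i, a i ≠ 0
  deg : ∀ i, (Z i).natDegree ≤ r + 1
  top : Z (n + 1) = ∏ i, (Polynomial.X - Polynomial.C (a i))
  dorm : ∃ (T : Finset ℂ) (p₀ : ℕ), ∀ p : ℕ, p.Prime → p₀ ≤ p → ∀ i ≤ n, ∀ e,
    ∃ y ∈ cl T, (rr dz 1 n Z (bs _ 0) p i).coeff e = p * y

variable {a Z}

theorem cc_succ (j : Fin (r + 1)) : cc a j = (-a j)⁻¹ * cc a (j + 1) := by
  rw [cc, cc, ← prod_insert (f := fun i => (-a i)⁻¹) (by simp)]
  congr 1
  ext i
  simp only [mem_filter, mem_univ, true_and, mem_insert, Fin.ext_iff]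
  omega

theorem rr_Lc (j : Fin (r + 1)) (i₀ m i : ℕ) : rr th 1 n (Lc a Z j) (bs _ i₀) m i =
    uu a j ^ m * sc (a j) (rr dz 1 n Z (bs _ i₀) m i) := by
  rw [rr_map (sc (a j)) (sc_dz _), map_one, bs_map]
  exact rr_mul dv_th _ m i

variable (D : Dat a Z n)
include D

theorem Dat.coeff (j : Fin (r + 1)) (i : ℕ) (e : ℤ) : (Lc a Z j i).coeff e =
    cc a j * a j ^ e * (Polynomial.toLaurent (Z i)).coeff (e + j) := by
  rw [Lc, uu, coeff_CT_mul, coeff_sc, sub_neg_eq_add, zpow_add₀ (D.ne j), zpow_natCast, inv_pow]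
  have := pow_ne_zero j (D.ne j)
  field_simp

theorem Dat.coeff' (j : Fin (r + 1)) (i : ℕ) (e : ℤ) : (nz false (Lc a Z j) i).coeff e =
    cc a (j + 1) * a j ^ e * (Polynomial.toLaurent (Z i)).coeff (e + (j + 1)) := by
  rw [coeff_nz, D.coeff, cc_succ, zpow_add₀ (D.ne j), zpow_one, add_assoc, add_comm 1]
  have := D.ne j
  field_simp

theorem Dat.mid (j : Fin r) (i : ℕ) : Nd ⊥ (a j.castSucc / a j.succ)
    (cf (nz false (Lc a Z j.castSucc) i)) (cf (Lc a Z j.succ i)) := fun k => by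
  have h1 := pow_ne_zero k (D.ne j.castSucc)
  have h2 := pow_ne_zero k (D.ne j.succ)
  simp only [cf, D.coeff, D.coeff', Ideal.mem_bot, Fin.val_castSucc, Fin.val_succ, zpow_neg,
    zpow_natCast, div_pow, Nat.cast_add, Nat.cast_one]
  constructor <;> field_simp <;> ring

theorem Dat.fin (i : ℕ) (e : ℤ) (he : 0 < e) :
    (nz false (Lc a Z (Fin.last r)) i).coeff e = 0 ∧ (Lc a Z 0 i).coeff (-e) = 0 := by
  obtain ⟨k, rfl⟩ := Int.eq_ofNat_of_zero_le he.le
  rw [D.coeff, D.coeff', coeff_tl_neg (k := -k + _) _ (by simpa using he), Fin.val_last,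
    show (k : ℤ) + (r + 1) = (k + (r + 1) : ℕ) by push_cast; rfl, coeff_tl,
    Polynomial.coeff_eq_zero_of_natDegree_lt ((D.deg i).trans_lt (by omega))]
  simp

theorem Dat.dm : ∃ (T : Finset ℂ) (p₀ : ℕ), ∀ p : ℕ, p.Prime → p₀ ≤ p → ∀ j, ∀ i ≤ n,
    ∃ g ∈ LS (cl T), rr th 1 n (Lc a Z j) (bs _ 0) p i = p * g := by
  classical
  obtain ⟨T, p₀, h⟩ := D.dorm
  let T' := T ∪ univ.image a ∪ univ.image fun j : Fin (r + 1) => cc a j * (a j)⁻¹ ^ (j : ℕ)
  have m : ∀ x ∈ T', x ∈ cl T' := fun x hx => Subring.subset_closure hx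
  refine ⟨T', p₀, fun p hp h0 j i hi => ?_⟩
  have p0 : (p : ℂ) ≠ 0 := Nat.cast_ne_zero.2 hp.ne_zero
  refine ⟨uu a j ^ p * sc (a j) (Polynomial.C (p : ℂ)⁻¹ * rr dz 1 n Z (bs _ 0) p i),
    mul_mem (pow_mem (mul_mem (C_mem (m _ (by simp [T']))) (T_mem _ _)) p)
      (sc_mem (m _ (by simp [T'])) fun e => ?_), ?_⟩
  · obtain ⟨y, hy, e⟩ := h p hp h0 i hi e
    rw [Polynomial.coeff_C_mul, e, inv_mul_cancel_left₀ p0]
    exact Subring.closure_mono (fun x hx => by simp [T', mem_coe.1 hx]) hy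
  · rw [rr_Lc, map_mul, sc_C, ← map_natCast C, mul_left_comm, ← mul_assoc (C _), ← map_mul,
      mul_inv_cancel₀ p0, map_one, one_mul]

theorem Dat.lead (j : Fin (r + 1)) : Lc a Z j (n + 1) =
    ∏ i, if i < j then 1 - C (a i / a j) * T (-1) else 1 - C (a j / a i) * T 1 := by
  have e : uu a j = ∏ i, if i < j then C (a j)⁻¹ * T (-1) else C (-a i)⁻¹ := by
    rw [prod_ite, prod_const, filter_gt_eq_Iio, Fin.card_Iio, mul_pow, T_pow, ← map_prod,
      ← map_pow, uu, map_mul, cc]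
    simp only [not_lt, Fin.le_def, mul_neg, mul_one]
    ring
  rw [Lc, D.top, map_prod, e, ← prod_mul_distrib]
  refine prod_congr rfl fun i _ => ?_
  have h1 : (C (a j)⁻¹ * C (a j) : ℂ[T;T⁻¹]) = 1 := by
    rw [← map_mul, inv_mul_cancel₀ (D.ne j), map_one]
  have h2 : (C (a i)⁻¹ * C (a i) : ℂ[T;T⁻¹]) = 1 := by
    rw [← map_mul, inv_mul_cancel₀ (D.ne i), map_one]
  have h3 : (T (-1) * T 1 : ℂ[T;T⁻¹]) = 1 := by rw [← T_add]; rfl
  rw [map_sub, sc_X, sc_C]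
  split_ifs
  · rw [div_eq_mul_inv, map_mul]
    linear_combination T (-1) * T 1 * h1 + h3
  · rw [div_eq_mul_inv, map_mul, inv_neg, map_neg]
    linear_combination h2

theorem Dat.lead' {S : Subring ℂ} (hS : ∀ i j, i ≤ j → a i / a j ∈ S) (j : Fin (r + 1)) :
    ∃ F : S[T;T⁻¹], mp S.subtype F = Lc a Z j (n + 1) ∧ 1 - T 1 ∣ F ∧ ∀ ρ : S →+* ℂ,
      (∀ i j, ∀ h : i < j, ρ ⟨_, hS i j h.le⟩ = 0) → mp ρ F = 1 - T 1 := by
  have e : (⟨_, hS j j le_rfl⟩ : S) = 1 := Subtype.ext (div_self (D.ne j))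
  refine ⟨∏ i, if h : i < j then 1 - C ⟨_, hS i j h.le⟩ * T (-1)
    else 1 - C ⟨_, hS j i (not_lt.1 h)⟩ * T 1, ?_, ?_, fun ρ hρ => ?_⟩
  · rw [D.lead, map_prod]
    refine prod_congr rfl fun i _ => ?_
    split_ifs <;> simp
  · refine Dvd.dvd.trans ?_ (dvd_prod_of_mem _ (mem_univ j))
    rw [dif_neg (lt_irrefl j), e, map_one, one_mul]
  · rw [map_prod, prod_eq_single j (fun i _ h => ?_) (by simp), dif_neg (lt_irrefl j), e]
    · simp
    · split_ifs with l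
      · simp [hρ i j l]
      · simp [hρ j i (lt_of_le_of_ne (not_lt.1 l) h.symm)]

theorem Dat.back {T : Finset ℂ} (h : ∀ i₀ ≤ n, ∀ m : ℕ, ∀ i ≤ n, ∀ e, ∃ y ∈ cl T,
    (rr th 1 n (Lc a Z 0) (bs _ i₀) m i).coeff e = m.factorial * y) :
    ∃ T' : Finset ℂ, ∀ i₀ ≤ n, ∀ m : ℕ, ∀ i ≤ n, ∀ e, ∃ y ∈ cl T',
      (rr dz 1 n Z (bs _ i₀) m i).coeff e = m.factorial * y := by
  classical
  have c0 : cc a 0 ≠ 0 := prod_ne_zero_iff.2 fun i _ => inv_ne_zero (neg_ne_zero.2 (D.ne i))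
  refine ⟨T ∪ {(cc a 0)⁻¹, (a 0)⁻¹}, fun i₀ h₀ m i hi e => ?_⟩
  obtain ⟨y, hy, k⟩ := h i₀ h₀ m i hi e
  rw [rr_Lc, uu, Fin.val_zero, pow_zero, mul_one, Nat.cast_zero, neg_zero, T_zero, mul_one,
    ← map_pow, coeff_C_mul, coeff_sc, coeff_tl, zpow_natCast] at k
  refine ⟨(cc a 0)⁻¹ ^ m * (a 0)⁻¹ ^ e * y, mul_mem (mul_mem (pow_mem (Subring.subset_closure
    (by simp)) _) (pow_mem (Subring.subset_closure (by simp)) _))
      (Subring.closure_mono (coe_subset.2 subset_union_left) hy), ?_⟩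
  have := D.ne 0
  rw [mul_left_comm, ← k, inv_pow, inv_pow]
  field_simp

end

end Pool.Agent.Lib.MP_815ef6_nt.Ch
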