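import Pool.Agent.Lib.MP_815ef6_nt.CH.Sup

/-! Consequences of the vanishing of the `p`-curvature at one prime. -/

namespace Pool.Agent.Lib.MP_815ef6_nt.Ch
open Finset LaurentPolynomial

variable {R : Type*} [CommRing R] {n : ℕ}

/-- The polynomial with the coefficients `c i`, `i < N`. -/
noncomputable def pl (N : ℕ) (c : ℕ → R) : Polynomial R :=
  ∑ i ∈ range N, Polynomial.C (c i) * Polynomial.X ^ i

/-- The quotients of the division with remainder. -/
noncomputable def qt (η : R) (n : ℕ) (c : ℕ → R) : ℕ → Polynomial R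
  | 0 => 0
  | m + 1 => Polynomial.C (c (n + 1)) * (Polynomial.X - Polynomial.C (m * η)) * qt η n c m +
      Polynomial.C (rr (fun _ => 0) η n c (bs R 0) m n)

/-- Division with remainder. -/
theorem poly_div (η : R) (n : ℕ) (c : ℕ → R) (m : ℕ) :
    Polynomial.C (c (n + 1) ^ m) * ∏ j ∈ range m, (Polynomial.X - Polynomial.C (j * η)) =
      pl (n + 1) (rr (fun _ => 0) η n c (bs R 0) m) + qt η n c m * pl (n + 2) c := by
  obtain ⟨D, hD⟩ : ∃ D : Polynomial R →+ Polynomial R, ∀ v, D v = Polynomial.X * v :=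
    ⟨AddMonoidHom.mulLeft _, fun _ => rfl⟩
  have h1 : ∀ i : ℕ, D^[i] 1 = Polynomial.X ^ i := fun i => by
    induction i with
    | zero => simp
    | succ i ih => rw [Function.iterate_succ_apply', ih, hD, pow_succ']
  have h2 : ∀ N (g : ℕ → R), op D N g 1 = pl N g := fun N g => by
    simp only [op, pl, h1, Polynomial.smul_eq_C_mul]
  have h3 : ∀ m, fl D η 1 m = ∏ j ∈ range m, (Polynomial.X - Polynomial.C (j * η)) := fun m => by
    induction m with
    | zero => simp [fl]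
    | succ m ih => rw [fl, ih, hD, prod_range_succ, Polynomial.smul_eq_C_mul]; ring
  have h4 : ∀ ε m, er D (fun _ => 0) η n c (bs R 0) ε m = qt η n c m * ε := fun ε m => by
    induction m with
    | zero => simp [er, qt]
    | succ m ih =>
      simp only [er, qt, ih, hD, Polynomial.smul_eq_C_mul, add_zero, map_mul]
      ring
  have h := Lb.gen (D := D) (d := fun _ : R => 0) (fun f v => by simp [hD]) η n c (bs R 0) 1 m
  rwa [op_bs n.succ_pos, Function.iterate_zero_apply, h2, h2, h3, h4,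
    Polynomial.smul_eq_C_mul] at h

theorem prod_char {p : ℕ} (hp : p.Prime) :
    ∃ F : Polynomial R, ∏ j ∈ range p, (Polynomial.X - Polynomial.C (j : R)) =
      Polynomial.X ^ p - Polynomial.X + (p : Polynomial R) * F := by
  have := Fact.mk hp
  have h1 : ∏ j ∈ range p, (Polynomial.X - Polynomial.C (j : ZMod p)) =
      Polynomial.X ^ p - Polynomial.X := by
    have e := FiniteField.roots_X_pow_card_sub_X (ZMod p)
    rw [ZMod.card] at e
    rw [← Polynomial.prod_multiset_X_sub_C_of_monic_of_roots_card_eq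
      (p := Polynomial.X ^ p - Polynomial.X) (Polynomial.monic_X_pow_sub
        (Polynomial.degree_X_le.trans_lt (by exact_mod_cast hp.one_lt))) (by
          rw [e, FiniteField.X_pow_card_sub_X_natDegree_eq _ hp.one_lt]
          exact ZMod.card p), e]
    exact prod_nbij' (fun j => (j : ZMod p)) ZMod.val (fun _ _ => mem_univ _)
      (fun a _ => mem_range.2 a.val_lt) (fun j hj => ZMod.val_cast_of_lt (mem_range.1 hj))
      (fun a _ => ZMod.natCast_zmod_val a) fun _ _ => rfl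
  obtain ⟨F, hF⟩ : Polynomial.C (p : ℤ) ∣ ∏ j ∈ range p, (Polynomial.X - Polynomial.C (j : ℤ)) -
      (Polynomial.X ^ p - Polynomial.X) := (Polynomial.C_dvd_iff_dvd_coeff _ _).2 fun i => by
    rw [← ZMod.intCast_zmod_eq_zero_iff_dvd, ← eq_intCast (Int.castRingHom (ZMod p)),
      ← Polynomial.coeff_map]
    simp only [Polynomial.map_sub, Polynomial.map_prod, Polynomial.map_X, Polynomial.map_C,
      map_natCast (Int.castRingHom (ZMod p)), Polynomial.map_pow, h1, sub_self,
      Polynomial.coeff_zero]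
  refine ⟨F.map (Int.castRingHom R), ?_⟩
  have := congrArg (Polynomial.map (Int.castRingHom R)) hF
  simp only [Polynomial.map_sub, Polynomial.map_prod, Polynomial.map_X, Polynomial.map_C,
    map_natCast (Int.castRingHom R), Polynomial.map_pow, Polynomial.map_mul] at this
  rw [← map_natCast Polynomial.C p, ← this, add_sub_cancel]

theorem ep_sq (b : Bool) : sg b * sg b = 1 := by cases b <;> rfl

theorem ep_ne {b : Bool} {a : ℤ} (h : a ≠ 0) : sg b * a < 0 ∨ sg b * (-a) < 0 := by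
  cases b <;> simp only [sg] <;> omega

theorem ep_C (c : R) (k : ℤ) : (C c : R[T;T⁻¹]).coeff k = if 0 = k then c else 0 := by
  rw [← coeff_CT, T_zero, mul_one]

/-- The Laurent polynomials whose polar coefficients lie in `J`. -/
def rgS (J : Ideal R) (b : Bool) : Subring R[T;T⁻¹] where
  carrier := {f | ∀ a, sg b * a < 0 → f.coeff a ∈ J}
  zero_mem' _ _ := J.zero_mem
  one_mem' a ha := by
    rw [← map_one C, ep_C, if_neg (by rintro rfl; simp at ha)]
    exact J.zero_mem
  add_mem' hf hg a ha := J.add_mem (hf a ha) (hg a ha)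
  neg_mem' hf a ha := J.neg_mem (hf a ha)
  mul_mem' {f g} hf hg a ha := by
    rw [coeff_mul', smul_apply]
    refine J.sum_mem fun a' _ => ?_
    rcases lt_or_ge (sg b * a') 0 with h | h
    · exact J.mul_mem_right _ (hf a' h)
    · exact J.mul_mem_left _ (hg _ (by rw [mul_sub]; omega))

theorem ep_th {J : Ideal R} {b : Bool} {f : R[T;T⁻¹]} (h : f ∈ rgS J b) : th f ∈ rgS J b :=
  fun a ha => J.mul_mem_left _ (h a ha)

/-- The constant term. -/
noncomputable def epC {R' : Type*} [CommRing R'] (f : R →+* R') {J : Ideal R}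
    (hJ : ∀ x ∈ J, f x = 0) (b : Bool) : rgS J b →+* R' where
  toFun x := f (x.1.coeff 0)
  map_one' := (congrArg f AddMonoidAlgebra.coeff_one_zero).trans f.map_one
  map_zero' := f.map_zero
  map_add' _ _ := f.map_add _ _
  map_mul' x y := by
    rw [Subring.coe_mul, coeff_mul', smul_apply, Finsupp.sum, map_sum, sum_eq_single 0, map_mul]
    · rfl
    · intro a _ ha
      rcases ep_ne (b := b) ha with h | h
      · exact hJ _ (J.mul_mem_right _ (x.2 a h))
      · exact hJ _ (J.mul_mem_left _ (y.2 _ (by rwa [zero_sub])))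
    · intro h
      rw [Finsupp.notMem_support_iff.1 h, zero_mul, map_zero]

/-- The recursion for the constant terms. -/
theorem rr_const {R' : Type*} [CommRing R'] (f : R →+* R') {J : Ideal R} (hJ : ∀ x ∈ J, f x = 0)
    {b : Bool} {L : ℕ → R[T;T⁻¹]} (hL : ∀ i ≤ n + 1, L i ∈ rgS J b) (m : ℕ) {i : ℕ} (hi : i ≤ n) :
    rr th 1 n L (bs _ 0) m i ∈ rgS J b ∧ f ((rr th 1 n L (bs _ 0) m i).coeff 0) =
      rr (fun _ => 0) 1 n (fun i => f ((L i).coeff 0)) (bs _ 0) m i := by
  obtain ⟨L', hL'⟩ : ∃ L' : ℕ → rgS J b, ∀ i ≤ n + 1, (L' i).1 = L i :=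
    ⟨fun i => if h : i ≤ n + 1 then ⟨L i, hL i h⟩ else 0, fun i h => congrArg _ (dif_pos h)⟩
  have e1 := rr_map (d := fun x : rgS J b => ⟨th x.1, ep_th x.2⟩) (d' := th) (η := 1) (n := n)
    (L := L') (g := bs _ 0) (rgS J b).subtype (fun _ => rfl) m i
  have e2 := rr_map (d := fun x : rgS J b => ⟨th x.1, ep_th x.2⟩) (d' := fun _ => 0) (η := 1)
    (n := n) (L := L') (g := bs _ 0) (epC f hJ b) (fun x => by simp [epC]) m i
  rw [bs_map, map_one, rr_congr (L := fun i => (rgS J b).subtype (L' i)) (L' := L) hL' m hi] at e1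
  rw [bs_map, map_one, rr_congr (L := fun i => epC f hJ b (L' i))
    (L' := fun i => f ((L i).coeff 0)) (fun i h => congrArg (fun x : R[T;T⁻¹] => f (x.coeff 0)) (hL' i h)) m hi] at e2
  rw [← e1]
  exact ⟨Subtype.property _, e2⟩

/-- Sequences that are killed by `J` and have no polar part. -/
def EpW (J : Ideal R) (b : Bool) (k₀ : ℤ) (u : Sq R) : Prop :=
  (∀ x ∈ J, ∀ k, x * u k = 0) ∧ ∀ k, sg b * (k - k₀) < 0 → u k = 0

theorem EpW.smul {J : Ideal R} {b : Bool} {k₀ : ℤ} {u : Sq R} (h : EpW J b k₀ u) {f : R[T;T⁻¹]}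
    (hf : f ∈ rgS J b) : EpW J b k₀ (f • u) ∧ (f • u) k₀ = f.coeff 0 * u k₀ := by
  refine ⟨⟨fun x hx k => ?_, fun k hk => ?_⟩, ?_⟩ <;> rw [smul_apply, Finsupp.sum]
  · rw [mul_sum]
    exact sum_eq_zero fun a _ => by rw [mul_left_comm, h.1 x hx, mul_zero]
  · refine sum_eq_zero fun a _ => ?_
    rcases lt_or_ge (sg b * a) 0 with e | e
    · exact h.1 _ (hf a e) _
    · rw [h.2 _ (by rw [sub_right_comm, mul_sub]; omega), mul_zero]
  · rw [sum_eq_single 0, sub_zero]
    · intro a _ ha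
      rcases ep_ne (b := b) ha with e | e
      · exact h.1 _ (hf a e) _
      · rw [h.2 _ (by rwa [sub_sub_cancel_left]), mul_zero]
    · intro e
      rw [Finsupp.notMem_support_iff.1 e, zero_mul]

theorem ep_er {J : Ideal R} {b : Bool} {k₀ : ℤ} {ε : Sq R} (h : EpW J b k₀ ε) {L : ℕ → R[T;T⁻¹]}
    (hL : ∀ i ≤ n + 1, L i ∈ rgS J b) (κ : R) (m : ℕ) :
    EpW J b k₀ (er (Dk κ) th 1 n L (bs _ 0) ε m) ∧ er (Dk κ) th 1 n L (bs _ 0) ε m k₀ =
      (qt 1 n (fun i => (L i).coeff 0) m).eval (κ + k₀) * ε k₀ := by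
  induction m with
  | zero => exact ⟨⟨fun _ _ _ => mul_zero _, fun _ _ => rfl⟩, by simp [er, qt]⟩
  | succ m ih =>
    have h0 := hL _ le_rfl
    obtain ⟨r1, r2⟩ := rr_const (Ideal.Quotient.mk J) (fun _ => Ideal.Quotient.eq_zero_iff_mem.2)
      hL m (le_refl n)
    have r3 := rr_map (d := fun _ => 0) (d' := fun _ => 0) (η := 1) (n := n)
      (L := fun i => (L i).coeff 0) (g := bs _ 0) (Ideal.Quotient.mk J) (fun _ => rfl) m n
    rw [bs_map, map_one] at r3
    have r4 := h.1 _ (Ideal.Quotient.eq.1 (r2.trans r3.symm)) k₀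
    obtain ⟨a1, a2⟩ := EpW.smul (u := Dk κ (er (Dk κ) th 1 n L (bs _ 0) ε m))
      ⟨fun x hx k => by rw [Dk_apply, mul_left_comm, ih.1.1 x hx, mul_zero],
        fun k hk => by rw [Dk_apply, ih.1.2 k hk, mul_zero]⟩ h0
    obtain ⟨b1, b2⟩ := ih.1.smul ((rgS J b).mul_mem (natCast_mem _ m)
      ((rgS J b).add_mem ((rgS J b).mul_mem (one_mem _) h0) (ep_th h0)))
    obtain ⟨c1, c2⟩ := h.smul r1
    rw [er]
    refine ⟨⟨fun x hx k => ?_, fun k hk => ?_⟩, ?_⟩ <;> rw [Sq.add_apply, Sq.sub_apply]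
    · rw [mul_add, mul_sub, a1.1 x hx, b1.1 x hx, c1.1 x hx, sub_zero, add_zero]
    · rw [a1.2 k hk, b1.2 k hk, c1.2 k hk, sub_zero, add_zero]
    · rw [a2, b2, c2, Dk_apply, ih.2, ← map_natCast C, coeff_C_mul, one_mul,
        AddMonoidAlgebra.coeff_add, Finsupp.add_apply, coeff_th]
      simp only [qt, Polynomial.eval_add, Polynomial.eval_mul, Polynomial.eval_C,
        Polynomial.eval_sub, Polynomial.eval_X, Int.cast_zero]
      linear_combination r4

/-- The error of an approximate solution has no constant term. -/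
theorem eps_zero {p : ℕ} (hp : p.Prime) (h0 : (p : R) = 0) {J : Ideal R} {b : Bool}
    {L : ℕ → R[T;T⁻¹]} (hL : Rg J b n L) (hr : ∀ i ≤ n, rr th 1 n L (bs _ 0) p i = 0) {κ : R}
    (hκ : κ ^ p = κ) {k₀ : ℤ}
    (hQ : ∑ i ∈ range (n + 2), (L i).coeff 0 * (κ + k₀) ^ i ∈ J) (h : Sq R)
    (h1 : ∀ x ∈ J, ∀ k, x * op (Dk κ) (n + 2) L h k = 0)
    (h2 : ∀ k, sg b * (k - k₀) < 0 → op (Dk κ) (n + 2) L h k = 0) :
    op (Dk κ) (n + 2) L h k₀ = 0 := by
  have hk : ∀ k : ℤ, (κ + k) ^ p = κ + k := fun k => by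
    obtain ⟨r, e⟩ := exists_add_pow_prime_eq hp κ (k : R)
    obtain ⟨s, e'⟩ := Int.prime_dvd_pow_self_sub hp k
    have e'' := congrArg (Int.cast : ℤ → R) e'
    push_cast at e''
    rw [e, hκ, h0, sub_eq_iff_eq_add.1 e'', h0]
    ring
  obtain ⟨F, hF⟩ := prod_char (R := R) hp
  rw [← map_natCast Polynomial.C, h0, map_zero, zero_mul, add_zero] at hF
  have e1 : fl (Dk κ) (1 : R[T;T⁻¹]) h p = 0 := Sq.ext fun k => by
    have := congrArg (Polynomial.eval (κ + k)) hF
    simp only [Polynomial.eval_prod, Polynomial.eval_sub, Polynomial.eval_X, Polynomial.eval_C,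
      Polynomial.eval_pow, hk, sub_self] at this
    rw [fl_apply, this, zero_mul, Sq.zero_apply]
  have e2 := (lb_Dk κ).gen 1 n L (bs _ 0) h p
  rw [op_bs n.succ_pos, Function.iterate_zero_apply, e1, smul_zero,
    op_congr (g' := 0) fun i hi => hr i (Nat.lt_succ_iff.1 hi), op_zero, zero_add] at e2
  have e3 := (ep_er (ε := op (Dk κ) (n + 2) L h) ⟨h1, h2⟩ hL.pol κ p).2
  rw [← e2, Sq.zero_apply] at e3
  have e4 := congrArg (fun f => Polynomial.eval (κ + k₀) (Polynomial.derivative f))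
    (poly_div 1 n (fun i => (L i).coeff 0) p)
  simp only [mul_one, hF, Polynomial.derivative_C, Polynomial.eval_zero, Polynomial.derivative_sub,
    Polynomial.derivative_X_pow, Polynomial.derivative_X, h0, map_zero, zero_mul, zero_sub,
    Polynomial.eval_mul, Polynomial.eval_C, Polynomial.eval_neg, Polynomial.eval_one,
    Polynomial.derivative_add, Polynomial.derivative_mul, Polynomial.eval_add] at e4
  have e5 : Polynomial.eval (κ + k₀) (Polynomial.derivative
      (pl (n + 1) (rr (fun _ => 0) 1 n (fun i => (L i).coeff 0) (bs R 0) p))) ∈ J := by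
    rw [pl, Polynomial.derivative_sum, Polynomial.eval_finsetSum]
    refine J.sum_mem fun i hi => ?_
    have r2 := (rr_const (Ideal.Quotient.mk J) (fun _ => Ideal.Quotient.eq_zero_iff_mem.2)
      hL.pol p (Nat.lt_succ_iff.1 (mem_range.1 hi))).2
    have r3 := rr_map (d := fun _ => 0) (d' := fun _ => 0) (η := 1) (n := n)
      (L := fun i => (L i).coeff 0) (g := bs _ 0) (Ideal.Quotient.mk J) (fun _ => rfl) p i
    rw [bs_map, map_one, ← r2, hr i (Nat.lt_succ_iff.1 (mem_range.1 hi))] at r3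
    rw [Polynomial.derivative_C_mul, Polynomial.eval_mul, Polynomial.eval_C]
    exact J.mul_mem_right _ (Ideal.Quotient.eq_zero_iff_mem.1 r3)
  have e6 : Polynomial.eval (κ + k₀) (pl (n + 2) fun i => (L i).coeff 0) ∈ J := by
    simpa only [pl, Polynomial.eval_finsetSum, Polynomial.eval_mul, Polynomial.eval_C,
      Polynomial.eval_pow, Polynomial.eval_X] using hQ
  obtain ⟨s, e7⟩ := sub_dvd_pow_sub_pow ((L (n + 1)).coeff 0) 1 p
  have a5 := h1 _ e5 k₀
  have a6 := h1 _ e6 k₀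
  have a7 := h1 _ hL.one k₀
  rw [one_pow] at e7
  generalize op (Dk κ) (n + 2) L h k₀ = z at *
  linear_combination (-z) * e4 - z * e7 - a5 - s * a7 -
    Polynomial.eval (κ + k₀) (Polynomial.derivative (qt 1 n (fun i => (L i).coeff 0) p)) * a6 +
    Polynomial.eval (κ + k₀) (Polynomial.derivative (pl (n + 2) fun i => (L i).coeff 0)) * e3

/-- The hypergeometric operators. -/
theorem gap {p : ℕ} (hp : p.Prime) (h0 : (p : R) = 0) (b : Bool) {x y : Fin (n + 1) → R}
    (hr : ∀ i ≤ n, rr th 1 n (two (sg b) (es x) (es y)) (bs _ 0) p i = 0) {i j : Fin (n + 1)}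
    (hx : x i ^ p = x i) {l : ℕ} (hl : 0 < l) (e : x i + (sg b * l : ℤ) = x j) :
    ∏ l' ∈ range l, ∏ j, (x i + (sg b * l' : ℤ) - y j) = 0 := by
  have s0 : sg b ≠ 0 := by cases b <;> decide
  have hc : ∀ i a, (two (sg b) (es x) (es y) i).coeff a =
      (if 0 = a then es x i else 0) - if sg b = a then es y i else 0 := fun i a => by
    rw [two, AddMonoidAlgebra.coeff_sub, Finsupp.sub_apply, ep_C, coeff_CT]
  obtain ⟨G, hG⟩ : ∃ G : ℕ → R, ∀ t, G t = (∏ a ∈ range t, ∏ j, (x i + (sg b * a : ℤ) - y j)) *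
      ∏ a ∈ Ico (t + 1) l, ∏ j, (x i + (sg b * a : ℤ) - x j) := ⟨_, fun _ => rfl⟩
  obtain ⟨h, h1, h2⟩ : ∃ h : Sq R, (∀ t : ℕ, h (sg b * t) = G t) ∧
      ∀ t < 0, h (sg b * t) = 0 :=
    ⟨fun k => if 0 ≤ sg b * k then G (sg b * k).toNat else 0,
      fun t => by simp [← mul_assoc, ep_sq], fun t ht => by simp [← mul_assoc, ep_sq, ht]⟩
  have h3 : ∀ t : ℕ, op (Dk (x i)) (n + 2) (two (sg b) (es x) (es y)) h (sg b * (t + 1 : ℕ)) =
      (∏ j, (x i + (sg b * (t + 1 : ℕ) : ℤ) - x j)) * G (t + 1) -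
        (∏ j, (x i + (sg b * t : ℤ) - y j)) * G t := fun t => by
    rw [op_two, h1, show sg b * (t + 1 : ℕ) - sg b = sg b * t by push_cast; ring, h1]
  have key := eps_zero hp h0 (J := ⊥) (b := b) ⟨fun i _ a ha => ?_, ?_⟩ hr hx (k₀ := sg b * l) ?_ h
    (fun z hz k => by rw [Ideal.mem_bot.1 hz, zero_mul]) fun k hk => ?_
  · obtain ⟨t, rfl⟩ := Nat.exists_eq_succ_of_ne_zero hl.ne'
    rwa [h3, prod_eq_zero (mem_univ j) (sub_eq_zero.2 e), zero_mul, zero_sub, neg_eq_zero, hG,
      Ico_self, prod_empty, mul_one, mul_comm, ← prod_range_succ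
        fun a : ℕ => ∏ j, (x i + (sg b * a : ℤ) - y j)] at key
  · rw [hc, if_neg (by rintro rfl; simp at ha), if_neg (by rintro rfl; simp [ep_sq] at ha),
      sub_zero]
    exact zero_mem _
  · rw [hc, if_pos rfl, if_neg s0, es_top, sub_zero, sub_self]
    exact zero_mem _
  · simp only [hc, if_true, if_neg s0, sub_zero, e, es, Ideal.mem_bot]
    have hd : (∏ j, (Polynomial.X - Polynomial.C (x j))).natDegree < n + 2 :=
      Nat.lt_succ_of_le ((Polynomial.natDegree_prod_le _ _).trans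
        ((sum_le_sum fun j _ => Polynomial.natDegree_X_sub_C_le (x j)).trans (by simp)))
    rw [← Polynomial.eval_eq_sum_range' hd, Polynomial.eval_prod]
    exact prod_eq_zero (mem_univ j) (by simp)
  · obtain ⟨t, rfl⟩ : ∃ t, k = sg b * t := ⟨sg b * k, by rw [← mul_assoc, ep_sq, one_mul]⟩
    rw [← mul_sub, ← mul_assoc, ep_sq, one_mul] at hk
    rcases lt_trichotomy t 0 with ht | rfl | ht
    · rw [op_two, h2 t ht, ← mul_sub_one, h2 (t - 1) (by omega), mul_zero, mul_zero, sub_zero]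
    · rw [op_two, ← mul_sub_one, h2 (0 - 1) (by omega),
        prod_eq_zero (mem_univ i) (by simp), zero_mul, mul_zero (M₀ := R), sub_zero]
    · obtain ⟨t, rfl⟩ : ∃ u : ℕ, t = (u + 1 : ℕ) := ⟨(t - 1).toNat, by omega⟩
      rw [h3, hG, hG, prod_range_succ, prod_eq_prod_Ico_succ_bot (a := t + 1) (by omega)]
      ring

end Pool.Agent.Lib.MP_815ef6_nt.Ch
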