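import Pool.Agent.Lib.MP_815ef6_nt.CH.BdD

/-! Rational gauge transformations and twists. -/

namespace Pool.Agent.Lib.MP_815ef6_nt.Ch
open Polynomial Finset

/-- Convolution of two sequences of divided derivatives. -/
theorem ga_conv {M : Type*} [Ring M] (d : M →+ M) (hd : ∀ x y, d (x * y) = d x * y + x * d y)
    {u v : ℕ → M} {B : M} (hu : ∀ k : ℕ, (k + 1) • u (k + 1) = d (u k))
    (hv : ∀ k : ℕ, (k + 1) • v (k + 1) = d (v k) + v k * B) (m : ℕ) :
    (m + 1) • ∑ p ∈ antidiagonal (m + 1), u p.1 * v p.2 =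
      d (∑ p ∈ antidiagonal m, u p.1 * v p.2) + (∑ p ∈ antidiagonal m, u p.1 * v p.2) * B := by
  have e : (m + 1) • ∑ p ∈ antidiagonal (m + 1), u p.1 * v p.2 =
      ∑ p ∈ antidiagonal (m + 1), (p.1 • u p.1) * v p.2 +
        ∑ p ∈ antidiagonal (m + 1), u p.1 * (p.2 • v p.2) := by
    rw [smul_sum, ← sum_add_distrib]
    refine sum_congr rfl fun p hp => ?_
    rw [← mem_antidiagonal.1 hp, add_smul, smul_mul_assoc, mul_smul_comm]
  rw [e, Nat.sum_antidiagonal_succ, Nat.sum_antidiagonal_succ', zero_smul, zero_smul, zero_mul,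
    mul_zero, zero_add, zero_add, map_sum, sum_mul, ← sum_add_distrib, ← sum_add_distrib]
  refine sum_congr rfl fun p _ => ?_
  rw [hu, hv, hd, mul_add, mul_assoc, add_assoc]

/-- Divided derivatives. -/
noncomputable def gaD (f : RatFunc ℂ) : ℕ → RatFunc ℂ
  | 0 => f
  | k + 1 => ((k + 1 : ℕ) : RatFunc ℂ)⁻¹ * rder (gaD f k)

theorem ga_ne (k : ℕ) (h : k ≠ 0) : (k : RatFunc ℂ) ≠ 0 := by
  rw [← map_natCast (algebraMap ℂ (RatFunc ℂ))]
  exact (_root_.map_ne_zero _).2 (Nat.cast_ne_zero.2 h)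

theorem gaD_succ (f : RatFunc ℂ) (k : ℕ) : (k + 1) • gaD f (k + 1) = rder (gaD f k) := by
  rw [gaD, nsmul_eq_mul, mul_inv_cancel_left₀ (ga_ne _ k.succ_ne_zero)]

theorem gaD_uniq {u : ℕ → RatFunc ℂ} (hu : ∀ k : ℕ, (k + 1) • u (k + 1) = rder (u k)) (k : ℕ) :
    gaD (u 0) k = u k := by
  induction k with
  | zero => rfl
  | succ k ih =>
    rw [gaD, ih, ← hu, nsmul_eq_mul, inv_mul_cancel_left₀ (ga_ne _ k.succ_ne_zero)]

/-- `d/dz` as an additive map. -/
noncomputable def gaR : RatFunc ℂ →+ RatFunc ℂ := AddMonoidHom.mk' rder rder_add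

theorem gaD_mul (f g : RatFunc ℂ) (m : ℕ) :
    gaD (f * g) m = ∑ p ∈ antidiagonal m, gaD f p.1 * gaD g p.2 := by
  have h := ga_conv (u := gaD f) (v := gaD g) (B := 0) gaR
    (fun x y => (rder_mul x y).trans (by rw [add_comm, mul_comm y]; rfl)) (gaD_succ f)
    (fun k => by rw [mul_zero, add_zero]; exact gaD_succ g k)
  have := gaD_uniq (u := fun m => ∑ p ∈ antidiagonal m, gaD f p.1 * gaD g p.2)
    (fun k => by rw [h, mul_zero, add_zero]; rfl) m
  simpa [gaD] using this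

theorem gaD_am (P : ℂ[X]) (k : ℕ) : gaD (am P) k = am (hasseDeriv k P) := by
  have := gaD_uniq (u := fun k => am (hasseDeriv k P)) (fun k => by
    have h := congrArg (fun L : ℂ[X] →ₗ[ℂ] ℂ[X] => L P) (hasseDeriv_comp (R := ℂ) 1 k)
    simp only [LinearMap.comp_apply, hasseDeriv_one', LinearMap.smul_apply, Nat.choose_one_right,
      add_comm 1 k] at h
    rw [rder_am, h, map_nsmul]) k
  simpa using this

theorem ga_lifts {R : Subring ℂ} {Q : ℂ[X]} : Q ∈ lifts R.subtype ↔ ∀ a, Q.coeff a ∈ R := by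
  simp [lifts_iff_coeff_lifts]

theorem ga_mul {R : Subring ℂ} {P Q : ℂ[X]} (hP : ∀ a, P.coeff a ∈ R) (hQ : ∀ a, Q.coeff a ∈ R) :
    ∀ a, (P * Q).coeff a ∈ R := ga_lifts.1 (mul_mem (ga_lifts.2 hP) (ga_lifts.2 hQ))

theorem ga_pow {R : Subring ℂ} {P : ℂ[X]} (hP : ∀ a, P.coeff a ∈ R) (s : ℕ) :
    ∀ a, (P ^ s).coeff a ∈ R := ga_lifts.1 (pow_mem (ga_lifts.2 hP) s)

/-- The ring `R[z, 1/D]`. -/
def gaL (R : Subring ℂ) {D : ℂ[X]} (hD : ∀ a, D.coeff a ∈ R) : Subring (RatFunc ℂ) where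
  carrier := {f | InLoc R D f}
  zero_mem' := ⟨0, 0, by simp, by simp⟩
  one_mem' := ⟨1, 0, ga_lifts.1 (one_mem _), by simp⟩
  neg_mem' := fun ⟨P, s, hP, e⟩ => ⟨-P, s, fun a => by rw [coeff_neg]; exact neg_mem (hP a),
    by rw [neg_mul, e, map_neg]⟩
  add_mem' := fun ⟨P, s, hP, e⟩ ⟨Q, r, hQ, e'⟩ => ⟨P * D ^ r + Q * D ^ s, s + r,
    fun a => by
      rw [coeff_add]; exact add_mem (ga_mul hP (ga_pow hD r) a) (ga_mul hQ (ga_pow hD s) a),
    by rw [map_add, map_mul, map_mul, map_pow, map_pow, ← e, ← e']; ring⟩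
  mul_mem' := fun ⟨P, s, hP, e⟩ ⟨Q, r, hQ, e'⟩ => ⟨P * Q, s + r, ga_mul hP hQ,
    by rw [map_mul, ← e, ← e']; ring⟩

theorem gaD_mem {R : Subring ℂ} {D : ℂ[X]} (h0 : D ≠ 0) (hD : ∀ a, D.coeff a ∈ R)
    {f : RatFunc ℂ} (hf : f ∈ gaL R hD) (k : ℕ) : gaD f k ∈ gaL R hD := by
  obtain ⟨P, s, hP, e⟩ := hf
  have hp : ∀ Q : ℂ[X], (∀ a, Q.coeff a ∈ R) → ∀ k, gaD (am Q) k ∈ gaL R hD := fun Q hQ k =>
    ⟨hasseDeriv k Q, 0, fun a => by
      rw [hasseDeriv_coeff]; exact mul_mem (natCast_mem _ _) (hQ _), by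
      rw [pow_zero, mul_one, gaD_am]⟩
  have hi : (am D ^ s)⁻¹ ∈ gaL R hD :=
    ⟨1, s, ga_lifts.1 (one_mem _), by rw [inv_mul_cancel₀ (pow_ne_zero _ (am_ne h0)), map_one]⟩
  induction k using Nat.strong_induction_on with
  | _ k ih =>
    have h1 := hp P hP k
    rw [show am P = am (D ^ s) * f by rw [map_pow, mul_comm]; exact e.symm, gaD_mul] at h1
    cases k with
    | zero =>
      exact ⟨P, s, hP, e⟩
    | succ k =>
      rw [Nat.sum_antidiagonal_succ] at h1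
      have h2 : ∑ p ∈ antidiagonal k, gaD (am (D ^ s)) (p.1 + 1) * gaD f p.2 ∈ gaL R hD :=
        sum_mem fun p hp' => mul_mem (hp _ (ga_pow hD s) _)
          (ih _ (by have := mem_antidiagonal.1 hp'; omega))
      have h3 := mul_mem hi (sub_mem h1 h2)
      rwa [add_sub_cancel_right, gaD, map_pow,
        inv_mul_cancel_left₀ (pow_ne_zero _ (am_ne h0))] at h3

theorem ga_rder {R : Subring ℂ} {D : ℂ[X]} (h0 : D ≠ 0) (hD : ∀ a, D.coeff a ∈ R)
    {f : RatFunc ℂ} (hf : f ∈ gaL R hD) : rder f ∈ gaL R hD := by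
  have h := nsmul_mem (gaD_mem h0 hD hf (0 + 1)) (0 + 1)
  rwa [gaD_succ] at h

/-- One may enlarge the ring so that it holds finitely many given rational functions. -/
theorem ga_big (S : Finset (RatFunc ℂ)) (T : Finset ℂ) {D : ℂ[X]} (h0 : D ≠ 0)
    (hD : ∀ a, D.coeff a ∈ cl T) : ∃ (T' : Finset ℂ) (D' : ℂ[X]), D' ≠ 0 ∧
      (∀ a, D'.coeff a ∈ cl T') ∧ (∀ f, InLoc (cl T) D f → InLoc (cl T') D' f) ∧
      ∀ f ∈ S, InLoc (cl T') D' f := by
  classical
  induction S using Finset.induction_on with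
  | empty => exact ⟨T, D, h0, hD, fun _ h => h, by simp⟩
  | insert g S _ ih =>
    obtain ⟨T1, D1, h1, h2, h3, h4⟩ := ih
    have c : ∀ Q : ℂ[X], Q.coeffs ⊆ T1 ∪ (g.num.coeffs ∪ g.denom.coeffs) →
        ∀ a, Q.coeff a ∈ cl (T1 ∪ (g.num.coeffs ∪ g.denom.coeffs)) := fun Q hQ a => by
      by_cases h : Q.coeff a = 0
      · rw [h]; exact zero_mem _
      · exact Subring.subset_closure (hQ (coeff_mem_coeffs h))
    have cn := c g.num (subset_union_left.trans subset_union_right)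
    have cd := c g.denom (subset_union_right.trans subset_union_right)
    have le : cl T1 ≤ cl (T1 ∪ (g.num.coeffs ∪ g.denom.coeffs)) :=
      Subring.closure_mono (coe_subset.2 subset_union_left)
    have up : ∀ f, InLoc (cl T1) D1 f →
        InLoc (cl (T1 ∪ (g.num.coeffs ∪ g.denom.coeffs))) (D1 * g.denom) f :=
      fun f ⟨P, s, hP, e⟩ => ⟨P * g.denom ^ s, s, ga_mul (fun a => le (hP a)) (ga_pow cd s), by
        rw [map_mul, map_mul, map_pow, ← e]; ring⟩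
    refine ⟨_, D1 * g.denom, mul_ne_zero h1 g.denom_ne_zero, ga_mul (fun a => le (h2 a)) cd,
      fun f hf => up f (h3 f hf), fun f hf => ?_⟩
    rcases mem_insert.1 hf with rfl | hf
    · exact ⟨D1 * f.num, 1, ga_mul (fun a => le (h2 a)) cn, by
        rw [map_mul, map_mul, ← mul_denom f]; ring⟩
    · exact up f (h4 f hf)

variable {n : ℕ} {A G H : Matrix (Fin n) (Fin n) (RatFunc ℂ)}

theorem ga_mder (X Y : Matrix (Fin n) (Fin n) (RatFunc ℂ)) :
    (X * Y).map rder = X.map rder * Y + X * Y.map rder := by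
  ext i j : 1
  simp only [Matrix.map_apply, Matrix.add_apply, Matrix.mul_apply, ← sum_add_distrib]
  refine (map_sum gaR _ _).trans (sum_congr rfl fun k _ => ?_)
  rw [add_comm, mul_comm (rder _)]
  exact rder_mul _ _

theorem ga_one : (1 : Matrix (Fin n) (Fin n) (RatFunc ℂ)).map rder = 0 := by
  ext i j : 1
  have h1 : rder (1 : RatFunc ℂ) = 0 := (dR ℂ).map_one_eq_zero
  have h0 : rder (0 : RatFunc ℂ) = 0 := map_zero gaR
  rw [Matrix.map_apply, Matrix.one_apply]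
  split_ifs <;> simp [h0, h1]

theorem gauge_inv (hG : G * H = 1) :
    G * (H * A * G - H * G.map rder) * H - G * H.map rder = A := by
  have h := ga_mder G H
  rw [hG, ga_one] at h
  have e : G * (H * A * G - H * G.map rder) * H - G * H.map rder =
      (G * H) * A * (G * H) - (G * H) * G.map rder * H - G * H.map rder := by noncomm_ring
  rw [e, hG, one_mul, mul_one, one_mul, sub_sub, ← h, sub_zero]

/-- `d/dz` on matrices. -/
noncomputable def gaM (n : ℕ) :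
    Matrix (Fin n) (Fin n) (RatFunc ℂ) →+ Matrix (Fin n) (Fin n) (RatFunc ℂ) := gaR.mapMatrix

theorem ga_seq {a : ℕ → Matrix (Fin n) (Fin n) (RatFunc ℂ)} (h0 : a 0 = 1)
    (ha : ∀ k : ℕ, (k + 1) • a (k + 1) = gaM n (a k) + a k * A) (k : ℕ) :
    Aseq A k = k.factorial • a k := by
  induction k with
  | zero => rw [h0, Nat.factorial_zero, one_smul]; rfl
  | succ k ih =>
    rw [Nat.factorial_succ, mul_comm, mul_smul, ha, smul_add, ← map_nsmul, ← smul_mul_assoc, ← ih]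
    rfl

/-- The matrices `A_m / m!`. -/
noncomputable def gaA (A : Matrix (Fin n) (Fin n) (RatFunc ℂ)) :
    ℕ → Matrix (Fin n) (Fin n) (RatFunc ℂ)
  | 0 => 1
  | k + 1 => ((k + 1 : ℕ) : RatFunc ℂ)⁻¹ • (gaM n (gaA A k) + gaA A k * A)

theorem gaA_succ (k : ℕ) : (k + 1) • gaA A (k + 1) = gaM n (gaA A k) + gaA A k * A := by
  rw [gaA, ← Nat.cast_smul_eq_nsmul (RatFunc ℂ), smul_inv_smul₀ (ga_ne _ k.succ_ne_zero)]

theorem ga_main (hG : G * H = 1) (m : ℕ) : Aseq (H * A * G - H * G.map rder) m =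
    m.factorial • ((∑ p ∈ antidiagonal m, H.map (gaD · p.1) * gaA A p.2) * G) := by
  have h := ga_conv (u := fun k => H.map (gaD · k)) (v := gaA A) (B := A) (gaM n) ga_mder
    (fun k => by ext i j : 1; exact gaD_succ _ k) gaA_succ
  refine ga_seq (a := fun m => (∑ p ∈ antidiagonal m, H.map (gaD · p.1) * gaA A p.2) * G) ?_
    (fun k => ?_) m
  · have : H.map (gaD · 0) = H := by ext i j : 1; rfl
    simp only [Nat.antidiagonal_zero, sum_singleton, this, gaA, mul_one]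
    exact mul_eq_one_comm.1 hG
  · rw [← smul_mul_assoc, h]
    generalize (∑ p ∈ antidiagonal k, H.map (gaD · p.1) * gaA A p.2) = s
    have e : s * G * (H * A * G - H * G.map rder) =
        s * (G * H) * A * G - s * (G * H) * G.map rder := by noncomm_ring
    have e2 : gaM n (s * G) = gaM n s * G + s * G.map rder := ga_mder s G
    rw [e, e2, hG]
    noncomm_ring

theorem ga_ent (G H : Matrix (Fin n) (Fin n) (RatFunc ℂ)) (T : Finset ℂ) {D : ℂ[X]} (h0 : D ≠ 0)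
    (hD : ∀ a, D.coeff a ∈ cl T) : ∃ (T' : Finset ℂ) (D' : ℂ[X]) (_ : D' ≠ 0)
      (hD' : ∀ a, D'.coeff a ∈ cl T'), (∀ f, InLoc (cl T) D f → f ∈ gaL (cl T') hD') ∧
      G ∈ (gaL (cl T') hD').matrix ∧ G.map rder ∈ (gaL (cl T') hD').matrix ∧
      ∀ k, H.map (gaD · k) ∈ (gaL (cl T') hD').matrix := by
  classical
  obtain ⟨T', D', h1, h2, h3, h4⟩ := ga_big
    ((univ.image fun p : Fin n × Fin n => G p.1 p.2) ∪ univ.image fun p : Fin n × Fin n => H p.1 p.2)
    T h0 hD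
  have hG : ∀ i j, G i j ∈ gaL (cl T') h2 := fun i j =>
    h4 _ (mem_union_left _ (mem_image.2 ⟨(i, j), mem_univ _, rfl⟩))
  exact ⟨T', D', h1, h2, h3, hG, fun i j => ga_rder h1 h2 (hG i j), fun k i j => gaD_mem h1 h2
    (h4 _ (mem_union_right _ (mem_image.2 ⟨(i, j), mem_univ _, rfl⟩))) k⟩

theorem dorm_gauge (hG : G * H = 1) (h : Dormant A) : Dormant (H * A * G - H * G.map rder) := by
  obtain ⟨T, D, h0, hD, hA, p0, hp⟩ := h
  obtain ⟨T', D', h1, h2, h3, mG, mG', mH⟩ := ga_ent G H T h0 hD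
  have mA : A ∈ (gaL (cl T') h2).matrix := fun i j => h3 _ (hA i j)
  have mH0 : H ∈ (gaL (cl T') h2).matrix := mH 0
  have mS : ∀ k, Aseq A k ∈ (gaL (cl T') h2).matrix := fun k => by
    induction k with
    | zero => exact one_mem _
    | succ k ih => exact add_mem (fun i j => ga_rder h1 h2 (ih i j)) (mul_mem ih mA)
  refine ⟨T', D', h1, h2, sub_mem (mul_mem (mul_mem mH0 mA) mG) (mul_mem mH0 mG'), p0,
    fun p hp1 hp2 => ?_⟩
  have key : ∀ j ≤ p, ∃ B ∈ (gaL (cl T') h2).matrix, p.factorial • gaA A j = p • B := by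
    intro j hj
    rcases hj.eq_or_lt with rfl | hj
    · choose g hg1 hg2 using hp j hp1 hp2
      refine ⟨Matrix.of g, fun a b => h3 _ (hg1 a b), ?_⟩
      rw [← ga_seq rfl gaA_succ]
      ext a b : 1
      rw [hg2, Matrix.smul_apply, nsmul_eq_mul, Matrix.of_apply]
    · obtain ⟨q, rfl⟩ : ∃ q, p = q + 1 := ⟨p - 1, by omega⟩
      obtain ⟨c, hc⟩ := Nat.factorial_dvd_factorial (Nat.lt_succ_iff.1 hj)
      refine ⟨c • Aseq A j, nsmul_mem (mS j) c, ?_⟩
      rw [ga_seq (A := A) rfl gaA_succ, Nat.factorial_succ, hc, smul_smul, smul_smul]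
      congr 1
      ring
  choose! B hB1 hB2 using key
  have le : ∀ q ∈ antidiagonal p, q.2 ≤ p := fun q hq => by
    have := mem_antidiagonal.1 hq
    omega
  have m : (∑ q ∈ antidiagonal p, H.map (gaD · q.1) * B q.2) * G ∈ (gaL (cl T') h2).matrix :=
    mul_mem (sum_mem fun q hq => mul_mem (mH _) (hB1 _ (le q hq))) mG
  have e : Aseq (H * A * G - H * G.map rder) p =
      p • ((∑ q ∈ antidiagonal p, H.map (gaD · q.1) * B q.2) * G) := by
    rw [ga_main hG, ← smul_mul_assoc, ← smul_mul_assoc, smul_sum, smul_sum, sum_congr rfl]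
    intro q hq
    rw [← mul_smul_comm, ← mul_smul_comm, hB2 _ (le q hq)]
  exact fun i j => ⟨_, m i j, by rw [e, Matrix.smul_apply, nsmul_eq_mul]⟩

theorem bd_gauge (hG : G * H = 1) (h : Bd A) : Bd (H * A * G - H * G.map rder) := by
  obtain ⟨T, D, h0, hD, hA⟩ := h
  obtain ⟨T', D', h1, h2, h3, mG, -, mH⟩ := ga_ent G H T h0 hD
  have mA : ∀ k, gaA A k ∈ (gaL (cl T') h2).matrix := fun k i j => by
    obtain ⟨g, hg, e⟩ := hA k i j
    rw [ga_seq rfl gaA_succ, Matrix.smul_apply, nsmul_eq_mul] at e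
    exact mul_left_cancel₀ (ga_ne _ k.factorial_ne_zero) e ▸ h3 g hg
  refine ⟨T', D', h1, h2, fun m i j => ⟨_, mul_mem (sum_mem (t := antidiagonal m) fun q _ =>
    mul_mem (mH q.1) (mA q.2)) mG i j, ?_⟩⟩
  rw [ga_main hG, Matrix.smul_apply, nsmul_eq_mul]

end Pool.Agent.Lib.MP_815ef6_nt.Ch
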