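import Pool.Agent.Lib.MP_815ef6_nt.CH.BdD

/-! Twists by the radicals `(z - c) ^ q`. -/

namespace Pool.Agent.Lib.MP_815ef6_nt.Ch
open Polynomial Finset

variable {n : ℕ} {A : Matrix (Fin n) (Fin n) (RatFunc ℂ)}

theorem twi_mem {R : Subring ℂ} {P : ℂ[X]} :
    P ∈ (mapRingHom R.subtype).range ↔ ∀ i, P.coeff i ∈ R := by
  rw [mem_map_range, R.range_subtype]

/-- The ring `R[z, 1/D]`. -/
def twi_loc {R : Subring ℂ} {D : ℂ[X]} (hD : ∀ i, D.coeff i ∈ R) : Subring (RatFunc ℂ) where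
  carrier := {f | InLoc R D f}
  mul_mem' := fun ⟨P, s, h1, h2⟩ ⟨Q, t, h3, h4⟩ => ⟨P * Q, s + t,
    twi_mem.1 (mul_mem (twi_mem.2 h1) (twi_mem.2 h3)), by rw [map_mul, ← h2, ← h4]; ring⟩
  one_mem' := ⟨1, 0, twi_mem.1 (one_mem _), by simp⟩
  add_mem' := fun ⟨P, s, h1, h2⟩ ⟨Q, t, h3, h4⟩ => ⟨P * D ^ t + Q * D ^ s, s + t,
    twi_mem.1 (add_mem (mul_mem (twi_mem.2 h1) (pow_mem (twi_mem.2 hD) t))
      (mul_mem (twi_mem.2 h3) (pow_mem (twi_mem.2 hD) s))), by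
    rw [map_add, map_mul, map_mul, map_pow, map_pow, ← h2, ← h4]; ring⟩
  zero_mem' := ⟨0, 0, twi_mem.1 (zero_mem _), by simp⟩
  neg_mem' := fun ⟨P, s, h1, h2⟩ => ⟨-P, s, twi_mem.1 (neg_mem (twi_mem.2 h1)), by
    rw [map_neg, ← h2, neg_mul]⟩

theorem twi_der {R : Subring ℂ} {D : ℂ[X]} (hD : ∀ i, D.coeff i ∈ R) {f : RatFunc ℂ}
    (h : InLoc R D f) : InLoc R D (rder f) := by
  obtain ⟨P, s, h1, h2⟩ := h
  have d : ∀ Q ∈ (mapRingHom R.subtype).range, derivative Q ∈ (mapRingHom R.subtype).range := by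
    rintro _ ⟨Q, rfl⟩
    exact ⟨derivative Q, (derivative_map Q _).symm⟩
  have h3 := pow_mem (twi_mem.2 hD) s
  rw [← map_pow] at h2
  exact ⟨_, s * 2, twi_mem.1 (sub_mem (mul_mem (d _ (twi_mem.2 h1)) h3)
    (mul_mem (twi_mem.2 h1) (d _ h3))), by rw [← map_pow, pow_mul]; exact rder_mul_of h2⟩

theorem twi_seq {R : Subring ℂ} {D : ℂ[X]} (hD : ∀ i, D.coeff i ∈ R)
    (h : ∀ i j, InLoc R D (A i j)) (m : ℕ) (i j : Fin n) : Aseq A m i j ∈ twi_loc hD := by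
  induction m generalizing j with
  | zero =>
    rw [Aseq, Matrix.one_apply]
    split_ifs
    exacts [one_mem _, zero_mem _]
  | succ m ih =>
    rw [Aseq, Matrix.add_apply, Matrix.mul_apply]
    exact add_mem (twi_der hD (ih j)) (sum_mem fun k _ => mul_mem (ih k) (h k j))

/-- The Leibniz formula. -/
theorem twi_leib {f : RatFunc ℂ} {w : ℕ → RatFunc ℂ} (h0 : w 0 = 1)
    (hw : ∀ i, w (i + 1) = rder (w i) + f * w i) (m : ℕ) : Aseq (A + Matrix.scalar (Fin n) f) m =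
      ∑ p ∈ antidiagonal m, m.choose p.1 • w p.1 • Aseq A p.2 := by
  let L : Matrix (Fin n) (Fin n) (RatFunc ℂ) →+ Matrix (Fin n) (Fin n) (RatFunc ℂ) :=
    .mk' (fun M => M.map rder + M * (A + Matrix.scalar (Fin n) f)) fun M N => by
      rw [Matrix.map_add _ rder_add, add_mul, add_add_add_comm]
  induction m with
  | zero => simp [Aseq, h0]
  | succ m ih =>
    rw [sum_antidiagonal_choose_succ_nsmul fun i j => w i • Aseq A j, ← sum_add_distrib]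
    refine (congrArg L ih).trans ((map_sum L _ _).trans (sum_congr rfl fun p hp => ?_))
    rw [map_nsmul, ← Nat.choose_symm_of_eq_add (mem_antidiagonal.1 hp).symm, ← smul_add]
    refine congrArg _ (Matrix.ext fun a b => ?_)
    simp only [L, AddMonoidHom.mk'_apply, hw, Aseq, mul_add, Matrix.add_apply, Matrix.map_apply,
      Matrix.smul_apply, smul_eq_mul, rder_mul, Matrix.scalar_apply, Matrix.mul_diagonal,
      smul_mul_assoc]
    ring

/-- The derivatives of `(z - c) ^ q`, divided by `(z - c) ^ q`. -/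
noncomputable def twi_w (c : ℂ) (q : ℚ) (i : ℕ) : RatFunc ℂ :=
  RatFunc.C (∏ j ∈ range i, ((q : ℂ) - j)) * (RatFunc.X - RatFunc.C c)⁻¹ ^ i

theorem twi_succ (c : ℂ) (q : ℚ) (i : ℕ) : twi_w c q (i + 1) = rder (twi_w c q i) +
    RatFunc.C (q : ℂ) / (RatFunc.X - RatFunc.C c) * twi_w c q i := by
  have e : ∀ x : ℂ, dR ℂ (RatFunc.C x) = 0 := fun x => by
    rw [← am_C, dR_apply, rder_am, derivative_C, map_zero]
  have h0 : RatFunc.X - RatFunc.C c ≠ 0 := tt_ne (some c)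
  rw [twi_w, twi_w, ← dR_apply, Derivation.leibniz, e, Derivation.leibniz_pow,
    Derivation.leibniz_inv, map_sub, e, dR_X, prod_range_succ, map_mul, map_sub, map_natCast]
  cases i with
  | zero => simp [div_eq_mul_inv]
  | succ i =>
    simp only [Nat.add_sub_cancel, smul_eq_mul, nsmul_eq_mul, div_eq_mul_inv]
    ring

theorem twi_setup {T : Finset ℂ} {D : ℂ[X]} (hD : ∀ i, D.coeff i ∈ cl T) (c : ℂ) (q : ℚ) :
    ∃ (T' : Finset ℂ) (h : ∀ i, (D * (X - C c)).coeff i ∈ cl T'),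
      (∀ f, InLoc (cl T) D f → f ∈ twi_loc h) ∧
      ∀ i : ℕ, ∃ g ∈ twi_loc h, twi_w c q i = i.factorial * g := by
  classical
  obtain ⟨T', h1, h2, h3⟩ : ∃ T' : Finset ℂ, cl T ≤ cl T' ∧ c ∈ cl T' ∧ (q.den : ℂ)⁻¹ ∈ cl T' :=
    ⟨insert c (insert (q.den : ℂ)⁻¹ T), Subring.closure_mono fun x hx => by simp [hx],
      Subring.subset_closure (by simp), Subring.subset_closure (by simp)⟩
  have h4 : X - C c ∈ (mapRingHom (cl T').subtype).range := ⟨X - C ⟨c, h2⟩, by simp⟩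
  have h5 := twi_mem.2 fun i => h1 (hD i)
  have h0 : RatFunc.X - RatFunc.C c ≠ 0 := tt_ne (some c)
  refine ⟨T', twi_mem.1 (mul_mem h5 h4), fun f ⟨P, s, k1, k2⟩ => ⟨P * (X - C c) ^ s, s,
    twi_mem.1 (mul_mem (twi_mem.2 fun i => h1 (k1 i)) (pow_mem h4 s)), by
      rw [map_mul, map_mul, mul_pow, ← mul_assoc, k2, map_pow]⟩, fun i => ?_⟩
  have h6 : (∏ j ∈ range i, ((q : ℂ) - j)) / i.factorial ∈ cl T' :=
    binom_mem (U := Set.univ) (B := (cl T').comap (Pi.evalRingHom (fun _ => ℂ) ⟨0, trivial⟩))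
      q.den_nz h3 ⟨q.num, by simp⟩ i
  refine ⟨_, Subring.mul_mem _ (x := am (C _)) ⟨_, 0, twi_mem.1 ⟨C ⟨_, h6⟩, map_C _⟩, mul_one _⟩
    (Subring.pow_mem _ (x := (RatFunc.X - RatFunc.C c)⁻¹) ?_ i), ?_⟩
  · refine ⟨D, 1, twi_mem.1 h5, ?_⟩
    rw [pow_one, map_mul, map_sub, am_X, am_C, mul_left_comm, inv_mul_cancel₀ h0, mul_one]
  · rw [twi_w, ← mul_assoc, am_C, ← map_natCast RatFunc.C, ← map_mul, Subring.coe_subtype,
      mul_div_cancel₀ _ (Nat.cast_ne_zero.2 i.factorial_ne_zero)]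

theorem twi_sum {S : Subring (RatFunc ℂ)} {ι : Type*} {s : Finset ι} {x : ι → RatFunc ℂ}
    {r : RatFunc ℂ} (h : ∀ i ∈ s, ∃ g ∈ S, x i = r * g) : ∃ g ∈ S, ∑ i ∈ s, x i = r * g := by
  choose! g h1 h2 using h
  exact ⟨_, sum_mem h1, by rw [mul_sum, sum_congr rfl h2]⟩

theorem dorm_twist (h : Dormant A) (c : ℂ) (q : ℚ) :
    Dormant (A + Matrix.scalar (Fin n) (RatFunc.C (q : ℂ) / (RatFunc.X - RatFunc.C c))) := by
  obtain ⟨T, D, h0, hD, h1, p₀, h2⟩ := h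
  obtain ⟨T', h, k1, k2⟩ := twi_setup hD c q
  have k3 : ∀ i, twi_w c q i ∈ twi_loc h := fun i => (k2 i).elim fun g e =>
    e.2 ▸ mul_mem (natCast_mem _ _) e.1
  refine ⟨T', _, mul_ne_zero h0 (X_sub_C_ne_zero c), h, fun i j => ?_, p₀, fun p hp hp' i j => ?_⟩
  · refine add_mem (S := Subring _) (s := twi_loc h) (k1 _ (h1 i j)) ?_
    rw [Matrix.scalar_apply, Matrix.diagonal_apply]
    split_ifs
    · simpa [twi_w, div_eq_mul_inv] using k3 1
    · exact zero_mem _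
  rw [twi_leib (by simp [twi_w]) (twi_succ c q), Matrix.sum_apply]
  refine twi_sum (S := twi_loc h) fun ⟨a, b⟩ hab => ?_
  have e := mem_antidiagonal.1 hab
  have k4 := k1 _ (twi_seq hD h1 b i j)
  simp only [Matrix.smul_apply, smul_eq_mul, nsmul_eq_mul] at e ⊢
  rcases a.eq_zero_or_pos with rfl | ha
  · obtain ⟨g, h3, h4⟩ := h2 p hp hp' i j
    exact ⟨g, k1 g h3, by simp [twi_w, ← h4, show b = p by omega]⟩
  rcases (show a ≤ p by omega).eq_or_lt with rfl | ha'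
  · obtain ⟨g, h3, h4⟩ := k2 a
    obtain ⟨d, hd⟩ := Nat.dvd_factorial ha le_rfl
    exact ⟨_, mul_mem (mul_mem (natCast_mem _ d) h3) k4, by
      rw [h4, hd, Nat.choose_self]; push_cast; ring⟩
  · obtain ⟨d, hd⟩ := hp.dvd_choose_self ha.ne' ha'
    exact ⟨_, mul_mem (natCast_mem _ d) (mul_mem (k3 a) k4), by rw [hd]; push_cast; ring⟩

theorem bd_twist (h : Bd A) (c : ℂ) (q : ℚ) :
    Bd (A + Matrix.scalar (Fin n) (RatFunc.C (q : ℂ) / (RatFunc.X - RatFunc.C c))) := by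
  obtain ⟨T, D, h0, hD, h1⟩ := h
  obtain ⟨T', h, k1, k2⟩ := twi_setup hD c q
  refine ⟨T', _, mul_ne_zero h0 (X_sub_C_ne_zero c), h, fun m i j => ?_⟩
  rw [twi_leib (by simp [twi_w]) (twi_succ c q), Matrix.sum_apply]
  refine twi_sum (S := twi_loc h) fun ⟨a, b⟩ hab => ?_
  obtain rfl : a + b = m := mem_antidiagonal.1 hab
  obtain ⟨g, h3, h4⟩ := k2 a
  obtain ⟨g', h5, h6⟩ := h1 b i j
  refine ⟨_, mul_mem h3 (k1 _ h5), ?_⟩
  simp only [Matrix.smul_apply, smul_eq_mul, nsmul_eq_mul]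
  rw [h4, h6, ← Nat.add_choose_mul_factorial_mul_factorial a b, Nat.choose_symm_add]
  push_cast
  ring

end Pool.Agent.Lib.MP_815ef6_nt.Ch
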