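import Pool.Agent.Lib.MP_815ef6_nt.CH.FrA

/-! A function with a single pole. -/

namespace Pool.Agent.Lib.MP_815ef6_nt.Ch
open Finset

section
open Polynomial
variable {K : Subfield ℂ} {u : ℂ} {V : ValuationSubring ℂ}

theorem vr_int {A : Subring ℂ} (h : A ≤ V.toSubring) {x : ℂ} (hx : IsIntegral A x) : x ∈ V := by
  have h1 : IsIntegral V x := hx.map_of_comp_eq (Subring.inclusion h) (RingHom.id ℂ) rfl
  obtain ⟨y, rfl⟩ := IsIntegrallyClosed.isIntegral_iff.1 h1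
  exact y.2

theorem vr_lt {x : ℂ} (h : x⁻¹ ∉ V) : V.valuation x < 1 :=
  V.mem_nonunits_iff.1 (V.mem_nonunits_iff_or.2 (.inr h))

theorem vr_not {x : ℂ} (h0 : x ≠ 0) (h : V.valuation x < 1) : x⁻¹ ∉ V :=
  (V.mem_nonunits_iff_or.1 (V.mem_nonunits_iff.2 h)).resolve_left h0

theorem vr_mul {x y : ℂ} (h : V.valuation x < 1) (hy : y ∈ V) : V.valuation (x * y) < 1 := by
  rw [map_mul]
  exact (mul_le_of_le_one_right' ((V.valuation_le_one_iff y).2 hy)).trans_lt h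

theorem vr_poly (hK : ∀ c ∈ K, c ∈ V) (h : u ∈ V) (f : K[X]) : aeval u f ∈ V := by
  rw [aeval_eq_sum_range]
  exact sum_mem fun i _ => mul_mem (hK _ (f.coeff i).2) (pow_mem h i)

theorem vr_unit {x y : ℂ} (hx : x ∈ V) (hx' : x⁻¹ ∈ V) (h0 : x ≠ 0) (hy : V.valuation y < 1) :
    (x + y)⁻¹ ∈ V ∧ x + y ≠ 0 := by
  have h1 : V.valuation x = 1 := le_antisymm ((V.valuation_le_one_iff x).2 hx)
    (not_lt.1 fun e => vr_not h0 e hx')
  have h2 : V.valuation (x + y) = 1 := by rw [Valuation.map_add_eq_of_lt_left _ (h1 ▸ hy), h1]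
  exact ⟨by rw [← V.valuation_le_one_iff, map_inv₀, h2, inv_one], fun e => by simp [e] at h2⟩

theorem vr_A (hK : ∀ c ∈ K, c ∈ V) (h : u⁻¹ ∉ V) : frA K u ≤ V.toSubring := by
  rintro y ⟨g, f, h0, e⟩
  have h1 := (V.mem_or_inv_mem u).resolve_right h
  have h2 : aeval u f = (f.coeff 0 : ℂ) + u * aeval u f.divX := by
    conv_lhs => rw [← X_mul_divX_add f, map_add, map_mul, aeval_X, aeval_C, add_comm]
    rfl
  obtain ⟨h3, h4⟩ := vr_unit (hK _ (f.coeff 0).2) (hK _ (K.inv_mem (f.coeff 0).2))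
    (fun e => h0 (Subtype.ext e)) (vr_mul (vr_lt h) (vr_poly hK h1 f.divX))
  rw [← h2] at h3 h4
  rw [(eq_mul_inv_iff_mul_eq₀ h4).2 e]
  exact mul_mem (vr_poly hK h1 g) h3

theorem vr_ind (hK : ∀ c ∈ K, c ∈ V) {s y : ℂ} (hs : s⁻¹ ∉ V) (hy : y ∈ V) {M : ℕ}
    (c : Fin M → K) (h : ∑ j, c j * s ^ (j : ℕ) = s ^ M * y) (j : Fin M) : c j = 0 := by
  induction M with
  | zero => exact j.elim0
  | succ M ih =>
    have h1 := (V.mem_or_inv_mem s).resolve_right hs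
    have h2 : (c 0 : ℂ) = s * (s ^ M * y - ∑ j : Fin M, c j.succ * s ^ (j : ℕ)) := by
      rw [Fin.sum_univ_succ] at h
      simp only [Fin.val_succ, pow_succ, ← mul_assoc, ← sum_mul] at h
      simp only [Fin.val_zero, pow_zero, mul_one] at h
      linear_combination h
    have h3 : (c 0 : ℂ) = 0 := by_contra fun e => vr_not e (h2 ▸ vr_mul (vr_lt hs)
      (sub_mem (mul_mem (pow_mem h1 M) hy)
        (sum_mem fun j _ => mul_mem (hK _ (c _).2) (pow_mem h1 _)))) (hK _ (K.inv_mem (c 0).2))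
    rw [h3, eq_comm, mul_eq_zero, sub_eq_zero] at h2
    exact Fin.cases (Subtype.ext h3) (ih _ (h2.resolve_left fun e => hs (by simp [e])).symm) j

theorem vr_exp (hu : Transcendental K u) (M : ℕ) {a : ℂ} (ha : a ∈ frA K u) :
    ∃ c : Fin M → K, ∃ z ∈ frA K u, a = ∑ j, c j * u ^ (j : ℕ) + u ^ M * z := by
  induction M generalizing a with
  | zero => exact ⟨Fin.elim0, a, ha, by simp⟩
  | succ M ih =>
    obtain ⟨c, z, hz, rfl⟩ := fr_mod hu ha
    obtain ⟨d, w, hw, rfl⟩ := ih hz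
    refine ⟨Fin.cons c d, w, hw, ?_⟩
    simp only [Fin.sum_univ_succ, Fin.cons_zero, Fin.cons_succ, Fin.val_succ, pow_succ,
      ← mul_assoc, ← sum_mul, Fin.val_zero, pow_zero]
    ring

theorem vr_inf (hu : Transcendental K u) {x : ℂ} (hx : IsIntegral (frA K u) x) :
    ∃ (C : ℕ) (ε : ℂ), ε ∈ frA K u ∧ ε⁻¹ ∈ frA K u ∧ ε ≠ 0 ∧
      ∀ V : ValuationSubring ℂ, (∀ c ∈ K, c ∈ V) → u⁻¹ ∈ V → u⁻¹ ^ C * (ε * x) ∈ V := by
  let E := IntermediateField.adjoin K {u⁻¹}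
  have h1 : u ∈ E := inv_inv u ▸ E.inv_mem (IntermediateField.mem_adjoin_simple_self K u⁻¹)
  have h2 : ∀ f : K[X], aeval u f ∈ E := fun f => by
    rw [aeval_eq_sum_range]
    exact sum_mem fun i _ => E.smul_mem (pow_mem h1 i)
  have h3 : frA K u ≤ E.toSubfield.toSubring := by
    rintro y ⟨g, f, h0, e⟩
    rw [(eq_mul_inv_iff_mul_eq₀ (fr_ne hu h0)).2 e]
    exact E.mul_mem (h2 g) (E.inv_mem (h2 f))
  have h4 : IsIntegral E x := hx.map_of_comp_eq (Subring.inclusion h3) (RingHom.id ℂ) rfl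
  obtain ⟨⟨d, hd⟩, d0, h5⟩ :=
    (IntermediateField.isAlgebraic_adjoin_iff.1 h4.isAlgebraic).exists_integral_multiple
  have h6 := hd
  rw [Algebra.adjoin_singleton_eq_range_aeval] at h6
  obtain ⟨q, rfl⟩ := h6
  have h7 : q.reverse.coeff 0 ≠ 0 := by
    rw [coeff_zero_reverse, leadingCoeff_ne_zero]
    rintro rfl
    exact d0 (Subtype.ext (map_zero _))
  have u0 : u⁻¹ ≠ 0 := inv_ne_zero fun e => hu (e ▸ isAlgebraic_zero)
  refine ⟨q.natDegree, _, fr_poly q.reverse, fr_inv hu h7, fr_ne hu h7, fun V hK hV => ?_⟩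
  let _ := invertibleOfNonzero u0
  have h8 := eval₂_reverse_mul_pow (algebraMap K ℂ) u⁻¹ q
  rw [invOf_eq_inv, inv_inv] at h8
  rw [← mul_assoc, mul_comm (_ ^ _), aeval_def, h8]
  refine vr_int (A := (Algebra.adjoin K {u⁻¹}).toSubring) ?_ h5
  rw [Algebra.adjoin_eq_ring_closure, Subring.closure_le]
  rintro y (⟨c, rfl⟩ | rfl)
  exacts [hK _ c.2, hV]

end

theorem van_rr {K : Subfield ℂ} {u : ℂ} (hu : Transcendental K u) (F : Finset ℂ)
    (hF : ∀ x ∈ F, IsAlgebraic (frA K u) x) {W : ValuationSubring ℂ} (hK : ∀ c ∈ K, c ∈ W)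
    (hW : u⁻¹ ∉ W) : ∃ g : ℂ, g ∉ W ∧ ∀ V : ValuationSubring ℂ, (∀ c ∈ K, c ∈ V) → g ∉ V →
      ∀ x ∈ F, x⁻¹ ∉ W → x⁻¹ ∉ V := by
  have := fr_dvr hu
  obtain ⟨O, n, b, pid, hA, hb, hs, hi, hx⟩ := fr_closure F hF
  have u0 : u ≠ 0 := fun e => hu (e ▸ isAlgebraic_zero)
  have int : ∀ x ∈ O, IsIntegral (frA K u) x := fun x hx => by
    let S : Subalgebra (frA K u) ℂ := { O with algebraMap_mem' := fun a => hA a.2 }
    refine IsIntegral.of_mem_of_fg S ?_ x hx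
    refine Submodule.fg_iff_exists_fin_generating_family.2 ⟨n, b, le_antisymm
      (Submodule.span_le.2 (Set.range_subset_iff.2 hb)) fun y hy => ?_⟩
    obtain ⟨a, ha, rfl⟩ := hs y hy
    exact sum_mem fun l _ => Submodule.smul_mem _ (⟨a l, ha l⟩ : frA K u)
      (Submodule.subset_span ⟨l, rfl⟩)
  have hO : ∀ V : ValuationSubring ℂ, (∀ c ∈ K, c ∈ V) → u⁻¹ ∉ V → ∀ x ∈ O, x ∈ V :=
    fun V h1 h2 x h3 => vr_int (vr_A h1 h2) (int x h3)
  obtain ⟨s, hd⟩ : ∃ s : O, ∀ x : O, s ∣ x ↔ W.valuation x < 1 := by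
    let I : Ideal O := (IsLocalRing.maximalIdeal W).comap
      (Subring.inclusion (show O ≤ W.toSubring from hO W hK hW))
    exact ⟨Submodule.IsPrincipal.generator I, fun x =>
      (Submodule.IsPrincipal.mem_iff_generator_dvd I).symm.trans
        (W.valuation_lt_one_iff ⟨x, hO W hK hW _ x.2⟩)⟩
  obtain ⟨r, hr⟩ := (hd ⟨u, hA fr_t⟩).2 (vr_lt hW)
  have hr' : u = s * r := congrArg Subtype.val hr
  have s0 : (s : ℂ) ≠ 0 := left_ne_zero_of_mul (hr' ▸ u0)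
  have r0 : (r : ℂ) ≠ 0 := right_ne_zero_of_mul (hr' ▸ u0)
  have hsW := (hd s).1 dvd_rfl
  choose C ε h1 h2 h3 h4 using fun l => vr_inf hu (int _ (hb l))
  obtain ⟨D, hD⟩ := Finite.exists_le C
  obtain ⟨m, hm⟩ : ∃ m, m = D * n + 1 := ⟨_, rfl⟩
  let v : (Fin m × Fin n) ⊕ Fin (m + D) → ℂ := Sum.elim
    (fun p => u ^ (p.1 : ℕ) * (ε p.2 * b p.2)) fun j => r ^ (m + D) * s ^ (j : ℕ)
  have hv : ∀ i, ∃ c : Fin n → Fin (m + D) → K, ∃ y ∈ O,
      v i = ∑ l, (∑ j, c l j * u ^ (j : ℕ)) * b l + u ^ (m + D) * y := fun i => by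
    obtain ⟨a, ha, e⟩ := hs (v i) (by
      rcases i with p | j
      · exact mul_mem (pow_mem (hA fr_t) _) (mul_mem (hA (h1 _)) (hb _))
      · exact mul_mem (pow_mem r.2 _) (pow_mem s.2 _))
    choose c z hz e' using fun l => vr_exp hu (m + D) (ha l)
    refine ⟨c, ∑ l, z l * b l, sum_mem fun l _ => mul_mem (hA (hz l)) (hb l), ?_⟩
    rw [e, mul_sum, ← sum_add_distrib]
    exact sum_congr rfl fun l _ => by rw [e' l, add_mul, mul_assoc]
  choose c y hy e using hv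
  obtain ⟨t, ht, i₀, t0⟩ := Fintype.not_linearIndependent_iff.1 (show ¬ LinearIndependent K c from
    fun h => by
      have := h.fintype_card_le_finrank
      simp only [Module.finrank_pi_fintype, Fintype.card_sum,
        Fintype.card_prod, Fintype.card_fin, sum_const, card_univ, smul_eq_mul,
        Module.finrank_self, mul_one] at this
      nlinarith)
  have e1 : ∑ i, t i * v i = u ^ (m + D) * ∑ i, t i * y i := by
    have h5 : ∀ l j, ∑ i, (t i : ℂ) * c i l j = 0 := fun l j => by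
      have := congrArg Subtype.val (congrFun (congrFun ht l) j)
      simpa [Finset.sum_apply] using this
    simp only [e, mul_add, sum_add_distrib, mul_sum, sum_mul, mul_left_comm (t _ : ℂ)]
    rw [sum_comm, sum_eq_zero fun l _ => ?_, zero_add]
    rw [sum_comm]
    refine sum_eq_zero fun j _ => ?_
    simp only [← mul_left_comm (t _ : ℂ)]
    simp only [← mul_assoc, ← sum_mul, h5, zero_mul]
  have hY : ∑ i, t i * y i ∈ O := sum_mem fun i _ => mul_mem (hA (fr_k (t i).2)) (hy i)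
  obtain ⟨g, hg⟩ : ∃ g, g = u⁻¹ ^ (m + D) * ∑ p, t (.inl p) * v (.inl p) := ⟨_, rfl⟩
  have e2 : ∑ j : Fin (m + D), t (.inr j) * (s : ℂ) ^ (j : ℕ) =
      s ^ (m + D) * (∑ i, t i * y i - g) := by
    refine mul_left_cancel₀ (pow_ne_zero (m + D) r0) ?_
    rw [← mul_assoc, ← mul_pow, mul_comm (r : ℂ), ← hr', mul_sub, ← e1, hg, ← mul_assoc, ← mul_pow,
      mul_inv_cancel₀ u0, one_pow, one_mul, Fintype.sum_sum_type, add_sub_cancel_left, mul_sum]
    exact sum_congr rfl fun j _ => mul_left_comm _ _ _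
  have e3 : (s : ℂ) ^ (m + D) * g ∈ O := by
    rw [← sub_sub_cancel ((s : ℂ) ^ (m + D) * ∑ i, t i * y i) (_ * g), ← mul_sub, ← e2]
    exact sub_mem (mul_mem (pow_mem s.2 _) hY)
      (sum_mem fun j _ => mul_mem (hA (fr_k (t _).2)) (pow_mem s.2 _))
  refine ⟨g, fun hgW => ?_, fun V k1 k2 x k3 k4 => ?_⟩
  · have k1 : ∀ N : ℕ, (s : ℂ) ^ N * g ∈ O → g ∈ O := fun N => by
      induction N with
      | zero => simp
      | succ N ih =>
        rw [pow_succ', mul_assoc]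
        intro h
        obtain ⟨w, hw⟩ := (hd ⟨_, h⟩).2 (vr_mul hsW (mul_mem (pow_mem (hO W hK hW _ s.2) N) hgW))
        exact ih (mul_left_cancel₀ s0 (congrArg Subtype.val hw) ▸ w.2)
    obtain ⟨a, ha, e4⟩ := hs g (k1 _ e3)
    have k2 := hi (fun l => (∑ j : Fin m, t (.inl (j, l)) * u ^ (j : ℕ)) * ε l - u ^ (m + D) * a l)
      (fun l => sub_mem (mul_mem (sum_mem fun j _ => mul_mem (fr_k (t _).2) (pow_mem fr_t _))
        (h1 l)) (mul_mem (pow_mem fr_t _) (ha l))) (by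
        simp only [sub_mul, sum_sub_distrib, mul_assoc, ← mul_sum, ← e4]
        rw [hg, ← mul_assoc, ← mul_pow, mul_inv_cancel₀ u0, one_pow, one_mul,
          Fintype.sum_prod_type_right, sub_eq_zero]
        simp only [sum_mul, mul_assoc, v, Sum.elim_inl])
    have k3 : ∀ p, t (.inl p) = 0 := fun p => vr_ind hK hW (y := u ^ D * a p.2 * (ε p.2)⁻¹)
      (vr_A hK hW (mul_mem (mul_mem (pow_mem fr_t _) (ha _)) (h2 _)))
      (fun j => t (.inl (j, p.2))) (by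
        rw [← mul_assoc, ← mul_assoc, ← pow_add, eq_mul_inv_iff_mul_eq₀ (h3 _)]
        exact sub_eq_zero.1 (k2 p.2)) p.1
    exact t0 (Sum.rec k3 (vr_ind hK (vr_not s0 hsW) (sub_mem (hO W hK hW _ hY) hgW) _ e2) i₀)
  · have k5 : u⁻¹ ∉ V := fun h => k2 (by
      rw [hg, mul_sum]
      refine sum_mem fun p _ => ?_
      obtain ⟨j, hj⟩ : ∃ j, m + D = p.1 + (j + C p.2) :=
        ⟨m + D - p.1 - C p.2, by have := hD p.2; omega⟩
      rw [mul_left_comm, show u⁻¹ ^ (m + D) * v (.inl p) = u⁻¹ ^ j * (u⁻¹ ^ C p.2 *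
        (ε p.2 * b p.2)) by simp only [v, Sum.elim_inl, hj, pow_add, inv_pow]; field_simp]
      exact mul_mem (k1 _ (t _).2) (mul_mem (pow_mem h _) (h4 _ V k1 h)))
    have k6 : (s : ℂ)⁻¹ ∉ V := fun h => k2 (by
      have := mul_mem (pow_mem h (m + D)) (hO V k1 k5 _ e3)
      rwa [← mul_assoc, ← mul_pow, inv_mul_cancel₀ s0, one_pow, one_mul] at this)
    obtain ⟨a, a0, ha⟩ := (hF x k3).exists_integral_multiple
    have a1 : (a : ℂ) ≠ 0 := fun e => a0 (Subtype.ext e)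
    obtain ⟨p, hp⟩ := IsBezout.gcd_dvd_left (⟨_, hx x k3 a a.2 ha⟩ : O) ⟨a, hA a.2⟩
    obtain ⟨q, hq⟩ := IsBezout.gcd_dvd_right (⟨_, hx x k3 a a.2 ha⟩ : O) ⟨a, hA a.2⟩
    obtain ⟨α, β, e4⟩ := IsBezout.gcd_eq_sum (⟨_, hx x k3 a a.2 ha⟩ : O) ⟨a, hA a.2⟩
    generalize IsBezout.gcd (⟨_, hx x k3 a a.2 ha⟩ : O) ⟨a, hA a.2⟩ = d at hp hq e4
    have e5 : a * x = d * p := congrArg Subtype.val hp
    have e6 : (a : ℂ) = d * q := congrArg Subtype.val hq
    have e7 : (α : ℂ) * (a * x) + β * a = d := congrArg Subtype.val e4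
    have d0 : (d : ℂ) ≠ 0 := left_ne_zero_of_mul (e6 ▸ a1)
    have e8 : (p : ℂ) = x * q := mul_left_cancel₀ d0 (by rw [← e5, e6]; ring)
    have e9 : (β : ℂ) * q = 1 + -(p * α) := mul_left_cancel₀ d0 (by
      rw [e5, e6] at e7
      linear_combination e7)
    obtain ⟨w, hw⟩ := (hd p).2 (e8 ▸ vr_mul (vr_lt k4) (hO W hK hW _ q.2))
    have k7 : V.valuation p < 1 := by
      rw [hw]
      exact vr_mul (vr_lt k6) (hO V k1 k5 _ w.2)
    obtain ⟨k8, k9⟩ := vr_unit V.one_mem (by simp) one_ne_zero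
      (show V.valuation (-(p * α)) < 1 by
        rw [Valuation.map_neg]
        exact vr_mul k7 (hO V k1 k5 _ α.2))
    rw [← e9] at k8 k9
    refine vr_not (fun e => k4 (by simp [e])) ?_
    rw [show x = p * (β * ((β : ℂ) * q)⁻¹) by
      rw [e8, mul_assoc, ← mul_assoc (q : ℂ), mul_comm (q : ℂ), mul_inv_cancel₀ k9, mul_one]]
    exact vr_mul k7 (mul_mem (hO V k1 k5 _ β.2) k8)

end Pool.Agent.Lib.MP_815ef6_nt.Ch
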