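import Pool.Agent.Lib.MP_815ef6_nt.CH.VanZ
import Pool.Agent.Lib.MP_815ef6_nt.CH.VanR
import Pool.Agent.Lib.MP_815ef6_nt.CH.Defs

/-! The parameter of the degeneration. -/

namespace Pool.Agent.Lib.MP_815ef6_nt.Ch
open Finset Polynomial

theorem van_of {K : Subfield ℂ} {g x : ℂ} (hg : g ≠ 0) (hx : x ≠ 0)
    (h : ∀ V : ValuationSubring ℂ, (∀ c ∈ K, c ∈ V) → g ∉ V → x⁻¹ ∉ V) : Van K g⁻¹ x := by
  let φ : K[X][X] →+* ℂ := eval₂RingHom (aeval g⁻¹ : K[X] →ₐ[K] ℂ).toRingHom x⁻¹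
  have e : ∀ f : K[X], φ (C f) = aeval g⁻¹ f := fun f => eval₂_C _ _
  have m : g⁻¹ ∈ φ.range := ⟨C X, by rw [e, aeval_X]⟩
  obtain ⟨⟨_, q, rfl⟩, hq⟩ : ∃ c : φ.range, c * ⟨_, m⟩ = 1 := by
    rw [← Ideal.mem_span_singleton', ← Ideal.eq_top_iff_one]
    by_contra k
    obtain ⟨V, h1, h2⟩ := Ideal.image_subset_nonunits_valuationSubring _ k
    refine h V (fun c hc => h1 ⟨C (C ⟨c, hc⟩), by rw [e, aeval_C]; rfl⟩)
      ((V.inv_mem_nonunits_iff.1 (h2 ⟨_, Ideal.subset_span rfl, rfl⟩)).resolve_left hg)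
      (h1 ⟨X, eval₂_X _ _⟩)
  have hq' : φ q * g⁻¹ = 1 := congrArg Subtype.val hq
  refine ⟨q.natDegree, fun j => (if j = q.natDegree then 1 else 0) - X * q.coeff (q.natDegree - j),
    by simp, fun j hj => by simp [hj.ne], ?_⟩
  rw [coe_eval₂RingHom, eval₂_eq_sum_range, ← sum_range_reflect, sum_mul] at hq'
  simp only [map_sub, sub_mul, sum_sub_distrib, apply_ite (aeval g⁻¹), map_one, map_zero, ite_mul,
    one_mul, zero_mul, sum_ite_eq', self_mem_range_succ, if_true, map_mul, aeval_X]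
  rw [sub_eq_zero, ← one_mul (x ^ q.natDegree), ← hq', sum_mul]
  refine sum_congr rfl fun j hj => ?_
  obtain ⟨k, hk⟩ := Nat.exists_eq_add_of_le (Nat.lt_succ_iff.1 (mem_range.1 hj))
  rw [Nat.add_sub_cancel, hk, Nat.add_sub_cancel_left, pow_add, inv_pow]
  change aeval g⁻¹ _ * _ * _ * _ = _
  field_simp

theorem exists_van {r : ℕ} (x : Fin r → ℂ) (hx : ∀ j, x j ≠ 0)
    (h : ∀ f : MvPolynomial (Fin r) ℚ, MvPolynomial.aeval x f = 0 →
      MvPolynomial.constantCoeff f = 0) :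
    ∃ (K : Subfield ℂ) (t : ℂ), Transcendental K t ∧ ∀ j, Van K t (x j) := by
  classical
  rcases eq_or_ne r 0 with rfl | hr
  · by_contra k
    have : Algebra.IsAlgebraic (⊥ : Subfield ℂ) ℂ :=
      ⟨fun t => by_contra fun l => k ⟨⊥, t, l, fun j => j.elim0⟩⟩
    have e := Algebra.IsAlgebraic.cardinalMk_le_max (⊥ : Subfield ℂ) ℂ
    rw [Cardinal.mk_complex, ← Subfield.closure_empty] at e
    exact (e.trans (max_le ((Subfield.cardinalMk_closure_le_max _).trans (by simp)) le_rfl)).not_gt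
      Cardinal.aleph0_lt_continuum
  obtain ⟨K, u, W, h1, h2, h3, h4, h5⟩ := van_base hr x hx h
  obtain ⟨g, k1, k2⟩ := van_rr h1 (univ.image x) (forall_mem_image.2 fun j _ => h2 j) h3 h4
  refine ⟨K, g⁻¹, fun l => k1 ?_, fun j => van_of (fun l => k1 (l ▸ W.zero_mem)) (hx j)
    fun V a b => k2 V a b _ (mem_image_of_mem _ (mem_univ j)) (h5 j)⟩
  obtain ⟨y, rfl⟩ := (IsIntegrallyClosedIn.isIntegral_iff (R := W)).1
    ((IsAlgebraic.inv_iff.1 l).isIntegral.map_of_comp_eq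
      (K.subtype.codRestrict W fun c => h3 _ c.2) (RingHom.id ℂ) rfl)
  exact y.2

end Pool.Agent.Lib.MP_815ef6_nt.Ch
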