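import Pool.Agent.Lib.MP_815ef6_nt.CH.Reg
import Pool.Agent.Lib.MP_815ef6_nt.CH.VanF
import Pool.Agent.Lib.MP_815ef6_nt.CH.Gau
import Pool.Agent.Lib.MP_815ef6_nt.CH.Twi
import Pool.Agent.Lib.MP_815ef6_nt.CH.Bdi

/-! The general form of the theorem. -/

namespace Pool.Agent.Lib.MP_815ef6_nt.Ch
open Finset Polynomial

variable {n r : ℕ}

theorem bd_chain (a : Fin (r + 1) → ℂ) (ha : ∀ i, a i ≠ 0)
    (hv : ∀ f : MvPolynomial (Fin r) ℚ,
      MvPolynomial.aeval (fun j : Fin r => a j.castSucc / a j.succ) f = 0 →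
        MvPolynomial.constantCoeff f = 0) (e : ℕ) (P : Fin (n + 1) → ℂ[X])
    (hA : Dormant (compM (X ^ e * ∏ i, (X - C (a i))) P)) :
    Bd (compM (X ^ e * ∏ i, (X - C (a i))) P) := by
  classical
  set Δ : ℂ[X] := ∏ i, (X - C (a i))
  have mo : Δ.Monic := monic_prod_of_monic _ _ fun x _ => monic_X_sub_C _
  have h0 : Δ.coeff 0 ≠ 0 := by
    rw [coeff_zero_eq_eval_zero, eval_prod]
    exact prod_ne_zero_iff.2 fun i _ => by simpa using ha i
  have h1 : Δ.natDegree = r + 1 := by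
    rw [natDegree_prod_of_monic _ _ fun x _ => monic_X_sub_C _]
    simp
  choose Q hQ using fun k => (reg_ends h0 e hA k).1
  have hd : ∀ k, (Q k).natDegree ≤ r + 1 := fun k => by
    have := (reg_ends h0 e hA k).2
    by_cases l : Q k = 0
    · simp [l]
    · rw [hQ, natDegree_X_pow_mul e l] at this
      omega
  have eA : compM (X ^ e * Δ) P = compM Δ Q := by
    ext i j
    rw [compM, compM, hQ, map_mul, map_mul, ← mul_neg,
      mul_div_mul_left _ _ (am_ne (pow_ne_zero e X_ne_zero))]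
  rw [eA] at hA ⊢
  obtain ⟨K, t, ht, hv⟩ := exists_van _ (fun j => div_ne_zero (ha _) (ha _)) hv
  obtain ⟨T, hT⟩ := (Dat.of ha hd hA).main (t := t) fun F => by
    obtain ⟨O, h1, h2, h3⟩ := exists_frame K ht
      (F ∪ univ.image fun j : Fin r => a j.castSucc / a j.succ)
    exact ⟨O, h1, fun x hx => h2 x (mem_union_left _ hx), fun j =>
      h3 _ (mem_union_right _ (mem_image_of_mem _ (mem_univ j))) (hv j)⟩
  refine ⟨T ∪ (X * Δ).coeffs, X * Δ, mul_ne_zero X_ne_zero mo.ne_zero, fun i => ?_, fun m i j => ?_⟩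
  · by_cases l : (X * Δ).coeff i = 0
    · exact l ▸ zero_mem _
    · exact Subring.subset_closure (mem_union_right _ (coeff_mem_coeffs l))
  have m0 : (m.factorial : ℂ) ≠ 0 := Nat.cast_ne_zero.2 m.factorial_ne_zero
  refine ⟨am (C (m.factorial : ℂ)⁻¹) * Aseq (compM Δ Q) m i j,
    ⟨C (m.factorial : ℂ)⁻¹ * rr dz 1 n (Lz Δ Q) (bs _ i) m j, m, fun k => ?_, by
      rw [map_mul am (C _), ← aseq_eq mo.ne_zero, mul_assoc, mul_comm (Aseq _ _ _ _)]⟩, ?_⟩
  · obtain ⟨y, hy, l⟩ := hT i (by omega) m j (by omega) k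
    rw [Polynomial.coeff_C_mul, l, inv_mul_cancel_left₀ m0]
    exact Subring.closure_mono (coe_subset.2 subset_union_left) hy
  · rw [← mul_assoc, ← map_natCast am, ← map_mul, ← map_natCast (C : ℂ →+* ℂ[X]), ← map_mul,
      mul_inv_cancel₀ m0, map_one, map_one, one_mul]

theorem twist_sum {Φ : Matrix (Fin n) (Fin n) (RatFunc ℂ) → Prop}
    (h : ∀ A (c : ℂ) (q : ℚ), Φ A →
      Φ (A + Matrix.scalar (Fin n) (RatFunc.C (q : ℂ) / (RatFunc.X - RatFunc.C c))))
    (S : Finset ℂ) (q : ℂ → ℚ) {A : Matrix (Fin n) (Fin n) (RatFunc ℂ)} (hA : Φ A) :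
    Φ (A + Matrix.scalar (Fin n) (∑ c ∈ S, RatFunc.C (q c : ℂ) / (RatFunc.X - RatFunc.C c))) := by
  classical
  induction S using Finset.induction_on with
  | empty => simpa using hA
  | insert c S hc ih =>
    rw [sum_insert hc, map_add, add_comm (Matrix.scalar _ _), ← add_assoc]
    exact h _ _ _ ih

theorem bd_of {A G H M : Matrix (Fin n) (Fin n) (RatFunc ℂ)} (hG : G * H = 1) (S : Finset ℂ)
    (q : ℂ → ℚ) (e : H * A * G - H * G.map rder =
      M + Matrix.scalar (Fin n) (∑ c ∈ S, RatFunc.C (q c : ℂ) / (RatFunc.X - RatFunc.C c)))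
    (h : Dormant M → Bd M) (hA : Dormant A) : Bd A := by
  have h1 := twist_sum (Φ := Dormant) (fun _ c q h => dorm_twist h c q) S (fun c => -q c)
    (e ▸ dorm_gauge hG hA)
  rw [add_assoc, ← map_add, ← sum_add_distrib, sum_eq_zero fun c _ => by
    rw [Rat.cast_neg, map_neg, ← add_div, add_neg_cancel, zero_div], map_zero, add_zero] at h1
  have h2 := bd_gauge (mul_eq_one_comm.1 hG)
    (e ▸ twist_sum (Φ := Bd) (fun _ c q h => bd_twist h c q) S q (h h1))
  rwa [gauge_inv hG] at h2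

end Pool.Agent.Lib.MP_815ef6_nt.Ch
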