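import Pool.Agent.Lib.MP_815ef6_nt.CH.Gen

/-! Laurent polynomials acting on sequences. -/

namespace Pool.Agent.Lib.MP_815ef6_nt.Ch
open Finset LaurentPolynomial

/-- Sequences: `u` stands for the formal series `∑ u k w ^ (κ + k)`. -/
def Sq (R : Type*) : Type _ := ℤ → R

section
variable {R R' : Type*} [CommRing R] [CommRing R']

instance : AddCommGroup (Sq R) := inferInstanceAs (AddCommGroup (ℤ → R))

instance : Module R (Sq R) := inferInstanceAs (Module R (ℤ → R))

omit [CommRing R] in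
theorem Sq.ext {u v : Sq R} (h : ∀ k, u k = v k) : u = v := funext h

@[simp] theorem Sq.add_apply (u v : Sq R) (k : ℤ) : (u + v) k = u k + v k := rfl

@[simp] theorem Sq.sub_apply (u v : Sq R) (k : ℤ) : (u - v) k = u k - v k := rfl

@[simp] theorem Sq.neg_apply (u : Sq R) (k : ℤ) : (-u) k = -u k := rfl

@[simp] theorem Sq.zero_apply (k : ℤ) : (0 : Sq R) k = 0 := rfl

@[simp] theorem Sq.csmul_apply (c : R) (u : Sq R) (k : ℤ) : (c • u) k = c * u k := rfl

theorem Sq.sum_apply {ι : Type*} (s : Finset ι) (u : ι → Sq R) (k : ℤ) :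
    (∑ i ∈ s, u i) k = ∑ i ∈ s, u i k := Finset.sum_apply k s u

/-- The shifts. -/
def shf (R : Type*) [CommRing R] : Multiplicative ℤ →* Module.End R (Sq R) where
  toFun a := ⟨⟨fun u k => u (k - a.toAdd), fun _ _ => rfl⟩, fun _ _ => rfl⟩
  map_one' := LinearMap.ext fun u => Sq.ext fun k => congrArg u (by simp)
  map_mul' a b := LinearMap.ext fun u => Sq.ext fun k => congrArg u (by simp; ring)

noncomputable instance : Module R[T;T⁻¹] (Sq R) :=
  Module.compHom (Sq R) (AddMonoidAlgebra.lift R (Module.End R (Sq R)) ℤ (shf R)).toRingHom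

theorem smul_apply (f : R[T;T⁻¹]) (u : Sq R) (k : ℤ) :
    (f • u) k = f.coeff.sum fun a c => c * u (k - a) := by
  change (AddMonoidAlgebra.lift R (Module.End R (Sq R)) ℤ (shf R) f u) k = _
  rw [AddMonoidAlgebra.lift_apply, Finsupp.sum, LinearMap.sum_apply, Sq.sum_apply]
  rfl

theorem CT_smul (c : R) (a : ℤ) (u : Sq R) (k : ℤ) :
    ((C c * T a : R[T;T⁻¹]) • u) k = c * u (k - a) := by
  rw [smul_apply, ← single_eq_C_mul_T, AddMonoidAlgebra.coeff_single, Finsupp.sum_single_index]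
  exact zero_mul _

theorem C_smul (c : R) (u : Sq R) (k : ℤ) : ((C c : R[T;T⁻¹]) • u) k = c * u k := by
  simpa using CT_smul c 0 u k

theorem T_smul (a : ℤ) (u : Sq R) (k : ℤ) : ((T a : R[T;T⁻¹]) • u) k = u (k - a) := by
  simpa using CT_smul 1 a u k

/-- The coefficients as a sequence. -/
def cf (f : R[T;T⁻¹]) : Sq R := fun k => f.coeff k

theorem coeff_CT (c : R) (a k : ℤ) :
    (C c * T a : R[T;T⁻¹]).coeff k = if a = k then c else 0 := by
  rw [← single_eq_C_mul_T, AddMonoidAlgebra.coeff_single, Finsupp.single_apply]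

theorem coeff_CT_mul (c : R) (a k : ℤ) (g : R[T;T⁻¹]) :
    (C c * T a * g : R[T;T⁻¹]).coeff k = c * g.coeff (k - a) := by
  rw [← single_eq_C_mul_T]
  exact AddMonoidAlgebra.coeff_single_mul_eq_mul_coeff _ fun _ _ => by omega

theorem coeff_C_mul (c : R) (k : ℤ) (g : R[T;T⁻¹]) :
    (C c * g : R[T;T⁻¹]).coeff k = c * g.coeff k := by simpa using coeff_CT_mul c 0 k g

theorem coeff_T_mul (a k : ℤ) (g : R[T;T⁻¹]) :
    (T a * g : R[T;T⁻¹]).coeff k = g.coeff (k - a) := by simpa using coeff_CT_mul 1 a k g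

theorem coeff_mul' (f g : R[T;T⁻¹]) (k : ℤ) : (f * g).coeff k = (f • cf g) k := by
  induction f using LaurentPolynomial.induction_on' with
  | add f f' h h' => rw [add_mul, add_smul, Sq.add_apply, ← h, ← h']; rfl
  | C_mul_T a c => rw [coeff_CT_mul, CT_smul, cf]

/-- The derivation `w d/dw`. -/
noncomputable def th (f : R[T;T⁻¹]) : R[T;T⁻¹] :=
  .ofCoeff (Finsupp.onFinset f.coeff.support (fun a => a * f.coeff a) fun _ h =>
    Finsupp.mem_support_iff.2 (right_ne_zero_of_mul h))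

@[simp] theorem coeff_th (f : R[T;T⁻¹]) (a : ℤ) : (th f).coeff a = a * f.coeff a := rfl

theorem th_add (f g : R[T;T⁻¹]) : th (f + g) = th f + th g := by
  ext a
  simp [mul_add]

theorem th_CT (c : R) (a : ℤ) : th (C c * T a : R[T;T⁻¹]) = C (a * c) * T a := by
  ext k
  rw [coeff_th, coeff_CT, coeff_CT]
  split_ifs with h
  · rw [h]
  · rw [mul_zero]

/-- The derivation on sequences with exponent `κ`. -/
def Dk (κ : R) : Sq R →+ Sq R where
  toFun u k := (κ + k) * u k
  map_zero' := Sq.ext fun _ => mul_zero _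
  map_add' _ _ := Sq.ext fun _ => mul_add _ _ _

@[simp] theorem Dk_apply (κ : R) (u : Sq R) (k : ℤ) : Dk κ u k = (κ + k) * u k := rfl

theorem Dk_iter (κ : R) (i : ℕ) (u : Sq R) (k : ℤ) : (Dk κ)^[i] u k = (κ + k) ^ i * u k := by
  induction i with
  | zero => simp
  | succ i ih => rw [Function.iterate_succ_apply', Dk_apply, ih, pow_succ', mul_assoc]

theorem lb_Dk (κ : R) : Lb (Dk κ) (th (R := R)) := fun f u => by
  induction f using LaurentPolynomial.induction_on' with
  | add f f' h h' => rw [add_smul, map_add, h, h', th_add, add_smul, add_smul]; abel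
  | C_mul_T a c =>
    refine Sq.ext fun k => ?_
    rw [th_CT, Sq.add_apply, Dk_apply, CT_smul, CT_smul, CT_smul, Dk_apply]
    push_cast
    ring

theorem dv_th : Dv (th (R := R)) := ⟨th_add, fun f g => by
  ext k
  have := congrFun (lb_Dk 0 f (cf g)) k
  rw [Dk_apply, zero_add, Sq.add_apply, ← coeff_mul', ← coeff_mul',
    show Dk 0 (cf g) = cf (th g) from Sq.ext fun k => by simp [cf], ← coeff_mul'] at this
  exact this⟩

theorem th_C_mul (c : R) (f : R[T;T⁻¹]) : th (C c * f) = C c * th f := by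
  ext k
  rw [coeff_th, coeff_C_mul, coeff_C_mul, coeff_th, mul_left_comm]

theorem op_apply (κ : R) (N : ℕ) (g : ℕ → R[T;T⁻¹]) (u : Sq R) (k : ℤ) : op (Dk κ) N g u k =
    ∑ i ∈ range N, (g i).coeff.sum fun a c => c * ((κ + (k - a : ℤ)) ^ i * u (k - a)) := by
  simp only [op, Sq.sum_apply, smul_apply, Dk_iter]

theorem fl_apply (κ : R) (u : Sq R) (m : ℕ) (k : ℤ) :
    fl (Dk κ) (1 : R[T;T⁻¹]) u m k = (∏ j ∈ range m, (κ + k - j)) * u k := by
  induction m with
  | zero => simp [fl]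
  | succ m ih =>
    rw [fl, mul_one, ← map_natCast C, Sq.sub_apply, C_smul, Dk_apply, ih, prod_range_succ]
    ring

/-- Change of the ring of coefficients. -/
noncomputable def mp (φ : R →+* R') : R[T;T⁻¹] →+* R'[T;T⁻¹] := AddMonoidAlgebra.mapRingHom ℤ φ

@[simp] theorem coeff_mp (φ : R →+* R') (f : R[T;T⁻¹]) (a : ℤ) :
    (mp φ f).coeff a = φ (f.coeff a) := AddMonoidAlgebra.coeff_mapRingHom _ _ _

@[simp] theorem mp_C (φ : R →+* R') (c : R) : mp φ (C c) = C (φ c) := by
  ext a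
  simp [apply_ite φ]

@[simp] theorem mp_T (φ : R →+* R') (a : ℤ) : mp φ (T a) = T a := by
  ext k
  simp [apply_ite φ]

theorem mp_th (φ : R →+* R') (f : R[T;T⁻¹]) : mp φ (th f) = th (mp φ f) := by
  ext a
  simp

/-- Change of the ring for sequences. -/
def mq (φ : R →+* R') (u : Sq R) : Sq R' := fun k => φ (u k)

@[simp] theorem mq_apply (φ : R →+* R') (u : Sq R) (k : ℤ) : mq φ u k = φ (u k) := rfl

theorem mq_smul (φ : R →+* R') (f : R[T;T⁻¹]) (u : Sq R) : mq φ (f • u) = mp φ f • mq φ u := by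
  refine Sq.ext fun k => ?_
  induction f using LaurentPolynomial.induction_on' with
  | add f f' h h' => rw [add_smul, map_add, add_smul, Sq.add_apply, ← h, ← h']; simp
  | C_mul_T a c => rw [map_mul, mp_C, mp_T, mq_apply, CT_smul, CT_smul, map_mul, mq_apply]

theorem mq_op (φ : R →+* R') (κ : R) (N : ℕ) (g : ℕ → R[T;T⁻¹]) (u : Sq R) :
    mq φ (op (Dk κ) N g u) = op (Dk (φ κ)) N (fun i => mp φ (g i)) (mq φ u) := by
  refine Sq.ext fun k => ?_
  rw [mq_apply, op, op, Sq.sum_apply, Sq.sum_apply, map_sum]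
  refine sum_congr rfl fun i _ => (congrFun (mq_smul φ _ _) k).trans (congrFun (congrArg _ ?_) k)
  exact Sq.ext fun k => by simp [Dk_iter]

theorem exists_mp {φ : R →+* R'} {f : R'[T;T⁻¹]} (h : ∀ a, f.coeff a ∈ φ.range) :
    ∃ g, mp φ g = f := by
  choose c hc using h
  refine ⟨∑ a ∈ f.coeff.support, C (c a) * T a, LaurentPolynomial.ext fun k => ?_⟩
  simp only [map_sum, map_mul, mp_C, mp_T, hc, AddMonoidAlgebra.coeff_sum, Finsupp.coe_finsetSum,
    Finset.sum_apply, coeff_CT, sum_ite_eq']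
  split_ifs with h
  · rfl
  · exact (Finsupp.notMem_support_iff.1 h).symm

theorem dvd_iff {c : R} {f : R[T;T⁻¹]} : C c ∣ f ↔ ∀ a, c ∣ f.coeff a := by
  refine ⟨fun ⟨g, e⟩ a => ⟨g.coeff a, by rw [e, coeff_C_mul]⟩, fun h => ?_⟩
  choose y hy using h
  refine ⟨∑ a ∈ f.coeff.support, C (y a) * T a, LaurentPolynomial.ext fun k => ?_⟩
  simp only [mul_sum, ← mul_assoc, ← map_mul, ← hy, AddMonoidAlgebra.coeff_sum,
    Finsupp.coe_finsetSum, Finset.sum_apply, coeff_CT, sum_ite_eq']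
  split_ifs with h
  · rfl
  · exact Finsupp.notMem_support_iff.1 h

/-- The two sides: `true` is `w = 0`, `false` is `w = ∞`. -/
def sg : Bool → ℤ
  | true => 1
  | false => -1

/-- The normalization of the operator on the two sides. -/
noncomputable def nz : Bool → (ℕ → R[T;T⁻¹]) → ℕ → R[T;T⁻¹]
  | true, L, i => L i
  | false, L, i => -T (-1) * L i

/-- The operator with the two terms `q - w ^ a q'`. -/
noncomputable def two (a : ℤ) (q q' : ℕ → R) (i : ℕ) : R[T;T⁻¹] := C (q i) - C (q' i) * T a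

/-- The coefficients of the monic polynomial with the roots `κ`. -/
noncomputable def es {n : ℕ} (κ : Fin n → R) (i : ℕ) : R :=
  (∏ j, (Polynomial.X - Polynomial.C (κ j))).coeff i

/-- The differences of the exponents are units. -/
def Sep {n : ℕ} (κ : Fin n → R) : Prop := ∀ i j, i ≠ j → IsUnit (κ i - κ j)

/-- The operator is regular modulo `J` on the side `b`, with the leading coefficient one. -/
structure Rg (J : Ideal R) (b : Bool) (n : ℕ) (L : ℕ → R[T;T⁻¹]) : Prop where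
  pol : ∀ i ≤ n + 1, ∀ a, sg b * a < 0 → (L i).coeff a ∈ J
  one : (L (n + 1)).coeff 0 - 1 ∈ J

/-- The `p`-curvature vanishes for almost all primes. -/
def Dm (n : ℕ) (L : ℕ → R[T;T⁻¹]) : Prop :=
  ∃ p₀ : ℕ, ∀ p : ℕ, p.Prime → p₀ ≤ p → ∀ i ≤ n, (p : R[T;T⁻¹]) ∣ rr th 1 n L (bs _ 0) p i

/-- The same for the rescaled derivation. -/
def De (η : R) (n : ℕ) (L : ℕ → R[T;T⁻¹]) : Prop :=
  ∃ p₀ : ℕ, ∀ p : ℕ, p.Prime → p₀ ≤ p → ∀ i ≤ n,
    (p : R[T;T⁻¹]) ∣ rr (fun f => C η * th f) (C η) n L (bs _ 0) p i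

/-- The relation between the two branches at a node, modulo `I`. -/
def Nd (I : Ideal R) (t : R) (α β : Sq R) : Prop :=
  ∀ k : ℕ, α (k : ℤ) - t ^ k * β (k : ℤ) ∈ I ∧ β (-k : ℤ) - t ^ k * α (-k : ℤ) ∈ I

end

end Pool.Agent.Lib.MP_815ef6_nt.Ch
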