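import Pool.Agent.Lib.MP_815ef6_nt.CH.Top

/-! Regularity at zero and at infinity. -/

namespace Pool.Agent.Lib.MP_815ef6_nt.Ch

section
open Finset LaurentPolynomial

variable {R : Type*} [CommRing R] {n : ℕ}

/-- The substitution `w ↦ s ^ m w`. -/
noncomputable def regS (R : Type*) [CommRing R] (m : ℤ) : R[T;T⁻¹] →+* R[T;T⁻¹][T;T⁻¹] :=
  AddMonoidAlgebra.liftNCRingHom (C.comp C)
    ⟨⟨fun a => C (T (m * a.toAdd)) * T a.toAdd, by simp⟩, fun a b => by
      simp only [toAdd_mul, mul_add, T_add, map_mul]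
      ring⟩ fun _ _ => Commute.all _ _

theorem reg_coeff (m : ℤ) (f : R[T;T⁻¹]) (k : ℤ) :
    (regS R m f).coeff k = C (f.coeff k) * T (m * k) := by
  induction f using LaurentPolynomial.induction_on' with
  | add f g h h' =>
    simp only [map_add, AddMonoidAlgebra.coeff_add, Finsupp.add_apply, h, h', add_mul]
  | C_mul_T a c =>
    have e : regS R m (C c * T a) = C (C c * T (m * a)) * T a := by
      rw [← single_eq_C_mul_T, regS, AddMonoidAlgebra.liftNCRingHom_single, map_mul, mul_assoc]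
      rfl
    rw [e, coeff_CT, coeff_CT]
    split_ifs with h
    · rw [h]
    · rw [map_zero, zero_mul]

theorem reg_th (m : ℤ) (f : R[T;T⁻¹]) : regS R m (th f) = th (regS R m f) := by
  refine LaurentPolynomial.ext fun k => ?_
  rw [coeff_th, reg_coeff, reg_coeff, coeff_th, map_mul, map_intCast, mul_assoc]

theorem reg_tl (f : Polynomial R) (k : ℕ) : (Polynomial.toLaurent f).coeff k = f.coeff k := by
  induction f using Polynomial.induction_on' with
  | add f g h h' => simp only [map_add, AddMonoidAlgebra.coeff_add, Finsupp.add_apply, h, h',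
      Polynomial.coeff_add]
  | monomial m c => simp [coeff_CT, Polynomial.coeff_monomial]

theorem reg_desc {p : ℕ} {f : (Polynomial R)[T;T⁻¹]}
    (h : (p : R[T;T⁻¹][T;T⁻¹]) ∣ mp Polynomial.toLaurent f) :
    (p : (Polynomial R)[T;T⁻¹]) ∣ f := by
  rw [← map_natCast C, dvd_iff] at h ⊢
  intro a
  have k := h a
  rw [coeff_mp, ← map_natCast C, dvd_iff] at k
  rw [← map_natCast Polynomial.C, Polynomial.C_dvd_iff_dvd_coeff]
  exact fun j => reg_tl (f.coeff a) j ▸ k j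

theorem reg_de {L : ℕ → R[T;T⁻¹]} (h : Dm n L) (A : ℕ) (m v : ℤ)
    {L' : ℕ → (Polynomial R)[T;T⁻¹]} (e : ∀ i ≤ n + 1, mp Polynomial.toLaurent (L' i) =
      C (T A) ^ (n + 1 - i) * (C (T v) * regS R m (L i))) : De (Polynomial.X ^ A) n L' := by
  refine h.imp fun p₀ h p hp k i hi => reg_desc ?_
  obtain ⟨y, hy⟩ := h p hp k i hi
  have e0 : mp Polynomial.toLaurent (C (Polynomial.X ^ A : Polynomial R)) = C (T A) * 1 := by
    rw [mp_C, Polynomial.toLaurent_X_pow, mul_one]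
  have e1 := rr_scale (d := th) (η := 1) (th_C_mul _) e p hi
  rw [rr_mul dv_th, ← bs_map (regS R m), ← map_one (regS R m), ← rr_map _ (reg_th m), hy, map_mul,
    map_natCast, map_one, bs_map] at e1
  rw [rr_map (mp (Polynomial.toLaurent (R := R))) (d := fun x => C (Polynomial.X ^ A) * th x)
    (d' := fun x => C (T A) * th x) (fun x => by rw [map_mul, e0, mul_one, mp_th]), e0, bs_map]
  refine (((isUnit_T (A : ℤ)).map C).pow i).dvd_mul_left.1 ?_
  rw [e1]
  exact ((dvd_mul_right _ _).mul_left _).mul_left _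

theorem reg_main (ρ : R →+* ℂ) (hρ : Function.Injective ρ) {S : Finset ℂ} (hS : ∀ x, ρ x ∈ cl S)
    {L : ℕ → R[T;T⁻¹]} (h : Dm n L) {σ v : ℤ} (h1 : (L (n + 1)).coeff v ≠ 0)
    (h2 : ∀ a, σ * a < σ * v → (L (n + 1)).coeff a = 0) :
    ∀ i ≤ n, ∀ a, σ * a < σ * v → (L i).coeff a = 0 := by
  intro i hi a ha
  by_contra h0
  obtain ⟨⟨i₀, a₀⟩, m0, hm⟩ := exists_max_image
    ((range (n + 1)).sigma fun i => (L i).coeff.support)
    (fun x => ((σ * (v - x.2) : ℤ) : ℚ) / ((n + 1 - x.1 : ℕ) : ℚ))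
    ⟨⟨i, a⟩, mem_sigma.2 ⟨mem_range.2 (Nat.lt_succ_of_le hi), Finsupp.mem_support_iff.2 h0⟩⟩
  obtain ⟨m1, m2⟩ := mem_sigma.1 m0
  have m3 : i₀ < n + 1 := mem_range.1 m1
  have key : ∀ j ≤ n, ∀ b, (L j).coeff b ≠ 0 →
      σ * (v - b) * (n + 1 - i₀ : ℕ) ≤ σ * (v - a₀) * (n + 1 - j : ℕ) := fun j hj b hb => by
    have := hm ⟨j, b⟩
      (mem_sigma.2 ⟨mem_range.2 (Nat.lt_succ_of_le hj), Finsupp.mem_support_iff.2 hb⟩)
    dsimp only at this
    rw [div_le_div_iff₀ (Nat.cast_pos.2 (by omega)) (Nat.cast_pos.2 (by omega))] at this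
    exact_mod_cast this
  have M0 : (0 : ℤ) < (n + 1 - i₀ : ℕ) := Nat.cast_pos.2 (by omega)
  obtain ⟨A, hA⟩ : ∃ A : ℕ, σ * (v - a₀) = A + 1 := by
    have k := key i hi a h0
    have k1 : 0 < σ * (v - a) * (n + 1 - i₀ : ℕ) := mul_pos (by linarith) M0
    have k2 : 0 < σ * (v - a₀) := pos_of_mul_pos_left (k1.trans_le k) (by positivity)
    exact ⟨(σ * (v - a₀) - 1).toNat, by omega⟩
  generalize hM : ((n + 1 - i₀ : ℕ) : ℤ) = M at key M0
  let E : ℕ → ℤ → ℤ := fun j b => (A + 1) * (n + 1 - j : ℕ) - σ * (v - b) * M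
  have E0 : ∀ j ≤ n + 1, ∀ b, (L j).coeff b ≠ 0 → 0 ≤ E j b := fun j hj b hb => by
    rcases hj.eq_or_lt with rfl | hj
    · have k : σ * v ≤ σ * b := not_lt.1 fun k => hb (h2 b k)
      have : σ * (v - b) * M ≤ 0 := mul_nonpos_of_nonpos_of_nonneg (by linarith) M0.le
      simpa [E] using this
    · exact sub_nonneg.2 (hA ▸ key j (by omega) b hb)
  let L' : ℕ → (Polynomial R)[T;T⁻¹] := fun j => .ofCoeff (Finsupp.onFinset (L j).coeff.support
    (fun b => Polynomial.monomial (E j b).toNat ((L j).coeff b)) fun _ h =>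
      Finsupp.mem_support_iff.2 fun k => h (by rw [k, map_zero]))
  have hL : ∀ j b, (L' j).coeff b = Polynomial.monomial (E j b).toNat ((L j).coeff b) :=
    fun _ _ => rfl
  have H : Loc (Polynomial.X : Polynomial R) (ρ.comp Polynomial.constantCoeff) :=
    ⟨fun x => by rw [RingHom.comp_apply, map_eq_zero_iff ρ hρ, Polynomial.X_dvd_iff]; rfl,
      fun x k => Polynomial.monic_X.mul_right_eq_zero_iff.1 k, S, fun x => hS _⟩
  have c0 : ∀ j b, E j b = 0 →
      (mp (ρ.comp Polynomial.constantCoeff) (L' j)).coeff b = ρ ((L j).coeff b) := fun j b k => by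
    simp [hL, k]
  have := H.nil (dvd_pow_self _ A.succ_ne_zero) (reg_de h (A + 1) (σ * M) (-(σ * M * v))
    (L' := L') fun j hj => LaurentPolynomial.ext fun b => ?_) (fun k => ?_) i₀ (by omega)
  · have k := c0 i₀ a₀ (by simp only [E, hA, hM, sub_self])
    rw [this] at k
    exact Finsupp.mem_support_iff.1 m2 ((map_eq_zero_iff ρ hρ).1 k.symm)
  · rw [coeff_mp, hL, ← map_pow, coeff_C_mul, coeff_C_mul, reg_coeff, Polynomial.toLaurent_C_mul_T]
    by_cases hb : (L j).coeff b = 0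
    · simp [hb]
    · rw [Int.toNat_of_nonneg (E0 j hj b hb), T_pow, mul_left_comm (T (-_)), mul_left_comm (T _),
        ← T_add, ← T_add]
      congr 2
      simp only [E]
      push_cast
      ring
  · have k1 := c0 (n + 1) v (by simp [E])
    rw [k] at k1
    exact h1 ((map_eq_zero_iff ρ hρ).1 k1.symm)

theorem reg_pol {D : Polynomial ℂ} {P : Fin (n + 1) → Polynomial ℂ} (h : Dormant (compM D P))
    {σ : ℤ} {v : ℕ} (h1 : D.coeff v ≠ 0) (h2 : ∀ a : ℕ, σ * a < σ * v → D.coeff a = 0)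
    (k : Fin (n + 1)) (a : ℕ) (ha : σ * a < σ * v) : (P k).coeff a = 0 := by
  obtain ⟨T₀, p₀, hp⟩ := dorm_rr (fun k => h1 (by simp [k])) h
  obtain ⟨S, s1, s2, s3⟩ := ((ev_le T₀).and ((ev_poly D).and
    (Filter.eventually_all.2 fun j => ev_poly (P j)))).exists
  have tl : ∀ (f : Polynomial ℂ) (b : ℤ), (sc 1 f).coeff b = (Polynomial.toLaurent f).coeff b :=
    fun f b => by rw [coeff_sc, one_zpow, one_mul]
  have hZ : ∀ i, sc 1 (Lz D P i) ∈ LS (cl S) := fun i => sc_mem (one_mem _) fun e => by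
    rw [Lz]
    split_ifs
    exacts [s3 _ e, s2 e]
  choose L hL using hZ
  have hc : ∀ i b, ((L i).coeff b : ℂ) = (Polynomial.toLaurent (Lz D P i)).coeff b := fun i b => by
    rw [← tl, ← hL, coeff_mp]
    rfl
  have top : Lz D P (n + 1) = D := dif_neg (lt_irrefl _)
  have hD : Dm n L := ⟨p₀, fun p pp k i hi => by
    have p0 : (p : ℂ) ≠ 0 := Nat.cast_ne_zero.2 pp.ne_zero
    obtain ⟨g, hg⟩ := sc_mem (one_mem (cl S))
      (f := Polynomial.C (p : ℂ)⁻¹ * rr dz 1 n (Lz D P) (bs _ 0) p i) fun e => by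
        obtain ⟨y, hy, e⟩ := hp p pp k i hi e
        rw [Polynomial.coeff_C_mul, e, inv_mul_cancel_left₀ p0]
        exact s1 hy
    refine ⟨g, mp_inj _ ?_⟩
    rw [rr_map _ (mp_th _), map_one, bs_map, map_mul, map_natCast, hg, map_mul, sc_C,
      ← map_natCast C, ← mul_assoc, ← map_mul, mul_inv_cancel₀ p0, map_one, one_mul,
      rr_map (sc 1) (sc_dz _), map_one, bs_map]
    simp only [hL]⟩
  have := reg_main (cl S).subtype Subtype.val_injective (fun x => x.2) hD (σ := σ) (v := v)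
    (fun k => h1 (by rw [← coeff_tl, ← top, ← hc, k]; rfl)) (fun b hb => Subtype.ext (by
      rw [hc, top]
      rcases lt_or_ge b 0 with l | l
      · exact coeff_tl_neg _ l
      · obtain ⟨b, rfl⟩ := Int.eq_ofNat_of_zero_le l
        exact (coeff_tl _ _).trans (h2 b hb))) k (by omega) a ha
  have e := hc k a
  rw [this, coeff_tl, Lz, dif_pos k.2] at e
  exact e.symm

end

open Polynomial Finset

theorem reg_ends {n : ℕ} {Δ : ℂ[X]} (h0 : Δ.coeff 0 ≠ 0) (e : ℕ) {P : Fin (n + 1) → ℂ[X]}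
    (h : Dormant (compM (X ^ e * Δ) P)) (k : Fin (n + 1)) :
    X ^ e ∣ P k ∧ (P k).natDegree ≤ e + Δ.natDegree := by
  have hΔ : Δ ≠ 0 := fun k => h0 (by simp [k])
  have hd : (X ^ e * Δ).natDegree = e + Δ.natDegree := by
    rw [natDegree_X_pow_mul _ hΔ, add_comm]
  refine ⟨X_pow_dvd_iff.2 fun a ha => reg_pol h (σ := 1) (v := e) ?_ (fun a ha => ?_) k a
    (by omega), natDegree_le_iff_coeff_eq_zero.2 fun a ha => reg_pol h (σ := -1)
      (v := e + Δ.natDegree) ?_ (fun a ha => ?_) k a (by omega)⟩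
  · rwa [coeff_X_pow_mul', if_pos le_rfl, Nat.sub_self]
  · rw [coeff_X_pow_mul', if_neg (by omega)]
  · rw [← hd]
    exact leadingCoeff_ne_zero.2 (mul_ne_zero (pow_ne_zero _ X_ne_zero) hΔ)
  · exact coeff_eq_zero_of_natDegree_lt (by omega)

end Pool.Agent.Lib.MP_815ef6_nt.Ch
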