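import Pool.Agent.Lib.MP_815ef6_nt.CH.Lau

/-! Triangular systems, and operators that are regular at `w = 1`. -/

namespace Pool.Agent.Lib.MP_815ef6_nt.Ch
open Finset LaurentPolynomial

variable {R : Type*} [CommRing R] {n : ℕ}

theorem s1_mem (I : Ideal R) (κ : R) {N : ℕ} {g : ℕ → R[T;T⁻¹]} {h : Sq R} {k : ℤ}
    (H : ∀ j < N, ∀ a, (g j).coeff a ∈ I ∨ h (k - a) ∈ I) : op (Dk κ) N g h k ∈ I := by
  rw [op_apply]
  refine I.sum_mem fun j hj => I.sum_mem fun a _ => ?_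
  rcases H j (mem_range.1 hj) a with e | e
  · exact I.mul_mem_right _ e
  · exact I.mul_mem_left _ (I.mul_mem_left _ e)

theorem s1_sub (I : Ideal R) (κ : R) {N : ℕ} {g : ℕ → R[T;T⁻¹]} {h : Sq R} {k : ℤ}
    (H : ∀ j < N, ∀ a, a ≠ k → (g j).coeff a ∈ I ∨ h (k - a) ∈ I) :
    op (Dk κ) N g h k - (∑ j ∈ range N, κ ^ j * (g j).coeff k) * h 0 ∈ I := by
  rw [op_apply, sum_mul, ← sum_sub_distrib]
  refine I.sum_mem fun j hj => ?_
  rw [Finsupp.sum_of_support_subset _ (subset_insert k _) _ fun _ _ => zero_mul _,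
    ← add_sum_erase _ _ (mem_insert_self k _), sub_self k, Int.cast_zero, add_zero,
    ← mul_assoc, mul_comm _ (κ ^ j), add_sub_cancel_left]
  refine I.sum_mem fun a ha => ?_
  rcases H j (mem_range.1 hj) a (ne_of_mem_erase ha) with e | e
  · exact I.mul_mem_right _ e
  · exact I.mul_mem_left _ (I.mul_mem_left _ e)

theorem s1_bd (b : Bool) (N : ℕ) (g : ℕ → R[T;T⁻¹]) :
    ∃ M : ℕ, ∀ j < N, ∀ a, sg b * a < -M → (g j).coeff a = 0 := by
  refine ⟨(range N).sup fun j => (g j).coeff.support.sup Int.natAbs, fun j hj a ha => ?_⟩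
  by_contra e
  have k := (le_sup (f := Int.natAbs) (Finsupp.mem_support_iff.2 e)).trans
    (le_sup (f := fun j => (g j).coeff.support.sup Int.natAbs) (mem_range.2 hj))
  cases b <;> simp only [sg] at ha <;> omega

theorem s1_det {κ : Fin (n + 1) → R} (hκ : Sep κ) : IsUnit (Matrix.vandermonde κ).det := by
  rw [Matrix.det_vandermonde]
  exact IsUnit.prod_iff.2 fun i _ => IsUnit.prod_iff.2 fun j hj => hκ j i (mem_Ioi.1 hj).ne'

theorem s1_van (I : Ideal R) {κ : Fin (n + 1) → R} (hκ : Sep κ) {c : ℕ → R}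
    (h : ∀ i, ∑ j ∈ range (n + 1), κ i ^ j * c j ∈ I) : ∀ j ≤ n, c j ∈ I := fun j hj => by
  have e := congrFun (Matrix.mulVec_mulVec (fun j : Fin (n + 1) => c j) (Matrix.vandermonde κ)⁻¹
    (Matrix.vandermonde κ)) ⟨j, Nat.lt_succ_of_le hj⟩
  rw [Matrix.nonsing_inv_mul _ (s1_det hκ), Matrix.one_mulVec] at e
  rw [← show _ = c j from e, Matrix.mulVec, dotProduct]
  refine I.sum_mem fun i _ => I.mul_mem_left _ ?_
  have := h i
  rw [sum_range] at this
  exact this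

theorem s1_sol {κ : Fin (n + 1) → R} (hκ : Sep κ) (x : Fin (n + 1) → R) :
    ∃ c : ℕ → R, ∀ i, ∑ j ∈ range (n + 1), κ i ^ j * c j = x i := by
  refine ⟨fun j => if h : j < n + 1 then (Matrix.vandermonde κ)⁻¹.mulVec x ⟨j, h⟩ else 0,
    fun i => ?_⟩
  have e := congrFun (Matrix.mulVec_mulVec x (Matrix.vandermonde κ) (Matrix.vandermonde κ)⁻¹) i
  rw [Matrix.mul_nonsing_inv _ (s1_det hκ), Matrix.one_mulVec] at e
  rw [sum_range, ← e]
  exact sum_congr rfl fun j _ => congrArg (κ i ^ (j : ℕ) * ·) (dif_pos j.2)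

theorem s1_sup (I : Ideal R) (b : Bool) {κ : Fin (n + 1) → R} (hκ : Sep κ)
    {h : Fin (n + 1) → Sq R} (h0 : ∀ i, ∃ x, x * h i 0 - 1 ∈ I)
    (h1 : ∀ i k, sg b * k < 0 → h i k ∈ I) {g : ℕ → R[T;T⁻¹]} (k₀ : ℤ)
    (hg : ∀ i k, sg b * k ≤ k₀ → op (Dk (κ i)) (n + 1) g (h i) k ∈ I) :
    ∀ j ≤ n, ∀ a, sg b * a ≤ k₀ → (g j).coeff a ∈ I := by
  obtain ⟨M, hM⟩ := s1_bd b (n + 1) g
  have key : ∀ (m : ℕ) (a : ℤ), sg b * a < m - M → sg b * a ≤ k₀ → ∀ j ≤ n, (g j).coeff a ∈ I := by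
    intro m
    induction m with
    | zero =>
      intro a e _ j hj
      rw [hM j (by omega) a (by omega)]
      exact I.zero_mem
    | succ m ih =>
      intro a e e'
      refine s1_van I hκ (c := fun j => (g j).coeff a) fun i => ?_
      obtain ⟨x, hx⟩ := h0 i
      have k1 := s1_sub I (κ i) (N := n + 1) (g := g) (h := h i) (k := a) fun j hj a' ha => by
        by_cases l : sg b * a' < sg b * a
        · exact Or.inl (ih a' (by omega) (by omega) j (by omega))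
        · refine Or.inr (h1 i _ ?_)
          cases b <;> simp only [sg] at l ⊢ <;> omega
      have k2 := I.sub_mem (I.mul_mem_left x (I.sub_mem (hg i a e') k1))
        (I.mul_mem_left (∑ j ∈ range (n + 1), κ i ^ j * (g j).coeff a) hx)
      rwa [sub_sub_cancel, mul_sub, mul_one, mul_left_comm, sub_sub_cancel] at k2
  exact fun j hj a ha => key ((sg b * a).toNat + M + 1) a (by omega) ha j hj

theorem s1_term {I : Ideal R} {t : R} {α β c c' : Sq R} (h : Nd I t α β) (hc : Nd ⊥ t c c')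
    (k : ℕ) (a : ℤ) : c a * α (k - a) - t ^ k * (c' a * β (k - a)) ∈ I := by
  obtain ⟨p, rfl | rfl⟩ := a.eq_nat_or_neg
  · have e := sub_eq_zero.1 (Ideal.mem_bot.1 (hc p).1)
    rcases le_total p k with l | l <;> obtain ⟨q, rfl⟩ := Nat.exists_eq_add_of_le l
    · rw [show ((p + q : ℕ) : ℤ) - p = q by omega, e,
        show ∀ x y z : R, t ^ p * x * y - t ^ (p + q) * (x * z) = t ^ p * x * (y - t ^ q * z) from
          fun x y z => by ring]
      exact I.mul_mem_left _ (h q).1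
    · rw [show (k : ℤ) - (k + q : ℕ) = -q by omega, e,
        show ∀ x y z : R, t ^ (k + q) * x * y - t ^ k * (x * z) = -(t ^ k * x) * (z - t ^ q * y) from
          fun x y z => by ring]
      exact I.mul_mem_left _ (h q).2
  · have e := sub_eq_zero.1 (Ideal.mem_bot.1 (hc p).2)
    rw [show (k : ℤ) - -p = (k + p : ℕ) by omega, e,
      show ∀ x y z : R, x * y - t ^ k * (t ^ p * x * z) = x * (y - t ^ (k + p) * z) from
        fun x y z => by ring]
    exact I.mul_mem_left _ (h (k + p)).1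

theorem s1_refl {I : Ideal R} {t : R} {α β : Sq R} (h : Nd I t α β) :
    Nd I t (fun m => β (-m)) (fun m => α (-m)) := fun k => ⟨(h k).2, by
  simp only [neg_neg]
  exact (h k).1⟩

theorem s1_two (I : Ideal R) (κ s : R) {N : ℕ} {g g' : ℕ → R[T;T⁻¹]} {α β : Sq R} {k : ℤ}
    (H : ∀ j < N, ∀ a, (g j).coeff a * α (k - a) - s * ((g' j).coeff a * β (k - a)) ∈ I) :
    op (Dk κ) N g α k - s * op (Dk κ) N g' β k ∈ I := by
  rw [op_apply, op_apply, mul_sum, ← sum_sub_distrib]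
  refine I.sum_mem fun j hj => ?_
  rw [Finsupp.sum_of_support_subset _ (subset_union_left (s₂ := (g' j).coeff.support)) _
      fun _ _ => zero_mul _,
    Finsupp.sum_of_support_subset _ (subset_union_right (s₁ := (g j).coeff.support)) _
      fun _ _ => zero_mul _, mul_sum, ← sum_sub_distrib]
  refine I.sum_mem fun a _ => ?_
  rw [show ∀ x y z u v : R, x * (y * z) - s * (u * (y * v)) = y * (x * z - s * (u * v)) from
    fun x y z u v => by ring]
  exact I.mul_mem_left _ (H j (mem_range.1 hj) a)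

/-- An operator of order at most `n` is determined by its action on `n + 1` series. -/
theorem sup_zero (b : Bool) {κ : Fin (n + 1) → R} (hκ : Sep κ) {h : Fin (n + 1) → Sq R}
    (h0 : ∀ i, IsUnit (h i 0)) (h1 : ∀ i k, sg b * k < 0 → h i k = 0) {g : ℕ → R[T;T⁻¹]} (k₀ : ℤ)
    (hg : ∀ i k, sg b * k ≤ k₀ → op (Dk (κ i)) (n + 1) g (h i) k = 0) :
    ∀ j ≤ n, ∀ a, sg b * a ≤ k₀ → (g j).coeff a = 0 := fun j hj a ha =>
  Ideal.mem_bot.1 (s1_sup ⊥ b hκ
    (fun i => (h0 i).exists_left_inv.imp fun _ e => Ideal.mem_bot.2 (sub_eq_zero.2 e))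
    (fun i k e => Ideal.mem_bot.2 (h1 i k e)) k₀ (fun i k e => Ideal.mem_bot.2 (hg i k e)) j hj a ha)

/-- The same modulo an ideal. -/
theorem sup_mem (I : Ideal R) (b : Bool) {κ : Fin (n + 1) → R} (hκ : Sep κ)
    {h : Fin (n + 1) → Sq R} (h0 : ∀ i, ∃ x, x * h i 0 - 1 ∈ I)
    (h1 : ∀ i k, sg b * k < 0 → h i k ∈ I) {g : ℕ → R[T;T⁻¹]} (k₀ : ℤ)
    (hg : ∀ i k, sg b * k ≤ k₀ → op (Dk (κ i)) (n + 1) g (h i) k ∈ I) :
    ∀ j ≤ n, ∀ a, sg b * a ≤ k₀ → (g j).coeff a ∈ I := s1_sup I b hκ h0 h1 k₀ hg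

/-- Polar parts can be prescribed. -/
theorem exists_polar (b : Bool) {κ : Fin (n + 1) → R} (hκ : Sep κ) {h : Fin (n + 1) → Sq R}
    (h0 : ∀ i, h i 0 = 1) (h1 : ∀ i k, sg b * k < 0 → h i k = 0) (x : Fin (n + 1) → ℤ → R)
    (M : ℕ) (hx : ∀ i k, sg b * k < -M → x i k = 0) :
    ∃ g : ℕ → R[T;T⁻¹], (∀ j a, 0 ≤ sg b * a → (g j).coeff a = 0) ∧
      ∀ i k, sg b * k < 0 → op (Dk (κ i)) (n + 1) g (h i) k = x i k := by
  induction M generalizing x with
  | zero =>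
    refine ⟨0, fun _ _ _ => rfl, fun i k e => ?_⟩
    rw [op_zero, hx i k (by omega), Sq.zero_apply]
  | succ M ih =>
    obtain ⟨a, ha⟩ : ∃ a, sg b * a = -(M + 1 : ℕ) :=
      ⟨sg b * -(M + 1 : ℕ), by cases b <;> simp only [sg] <;> omega⟩
    obtain ⟨c, hc⟩ := s1_sol hκ fun i => x i a
    obtain ⟨g, g1, g2⟩ := ih
      (fun i k => x i k - op (Dk (κ i)) (n + 1) (fun j => C (c j) * T a) (h i) k) fun i k e => by
      by_cases l : k = a
      · subst l
        have := s1_sub ⊥ (κ i) (N := n + 1) (g := fun j => C (c j) * T k) (h := h i) (k := k)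
          fun j _ a' e' => Or.inl (Ideal.mem_bot.2 (by rw [coeff_CT, if_neg e'.symm]))
        simp only [coeff_CT, if_true, hc, h0, mul_one, Ideal.mem_bot, sub_eq_zero] at this
        rw [this, sub_self]
      · have l' : sg b * k < -(M + 1 : ℕ) := by
          cases b <;> simp only [sg] at e ha ⊢ <;> omega
        rw [hx i k l', zero_sub, neg_eq_zero]
        refine Ideal.mem_bot.1 (s1_mem ⊥ _ fun j _ a' => ?_)
        by_cases e' : a = a'
        · refine Or.inr (Ideal.mem_bot.2 (h1 i _ ?_))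
          rw [mul_sub, ← e']
          omega
        · exact Or.inl (Ideal.mem_bot.2 (by rw [coeff_CT, if_neg e']))
    refine ⟨g + fun j => C (c j) * T a, fun j a' e => ?_, fun i k e => ?_⟩
    · have e' : a ≠ a' := fun e' => by
        rw [← e'] at e
        omega
      rw [Pi.add_apply, AddMonoidAlgebra.coeff_add, Finsupp.add_apply, g1 j a' e, coeff_CT,
        if_neg e', add_zero]
    · rw [op_add, Sq.add_apply, g2 i k e, sub_add_cancel]

/-- The result of an operator on a series has a finite polar part. -/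
theorem op_fin (b : Bool) (κ : R) (N : ℕ) (g : ℕ → R[T;T⁻¹]) :
    ∃ M : ℕ, ∀ h : Sq R, (∀ k, sg b * k < 0 → h k = 0) → ∀ k, sg b * k < -M →
      op (Dk κ) N g h k = 0 := by
  obtain ⟨M, hM⟩ := s1_bd b N g
  refine ⟨M, fun h h1 k e => Ideal.mem_bot.1 (s1_mem ⊥ κ fun j hj a => ?_)⟩
  by_cases l : sg b * a < -M
  · exact Or.inl (Ideal.mem_bot.2 (hM j hj a l))
  · refine Or.inr (Ideal.mem_bot.2 (h1 _ ?_))
    rw [mul_sub]
    omega

/-- An operator whose coefficients lie in `I` on one side. -/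
theorem op_mem (I : Ideal R) (b : Bool) (κ : R) {N : ℕ} {g : ℕ → R[T;T⁻¹]} {h : Sq R} (k₀ : ℤ)
    (hg : ∀ j < N, ∀ a, sg b * a ≤ k₀ → (g j).coeff a ∈ I) (h1 : ∀ k, sg b * k < 0 → h k ∈ I) :
    ∀ k, sg b * k ≤ k₀ → op (Dk κ) N g h k ∈ I := fun k e => s1_mem I κ fun j hj a => by
  by_cases l : sg b * a ≤ k₀
  · exact Or.inl (hg j hj a l)
  · refine Or.inr (h1 _ ?_)
    rw [mul_sub]
    omega

theorem op_mem' (I : Ideal R) (κ : R) {N : ℕ} {g : ℕ → R[T;T⁻¹]} (h : Sq R)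
    (hg : ∀ j < N, ∀ a, (g j).coeff a ∈ I) (k : ℤ) : op (Dk κ) N g h k ∈ I :=
  s1_mem I κ fun j hj a => Or.inl (hg j hj a)

theorem op_mem'' (I : Ideal R) (κ : R) (N : ℕ) (g : ℕ → R[T;T⁻¹]) {h : Sq R}
    (h1 : ∀ k, h k ∈ I) (k : ℤ) : op (Dk κ) N g h k ∈ I :=
  s1_mem I κ fun _ _ _ => Or.inr (h1 _)

theorem op_csmul (κ c : R) (N : ℕ) (g : ℕ → R[T;T⁻¹]) (h : Sq R) :
    op (Dk κ) N g (c • h) = c • op (Dk κ) N g h := by
  refine Sq.ext fun k => ?_
  simp only [Sq.csmul_apply, op_apply, mul_sum, Finsupp.sum]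
  exact sum_congr rfl fun _ _ => sum_congr rfl fun _ _ => by ring

/-- The relation at a node is preserved by operators. -/
theorem Nd.act {I : Ideal R} {t : R} {α β : Sq R} (h : Nd I t α β) (κ : R) {N : ℕ}
    {g g' : ℕ → R[T;T⁻¹]} (hg : ∀ j < N, Nd ⊥ t (cf (g j)) (cf (g' j))) :
    Nd I t (op (Dk κ) N g α) (op (Dk κ) N g' β) := fun k => by
  refine ⟨s1_two I κ _ fun j hj a => s1_term h (hg j hj) k a, s1_two I κ _ fun j hj a => ?_⟩
  have := s1_term (s1_refl h) (s1_refl (hg j hj)) k (-a)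
  simp only [neg_neg, show -((k : ℤ) - -a) = -k - a by ring] at this
  exact this

/-- The derivatives of order at most `n` of `g y` are regular at `w = 1`. -/
def Reg (n : ℕ) (L g : ℕ → R[T;T⁻¹]) : Prop :=
  ∀ l ≤ n, ∃ g' : ℕ → R[T;T⁻¹], ∀ (κ : R) (φ : Sq R), op (Dk κ) (n + 2) L φ = 0 →
    (Dk κ)^[l] (op (Dk κ) (n + 1) g φ) = op (Dk κ) (n + 1) g' φ

theorem s2_C (κ c : R) (l : ℕ) (v : Sq R) :
    (Dk κ)^[l] ((C c : R[T;T⁻¹]) • v) = (C c : R[T;T⁻¹]) • (Dk κ)^[l] v :=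
  Sq.ext fun k => by rw [Dk_iter, C_smul, C_smul, Dk_iter, mul_left_comm]

theorem s2_bs (κ : R) {l j : ℕ} (h : l + j ≤ n) (φ : Sq R) :
    (Dk κ)^[l] (op (Dk κ) (n + 1) (bs R[T;T⁻¹] j) φ) = op (Dk κ) (n + 1) (bs R[T;T⁻¹] (l + j)) φ := by
  rw [op_bs (by omega), op_bs (by omega), Function.iterate_add_apply]

theorem s2_dvd (f : R[T;T⁻¹]) : ∃ v : R, 1 - T 1 ∣ f + C v := by
  induction f using LaurentPolynomial.induction_on' with
  | add f f' h h' =>
    obtain ⟨v, h⟩ := h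
    obtain ⟨v', h'⟩ := h'
    exact ⟨v + v', by rw [map_add, add_add_add_comm]; exact h.add h'⟩
  | C_mul_T a c =>
    refine ⟨-c, ?_⟩
    rw [map_neg, ← sub_eq_add_neg, ← mul_sub_one]
    refine Dvd.dvd.mul_left ?_ _
    induction a using Int.induction_on with
    | zero => simp
    | succ a ih =>
      rw [T_add, show (T a * T 1 - 1 : R[T;T⁻¹]) = T a - 1 - (1 - T 1) * T a by ring]
      exact ih.sub (dvd_mul_right _ _)
    | pred a ih =>
      rw [← sub_add_cancel (-a : ℤ) 1, T_add] at ih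
      rw [show (T (-a - 1) - 1 : R[T;T⁻¹]) =
        T (-a - 1) * T 1 - 1 + (1 - T 1) * T (-a - 1) by ring]
      exact ih.add (dvd_mul_right _ _)

theorem reg_one (L : ℕ → R[T;T⁻¹]) : Reg n L (bs _ 0) :=
  fun l hl => ⟨_, fun κ φ _ => s2_bs κ (l := l) (j := 0) hl φ⟩

theorem Reg.add {L g g' : ℕ → R[T;T⁻¹]} (h : Reg n L g) (h' : Reg n L g') : Reg n L (g + g') :=
  fun l hl => (h l hl).elim fun a ha => (h' l hl).elim fun b hb => ⟨a + b, fun κ φ e => by
    rw [op_add, op_add, iterate_map_add, ha κ φ e, hb κ φ e]⟩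

theorem Reg.mul {L g : ℕ → R[T;T⁻¹]} (h : Reg n L g) (c : R) : Reg n L fun i => C c * g i :=
  fun l hl => (h l hl).elim fun a ha => ⟨fun i => C c * a i, fun κ φ e => by
    rw [op_mul, op_mul, s2_C, ha κ φ e]⟩

theorem exists_reg {L : ℕ → R[T;T⁻¹]} (hL : L (n + 1) = 1 - T 1) (g : ℕ → R[T;T⁻¹]) :
    ∃ c : ℕ → R, Reg n L (g + fun i => C (c i)) := by
  suffices ∀ i ≤ n, ∃ c : ℕ → R, ∀ l ≤ i, ∃ g' : ℕ → R[T;T⁻¹], ∀ (κ : R) (φ : Sq R),
      op (Dk κ) (n + 2) L φ = 0 → (Dk κ)^[l] (op (Dk κ) (n + 1) (g + fun i => C (c i)) φ) =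
        op (Dk κ) (n + 1) g' φ from this n le_rfl
  intro i hi
  induction i with
  | zero => exact ⟨0, fun l hl => Nat.le_zero.1 hl ▸ ⟨_, fun κ φ _ => rfl⟩⟩
  | succ i ih =>
    obtain ⟨c, hc⟩ := ih (by omega)
    choose! G hG using hc
    obtain ⟨v, h, hv⟩ := s2_dvd (G i n)
    have e : ∀ l ≤ i, ∀ (κ : R) (φ : Sq R), op (Dk κ) (n + 2) L φ = 0 →
        (Dk κ)^[l] (op (Dk κ) (n + 1) (g + fun j => C (c j + v * bs R (n - i) j)) φ) =
          op (Dk κ) (n + 1) (G l + fun j => C v * bs _ (l + (n - i)) j) φ := fun l hl κ φ e => by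
      rw [op_add (G l), op_mul, ← hG l hl κ φ e, ← s2_bs κ (by omega), ← s2_C, ← iterate_map_add,
        ← op_mul, ← op_add, add_assoc]
      congr 3
      funext j
      simp [bs, apply_ite C]
    refine ⟨_, fun l hl => hl.eq_or_lt.elim ?_ fun hl => ⟨_, e l (by omega)⟩⟩
    rintro rfl
    refine ⟨(fun j => th ((G i + fun j => C v * bs _ n j) j) + sh (G i + fun j => C v * bs _ n j) j)
      - fun j => h * L j, fun κ φ z => ?_⟩
    rw [Function.iterate_succ_apply', e i le_rfl κ φ z, show i + (n - i) = n by omega,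
      (lb_Dk κ).op, op_sub, op_mul, sub_eq_add_neg, ← smul_neg,
      neg_eq_of_add_eq_zero_right ((op_succ L φ).symm.trans z), smul_smul, hL, mul_comm h, ← hv]
    simp [bs]

theorem Reg.comp {L L' g : ℕ → R[T;T⁻¹]} (h : Reg n L g) (hL : L (n + 1) ∣ L' (n + 1)) :
    ∃ E : ℕ → R[T;T⁻¹], ∀ (κ : R) (φ : Sq R), op (Dk κ) (n + 2) L φ = 0 →
      op (Dk κ) (n + 2) L' (op (Dk κ) (n + 1) g φ) = op (Dk κ) (n + 1) E φ := by
  obtain ⟨q, hq⟩ := hL
  choose! G hG using h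
  refine ⟨(fun j => ∑ l ∈ range (n + 1), L' l * G l j) + fun j => q * st th n L (G n) j,
    fun κ φ z => ?_⟩
  have e := (lb_Dk κ).st (n := n) L (G n) φ
  rw [z, smul_zero, add_zero] at e
  rw [op_succ, op_add, op_mul, ← e, Function.iterate_succ_apply', hG n le_rfl κ φ z, hq,
    mul_comm _ q, mul_smul, op, sum_congr rfl fun l hl => by
      rw [hG l (Nat.le_of_lt_succ (mem_range.1 hl)) κ φ z]]
  simp only [op, smul_sum, sum_smul, mul_smul]
  rw [sum_comm]

theorem op_nz (κ : R) (N : ℕ) (L : ℕ → R[T;T⁻¹]) (h : Sq R) (k : ℤ) :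
    op (Dk κ) N (nz false L) h k = -op (Dk κ) N L h (k + 1) := by
  rw [show nz false L = fun i => -T (-1) * L i from rfl, op_mul, neg_smul, Sq.neg_apply, T_smul,
    sub_neg_eq_add]

theorem s2_es {m : ℕ} (x : Fin m → R) (z : R) :
    ∑ i ∈ range (m + 1), es x i * z ^ i = ∏ j, (z - x j) := by
  have h : (∏ j, (Polynomial.X - Polynomial.C (x j))).natDegree < m + 1 :=
    Nat.lt_succ_of_le ((Polynomial.natDegree_prod_le _ _).trans
      ((sum_le_sum fun j _ => Polynomial.natDegree_X_sub_C_le (x j)).trans (by simp)))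
  simpa [Polynomial.eval_prod, es] using (Polynomial.eval_eq_sum_range' h z).symm

theorem op_two (κ : R) (a : ℤ) {m : ℕ} (x y : Fin m → R) (h : Sq R) (k : ℤ) :
    op (Dk κ) (m + 1) (two a (es x) (es y)) h k =
      (∏ j, (κ + k - x j)) * h k - (∏ j, (κ + (k - a : ℤ) - y j)) * h (k - a) := by
  simp only [op, two, Sq.sum_apply, sub_smul, Sq.sub_apply, C_smul, CT_smul, Dk_iter, ← s2_es,
    sum_mul, sum_sub_distrib, mul_assoc]

theorem es_top {m : ℕ} (x : Fin m → R) : es x m = 1 := by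
  nontriviality R
  have := (Polynomial.monic_prod_X_sub_C x univ).coeff_natDegree
  rwa [Polynomial.natDegree_finsetProd_X_sub_C_eq_card, card_univ, Fintype.card_fin] at this

theorem es_map {R' : Type*} [CommRing R'] (f : R →+* R') {m : ℕ} (x : Fin m → R) (i : ℕ) :
    f (es x i) = es (fun j => f (x j)) i := by
  simp [es, ← Polynomial.coeff_map, Polynomial.map_prod]

theorem nz_two (q q' : ℕ → R) : nz false (two 1 q q') = two (-1) q' q := by
  funext i
  have : (T (-1) * T 1 : R[T;T⁻¹]) = 1 := by rw [← T_add]; rfl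
  simp only [nz, two]
  linear_combination C (q' i) * this

end Pool.Agent.Lib.MP_815ef6_nt.Ch
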