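import Pool.Agent.Lib.MP_815ef6_nt.CH.Asm

/-! The final steps. -/

namespace Pool.Agent.Lib.MP_815ef6_nt.Ch
open Finset Polynomial

variable {n r : ℕ}

theorem Dat.main {a : Fin (r + 1) → ℂ} {Z : ℕ → ℂ[X]} (D : Dat a Z n) {t : ℂ}
    (h : ∀ F : Finset ℂ, ∃ O, Frame O t ∧ (∀ x ∈ F, ∃ e : ℕ, t ^ e * x ∈ O) ∧ ∀ j : Fin r,
      a j.castSucc / a j.succ ∈ O ∧ ∃ d : ℕ, ∃ y ∈ O, (a j.castSucc / a j.succ) ^ d = t * y) :
    ∃ T : Finset ℂ, ∀ i₀ ≤ n, ∀ m : ℕ, ∀ i ≤ n, ∀ e, ∃ y ∈ cl T,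
      (rr dz 1 n Z (bs _ i₀) m i).coeff e = m.factorial * y := by
  classical
  obtain ⟨F, p₀, hF⟩ := D.dm
  have hξ : ∀ (x : ℂ) (m : ℕ), ∃ ξ : ℂ, ξ ^ (m + 1) = x := fun x m =>
    IsAlgClosed.exists_pow_nat_eq x m.succ_pos
  choose ξ hξ using hξ
  obtain ⟨O, h1, h2, h3⟩ := h (F ∪ univ.biUnion fun j => (range (n + 1)).biUnion fun i =>
    (Lc a Z j i).coeff.support.image fun k => ξ ((Lc a Z j i).coeff k) (n - i))
  obtain ⟨T, hT⟩ := Sit.final ⟨h1, D, h3, ⟨F, p₀, fun x hx => h2 x (mem_union_left _ hx), hF⟩,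
    fun j i hi k hk => ⟨_, Nat.succ_sub hi ▸ hξ _ (n - i), h2 _ (mem_union_right _
      (mem_biUnion.2 ⟨j, mem_univ j, mem_biUnion.2 ⟨i, mem_range.2 (by omega),
        mem_image_of_mem _ hk⟩⟩))⟩⟩
  exact D.back hT

theorem dv_dz : Dv dz := ⟨fun f g => by rw [dz, dz, dz, map_add, mul_add], fun f g => by
  rw [dz, dz, dz, derivative_mul]
  ring⟩

theorem integral_free {ι : Type} [Fintype ι] (a : ι → ℂ) (P : Fin (n + 1) → ℂ[X]) (T : Finset ℂ)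
    (h : ∀ i₀ ≤ n, ∀ m : ℕ, ∀ i ≤ n, ∀ e, ∃ y ∈ cl T,
      (rr dz 1 n (Lz (∏ x, (X - C (a x))) P) (bs _ i₀) m i).coeff e = m.factorial * y)
    (hn : n ≠ 0) {U : Set ℂ} (hU : IsOpen U)
    (hUA : ∀ z ∈ U, ∀ i j, (compM (∏ x, (X - C (a x))) P i j).denom.eval z ≠ 0)
    (y : ℂ → Fin (n + 1) → ℂ) (hy : ∀ z ∈ U, ∀ i, HasDerivAt (fun w => y w i)
      (∑ j, (compM (∏ x, (X - C (a x))) P i j).eval (RingHom.id ℂ) z * y z j) z)
    (i : Fin (n + 1)) : IsIntegralFn U fun z => y z i := by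
  classical
  have mo : ∀ s : Finset ι, (∏ x ∈ s, (X - C (a x))).Monic := fun s =>
    monic_prod_of_monic _ _ fun x _ => monic_X_sub_C _
  set Δ := ∏ x, (X - C (a x))
  set M := ∏ x with a x ∈ U, (X - C (a x))
  set Δ' := ∏ x : {x // a x ∉ U}, (X - C (a x))
  have e : Δ = M * Δ' := (prod_filter_mul_prod_filter_not _ _ _).symm.trans (congrArg _
    (prod_subtype (p := fun x => a x ∉ U) (filter (a · ∉ U) univ) (by simp) fun x => X - C (a x)))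
  have h0 : 0 ∉ U := fun k => hUA 0 k 0 ⟨1, by omega⟩ (by
    have h1 := congrArg (eval 0) (num_mul_of (P := 1) (Q := X) (f := compM Δ P 0 ⟨1, by omega⟩) (by
      rw [compM, if_neg (Fin.ne_of_val_ne hn.symm), if_pos (by rfl), am_X, map_one,
        div_mul_cancel₀ _ RatFunc.X_ne_zero]))
    simpa using h1.symm)
  have hd : ∀ j, M ∣ P j := fun j => by
    have h1 := num_mul_of (ana_comp (Δ := Δ) (mo _).ne_zero P (Fin.last n) j)
    rw [if_pos rfl] at h1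
    refine dvd_neg.1 (IsCoprime.dvd_of_dvd_mul_right (IsCoprime.prod_left fun x hx =>
      (irreducible_X_sub_C _).coprime_iff_not_dvd.2 fun k =>
        hUA _ (mem_filter.1 hx).2 (Fin.last n) j (dvd_iff_isRoot.1 k)) ?_)
    rw [← h1]
    exact ((Dvd.intro _ e.symm).mul_left _).mul_left _
  choose Q hQ using hd
  have m0 : am M ≠ 0 := am_ne (mo _).ne_zero
  have eA : compM Δ P = compM Δ' Q := by
    ext i j
    rw [compM, compM, hQ, e, map_mul, map_mul, ← mul_neg, mul_div_mul_left _ _ m0]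
  have eL : Lz Δ P = fun i => M * Lz Δ' Q i := by
    ext1 i
    rw [Lz, Lz]
    split_ifs
    exacts [hQ _, e]
  rw [eA] at hy
  refine integral_of_rr (fun x : {x // a x ∉ U} => a x) Q (T ∪ univ.image a)
    (fun i₀ h₀ m i hi k => ?_) hU h0 (fun x => x.2) y hy i
  have m0 : (m.factorial : ℂ) ≠ 0 := Nat.cast_ne_zero.2 m.factorial_ne_zero
  have l1 : M ∈ lifts (cl (T ∪ univ.image a)).subtype := Subsemiring.prod_mem _ fun x _ =>
    ⟨X - C ⟨a x, Subring.subset_closure (by simp)⟩, by simp⟩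
  refine ⟨_, ana_lifts.1 (ana_div (M := M ^ m)
    (r := C (m.factorial : ℂ)⁻¹ * rr dz 1 n (Lz Δ' Q) (bs _ i₀) m i) ((mo _).pow m) (pow_mem l1 m)
    (ana_lifts.2 fun k => ?_)) k, by rw [Polynomial.coeff_C_mul, mul_inv_cancel_left₀ m0]⟩
  obtain ⟨w, hw, l⟩ := h i₀ h₀ m i hi k
  rw [mul_left_comm, ← rr_mul dv_dz, ← eL, Polynomial.coeff_C_mul, l, inv_mul_cancel_left₀ m0]
  exact Subring.closure_mono (coe_subset.2 subset_union_left) hw

theorem Dat.of {a : Fin (r + 1) → ℂ} (ha : ∀ i, a i ≠ 0) {P : Fin (n + 1) → ℂ[X]}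
    (hP : ∀ k, (P k).natDegree ≤ r + 1) (hA : Dormant (compM (∏ i, (X - C (a i))) P)) :
    Dat a (Lz (∏ i, (X - C (a i))) P) n := by
  refine ⟨ha, fun i => ?_, dif_neg (lt_irrefl _),
    dorm_rr (prod_ne_zero_iff.2 fun x _ => X_sub_C_ne_zero _) hA⟩
  rw [Lz]
  split_ifs
  · exact hP _
  · rw [natDegree_prod_of_monic _ _ fun x _ => monic_X_sub_C _]
    simp

end Pool.Agent.Lib.MP_815ef6_nt.Ch
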