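import Pool.Agent.Lib.MP_815ef6_nt.CH.FrA

/-! A curve through the origin. -/

namespace Pool.Agent.Lib.MP_815ef6_nt.Ch
open Finset

open Polynomial in
/-- The lower coefficients of the minimal polynomial of `u z` are multiples of `u` up to powers. -/
theorem vz_key {B : Type} [CommRing B] [IsDomain B] [IsIntegrallyClosed B] [Algebra B ℂ]
    [FaithfulSMul B ℂ] {A : Subring ℂ} (hBA : ∀ c, algebraMap B ℂ c ∈ A)
    (hAF : ∀ L : Subfield ℂ, (∀ c, algebraMap B ℂ c ∈ L) → ∀ a ∈ A, a ∈ L) (u : A) {z : ℂ}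
    (hz : IsIntegral A z) (hs : IsIntegral B ((u : ℂ) * z)) {i : ℕ}
    (hi : i ≠ (minpoly B ((u : ℂ) * z)).natDegree) :
    (⟨_, hBA ((minpoly B ((u : ℂ) * z)).coeff i)⟩ : A) ∈ (Ideal.span {u}).radical := by
  let _ := FractionRing.liftAlgebra B ℂ
  obtain ⟨q, qm, hq⟩ := hz
  let ψ : B →+* A := (algebraMap B ℂ).codRestrict A hBA
  have h1 : aeval ((u : ℂ) * z) (q.scaleRoots u) = 0 := scaleRoots_aeval_eq_zero hq
  obtain ⟨q', e⟩ : (q.scaleRoots u).map A.subtype ∈ lifts (algebraMap (FractionRing B) ℂ) :=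
    (lifts_iff_coeff_lifts _).2 fun n => by
      rw [coeff_map]
      exact hAF (algebraMap (FractionRing B) ℂ).fieldRange
        (fun c => ⟨algebraMap B _ c, (IsScalarTower.algebraMap_apply ..).symm⟩) _ (Subtype.prop _)
  rw [coe_mapRingHom] at e
  have h2 : minpoly (FractionRing B) ((u : ℂ) * z) ∣ q' := minpoly.dvd _ _ (by
    rw [aeval_def, eval₂_eq_eval_map, e, ← eval₂_eq_eval_map]
    exact h1)
  rw [minpoly.isIntegrallyClosed_eq_field_fractions' _ hs] at h2
  have h3 := Polynomial.map_dvd (algebraMap (FractionRing B) ℂ) h2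
  rw [e, Polynomial.map_map, ← IsScalarTower.algebraMap_eq] at h3
  have m := (minpoly.monic hs).map ψ
  have h4 : (minpoly B ((u : ℂ) * z)).map ψ ∣ q.scaleRoots u :=
    (map_dvd_map A.subtype Subtype.val_injective m).1 (by rwa [Polynomial.map_map])
  have h5 := coeff_mem_radical_span_coeff_of_dvd _ _ ((monic_scaleRoots_iff u).2 qm) m h4 i
    (by rwa [(minpoly.monic hs).natDegree_map])
  rw [coeff_map] at h5
  refine Ideal.radical_mono (Ideal.span_le.2 ?_) h5
  rintro _ ⟨j, hj, rfl⟩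
  rw [natDegree_scaleRoots] at hj
  rw [coeff_scaleRoots]
  exact Ideal.mul_mem_left _ _
    (Ideal.pow_mem_of_mem _ (Ideal.mem_span_singleton_self u) _ (by omega))

theorem vz_tr {d : ℕ} {y : Fin (d + 1) → ℂ} (hy : AlgebraicIndependent ℚ y) :
    Transcendental (IntermediateField.adjoin ℚ (Set.range fun i : Fin d => y i.succ / y 0))
      (y 0) := by
  intro h
  have a0 := IntermediateField.isAlgebraic_adjoin_iff.1 h
  have h1 : Set.range y ⊆ (AlgebraicIndependent.matroid ℚ ℂ).closure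
      (Set.range fun i : Fin d => y i.succ / y 0) := by
    rw [AlgebraicIndependent.matroid_closure_eq]
    rintro _ ⟨i, rfl⟩
    refine Fin.cases a0 (fun i => ?_) i
    rw [← div_mul_cancel₀ (y i.succ) (hy.ne_zero 0)]
    exact (isAlgebraic_algebraMap (⟨_, Algebra.subset_adjoin ⟨i, rfl⟩⟩ :
      Algebra.adjoin ℚ (Set.range fun i : Fin d => y i.succ / y 0))).mul a0
  have h2 := (Matroid.Indep.encard_le_eRk_of_subset (M := AlgebraicIndependent.matroid ℚ ℂ)
    hy.to_subtype_range h1).trans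
    (((Matroid.eRk_closure_eq _ _).trans_le (Matroid.eRk_le_encard _ _)))
  rw [← Set.image_univ (f := fun i : Fin d => y i.succ / y 0)] at h2
  have h3 := hy.injective.encard_range.trans (h2.trans (Set.encard_image_le _ _))
  simp only [Set.encard_univ, ENat.card_eq_coe_fintype_card, Fintype.card_fin, Nat.cast_le] at h3
  omega

open MvPolynomial in
/-- Noether normalisation at a rational point. -/
theorem vz_noe {R : Type} [CommRing R] [IsDomain R] [Algebra ℚ R] [Algebra.FiniteType ℚ R]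
    (ev : R →ₐ[ℚ] ℚ) {x : R} (hx : x ≠ 0) (h0 : ev x = 0) :
    ∃ (d : ℕ) (g : MvPolynomial (Fin (d + 1)) ℚ →ₐ[ℚ] R), Function.Injective g ∧
      g.toRingHom.IsIntegral ∧ ∀ i, ev (g (X i)) = 0 := by
  obtain ⟨s, g, hi, hg⟩ := exists_integral_inj_algHom_of_fg ℚ R
  cases s with
  | zero =>
    let _ := g.toRingHom.toAlgebra
    refine (Ideal.comap_ne_bot_of_integral_mem (I := RingHom.ker ev) hx h0 (hg x)
      (eq_bot_iff.2 fun b hb => ?_)).elim
    have e : ev (g b) = 0 := hb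
    rw [eq_C_of_isEmpty b, ← algebraMap_eq, g.commutes, ev.commutes] at e
    rw [eq_C_of_isEmpty b, show coeff 0 b = 0 from e, map_zero]
    exact zero_mem _
  | succ d =>
    let T : (Fin (d + 1) → ℚ) → MvPolynomial (Fin (d + 1)) ℚ →ₐ[ℚ] MvPolynomial (Fin (d + 1)) ℚ :=
      fun c => aeval fun i => X i + C (c i)
    have hT : ∀ c c', c + c' = 0 → ∀ f, T c (T c' f) = f := fun c c' e =>
      AlgHom.congr_fun (φ₁ := (T c).comp (T c')) (φ₂ := AlgHom.id _ _) (algHom_ext fun i => by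
        have : c i + c' i = 0 := congrFun e i
        simp only [T, AlgHom.comp_apply, aeval_X, map_add, aeval_C, algebraMap_eq, AlgHom.id_apply]
        rw [add_assoc, ← map_add, this, map_zero, add_zero])
    let c : Fin (d + 1) → ℚ := fun i => -ev (g (X i))
    refine ⟨d, g.comp (T c), hi.comp (Function.LeftInverse.injective (hT (-c) c (by simp))),
      RingHom.IsIntegral.trans (T c).toRingHom g.toRingHom (RingHom.isIntegral_of_surjective _
        (Function.RightInverse.surjective (hT c (-c) (by simp)))) hg, fun i => ?_⟩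
    rw [AlgHom.comp_apply, aeval_X, map_add, map_add, ← algebraMap_eq, g.commutes, ev.commutes]
    simp [c]

open Polynomial in
theorem vz_unit {K : Subfield ℂ} {u : ℂ} (ht : Transcendental K u) :
    ¬ IsUnit (⟨u, fr_t⟩ : frA K u) := by
  intro h
  obtain ⟨⟨v, g, w, hw, e⟩, hv⟩ := h.exists_right_inv
  have h1 : u * v = 1 := congrArg Subtype.val hv
  have h2 : w = X * g := transcendental_iff_injective.1 ht (by
    rw [map_mul, aeval_X, ← e, ← mul_assoc, h1, one_mul])
  exact hw (by rw [h2, mul_coeff_zero, coeff_X_zero, zero_mul])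

open MvPolynomial in
theorem vz_main {R : Type} [CommRing R] [IsDomain R] [Algebra ℚ R] (ι : R →ₐ[ℚ] ℂ)
    (hι : Function.Injective ι) (ev : R →ₐ[ℚ] ℚ) {d : ℕ}
    (g : MvPolynomial (Fin (d + 1)) ℚ →ₐ[ℚ] R) (hi : Function.Injective g)
    (hg : g.toRingHom.IsIntegral) (h0 : ∀ i, ev (g (X i)) = 0) :
    ∃ (K : Subfield ℂ) (u : ℂ) (W : ValuationSubring ℂ), Transcendental K u ∧
      (∀ x, IsAlgebraic (frA K u) (ι x)) ∧ (∀ c ∈ K, c ∈ W) ∧ u ∈ W.nonunits ∧
      ∀ x, ev x = 0 → ι x ∈ W.nonunits := by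
  have cc : ∀ c, ev (g c) = constantCoeff c := fun c => by
    induction c using MvPolynomial.induction_on with
    | C a => rw [constantCoeff_C, ← algebraMap_eq, g.commutes, ev.commutes]; rfl
    | add p q hp hq => simp [hp, hq]
    | mul_X p i hp => simp [h0]
  let y : Fin (d + 1) → ℂ := fun i => ι (g (X i))
  have hy : AlgebraicIndependent ℚ y := by
    rw [algebraicIndependent_iff_injective_aeval,
      show aeval y = ι.comp g from algHom_ext fun i => by simp [y]]
    exact hι.comp hi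
  let K := (IntermediateField.adjoin ℚ (Set.range fun i : Fin d => y i.succ / y 0)).toSubfield
  have ht : Transcendental K (y 0) := vz_tr hy
  have qA : ∀ a : ℚ, (a : ℂ) ∈ frA K (y 0) := fun a => fr_k (SubfieldClass.ratCast_mem K a)
  have L1 : ∀ c, ∃ a ∈ frA K (y 0), ι (g c) = (constantCoeff c : ℚ) + y 0 * a := fun c => by
    induction c using MvPolynomial.induction_on with
    | C a =>
      refine ⟨0, zero_mem _, ?_⟩
      rw [constantCoeff_C, ← algebraMap_eq, g.commutes, ι.commutes, mul_zero, add_zero]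
      rfl
    | add p q hp hq =>
      obtain ⟨a, ha, e⟩ := hp
      obtain ⟨b, hb, e'⟩ := hq
      exact ⟨a + b, add_mem ha hb, by simp only [map_add, e, e', Rat.cast_add]; ring⟩
    | mul_X p i hp =>
      obtain ⟨a, ha, e⟩ := hp
      have hb : y i / y 0 ∈ frA K (y 0) := by
        refine Fin.cases ?_ (fun i => fr_k (IntermediateField.subset_adjoin _ _ ⟨i, rfl⟩)) i
        rw [div_self (hy.ne_zero 0)]
        exact one_mem _
      refine ⟨ι (g p) * (y i / y 0), mul_mem (e ▸ add_mem (qA _) (mul_mem fr_t ha)) hb, ?_⟩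
      rw [mul_left_comm, mul_div_cancel₀ _ (hy.ne_zero 0)]
      simp [y]
  have hBA : ∀ c, ι (g c) ∈ frA K (y 0) := fun c => by
    obtain ⟨a, ha, e⟩ := L1 c
    exact e ▸ add_mem (qA _) (mul_mem fr_t ha)
  let _ := (ι.comp g).toRingHom.toAlgebra
  let _ := g.toRingHom.toAlgebra
  have : FaithfulSMul (MvPolynomial (Fin (d + 1)) ℚ) ℂ :=
    (faithfulSMul_iff_algebraMap_injective _ _).2 (hι.comp hi)
  have hom : ∀ (p : Polynomial (MvPolynomial (Fin (d + 1)) ℚ)) (x : R),
      ι (p.eval₂ g.toRingHom x) = Polynomial.aeval (ι x) p := fun p x =>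
    Polynomial.hom_eval₂ p g.toRingHom ι.toRingHom x
  have iB : ∀ x, IsIntegral (MvPolynomial (Fin (d + 1)) ℚ) (ι x) := fun x => by
    obtain ⟨p, m, e⟩ := hg x
    exact ⟨p, m, (hom p x).symm.trans (by rw [e, map_zero])⟩
  have iA : ∀ x, IsIntegral (frA K (y 0)) (ι x) := fun x => by
    obtain ⟨p, m, e⟩ := iB x
    refine ⟨p.map ((ι.comp g).toRingHom.codRestrict _ hBA), m.map _, ?_⟩
    rw [Polynomial.eval₂_map]
    exact e
  have hAF : ∀ L : Subfield ℂ, (∀ c, ι (g c) ∈ L) → ∀ a ∈ frA K (y 0), a ∈ L := by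
    rintro L hL a ⟨p, w, hw, e⟩
    have kL : K ≤ L := by
      refine (IntermediateField.adjoin_toSubfield _ _).trans_le (Subfield.closure_le.2 ?_)
      rintro _ (⟨a, rfl⟩ | ⟨i, rfl⟩)
      exacts [SubfieldClass.ratCast_mem L a, div_mem (hL _) (hL _)]
    have pL : ∀ f : Polynomial K, Polynomial.aeval (y 0) f ∈ L := fun f => by
      rw [Polynomial.aeval_eq_sum_range]
      exact sum_mem fun i _ => mul_mem (kL (f.coeff i).2) (pow_mem (hL _) i)
    rw [eq_div_of_mul_eq (fr_ne ht hw) e]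
    exact div_mem (pL _) (pL _)
  let S := (integralClosure (frA K (y 0)) ℂ).toSubring
  have AS : ∀ a ∈ frA K (y 0), a ∈ S := fun a ha =>
    isIntegral_algebraMap (x := (⟨a, ha⟩ : frA K (y 0)))
  let j : R →+* S := ι.toRingHom.codRestrict S iA
  have L3 : (Ideal.span {(⟨y 0, AS _ fr_t⟩ : S)}).comap j ≤ RingHom.ker ev := fun σ hσ => by
    obtain ⟨z, hz⟩ := Ideal.mem_span_singleton.1 hσ
    have e : ι σ = y 0 * z := congrArg Subtype.val hz
    have m := minpoly.monic (iB σ)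
    have e1 : (minpoly (MvPolynomial (Fin (d + 1)) ℚ) (ι σ)).map constantCoeff =
        Polynomial.X ^ (minpoly (MvPolynomial (Fin (d + 1)) ℚ) (ι σ)).natDegree := by
      refine Polynomial.ext fun i => ?_
      rw [Polynomial.coeff_map, Polynomial.coeff_X_pow]
      split_ifs with hi
      · rw [hi, m.coeff_natDegree, map_one]
      · by_contra hne
        have k := vz_key (B := MvPolynomial (Fin (d + 1)) ℚ) hBA hAF ⟨y 0, fr_t⟩ z.2 (e ▸ iB σ)
          (i := i) (e ▸ hi)
        obtain ⟨a, ha, e2⟩ := L1 ((minpoly (MvPolynomial (Fin (d + 1)) ℚ) (ι σ)).coeff i)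
        have k2 := sub_mem k (Ideal.le_radical (Ideal.mul_mem_right ⟨a, ha⟩ _
          (Ideal.mem_span_singleton_self _)))
        refine vz_unit ht (Ideal.span_singleton_eq_top.1 (Ideal.radical_eq_top.1
          (Ideal.eq_top_of_isUnit_mem _ k2 (.of_mul_eq_one ⟨_, qA (constantCoeff
            ((minpoly (MvPolynomial (Fin (d + 1)) ℚ) (ι σ)).coeff i))⁻¹⟩ (Subtype.ext ?_)))))
        change (ι (g ((minpoly (MvPolynomial (Fin (d + 1)) ℚ) (y 0 * z)).coeff i)) - y 0 * a) * _ = 1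
        rw [← e, e2, add_sub_cancel_right, ← Rat.cast_mul, mul_inv_cancel₀ hne, Rat.cast_one]
    have e2 := Polynomial.hom_eval₂ (minpoly (MvPolynomial (Fin (d + 1)) ℚ) (ι σ)) g.toRingHom
      ev.toRingHom σ
    rw [hι ((hom _ σ).trans ((minpoly.aeval _ _).trans (map_zero ι).symm)), map_zero,
      show ev.toRingHom.comp g.toRingHom = constantCoeff from RingHom.ext cc,
      Polynomial.eval₂_eq_eval_map, e1, Polynomial.eval_pow, Polynomial.eval_X] at e2
    exact (pow_eq_zero_iff (minpoly.natDegree_pos (iB σ)).ne').1 e2.symm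
  have := RingHom.ker_isPrime ev
  obtain ⟨Q, hle, hQ, hQ'⟩ := Ideal.exists_ideal_comap_le_prime _ _ L3
  obtain ⟨W, hW, hn⟩ := Ideal.image_subset_nonunits_valuationSubring Q hQ.ne_top
  refine ⟨K, y 0, W, ht, fun x => (iA x).isAlgebraic, fun c hc => hW (AS c (fr_k hc)),
    hn ⟨_, hle (Ideal.mem_span_singleton_self _), rfl⟩, fun x hx => hn ⟨j x, by_contra fun h =>
      (Ideal.comap_lt_comap_of_integral_mem_sdiff hQ' ⟨hx, h⟩ (hg x)).not_ge fun c hc => ?_, rfl⟩⟩
  obtain ⟨a, ha, e⟩ := L1 c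
  rw [← cc, show ev (g c) = 0 from hc, Rat.cast_zero, zero_add] at e
  exact hle (Ideal.mem_span_singleton.2 ⟨⟨a, AS a ha⟩, Subtype.ext e⟩)

theorem van_base {r : ℕ} (hr : r ≠ 0) (x : Fin r → ℂ) (hx : ∀ j, x j ≠ 0)
    (h : ∀ f : MvPolynomial (Fin r) ℚ, MvPolynomial.aeval x f = 0 →
      MvPolynomial.constantCoeff f = 0) :
    ∃ (K : Subfield ℂ) (u : ℂ) (W : ValuationSubring ℂ), Transcendental K u ∧
      (∀ j, IsAlgebraic (frA K u) (x j)) ∧ (∀ c ∈ K, c ∈ W) ∧ u⁻¹ ∉ W ∧ ∀ j, (x j)⁻¹ ∉ W := by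
  let φ : MvPolynomial (Fin r) ℚ →ₐ[ℚ] ℂ := MvPolynomial.aeval x
  have := Algebra.FiniteType.of_surjective φ.rangeRestrict φ.rangeRestrict_surjective
  let ev := AlgHom.liftOfSurjective φ.rangeRestrict φ.rangeRestrict_surjective
    (MvPolynomial.aeval fun _ => (0 : ℚ)) fun f hf => by
      have := h f (congrArg Subtype.val hf)
      simpa [RingHom.mem_ker] using this
  have e : ∀ j, φ.range.val (φ.rangeRestrict (.X j)) = x j := fun j => MvPolynomial.aeval_X x j
  have e0 : ∀ j, ev (φ.rangeRestrict (.X j)) = 0 := fun j => by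
    rw [AlgHom.liftOfSurjective_apply, MvPolynomial.aeval_X]
  obtain ⟨d, g, hi, hg, h0⟩ := vz_noe ev (x := φ.rangeRestrict (.X ⟨0, Nat.pos_of_ne_zero hr⟩))
    (fun e1 => hx _ (by rw [← e, e1, map_zero])) (e0 _)
  obtain ⟨K, u, W, ht, h1, h2, h3, h4⟩ := vz_main φ.range.val Subtype.val_injective ev g hi hg h0
  exact ⟨K, u, W, ht, fun j => e j ▸ h1 _, h2,
    (W.mem_nonunits_iff_or.1 h3).resolve_left fun e1 => ht (e1 ▸ isAlgebraic_zero),
    fun j => (W.mem_nonunits_iff_or.1 (e j ▸ h4 _ (e0 j))).resolve_left (hx j)⟩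

end Pool.Agent.Lib.MP_815ef6_nt.Ch
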